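import Pool.Agent.helper41.DG.Defs

/-! # Products of trigonometric polynomials with disjoint sets of moduli -/

set_option autoImplicit false

open Finset

namespace Pool.Agent.DG

theorem ec_add (s t : ℝ) : ec (s + t) = ec s * ec t := by
  unfold ec
  rw [← Complex.exp_add]
  congr 1
  push_cast
  ring

theorem ec_zero : ec 0 = 1 := by
  unfold ec
  simp

theorem norm_ec (t : ℝ) : ‖ec t‖ = 1 := by
  unfold ec
  have h : (2 * (Real.pi : ℂ) * Complex.I * (t : ℂ)) = ((2 * Real.pi * t : ℝ) : ℂ) * Complex.I := by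
    push_cast
    ring
  rw [h]
  exact Complex.norm_exp_ofReal_mul_I _

theorem ec_int (n : ℤ) : ec (n : ℝ) = 1 := by
  unfold ec
  rw [Complex.exp_eq_one_iff]
  exact ⟨n, by push_cast; ring⟩

theorem ec_neg (t : ℝ) : ec (-t) = (starRingEnd ℂ) (ec t) := by
  unfold ec
  rw [← Complex.exp_conj]
  congr 1
  rw [map_mul, map_mul, map_mul, Complex.conj_ofReal, Complex.conj_ofReal, Complex.conj_I]
  have h2 : (starRingEnd ℂ) 2 = 2 := Complex.conj_ofReal 2
  rw [h2]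
  push_cast
  ring

theorem mem_Fr {P : Finset ℕ} {k : ℕ →₀ ℕ × ℕ} :
    k ∈ Fr P ↔ k.support ⊆ P ∧ ∀ p ∈ P, (k p).1 < p ∧ (k p).2 < p := by
  unfold Fr
  rw [Finset.mem_finsupp_iff]
  simp only [mem_product, mem_range]

theorem zero_mem_Fr {P : Finset ℕ} (hP : ∀ p ∈ P, p.Prime) : (0 : ℕ →₀ ℕ × ℕ) ∈ Fr P := by
  rw [mem_Fr]
  refine ⟨by simp, fun p hp => ?_⟩
  have := (hP p hp).pos
  simpa using this

theorem pr_zero (v : ℤ × ℤ) : pr 0 v = 0 := by
  unfold pr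
  exact Finsupp.sum_zero_index

theorem pr_add (k l : ℕ →₀ ℕ × ℕ) (v : ℤ × ℤ) : pr (k + l) v = pr k v + pr l v := by
  unfold pr
  refine Finsupp.sum_add_index' ?_ ?_
  · intro p
    simp
  · intro p a b
    simp only [Prod.fst_add, Prod.snd_add, Nat.cast_add]
    ring

theorem pr_sub (k : ℕ →₀ ℕ × ℕ) (v u : ℤ × ℤ) : pr k (v - u) = pr k v - pr k u := by
  unfold pr Finsupp.sum
  rw [← Finset.sum_sub_distrib]
  refine Finset.sum_congr rfl fun p _ => ?_
  simp only [Prod.fst_sub, Prod.snd_sub, Int.cast_sub]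
  ring

/-- the part of a frequency with moduli in `P` -/
noncomputable def prt (P : Finset ℕ) (k : ℕ →₀ ℕ × ℕ) : ℕ →₀ ℕ × ℕ := k.filter (fun p => p ∈ P)

theorem prt_apply_mem {P : Finset ℕ} {k : ℕ →₀ ℕ × ℕ} {p : ℕ} (hp : p ∈ P) : prt P k p = k p :=
  Finsupp.filter_apply_pos _ _ hp

theorem prt_apply_not {P : Finset ℕ} {k : ℕ →₀ ℕ × ℕ} {p : ℕ} (hp : p ∉ P) : prt P k p = 0 :=
  Finsupp.filter_apply_neg _ _ hp

theorem Fr_apply_not {P : Finset ℕ} {k : ℕ →₀ ℕ × ℕ} (hk : k ∈ Fr P) {p : ℕ} (hp : p ∉ P) :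
    k p = 0 := by
  by_contra h
  exact hp ((mem_Fr.1 hk).1 (Finsupp.mem_support_iff.2 h))

theorem prt_add_left {P Q : Finset ℕ} (hPQ : Disjoint P Q) {k l : ℕ →₀ ℕ × ℕ} (hk : k ∈ Fr P)
    (hl : l ∈ Fr Q) : prt P (k + l) = k := by
  ext1 p
  by_cases hp : p ∈ P
  · rw [prt_apply_mem hp, Finsupp.add_apply, Fr_apply_not hl (Finset.disjoint_left.1 hPQ hp), add_zero]
  · rw [prt_apply_not hp, Fr_apply_not hk hp]

theorem prt_add_right {P Q : Finset ℕ} (hPQ : Disjoint P Q) {k l : ℕ →₀ ℕ × ℕ} (hk : k ∈ Fr P)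
    (hl : l ∈ Fr Q) : prt Q (k + l) = l := by
  rw [add_comm]
  exact prt_add_left hPQ.symm hl hk

theorem prt_mem {P Q : Finset ℕ} {k : ℕ →₀ ℕ × ℕ} (hk : k ∈ Fr (P ∪ Q)) : prt P k ∈ Fr P := by
  rw [mem_Fr] at hk ⊢
  refine ⟨fun p hp => ?_, fun p hp => ?_⟩
  · by_contra h
    exact (Finsupp.mem_support_iff.1 hp) (prt_apply_not h)
  · rw [prt_apply_mem hp]
    exact hk.2 p (Finset.mem_union_left _ hp)

theorem prt_add_prt {P Q : Finset ℕ} (hPQ : Disjoint P Q) {k : ℕ →₀ ℕ × ℕ} (hk : k ∈ Fr (P ∪ Q)) :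
    prt P k + prt Q k = k := by
  ext1 p
  rw [Finsupp.add_apply]
  by_cases hp : p ∈ P
  · rw [prt_apply_mem hp, prt_apply_not (Finset.disjoint_left.1 hPQ hp), add_zero]
  · rw [prt_apply_not hp, zero_add]
    by_cases hq : p ∈ Q
    · rw [prt_apply_mem hq]
    · rw [prt_apply_not hq, Fr_apply_not hk]
      intro h
      rcases Finset.mem_union.1 h with h | h
      · exact hp h
      · exact hq h

theorem prt_mem_right {P Q : Finset ℕ} {k : ℕ →₀ ℕ × ℕ} (hk : k ∈ Fr (P ∪ Q)) :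
    prt Q k ∈ Fr Q := by
  rw [Finset.union_comm] at hk
  exact prt_mem hk

theorem add_mem_Fr {P Q : Finset ℕ} (hPQ : Disjoint P Q) {k l : ℕ →₀ ℕ × ℕ} (hk : k ∈ Fr P)
    (hl : l ∈ Fr Q) : k + l ∈ Fr (P ∪ Q) := by
  have hk' := mem_Fr.1 hk
  have hl' := mem_Fr.1 hl
  rw [mem_Fr]
  refine ⟨fun p hp => ?_, fun p hp => ?_⟩
  · by_contra h
    rw [Finset.mem_union, not_or] at h
    apply Finsupp.mem_support_iff.1 hp
    rw [Finsupp.add_apply, Fr_apply_not hk h.1, Fr_apply_not hl h.2, add_zero]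
  · rw [Finsupp.add_apply]
    rcases Finset.mem_union.1 hp with h | h
    · rw [Fr_apply_not hl (Finset.disjoint_left.1 hPQ h), add_zero]
      exact hk'.2 p h
    · rw [Fr_apply_not hk (Finset.disjoint_right.1 hPQ h), zero_add]
      exact hl'.2 p h

/-- the frequencies of a disjoint union -/
theorem sum_Fr_union {P Q : Finset ℕ} (hPQ : Disjoint P Q) (f : (ℕ →₀ ℕ × ℕ) → ℂ) :
    ∑ k ∈ Fr (P ∪ Q), f k = ∑ k ∈ Fr P, ∑ l ∈ Fr Q, f (k + l) := by
  rw [← Finset.sum_product' (Fr P) (Fr Q) (fun k l => f (k + l))]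
  refine Finset.sum_nbij' (fun k => (prt P k, prt Q k)) (fun x => x.1 + x.2) ?_ ?_ ?_ ?_ ?_
  · intro k hk
    exact Finset.mem_product.2 ⟨prt_mem hk, prt_mem_right hk⟩
  · intro x hx
    exact add_mem_Fr hPQ (Finset.mem_product.1 hx).1 (Finset.mem_product.1 hx).2
  · intro k hk
    exact prt_add_prt hPQ hk
  · intro x hx
    have h := Finset.mem_product.1 hx
    exact Prod.ext (prt_add_left hPQ h.1 h.2) (prt_add_right hPQ h.1 h.2)
  · intro k hk
    show f k = f (prt P k + prt Q k)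
    rw [prt_add_prt hPQ hk]

theorem md_add {P Q : Finset ℕ} (hPQ : Disjoint P Q) {k l : ℕ →₀ ℕ × ℕ} (hk : k ∈ Fr P)
    (hl : l ∈ Fr Q) : md (k + l) = md k * md l := by
  have hd : Disjoint k.support l.support :=
    Finset.disjoint_of_subset_left (mem_Fr.1 hk).1 (Finset.disjoint_of_subset_right (mem_Fr.1 hl).1 hPQ)
  unfold md
  rw [Finsupp.support_add_eq hd, Finset.prod_union hd]

/-- the product of two trigonometric polynomials with disjoint sets of moduli: the coefficients -/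
theorem TP_mul_expand {P Q : Finset ℕ} (hPQ : Disjoint P Q) {Φ Ψ : ℤ × ℤ → ℝ}
    {c d : (ℕ →₀ ℕ × ℕ) → ℂ} (hΦ : ∀ v, ((Φ v : ℝ) : ℂ) = ∑ k ∈ Fr P, c k * ec (pr k v))
    (hΨ : ∀ v, ((Ψ v : ℝ) : ℂ) = ∑ k ∈ Fr Q, d k * ec (pr k v)) (v : ℤ × ℤ) :
    ((Φ v * Ψ v : ℝ) : ℂ) = ∑ k ∈ Fr (P ∪ Q), c (prt P k) * d (prt Q k) * ec (pr k v) := by
  rw [Complex.ofReal_mul, hΦ v, hΨ v, sum_Fr_union hPQ, Finset.sum_mul_sum]
  refine Finset.sum_congr rfl fun k hk => Finset.sum_congr rfl fun l hl => ?_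
  rw [prt_add_left hPQ hk hl, prt_add_right hPQ hk hl, pr_add, ec_add]
  ring

theorem pr_single (q : ℕ) (a : ℕ × ℕ) (v : ℤ × ℤ) :
    pr (Finsupp.single q a) v = ((a.1 : ℝ) * (v.1 : ℝ) + (a.2 : ℝ) * (v.2 : ℝ)) / (q : ℝ) := by
  unfold pr
  rw [Finsupp.sum_single_index]
  simp

theorem sum_Fr_single (q : ℕ) (f : (ℕ →₀ ℕ × ℕ) → ℂ) :
    ∑ k ∈ Fr {q}, f k = ∑ a ∈ range q ×ˢ range q, f (Finsupp.single q a) := by
  symm
  refine Finset.sum_nbij' (fun a => Finsupp.single q a) (fun k => k q) ?_ ?_ ?_ ?_ ?_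
  · intro a ha
    rw [mem_Fr]
    refine ⟨Finsupp.support_single_subset, fun p hp => ?_⟩
    rw [Finset.mem_singleton] at hp
    subst hp
    rw [Finsupp.single_eq_same]
    simpa using ha
  · intro k hk
    have h := (mem_Fr.1 hk).2 q (Finset.mem_singleton_self q)
    simpa using h
  · intro a _
    exact Finsupp.single_eq_same
  · intro k hk
    ext1 p
    by_cases hp : p = q
    · subst hp
      exact Finsupp.single_eq_same
    · rw [Finsupp.single_eq_of_ne hp, Fr_apply_not hk (by simpa using hp)]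
  · intro a _
    rfl

theorem Fr_empty : Fr ∅ = {0} := by
  ext k
  rw [mem_Fr, Finset.mem_singleton]
  constructor
  · rintro ⟨h, -⟩
    exact Finsupp.support_eq_empty.1 (Finset.subset_empty.1 h)
  · rintro rfl
    simp

/-- the product of indicators of a set of primes -/
theorem prod_expand {P : Finset ℕ} {B : ℕ → ℤ × ℤ → ℝ} {b : ℕ → ℕ × ℕ → ℂ} {β : ℕ → ℝ}
    (hL : Loc P B b β) (v : ℤ × ℤ) :
    ((∏ p ∈ P, B p v : ℝ) : ℂ) = ∑ k ∈ Fr P, (∏ p ∈ P, b p (k p)) * ec (pr k v) := by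
  have key : ∀ Q : Finset ℕ, Q ⊆ P →
      ((∏ p ∈ Q, B p v : ℝ) : ℂ) = ∑ k ∈ Fr Q, (∏ p ∈ Q, b p (k p)) * ec (pr k v) := by
    intro Q
    induction Q using Finset.induction_on with
    | empty =>
      intro _
      rw [Fr_empty]
      simp [pr_zero, ec_zero]
    | insert q Q hq ih =>
      intro hQ
      have hQP : Q ⊆ P := fun x hx => hQ (Finset.mem_insert_of_mem hx)
      have hqP : q ∈ P := hQ (Finset.mem_insert_self q Q)
      have hdis : Disjoint ({q} : Finset ℕ) Q := Finset.disjoint_singleton_left.2 hq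
      rw [Finset.prod_insert hq, Complex.ofReal_mul, ih hQP, hL.expand q hqP v, Finset.insert_eq,
        sum_Fr_union hdis, sum_Fr_single, Finset.sum_mul_sum]
      refine Finset.sum_congr rfl fun a ha => Finset.sum_congr rfl fun l hl => ?_
      have h1 : (Finsupp.single q a + l) q = a := by
        rw [Finsupp.add_apply, Finsupp.single_eq_same, Fr_apply_not hl hq, add_zero]
      have h2 : ∀ p ∈ Q, (Finsupp.single q a + l) p = l p := by
        intro p hp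
        have hpq : p ≠ q := fun h => hq (h ▸ hp)
        rw [Finsupp.add_apply, Finsupp.single_eq_of_ne hpq, zero_add]
      have h3 : ∏ p ∈ Q, b p ((Finsupp.single q a + l) p) = ∏ p ∈ Q, b p (l p) :=
        Finset.prod_congr rfl (fun p hp => by rw [h2 p hp])
      rw [← Finset.insert_eq, Finset.prod_insert hq, h1, h3, pr_add, ec_add, pr_single]
      ring
  exact key P (Finset.Subset.refl P)

end Pool.Agent.DG
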