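import Pool.Agent.helper41.DG.Bonf
import Pool.Agent.helper41.DG.Union

/-! # One block of primes -/

set_option autoImplicit false

open Finset

namespace Pool.Agent.DG

/-- the function of one block: truncated inclusion-exclusion of order `2 r` -/
noncomputable def yf (P : Finset ℕ) (B : ℕ → ℤ × ℤ → ℝ) (r : ℕ) (v : ℤ × ℤ) : ℝ :=
  ∑ s ∈ P.powerset.filter (fun s => s.card ≤ 2 * r), ∏ p ∈ s, (-((1 / 2) * B p v))

/-- the error function of one block -/
noncomputable def ef (P : Finset ℕ) (B : ℕ → ℤ × ℤ → ℝ) (r : ℕ) (v : ℤ × ℤ) : ℝ :=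
  ∑ s ∈ P.powersetCard (2 * r + 1), ∏ p ∈ s, ((1 / 2) * B p v)

theorem blk_mono {P Q : Finset ℕ} {B : ℕ → ℤ × ℤ → ℝ} {b : ℕ → ℕ × ℕ → ℂ} {β : ℕ → ℝ}
    (hL : Loc P B b β) (hQ : Q ⊆ P) : Loc Q B b β :=
  ⟨fun p hp => hL.prime p (hQ hp), fun p hp => hL.nonneg p (hQ hp),
    fun p hp => hL.le_one p (hQ hp), fun p hp => hL.expand p (hQ hp),
    fun p hp => hL.mean p (hQ hp), fun p hp => hL.mean_nonneg p (hQ hp),
    fun p hp => hL.mean_le p (hQ hp), fun p hp => hL.small p (hQ hp)⟩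

theorem blk_Fr {P s : Finset ℕ} (hP : ∀ p ∈ P, p.Prime) (hs : s ⊆ P) :
    Fr s = (Fr P).filter (fun k => k.support ⊆ s) := by
  ext k
  rw [mem_filter, mem_Fr, mem_Fr]
  constructor
  · rintro ⟨h1, h2⟩
    refine ⟨⟨h1.trans hs, fun p hp => ?_⟩, h1⟩
    by_cases hps : p ∈ s
    · exact h2 p hps
    · have h3 : k p = 0 := Finsupp.notMem_support_iff.1 (fun h => hps (h1 h))
      rw [h3]
      exact ⟨(hP p hp).pos, (hP p hp).pos⟩
  · rintro ⟨⟨-, h2⟩, h3⟩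
    exact ⟨h3, fun p hp => h2 p (hs hp)⟩

theorem blk_one {s : Finset ℕ} {B : ℕ → ℤ × ℤ → ℝ} {b : ℕ → ℕ × ℕ → ℂ} {β : ℕ → ℝ}
    (hL : Loc s B b β) (κ : ℝ) (v : ℤ × ℤ) :
    ((∏ p ∈ s, (κ * B p v) : ℝ) : ℂ) =
      ∑ k ∈ Fr s, (∏ p ∈ s, ((κ : ℂ) * b p (k p))) * ec (pr k v) := by
  have h := prod_expand hL v
  rw [Finset.prod_mul_distrib, Finset.prod_const, Complex.ofReal_mul, h, Finset.mul_sum]
  refine Finset.sum_congr rfl fun k _ => ?_
  rw [Finset.prod_mul_distrib, Finset.prod_const, Complex.ofReal_pow]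
  ring

/-- the bound for the coefficients -/
theorem blk_bound {P T : Finset ℕ} (hTP : T ⊆ P) (hT : T.Nonempty) (u : ℕ → ℝ)
    (hu0 : ∀ p ∈ P, 0 ≤ u p) {w : ℝ} (hw0 : 1 ≤ w) (hu1 : ∀ p ∈ T, u p ≤ 1 / (2 * w))
    (hu2 : ∑ p ∈ P, u p ≤ 2 / 5) :
    ∑ s ∈ P.powerset.filter (fun s => T ⊆ s), ∏ p ∈ s, u p ≤ 1 / w := by
  have hw : 0 < w := by linarith
  have h1 : ∑ s ∈ P.powerset.filter (fun s => T ⊆ s), ∏ p ∈ s, u p =
      ∑ s ∈ (P \ T).powerset, (∏ p ∈ T, u p) * ∏ p ∈ s, u p := by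
    refine Finset.sum_nbij' (fun s => s \ T) (fun s => s ∪ T) ?_ ?_ ?_ ?_ ?_
    · intro s hs
      rw [mem_filter, mem_powerset] at hs
      rw [mem_powerset]
      exact Finset.sdiff_subset_sdiff hs.1 (le_refl T)
    · intro s hs
      rw [mem_powerset] at hs
      rw [mem_filter, mem_powerset]
      exact ⟨Finset.union_subset (hs.trans Finset.sdiff_subset) hTP, Finset.subset_union_right⟩
    · intro s hs
      rw [mem_filter, mem_powerset] at hs
      exact Finset.sdiff_union_of_subset hs.2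
    · intro s hs
      rw [mem_powerset] at hs
      have h2 : Disjoint s T :=
        Finset.disjoint_of_subset_left hs Finset.sdiff_disjoint
      show (s ∪ T) \ T = s
      rw [Finset.union_sdiff_right]
      exact Finset.sdiff_eq_self_of_disjoint h2
    · intro s hs
      rw [mem_filter, mem_powerset] at hs
      rw [mul_comm]
      exact (Finset.prod_sdiff hs.2).symm
  rw [h1, ← Finset.mul_sum]
  obtain ⟨q, hq⟩ := hT
  have h3 : ∏ p ∈ T, u p ≤ 1 / (2 * w) := by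
    rw [← Finset.mul_prod_erase T u hq]
    have h4 : ∏ p ∈ T.erase q, u p ≤ 1 := by
      refine Finset.prod_le_one (fun p hp => hu0 p (hTP (Finset.mem_of_mem_erase hp)))
        (fun p hp => (hu1 p (Finset.mem_of_mem_erase hp)).trans ?_)
      rw [div_le_one (by positivity)]
      linarith
    have h5 : 0 ≤ u q := hu0 q (hTP hq)
    calc u q * ∏ p ∈ T.erase q, u p ≤ u q * 1 := mul_le_mul_of_nonneg_left h4 h5
      _ ≤ 1 / (2 * w) := by rw [mul_one]; exact hu1 q hq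
  have h6 : ∑ s ∈ (P \ T).powerset, ∏ p ∈ s, u p ≤ 5 / 3 := by
    have h7 := sum_powerset_prod_le (P \ T) u (fun p hp => hu0 p (Finset.sdiff_subset hp))
    have h8 : ∑ p ∈ P \ T, u p ≤ 2 / 5 :=
      (Finset.sum_le_sum_of_subset_of_nonneg Finset.sdiff_subset
        (fun p hp _ => hu0 p hp)).trans hu2
    have h9 : Real.exp (∑ p ∈ P \ T, u p) ≤ Real.exp (2 / 5) := Real.exp_le_exp.2 h8
    have h10 : Real.exp (2 / 5) ≤ 5 / 3 := by
      have h11 := Real.add_one_le_exp (-(2 / 5) : ℝ)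
      have h12 : Real.exp (2 / 5) * Real.exp (-(2 / 5)) = 1 := by
        rw [← Real.exp_add]; norm_num
      have h13 := Real.exp_pos (2 / 5 : ℝ)
      nlinarith
    linarith
  have h14 : 0 ≤ ∑ s ∈ (P \ T).powerset, ∏ p ∈ s, u p :=
    Finset.sum_nonneg fun s hs => Finset.prod_nonneg fun p hp =>
      hu0 p (Finset.sdiff_subset (Finset.mem_powerset.1 hs hp))
  calc (∏ p ∈ T, u p) * ∑ s ∈ (P \ T).powerset, ∏ p ∈ s, u p
      ≤ 1 / (2 * w) * (5 / 3) := by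
        apply mul_le_mul h3 h6 h14
        positivity
    _ ≤ 1 / w := by
        rw [div_mul_eq_mul_div, div_le_div_iff₀ (by positivity) hw]
        nlinarith

theorem blk_gen {P : Finset ℕ} {B : ℕ → ℤ × ℤ → ℝ} {b : ℕ → ℕ × ℕ → ℂ} {β : ℕ → ℝ}
    (hL : Loc P B b β) {w z : ℝ} (hw0 : 1 ≤ w) (hz1 : 1 ≤ z) (hw : ∀ p ∈ P, w < (p : ℝ))
    (hz : ∀ p ∈ P, (p : ℝ) ≤ z) (hs : ∑ p ∈ P, 1 / (p : ℝ) ≤ 2 / 5) (r : ℕ)
    (S : Finset (Finset ℕ)) (hS : ∀ s ∈ S, s ⊆ P ∧ s.card ≤ 2 * r + 1) (κ : ℝ)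
    (hκ : |κ| = 1 / 2) :
    TP P (fun v => ∑ s ∈ S, ∏ p ∈ s, (κ * B p v))
      (fun k => ∑ s ∈ S.filter (fun s => k.support ⊆ s), ∏ p ∈ s, ((κ : ℂ) * b p (k p)))
      (∑ s ∈ S, ∏ p ∈ s, (κ * β p)) (1 / w) (z ^ (2 * r + 1)) := by
  refine ⟨?_, ?_, ?_, ?_⟩
  · intro v
    show ((∑ s ∈ S, ∏ p ∈ s, (κ * B p v) : ℝ) : ℂ) = _
    rw [Complex.ofReal_sum]
    have h1 : ∀ s ∈ S, ((∏ p ∈ s, (κ * B p v) : ℝ) : ℂ) =
        ∑ k ∈ Fr P, if k.support ⊆ s then (∏ p ∈ s, ((κ : ℂ) * b p (k p))) * ec (pr k v)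
          else 0 := by
      intro s hs'
      rw [blk_one (blk_mono hL (hS s hs').1) κ v, blk_Fr hL.prime (hS s hs').1,
        Finset.sum_filter]
    rw [Finset.sum_congr rfl h1, Finset.sum_comm]
    refine Finset.sum_congr rfl fun k _ => ?_
    rw [← Finset.sum_filter, Finset.sum_mul]
  · show ∑ s ∈ S.filter (fun s => (0 : ℕ →₀ ℕ × ℕ).support ⊆ s),
      ∏ p ∈ s, ((κ : ℂ) * b p ((0 : ℕ →₀ ℕ × ℕ) p)) = _
    have h2 : S.filter (fun s => (0 : ℕ →₀ ℕ × ℕ).support ⊆ s) = S := by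
      refine Finset.filter_true_of_mem fun s _ => ?_
      rw [Finsupp.support_zero]
      exact Finset.empty_subset s
    rw [h2, Complex.ofReal_sum]
    refine Finset.sum_congr rfl fun s hs' => ?_
    rw [Complex.ofReal_prod]
    refine Finset.prod_congr rfl fun p hp => ?_
    rw [Finsupp.zero_apply, Complex.ofReal_mul, ← hL.mean p ((hS s hs').1 hp)]
    rfl
  · intro k hk hk0
    have hk' := mem_Fr.1 hk
    show ‖∑ s ∈ S.filter (fun s => k.support ⊆ s), ∏ p ∈ s, ((κ : ℂ) * b p (k p))‖ ≤ 1 / w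
    set u : ℕ → ℝ := fun p => (1 / 2) * ‖b p (k p)‖ with hu
    have hu0 : ∀ p ∈ P, 0 ≤ u p := fun p _ => by simp only [hu]; positivity
    have hcoef : ∀ p ∈ P, p ∈ k.support → ‖b p (k p)‖ ≤ 1 / (p : ℝ) := by
      intro p hp hps
      refine hL.small p hp (k p) ?_ ?_
      · rw [mem_product, mem_range, mem_range]
        exact hk'.2 p hp
      · intro h
        exact (Finsupp.mem_support_iff.1 hps) h
    have hup : ∀ p ∈ P, u p ≤ 1 / (p : ℝ) := by
      intro p hp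
      have hpp : (0 : ℝ) < p := by exact_mod_cast (hL.prime p hp).pos
      by_cases hps : p ∈ k.support
      · have h3 := hcoef p hp hps
        have h4 : (0 : ℝ) ≤ ‖b p (k p)‖ := norm_nonneg _
        simp only [hu]
        linarith
      · have h3 : k p = (0, 0) := Finsupp.notMem_support_iff.1 hps
        simp only [hu]
        rw [h3, hL.mean p hp, Complex.norm_real, Real.norm_eq_abs,
          abs_of_nonneg (hL.mean_nonneg p hp)]
        have h4 := hL.mean_le p hp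
        have h5 : 2 / (p : ℝ) = 2 * (1 / (p : ℝ)) := by ring
        rw [h5] at h4
        linarith
    have hsum : ∑ p ∈ P, u p ≤ 2 / 5 := (Finset.sum_le_sum hup).trans hs
    have hu1 : ∀ p ∈ k.support, u p ≤ 1 / (2 * w) := by
      intro p hps
      have hp : p ∈ P := hk'.1 hps
      have h3 := hcoef p hp hps
      have hw' : 0 < w := by linarith
      have h4 : 1 / (p : ℝ) ≤ 1 / w := one_div_le_one_div_of_le hw' (hw p hp).le
      have h5 : 1 / (2 * w) = (1 / 2) * (1 / w) := by ring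
      rw [h5]
      simp only [hu]
      linarith
    have hne : k.support.Nonempty := Finsupp.support_nonempty_iff.2 hk0
    refine le_trans ?_ (blk_bound hk'.1 hne u hu0 hw0 hu1 hsum)
    refine (norm_sum_le _ _).trans ?_
    have h6 : ∀ s ∈ S.filter (fun s => k.support ⊆ s),
        ‖∏ p ∈ s, ((κ : ℂ) * b p (k p))‖ = ∏ p ∈ s, u p := by
      intro s _
      rw [norm_prod]
      refine Finset.prod_congr rfl fun p _ => ?_
      rw [norm_mul, Complex.norm_real, Real.norm_eq_abs, hκ]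
    rw [Finset.sum_congr rfl h6]
    refine Finset.sum_le_sum_of_subset_of_nonneg ?_ ?_
    · intro s hs'
      rw [mem_filter] at hs'
      rw [mem_filter, mem_powerset]
      exact ⟨(hS s hs'.1).1, hs'.2⟩
    · intro s hs' _
      rw [mem_filter, mem_powerset] at hs'
      exact Finset.prod_nonneg fun p hp => hu0 p (hs'.1 hp)
  · intro k hk hne
    have hk' := mem_Fr.1 hk
    obtain ⟨s, hs', -⟩ := Finset.exists_ne_zero_of_sum_ne_zero hne
    rw [mem_filter] at hs'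
    have h7 : k.support.card ≤ 2 * r + 1 := (Finset.card_le_card hs'.2).trans (hS s hs'.1).2
    have h8 : ((md k : ℕ) : ℝ) ≤ z ^ k.support.card := by
      rw [md, Nat.cast_prod]
      refine (Finset.prod_le_prod (fun p _ => Nat.cast_nonneg p)
        (fun p hp => hz p (hk'.1 hp))).trans ?_
      rw [Finset.prod_const]
    exact h8.trans (pow_le_pow_right₀ hz1 h7)

theorem block {P : Finset ℕ} {B : ℕ → ℤ × ℤ → ℝ} {b : ℕ → ℕ × ℕ → ℂ} {β : ℕ → ℝ}
    (hL : Loc P B b β) {w z : ℝ} (hw0 : 1 ≤ w) (hz1 : 1 ≤ z) (hw : ∀ p ∈ P, w < (p : ℝ))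
    (hz : ∀ p ∈ P, (p : ℝ) ≤ z) (hs : ∑ p ∈ P, 1 / (p : ℝ) ≤ 2 / 5) (r : ℕ) :
    ∃ (cy ce : (ℕ →₀ ℕ × ℕ) → ℂ) (Y Z : ℝ),
      TP P (yf P B r) cy Y (1 / w) (z ^ (2 * r + 1)) ∧
      TP P (ef P B r) ce Z (1 / w) (z ^ (2 * r + 1)) ∧
      (∏ p ∈ P, (1 - 1 / (p : ℝ)) ≤ Y) ∧ 3 / 5 ≤ Y ∧ 0 ≤ Z ∧
      Z ≤ (2 / 5) ^ (2 * r + 1) / ((2 * r + 1).factorial : ℝ) ∧ (r = 0 → Y = 1) ∧
      (∀ v, ∏ p ∈ P, (1 - (1 / 2) * B p v) ≤ yf P B r v) ∧
      (∀ v, yf P B r v - ∏ p ∈ P, (1 - (1 / 2) * B p v) ≤ ef P B r v) := by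
  have hyf : yf P B r = fun v => ∑ s ∈ P.powerset.filter (fun s => s.card ≤ 2 * r),
      ∏ p ∈ s, ((-(1 / 2)) * B p v) := by
    funext v
    simp only [yf, neg_mul]
  have hef : ef P B r = fun v => ∑ s ∈ P.powersetCard (2 * r + 1),
      ∏ p ∈ s, ((1 / 2) * B p v) := by
    funext v
    rfl
  have hS1 : ∀ s ∈ P.powerset.filter (fun s => s.card ≤ 2 * r), s ⊆ P ∧ s.card ≤ 2 * r + 1 := by
    intro s hs'
    rw [mem_filter, mem_powerset] at hs'
    exact ⟨hs'.1, by omega⟩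
  have hS2 : ∀ s ∈ P.powersetCard (2 * r + 1), s ⊆ P ∧ s.card ≤ 2 * r + 1 := by
    intro s hs'
    rw [mem_powersetCard] at hs'
    exact ⟨hs'.1, by omega⟩
  have hpos : ∀ p ∈ P, (0 : ℝ) < p := fun p hp => by exact_mod_cast (hL.prime p hp).pos
  have hβ0 : ∀ p ∈ P, 0 ≤ (1 / 2) * β p := fun p hp => by
    have := hL.mean_nonneg p hp
    linarith
  have hβ1 : ∀ p ∈ P, (1 / 2) * β p ≤ 1 / (p : ℝ) := fun p hp => by
    have h4 := hL.mean_le p hp
    have h5 : 2 / (p : ℝ) = 2 * (1 / (p : ℝ)) := by ring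
    rw [h5] at h4
    linarith
  have hp1 : ∀ p ∈ P, 1 / (p : ℝ) ≤ 1 := fun p hp => by
    rw [div_le_one (hpos p hp)]
    exact_mod_cast (hL.prime p hp).one_lt.le
  have hβ2 : ∀ p ∈ P, (1 / 2) * β p ≤ 1 := fun p hp => (hβ1 p hp).trans (hp1 p hp)
  have hβs : ∑ p ∈ P, (1 / 2) * β p ≤ 2 / 5 := (Finset.sum_le_sum hβ1).trans hs
  have hprod : ∏ p ∈ P, (1 - 1 / (p : ℝ)) ≤ ∏ p ∈ P, (1 - (1 / 2) * β p) := by
    refine Finset.prod_le_prod (fun p hp => ?_) (fun p hp => ?_)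
    · have := hp1 p hp
      linarith
    · have := hβ1 p hp
      linarith
  have h35 : (3 / 5 : ℝ) ≤ ∏ p ∈ P, (1 - 1 / (p : ℝ)) := by
    have h := one_sub_sum_le_prod P (fun p => 1 / (p : ℝ))
      (fun p hp => (div_pos one_pos (hpos p hp)).le) hp1
    linarith
  have hY : ∏ p ∈ P, (1 - 1 / (p : ℝ)) ≤
      ∑ s ∈ P.powerset.filter (fun s => s.card ≤ 2 * r), ∏ p ∈ s, ((-(1 / 2)) * β p) := by
    have h := bonf_upper P (fun p => (1 / 2) * β p) hβ0 hβ2 r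
    simp only [neg_mul]
    exact hprod.trans h
  have hTP1 := blk_gen hL hw0 hz1 hw hz hs r _ hS1 (-(1 / 2)) (by
    rw [abs_neg, abs_of_nonneg] <;> norm_num)
  have hTP2 := blk_gen hL hw0 hz1 hw hz hs r _ hS2 (1 / 2) (by
    rw [abs_of_nonneg]; norm_num)
  rw [← hyf] at hTP1
  rw [← hef] at hTP2
  refine ⟨_, _, _, _, hTP1, hTP2, hY, h35.trans hY, ?_, ?_, ?_, ?_, ?_⟩
  · refine Finset.sum_nonneg fun s hs' => Finset.prod_nonneg fun p hp => ?_
    exact hβ0 p ((hS2 s hs').1 hp)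
  · refine (esymm_le P (fun p => (1 / 2) * β p) hβ0 (2 * r + 1)).trans ?_
    have h0 : 0 ≤ ∑ p ∈ P, (1 / 2) * β p := Finset.sum_nonneg hβ0
    exact div_le_div_of_nonneg_right (pow_le_pow_left₀ h0 hβs _) (Nat.cast_nonneg _)
  · intro hr
    subst hr
    have h : P.powerset.filter (fun s => s.card ≤ 2 * 0) = {∅} := by
      ext s
      rw [mem_filter, mem_powerset, mem_singleton]
      constructor
      · rintro ⟨-, h1⟩
        exact Finset.card_eq_zero.1 (by omega)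
      · rintro rfl
        exact ⟨Finset.empty_subset _, by simp⟩
    rw [h, Finset.sum_singleton, Finset.prod_empty]
  · intro v
    have ht0 : ∀ p ∈ P, 0 ≤ (1 / 2) * B p v := fun p hp => by
      have := hL.nonneg p hp v
      linarith
    have ht1 : ∀ p ∈ P, (1 / 2) * B p v ≤ 1 := fun p hp => by
      have := hL.le_one p hp v
      linarith
    exact bonf_upper P (fun p => (1 / 2) * B p v) ht0 ht1 r
  · intro v
    have ht0 : ∀ p ∈ P, 0 ≤ (1 / 2) * B p v := fun p hp => by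
      have := hL.nonneg p hp v
      linarith
    have ht1 : ∀ p ∈ P, (1 / 2) * B p v ≤ 1 := fun p hp => by
      have := hL.le_one p hp v
      linarith
    exact bonf_diff P (fun p => (1 / 2) * B p v) ht0 ht1 r

end Pool.Agent.DG
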