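import Pool.Agent.helper41.DG.Bonf
import Pool.Agent.helper41.DG.Union

/-! # One block of primes: upper bound with weights -/

set_option autoImplicit false

open Finset

namespace Pool.Agent.DG

/-- the function of one block: truncated inclusion-exclusion of order `2 r` -/
noncomputable def yk (P : Finset ℕ) (κ : ℕ → ℝ) (B : ℕ → ℤ × ℤ → ℝ) (r : ℕ) (v : ℤ × ℤ) : ℝ :=
  ∑ s ∈ P.powerset.filter (fun s => s.card ≤ 2 * r), ∏ p ∈ s, (-(κ p * B p v))

theorem blkk_mono {P Q : Finset ℕ} {B : ℕ → ℤ × ℤ → ℝ} {b : ℕ → ℕ × ℕ → ℂ} {β : ℕ → ℝ}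
    (hL : Loc P B b β) (hQ : Q ⊆ P) : Loc Q B b β :=
  ⟨fun p hp => hL.prime p (hQ hp), fun p hp => hL.nonneg p (hQ hp),
    fun p hp => hL.le_one p (hQ hp), fun p hp => hL.expand p (hQ hp),
    fun p hp => hL.mean p (hQ hp), fun p hp => hL.mean_nonneg p (hQ hp),
    fun p hp => hL.mean_le p (hQ hp), fun p hp => hL.small p (hQ hp)⟩

theorem blkk_Fr {P s : Finset ℕ} (hP : ∀ p ∈ P, p.Prime) (hs : s ⊆ P) :
    Fr s = (Fr P).filter (fun k => k.support ⊆ s) := by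
  ext k
  rw [mem_filter, mem_Fr, mem_Fr]
  constructor
  · rintro ⟨h1, h2⟩
    refine ⟨⟨h1.trans hs, fun p hp => ?_⟩, h1⟩
    by_cases hps : p ∈ s
    · exact h2 p hps
    · have h3 : k p = 0 := Finsupp.notMem_support_iff.1 (fun h => hps (h1 h))
      rw [h3]
      exact ⟨(hP p hp).pos, (hP p hp).pos⟩
  · rintro ⟨⟨-, h2⟩, h3⟩
    exact ⟨h3, fun p hp => h2 p (hs hp)⟩

theorem blkk_one {s : Finset ℕ} {B : ℕ → ℤ × ℤ → ℝ} {b : ℕ → ℕ × ℕ → ℂ} {β : ℕ → ℝ}
    (hL : Loc s B b β) (κ : ℕ → ℝ) (v : ℤ × ℤ) :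
    ((∏ p ∈ s, (-(κ p * B p v)) : ℝ) : ℂ) =
      ∑ k ∈ Fr s, (∏ p ∈ s, (-(κ p : ℂ) * b p (k p))) * ec (pr k v) := by
  have h := prod_expand hL v
  have h0 : ∏ p ∈ s, (-(κ p * B p v)) = (∏ p ∈ s, (-(κ p))) * ∏ p ∈ s, B p v := by
    rw [← Finset.prod_mul_distrib]
    exact Finset.prod_congr rfl fun p _ => (neg_mul _ _).symm
  rw [h0, Complex.ofReal_mul, h, Finset.mul_sum]
  refine Finset.sum_congr rfl fun k _ => ?_
  rw [Finset.prod_mul_distrib, Complex.ofReal_prod, mul_assoc]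
  congr 1
  exact Finset.prod_congr rfl fun p _ => by push_cast; ring

/-- the bound for the coefficients -/
theorem blkk_bound {P T : Finset ℕ} (hTP : T ⊆ P) (hT : T.Nonempty) (u : ℕ → ℝ)
    (hu0 : ∀ p ∈ P, 0 ≤ u p) {w : ℝ} (hw0 : 1 ≤ w) (hu1 : ∀ p ∈ T, u p ≤ 3 / 4 * (1 / w))
    (hu2 : ∑ p ∈ P, u p ≤ 3 / 5) :
    ∑ s ∈ P.powerset.filter (fun s => T ⊆ s), ∏ p ∈ s, u p ≤ 8 / 5 * (1 / w) := by
  have hw : 0 < w := by linarith
  have hw1 : 1 / w ≤ 1 := by rw [div_le_one hw]; exact hw0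
  have hw2 : 0 < 1 / w := by positivity
  have h1 : ∑ s ∈ P.powerset.filter (fun s => T ⊆ s), ∏ p ∈ s, u p =
      ∑ s ∈ (P \ T).powerset, (∏ p ∈ T, u p) * ∏ p ∈ s, u p := by
    refine Finset.sum_nbij' (fun s => s \ T) (fun s => s ∪ T) ?_ ?_ ?_ ?_ ?_
    · intro s hs
      rw [mem_filter, mem_powerset] at hs
      rw [mem_powerset]
      exact Finset.sdiff_subset_sdiff hs.1 (le_refl T)
    · intro s hs
      rw [mem_powerset] at hs
      rw [mem_filter, mem_powerset]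
      exact ⟨Finset.union_subset (hs.trans Finset.sdiff_subset) hTP, Finset.subset_union_right⟩
    · intro s hs
      rw [mem_filter, mem_powerset] at hs
      exact Finset.sdiff_union_of_subset hs.2
    · intro s hs
      rw [mem_powerset] at hs
      have h2 : Disjoint s T :=
        Finset.disjoint_of_subset_left hs Finset.sdiff_disjoint
      show (s ∪ T) \ T = s
      rw [Finset.union_sdiff_right]
      exact Finset.sdiff_eq_self_of_disjoint h2
    · intro s hs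
      rw [mem_filter, mem_powerset] at hs
      rw [mul_comm]
      exact (Finset.prod_sdiff hs.2).symm
  rw [h1, ← Finset.mul_sum]
  obtain ⟨q, hq⟩ := hT
  have h3 : ∏ p ∈ T, u p ≤ 3 / 4 * (1 / w) := by
    rw [← Finset.mul_prod_erase T u hq]
    have h4 : ∏ p ∈ T.erase q, u p ≤ 1 := by
      refine Finset.prod_le_one (fun p hp => hu0 p (hTP (Finset.mem_of_mem_erase hp)))
        (fun p hp => (hu1 p (Finset.mem_of_mem_erase hp)).trans ?_)
      linarith
    have h5 : 0 ≤ u q := hu0 q (hTP hq)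
    calc u q * ∏ p ∈ T.erase q, u p ≤ u q * 1 := mul_le_mul_of_nonneg_left h4 h5
      _ ≤ 3 / 4 * (1 / w) := by rw [mul_one]; exact hu1 q hq
  have h6 : ∑ s ∈ (P \ T).powerset, ∏ p ∈ s, u p ≤ 100 / 49 := by
    have h7 := sum_powerset_prod_le (P \ T) u (fun p hp => hu0 p (Finset.sdiff_subset hp))
    have h8 : ∑ p ∈ P \ T, u p ≤ 3 / 5 :=
      (Finset.sum_le_sum_of_subset_of_nonneg Finset.sdiff_subset
        (fun p hp _ => hu0 p hp)).trans hu2
    have h9 : Real.exp (∑ p ∈ P \ T, u p) ≤ Real.exp (3 / 5) := Real.exp_le_exp.2 h8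
    have h10 : Real.exp (3 / 10) ≤ 10 / 7 := by
      have h11 := Real.add_one_le_exp (-(3 / 10) : ℝ)
      have h12 : Real.exp (3 / 10) * Real.exp (-(3 / 10)) = 1 := by
        rw [← Real.exp_add]; norm_num
      have h13 := Real.exp_pos (3 / 10 : ℝ)
      nlinarith
    have h14 : Real.exp (3 / 5) = Real.exp (3 / 10) * Real.exp (3 / 10) := by
      rw [← Real.exp_add]; norm_num
    have h15 : Real.exp (3 / 5) ≤ 100 / 49 := by
      have h13 := Real.exp_pos (3 / 10 : ℝ)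
      rw [h14]
      nlinarith
    linarith
  have h14 : 0 ≤ ∑ s ∈ (P \ T).powerset, ∏ p ∈ s, u p :=
    Finset.sum_nonneg fun s hs => Finset.prod_nonneg fun p hp =>
      hu0 p (Finset.sdiff_subset (Finset.mem_powerset.1 hs hp))
  calc (∏ p ∈ T, u p) * ∑ s ∈ (P \ T).powerset, ∏ p ∈ s, u p
      ≤ 3 / 4 * (1 / w) * (100 / 49) := by
        apply mul_le_mul h3 h6 h14
        positivity
    _ ≤ 8 / 5 * (1 / w) := by nlinarith

theorem blockK {P : Finset ℕ} {B : ℕ → ℤ × ℤ → ℝ} {b : ℕ → ℕ × ℕ → ℂ} {β : ℕ → ℝ}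
    (hL : Loc P B b β) {κ : ℕ → ℝ} (hκ0 : ∀ p ∈ P, 0 ≤ κ p) (hκ1 : ∀ p ∈ P, κ p ≤ 3 / 4)
    {w z : ℝ} (hw0 : 1 ≤ w) (hz1 : 1 ≤ z) (hw : ∀ p ∈ P, w < (p : ℝ))
    (hz : ∀ p ∈ P, (p : ℝ) ≤ z) (hs : ∑ p ∈ P, 1 / (p : ℝ) ≤ 2 / 5) (r : ℕ) :
    ∃ (c : (ℕ →₀ ℕ × ℕ) → ℂ) (Y : ℝ),
      TP P (yk P κ B r) c Y (4 / w * Y) (z ^ (2 * r)) ∧ 2 / 5 ≤ Y ∧
      Y ≤ (1 + (5 / 2) * ((3 / 5) ^ (2 * r + 1) / ((2 * r + 1).factorial : ℝ))) *
        ∏ p ∈ P, (1 - κ p * β p) ∧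
      (∀ v, ∏ p ∈ P, (1 - κ p * B p v) ≤ yk P κ B r v) := by
  have hw' : 0 < w := by linarith
  have hpos : ∀ p ∈ P, (0 : ℝ) < p := fun p hp => by exact_mod_cast (hL.prime p hp).pos
  have hp1 : ∀ p ∈ P, 1 / (p : ℝ) ≤ 1 / 2 := fun p hp => by
    apply one_div_le_one_div_of_le two_pos
    exact_mod_cast (hL.prime p hp).two_le
  have hip : ∀ p ∈ P, (0 : ℝ) ≤ 1 / (p : ℝ) := fun p hp => (div_pos one_pos (hpos p hp)).le
  have hβ0 : ∀ p ∈ P, 0 ≤ κ p * β p := fun p hp =>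
    mul_nonneg (hκ0 p hp) (hL.mean_nonneg p hp)
  have hβ1 : ∀ p ∈ P, κ p * β p ≤ 3 / 2 * (1 / (p : ℝ)) := fun p hp => by
    have h4 := hL.mean_le p hp
    have h5 : 2 / (p : ℝ) = 2 * (1 / (p : ℝ)) := by ring
    rw [h5] at h4
    have h6 := mul_le_mul (hκ1 p hp) h4 (hL.mean_nonneg p hp) (by norm_num)
    linarith
  have hβ2 : ∀ p ∈ P, κ p * β p ≤ 1 := fun p hp => by
    have := hβ1 p hp
    have := hp1 p hp
    linarith
  have hβs : ∑ p ∈ P, κ p * β p ≤ 3 / 5 := by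
    refine (Finset.sum_le_sum hβ1).trans ?_
    rw [← Finset.mul_sum]
    linarith
  have h25 : (2 / 5 : ℝ) ≤ ∏ p ∈ P, (1 - κ p * β p) := by
    have h := one_sub_sum_le_prod P (fun p => κ p * β p) hβ0 hβ2
    linarith
  set S : Finset (Finset ℕ) := P.powerset.filter (fun s => s.card ≤ 2 * r) with hSdef
  have hS : ∀ s ∈ S, s ⊆ P ∧ s.card ≤ 2 * r := by
    intro s hs'
    rw [hSdef, mem_filter, mem_powerset] at hs'
    exact hs'
  set Y : ℝ := ∑ s ∈ S, ∏ p ∈ s, (-(κ p * β p)) with hYdef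
  have hY : ∏ p ∈ P, (1 - κ p * β p) ≤ Y := bonf_upper P (fun p => κ p * β p) hβ0 hβ2 r
  have hY25 : 2 / 5 ≤ Y := h25.trans hY
  refine ⟨fun k => ∑ s ∈ S.filter (fun s => k.support ⊆ s),
    ∏ p ∈ s, (-(κ p : ℂ) * b p (k p)), Y, ⟨?_, ?_, ?_, ?_⟩, hY25, ?_, ?_⟩
  · intro v
    show ((∑ s ∈ S, ∏ p ∈ s, (-(κ p * B p v)) : ℝ) : ℂ) = _
    rw [Complex.ofReal_sum]
    have h1 : ∀ s ∈ S, ((∏ p ∈ s, (-(κ p * B p v)) : ℝ) : ℂ) =
        ∑ k ∈ Fr P, if k.support ⊆ s then (∏ p ∈ s, (-(κ p : ℂ) * b p (k p))) * ec (pr k v)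
          else 0 := by
      intro s hs'
      rw [blkk_one (blkk_mono hL (hS s hs').1) κ v, blkk_Fr hL.prime (hS s hs').1,
        Finset.sum_filter]
    rw [Finset.sum_congr rfl h1, Finset.sum_comm]
    refine Finset.sum_congr rfl fun k _ => ?_
    rw [← Finset.sum_filter, Finset.sum_mul]
  · show ∑ s ∈ S.filter (fun s => (0 : ℕ →₀ ℕ × ℕ).support ⊆ s),
      ∏ p ∈ s, (-(κ p : ℂ) * b p ((0 : ℕ →₀ ℕ × ℕ) p)) = _
    have h2 : S.filter (fun s => (0 : ℕ →₀ ℕ × ℕ).support ⊆ s) = S := by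
      refine Finset.filter_true_of_mem fun s _ => ?_
      rw [Finsupp.support_zero]
      exact Finset.empty_subset s
    rw [h2, hYdef, Complex.ofReal_sum]
    refine Finset.sum_congr rfl fun s hs' => ?_
    rw [Complex.ofReal_prod]
    refine Finset.prod_congr rfl fun p hp => ?_
    have h3 := hL.mean p ((hS s hs').1 hp)
    rw [Finsupp.zero_apply, Complex.ofReal_neg, Complex.ofReal_mul, ← h3, neg_mul]
    rfl
  · intro k hk hk0
    have hk' := mem_Fr.1 hk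
    show ‖∑ s ∈ S.filter (fun s => k.support ⊆ s), ∏ p ∈ s, (-(κ p : ℂ) * b p (k p))‖ ≤
      4 / w * Y
    set u : ℕ → ℝ := fun p => |κ p| * ‖b p (k p)‖ with hu
    have hu0 : ∀ p ∈ P, 0 ≤ u p := fun p _ => by simp only [hu]; positivity
    have hcoef : ∀ p ∈ P, p ∈ k.support → ‖b p (k p)‖ ≤ 1 / (p : ℝ) := by
      intro p hp hps
      refine hL.small p hp (k p) ?_ ?_
      · rw [mem_product, mem_range, mem_range]
        exact hk'.2 p hp
      · intro h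
        exact (Finsupp.mem_support_iff.1 hps) h
    have hsup : ∀ p ∈ P, p ∈ k.support → u p ≤ 3 / 4 * (1 / (p : ℝ)) := by
      intro p hp hps
      simp only [hu]
      rw [abs_of_nonneg (hκ0 p hp)]
      exact mul_le_mul (hκ1 p hp) (hcoef p hp hps) (norm_nonneg _) (by norm_num)
    have hup : ∀ p ∈ P, u p ≤ 3 / 2 * (1 / (p : ℝ)) := by
      intro p hp
      by_cases hps : p ∈ k.support
      · have h3 := hsup p hp hps
        have h4 := hip p hp
        linarith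
      · have h3 : k p = (0, 0) := Finsupp.notMem_support_iff.1 hps
        simp only [hu]
        rw [h3, hL.mean p hp, Complex.norm_real, Real.norm_eq_abs,
          abs_of_nonneg (hL.mean_nonneg p hp), abs_of_nonneg (hκ0 p hp)]
        exact hβ1 p hp
    have hsum : ∑ p ∈ P, u p ≤ 3 / 5 := by
      refine (Finset.sum_le_sum hup).trans ?_
      rw [← Finset.mul_sum]
      linarith
    have hu1 : ∀ p ∈ k.support, u p ≤ 3 / 4 * (1 / w) := by
      intro p hps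
      have hp : p ∈ P := hk'.1 hps
      have h3 := hsup p hp hps
      have h4 : 1 / (p : ℝ) ≤ 1 / w := one_div_le_one_div_of_le hw' (hw p hp).le
      linarith
    have hne : k.support.Nonempty := Finsupp.support_nonempty_iff.2 hk0
    have hfin : 8 / 5 * (1 / w) ≤ 4 / w * Y := by
      have h5 : 4 / w * Y = 4 * Y * (1 / w) := by ring
      rw [h5]
      have h6 : 0 < 1 / w := by positivity
      nlinarith
    refine le_trans ?_ ((blkk_bound hk'.1 hne u hu0 hw0 hu1 hsum).trans hfin)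
    refine (norm_sum_le _ _).trans ?_
    have h6 : ∀ s ∈ S.filter (fun s => k.support ⊆ s),
        ‖∏ p ∈ s, (-(κ p : ℂ) * b p (k p))‖ = ∏ p ∈ s, u p := by
      intro s _
      rw [norm_prod]
      refine Finset.prod_congr rfl fun p _ => ?_
      rw [norm_mul, norm_neg, Complex.norm_real, Real.norm_eq_abs]
    rw [Finset.sum_congr rfl h6]
    refine Finset.sum_le_sum_of_subset_of_nonneg ?_ ?_
    · intro s hs'
      rw [mem_filter] at hs'
      rw [mem_filter, mem_powerset]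
      exact ⟨(hS s hs'.1).1, hs'.2⟩
    · intro s hs' _
      rw [mem_filter, mem_powerset] at hs'
      exact Finset.prod_nonneg fun p hp => hu0 p (hs'.1 hp)
  · intro k hk hne
    have hk' := mem_Fr.1 hk
    obtain ⟨s, hs', -⟩ := Finset.exists_ne_zero_of_sum_ne_zero hne
    rw [mem_filter] at hs'
    have h7 : k.support.card ≤ 2 * r := (Finset.card_le_card hs'.2).trans (hS s hs'.1).2
    have h8 : ((md k : ℕ) : ℝ) ≤ z ^ k.support.card := by
      rw [md, Nat.cast_prod]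
      refine (Finset.prod_le_prod (fun p _ => Nat.cast_nonneg p)
        (fun p hp => hz p (hk'.1 hp))).trans ?_
      rw [Finset.prod_const]
    exact h8.trans (pow_le_pow_right₀ hz1 h7)
  · set E : ℝ := (3 / 5) ^ (2 * r + 1) / ((2 * r + 1).factorial : ℝ) with hE
    have hE0 : 0 ≤ E := by positivity
    have h1 : Y - ∏ p ∈ P, (1 - κ p * β p) ≤ E := by
      refine (bonf_diff P (fun p => κ p * β p) hβ0 hβ2 r).trans ?_
      refine (esymm_le P (fun p => κ p * β p) hβ0 (2 * r + 1)).trans ?_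
      have h0 : 0 ≤ ∑ p ∈ P, κ p * β p := Finset.sum_nonneg hβ0
      exact div_le_div_of_nonneg_right (pow_le_pow_left₀ h0 hβs _) (Nat.cast_nonneg _)
    nlinarith
  · intro v
    have ht0 : ∀ p ∈ P, 0 ≤ κ p * B p v := fun p hp => mul_nonneg (hκ0 p hp) (hL.nonneg p hp v)
    have ht1 : ∀ p ∈ P, κ p * B p v ≤ 1 := fun p hp => by
      have h1 := mul_le_mul (hκ1 p hp) (hL.le_one p hp v) (hL.nonneg p hp v) (by norm_num)
      linarith
    exact bonf_upper P (fun p => κ p * B p v) ht0 ht1 r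

end Pool.Agent.DG
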