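import Pool.Agent.helper41.DG.Defs

/-! # Bonferroni inequalities -/

set_option autoImplicit false

open Finset

namespace Pool.Agent.DG

/-- the truncated inclusion-exclusion sum -/
noncomputable def bonfS (t : ℕ → ℝ) (P : Finset ℕ) (m : ℕ) : ℝ :=
  ∑ s ∈ P.powerset.filter (fun s => s.card ≤ m), ∏ p ∈ s, (-t p)

theorem bonfS_empty (t : ℕ → ℝ) (m : ℕ) : bonfS t ∅ m = 1 := by
  unfold bonfS
  rw [Finset.powerset_empty, Finset.filter_singleton]
  simp

theorem bonfS_zero (t : ℕ → ℝ) (P : Finset ℕ) : bonfS t P 0 = 1 := by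
  unfold bonfS
  have : P.powerset.filter (fun s => s.card ≤ 0) = {∅} := by
    ext s
    simp only [Finset.mem_filter, Finset.mem_powerset, Finset.mem_singleton, Nat.le_zero,
      Finset.card_eq_zero]
    constructor
    · exact fun h => h.2
    · rintro rfl
      exact ⟨Finset.empty_subset _, rfl⟩
  rw [this, Finset.sum_singleton, Finset.prod_empty]

theorem bonfS_insert (t : ℕ → ℝ) (P : Finset ℕ) (q : ℕ) (hq : q ∉ P) (m : ℕ) :
    bonfS t (insert q P) (m + 1) = bonfS t P (m + 1) - t q * bonfS t P m := by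
  unfold bonfS
  rw [Finset.sum_filter, Finset.sum_powerset_insert hq, Finset.sum_filter, Finset.sum_filter,
    sub_eq_add_neg, ← neg_mul, Finset.mul_sum]
  congr 1
  refine Finset.sum_congr rfl ?_
  intro s hs
  have hqs : q ∉ s := fun h => hq (Finset.mem_powerset.1 hs h)
  rw [Finset.card_insert_of_notMem hqs, Finset.prod_insert hqs]
  by_cases h : s.card ≤ m
  · rw [if_pos h, if_pos (by omega)]
  · rw [if_neg h, if_neg (by omega), mul_zero]

theorem bonf_prod_nonneg (P : Finset ℕ) (t : ℕ → ℝ) (h1 : ∀ p ∈ P, t p ≤ 1) :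
    0 ≤ ∏ p ∈ P, (1 - t p) :=
  Finset.prod_nonneg fun p hp => sub_nonneg.2 (h1 p hp)

theorem bonf_both (t : ℕ → ℝ) (P : Finset ℕ) : (∀ p ∈ P, 0 ≤ t p) → (∀ p ∈ P, t p ≤ 1) →
    ∀ r : ℕ, ∏ p ∈ P, (1 - t p) ≤ bonfS t P (2 * r) ∧
      bonfS t P (2 * r + 1) ≤ ∏ p ∈ P, (1 - t p) := by
  induction P using Finset.induction_on with
  | empty =>
    intro _ _ r
    rw [bonfS_empty, bonfS_empty, Finset.prod_empty]
    exact ⟨le_rfl, le_rfl⟩
  | insert q P hq ih =>
    intro h0 h1 r
    have ih' := ih (fun p hp => h0 p (Finset.mem_insert_of_mem hp))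
      (fun p hp => h1 p (Finset.mem_insert_of_mem hp))
    have hq0 := h0 q (Finset.mem_insert_self q P)
    have hpos := bonf_prod_nonneg P t (fun p hp => h1 p (Finset.mem_insert_of_mem hp))
    rw [Finset.prod_insert hq, bonfS_insert t P q hq]
    refine ⟨?_, ?_⟩
    · cases r with
      | zero =>
        rw [Nat.mul_zero, bonfS_zero]
        have h2 := (ih' 0).1
        rw [Nat.mul_zero, bonfS_zero] at h2
        nlinarith [mul_nonneg hq0 hpos]
      | succ r =>
        rw [show 2 * (r + 1) = 2 * r + 1 + 1 by ring, bonfS_insert t P q hq]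
        have h2 := (ih' (r + 1)).1
        rw [show 2 * (r + 1) = 2 * r + 1 + 1 by ring] at h2
        have h3 := mul_le_mul_of_nonneg_left (ih' r).2 hq0
        linarith
    · have h2 := (ih' r).2
      have h3 := mul_le_mul_of_nonneg_left (ih' r).1 hq0
      linarith

/-- the truncated inclusion-exclusion sum of even order `2 r` is an upper bound -/
theorem bonf_upper (P : Finset ℕ) (t : ℕ → ℝ) (h0 : ∀ p ∈ P, 0 ≤ t p) (h1 : ∀ p ∈ P, t p ≤ 1)
    (r : ℕ) :
    ∏ p ∈ P, (1 - t p) ≤ ∑ s ∈ P.powerset.filter (fun s => s.card ≤ 2 * r), ∏ p ∈ s, (-t p) :=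
  (bonf_both t P h0 h1 r).1

/-- the error of the truncated inclusion-exclusion sum is at most the next term -/
theorem bonf_diff (P : Finset ℕ) (t : ℕ → ℝ) (h0 : ∀ p ∈ P, 0 ≤ t p) (h1 : ∀ p ∈ P, t p ≤ 1)
    (r : ℕ) :
    (∑ s ∈ P.powerset.filter (fun s => s.card ≤ 2 * r), ∏ p ∈ s, (-t p)) - ∏ p ∈ P, (1 - t p) ≤
      ∑ s ∈ P.powersetCard (2 * r + 1), ∏ p ∈ s, t p := by
  have h2 := (bonf_both t P h0 h1 r).2
  have h3 : bonfS t P (2 * r + 1) =
      (∑ s ∈ P.powerset.filter (fun s => s.card ≤ 2 * r), ∏ p ∈ s, (-t p)) -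
        ∑ s ∈ P.powersetCard (2 * r + 1), ∏ p ∈ s, t p := by
    unfold bonfS
    have e : P.powerset.filter (fun s => s.card ≤ 2 * r + 1) =
        P.powerset.filter (fun s => s.card ≤ 2 * r) ∪ P.powersetCard (2 * r + 1) := by
      ext s
      simp only [Finset.mem_filter, Finset.mem_powerset, Finset.mem_union,
        Finset.mem_powersetCard]
      constructor
      · rintro ⟨h4, h5⟩
        rcases Nat.lt_or_ge (2 * r) s.card with h6 | h6
        · exact Or.inr ⟨h4, by omega⟩
        · exact Or.inl ⟨h4, h6⟩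
      · rintro (⟨h4, h5⟩ | ⟨h4, h5⟩)
        · exact ⟨h4, by omega⟩
        · exact ⟨h4, by omega⟩
    have hd : Disjoint (P.powerset.filter (fun s => s.card ≤ 2 * r))
        (P.powersetCard (2 * r + 1)) := by
      rw [Finset.disjoint_left]
      intro s h4 h5
      have h6 := (Finset.mem_filter.1 h4).2
      have h7 := (Finset.mem_powersetCard.1 h5).2
      omega
    rw [e, Finset.sum_union hd, sub_eq_add_neg, ← Finset.sum_neg_distrib]
    congr 1
    refine Finset.sum_congr rfl ?_
    intro s hs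
    rw [Finset.prod_neg, (Finset.mem_powersetCard.1 hs).2, Odd.neg_one_pow ⟨r, rfl⟩, neg_one_mul]
  linarith

theorem bonf_pow_aux (s t : ℝ) (hs : 0 ≤ s) (ht : 0 ≤ t) (n : ℕ) :
    s ^ (n + 1) + (n + 1 : ℕ) * t * s ^ n ≤ (s + t) ^ (n + 1) := by
  induction n with
  | zero => simp
  | succ n ih =>
    have h1 := mul_le_mul_of_nonneg_left ih (add_nonneg hs ht)
    have h2 : 0 ≤ ((n + 1 : ℕ) : ℝ) * t * t * s ^ n := by positivity
    have h3 : (s + t) * (s ^ (n + 1) + ((n + 1 : ℕ) : ℝ) * t * s ^ n) =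
        s ^ (n + 1 + 1) + ((n + 1 + 1 : ℕ) : ℝ) * t * s ^ (n + 1) +
          ((n + 1 : ℕ) : ℝ) * t * t * s ^ n := by
      push_cast
      ring
    have h4 : (s + t) ^ (n + 1 + 1) = (s + t) * (s + t) ^ (n + 1) := by ring
    rw [h4]
    rw [h3] at h1
    linarith

/-- elementary symmetric sums -/
theorem esymm_le (P : Finset ℕ) (t : ℕ → ℝ) (h0 : ∀ p ∈ P, 0 ≤ t p) (i : ℕ) :
    ∑ s ∈ P.powersetCard i, ∏ p ∈ s, t p ≤ (∑ p ∈ P, t p) ^ i / (i.factorial : ℝ) := by
  induction P using Finset.induction_on generalizing i with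
  | empty =>
    cases i with
    | zero => simp
    | succ i =>
      rw [Finset.powersetCard_eq_empty.2 (by simp)]
      simp
  | insert q P hq ih =>
    have h0' : ∀ p ∈ P, 0 ≤ t p := fun p hp => h0 p (Finset.mem_insert_of_mem hp)
    have ih' := ih h0'
    have hq0 := h0 q (Finset.mem_insert_self q P)
    cases i with
    | zero => simp
    | succ i =>
      have hd : Disjoint (P.powersetCard (i + 1)) ((P.powersetCard i).image (insert q)) := by
        rw [Finset.disjoint_left]
        intro s h4 h5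
        obtain ⟨u, _, rfl⟩ := Finset.mem_image.1 h5
        exact hq ((Finset.mem_powersetCard.1 h4).1 (Finset.mem_insert_self q u))
      have hi : Set.InjOn (insert q) ((P.powersetCard i : Finset (Finset ℕ)) : Set (Finset ℕ)) := by
        intro u hu v hv huv
        have hu' : q ∉ u := fun h => hq ((Finset.mem_powersetCard.1 (Finset.mem_coe.1 hu)).1 h)
        have hv' : q ∉ v := fun h => hq ((Finset.mem_powersetCard.1 (Finset.mem_coe.1 hv)).1 h)
        have := congrArg (fun w => Finset.erase w q) huv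
        simpa [Finset.erase_insert hu', Finset.erase_insert hv'] using this
      rw [Finset.powersetCard_succ_insert hq, Finset.sum_union hd, Finset.sum_image hi,
        Finset.sum_insert hq]
      have e : ∑ u ∈ P.powersetCard i, ∏ p ∈ insert q u, t p =
          t q * ∑ u ∈ P.powersetCard i, ∏ p ∈ u, t p := by
        rw [Finset.mul_sum]
        refine Finset.sum_congr rfl ?_
        intro u hu
        rw [Finset.prod_insert fun h => hq ((Finset.mem_powersetCard.1 hu).1 h)]
      rw [e]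
      set S := ∑ p ∈ P, t p with hS
      have hS0 : 0 ≤ S := Finset.sum_nonneg h0'
      have h1 := ih' (i + 1)
      have h2 := mul_le_mul_of_nonneg_left (ih' i) hq0
      have hf : (0 : ℝ) < (i + 1).factorial := by positivity
      have h3 := bonf_pow_aux S (t q) hS0 hq0 i
      have h4 : S ^ (i + 1) / ((i + 1).factorial : ℝ) + t q * (S ^ i / (i.factorial : ℝ)) =
          (S ^ (i + 1) + (i + 1 : ℕ) * t q * S ^ i) / ((i + 1).factorial : ℝ) := by
        have hf' : (i.factorial : ℝ) ≠ 0 := by positivity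
        rw [Nat.factorial_succ]
        push_cast
        field_simp
      have h5 : (S ^ (i + 1) + (i + 1 : ℕ) * t q * S ^ i) / ((i + 1).factorial : ℝ) ≤
          (t q + S) ^ (i + 1) / ((i + 1).factorial : ℝ) := by
        rw [add_comm (t q) S]
        exact div_le_div_of_nonneg_right h3 hf.le
      linarith

/-- the total of all the products over subsets -/
theorem sum_powerset_prod_le (P : Finset ℕ) (t : ℕ → ℝ) (h0 : ∀ p ∈ P, 0 ≤ t p) :
    ∑ s ∈ P.powerset, ∏ p ∈ s, t p ≤ Real.exp (∑ p ∈ P, t p) := by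
  rw [← Finset.prod_one_add, Real.exp_sum]
  refine Finset.prod_le_prod (fun p hp => ?_) (fun p _ => ?_)
  · have := h0 p hp
    linarith
  · have := Real.add_one_le_exp (t p)
    linarith

theorem one_sub_sum_le_prod (P : Finset ℕ) (t : ℕ → ℝ) (h0 : ∀ p ∈ P, 0 ≤ t p)
    (h1 : ∀ p ∈ P, t p ≤ 1) : 1 - ∑ p ∈ P, t p ≤ ∏ p ∈ P, (1 - t p) := by
  induction P using Finset.induction_on with
  | empty => simp
  | insert q P hq ih =>
    have h0' : ∀ p ∈ P, 0 ≤ t p := fun p hp => h0 p (Finset.mem_insert_of_mem hp)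
    have h1' : ∀ p ∈ P, t p ≤ 1 := fun p hp => h1 p (Finset.mem_insert_of_mem hp)
    have h2 := ih h0' h1'
    have h3 : ∏ p ∈ P, (1 - t p) ≤ 1 :=
      Finset.prod_le_one (fun p hp => sub_nonneg.2 (h1' p hp))
        (fun p hp => by have := h0' p hp; linarith)
    have h4 := h0 q (Finset.mem_insert_self q P)
    have h5 := mul_le_mul_of_nonneg_left h3 h4
    rw [Finset.sum_insert hq, Finset.prod_insert hq]
    linarith

end Pool.Agent.DG
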