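import Mathlib

/-! # The number of representations as a sum of two squares -/

set_option autoImplicit false

open Finset

namespace Pool.Agent.DG

/-- all Gaussian integers of norm `m` are associated to one of at most `τ(m)` -/
def RepBy (m : ℕ) : Prop :=
  ∃ T : Finset GaussianInt, T.card ≤ m.divisors.card ∧
    ∀ z : GaussianInt, Zsqrtd.norm z = (m : ℤ) → ∃ t ∈ T, Associated z t

theorem assoc_one_of_norm {z : GaussianInt} (h : Zsqrtd.norm z = 1) : Associated z 1 := by
  rw [associated_one_iff_isUnit, ← Zsqrtd.norm_eq_one_iff, h]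
  rfl

theorem norm_natCast_gi (p : ℕ) : Zsqrtd.norm ((p : ℕ) : GaussianInt) = (p : ℤ) * p := by
  exact_mod_cast Zsqrtd.norm_natCast (d := -1) p

theorem repBy_split {p : ℕ} (hp : p.Prime) {π : GaussianInt} (hπ : Zsqrtd.norm π = (p : ℤ)) :
    ∀ (k : ℕ) (z : GaussianInt), Zsqrtd.norm z = ((p ^ k : ℕ) : ℤ) →
      ∃ a ∈ range (k + 1), Associated z (π ^ a * (star π) ^ (k - a)) := by
  have hirr : Irreducible π := by
    refine ⟨?_, ?_⟩
    · intro hu
      rw [← Zsqrtd.norm_eq_one_iff, hπ] at hu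
      exact hp.one_lt.ne' (by simpa using hu)
    · intro a b hab
      have h1 : Zsqrtd.norm a * Zsqrtd.norm b = (p : ℤ) := by
        rw [← Zsqrtd.norm_mul, ← hab, hπ]
      have h2 : (Zsqrtd.norm a).natAbs * (Zsqrtd.norm b).natAbs = p := by
        rw [← Int.natAbs_mul, h1]; rfl
      have h3 : (Zsqrtd.norm a).natAbs ∣ p := ⟨_, h2.symm⟩
      rcases (Nat.dvd_prime hp).1 h3 with h4 | h4
      · left; exact Zsqrtd.norm_eq_one_iff.1 h4
      · right
        rw [h4] at h2
        exact Zsqrtd.norm_eq_one_iff.1 (Nat.eq_of_mul_eq_mul_left hp.pos (by rw [h2, mul_one]))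
  have hprime : Prime π := hirr.prime
  have hπ' : Zsqrtd.norm (star π) = (p : ℤ) := by rw [Zsqrtd.norm_conj, hπ]
  have hp0 : (p : ℤ) ≠ 0 := by exact_mod_cast hp.ne_zero
  intro k
  induction k with
  | zero =>
    intro z hz
    refine ⟨0, by simp, ?_⟩
    simpa using assoc_one_of_norm (by simpa using hz)
  | succ k ih =>
    intro z hz
    have h1 : π ∣ z * star z := by
      have h2 : (z * star z : GaussianInt) = ((Zsqrtd.norm z : ℤ) : GaussianInt) :=
        (Zsqrtd.norm_eq_mul_conj z).symm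
      have h3 : (π * star π : GaussianInt) = ((Zsqrtd.norm π : ℤ) : GaussianInt) :=
        (Zsqrtd.norm_eq_mul_conj π).symm
      rw [h2, hz]
      refine (Dvd.intro _ rfl : π ∣ π * star π).trans ?_
      rw [h3, hπ]
      refine ⟨((p ^ k : ℕ) : GaussianInt), ?_⟩
      push_cast
      ring
    rcases hprime.dvd_or_dvd h1 with ⟨w, hw⟩ | ⟨w, hw⟩
    · have h2 : Zsqrtd.norm w = ((p ^ k : ℕ) : ℤ) := by
        have h3 := hz
        rw [hw, Zsqrtd.norm_mul, hπ] at h3
        refine mul_left_cancel₀ hp0 ?_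
        rw [h3]; push_cast; ring
      obtain ⟨a, ha, hwa⟩ := ih w h2
      refine ⟨a + 1, by simp at ha ⊢; omega, ?_⟩
      have h4 : k + 1 - (a + 1) = k - a := by omega
      rw [h4, hw, pow_succ', mul_assoc]
      exact hwa.mul_left π
    · have hw' : z = star π * star w := by
        have := congrArg star hw
        rwa [star_star, star_mul, mul_comm] at this
      have h2 : Zsqrtd.norm (star w) = ((p ^ k : ℕ) : ℤ) := by
        have h3 := hz
        rw [hw', Zsqrtd.norm_mul, hπ'] at h3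
        refine mul_left_cancel₀ hp0 ?_
        rw [h3]; push_cast; ring
      obtain ⟨a, ha, hwa⟩ := ih _ h2
      refine ⟨a, by simp at ha ⊢; omega, ?_⟩
      have h4 : k + 1 - a = (k - a) + 1 := by simp at ha; omega
      rw [h4, hw', pow_succ', ← mul_assoc, mul_comm (π ^ a), mul_assoc]
      exact hwa.mul_left (star π)

theorem repBy_inert {p : ℕ} (hp : p.Prime) (hprime : Prime ((p : ℕ) : GaussianInt)) :
    ∀ (k : ℕ) (z : GaussianInt), Zsqrtd.norm z = ((p ^ k : ℕ) : ℤ) →
      Associated z ((p : GaussianInt) ^ (k / 2)) := by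
  have hp0 : ((p : ℤ) * p) ≠ 0 := by
    have : (p : ℤ) ≠ 0 := by exact_mod_cast hp.ne_zero
    exact mul_ne_zero this this
  intro k
  induction k using Nat.strong_induction_on with
  | _ k ih =>
    intro z hz
    rcases Nat.eq_zero_or_pos k with rfl | hk
    · simpa using assoc_one_of_norm (by simpa using hz)
    · have hdiv : ((p : ℕ) : GaussianInt) ∣ z := by
        have h1 : ((p : ℕ) : GaussianInt) ∣ z * star z := by
          have h2 : (z * star z : GaussianInt) = ((Zsqrtd.norm z : ℤ) : GaussianInt) :=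
            (Zsqrtd.norm_eq_mul_conj z).symm
          rw [h2, hz]
          obtain ⟨j, rfl⟩ : ∃ j, k = j + 1 := ⟨k - 1, by omega⟩
          refine ⟨((p ^ j : ℕ) : GaussianInt), ?_⟩
          push_cast
          ring
        rcases hprime.dvd_or_dvd h1 with h3 | ⟨w, hw⟩
        · exact h3
        · refine ⟨star w, ?_⟩
          have := congrArg star hw
          rwa [star_star, star_mul, mul_comm, star_natCast] at this
      obtain ⟨w, hw⟩ := hdiv
      have h3 : ((p : ℤ) * p) * Zsqrtd.norm w = ((p ^ k : ℕ) : ℤ) := by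
        rw [← norm_natCast_gi, ← Zsqrtd.norm_mul, ← hw, hz]
      rcases Nat.lt_or_ge k 2 with hk2 | hk2
      · exfalso
        have hk1 : k = 1 := by omega
        subst hk1
        have h4 : (p : ℤ) * ((p : ℤ) * Zsqrtd.norm w) = p * 1 := by
          rw [← mul_assoc, h3]; push_cast; ring
        have hp1 : (p : ℤ) ≠ 0 := by exact_mod_cast hp.ne_zero
        have h5 := mul_left_cancel₀ hp1 h4
        have h6 : (p : ℤ) ∣ 1 := ⟨_, h5.symm⟩
        have h7 : p ∣ 1 := by exact_mod_cast h6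
        exact hp.one_lt.ne' (Nat.dvd_one.1 h7)
      · obtain ⟨j, rfl⟩ : ∃ j, k = j + 2 := ⟨k - 2, by omega⟩
        have h4 : Zsqrtd.norm w = ((p ^ j : ℕ) : ℤ) := by
          refine mul_left_cancel₀ hp0 ?_
          rw [h3]; push_cast; ring
        have h5 := ih j (by omega) w h4
        have h6 : (j + 2) / 2 = j / 2 + 1 := by omega
        rw [h6, hw, pow_succ']
        exact h5.mul_left _

theorem repBy_prime_pow {p k : ℕ} (hp : p.Prime) : RepBy (p ^ k) := by
  classical
  have hcard : (p ^ k).divisors.card = k + 1 := by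
    rw [Nat.divisors_prime_pow hp, card_map, card_range]
  by_cases h3 : p % 4 = 3
  · have : Fact p.Prime := ⟨hp⟩
    have hpr : Prime ((p : ℕ) : GaussianInt) :=
      (GaussianInt.prime_iff_mod_four_eq_three_of_nat_prime p).2 h3
    refine ⟨{((p : ℕ) : GaussianInt) ^ (k / 2)}, by rw [hcard, card_singleton]; omega, ?_⟩
    intro z hz
    exact ⟨_, mem_singleton_self _, repBy_inert hp hpr k z hz⟩
  · have : Fact p.Prime := ⟨hp⟩
    obtain ⟨a, b, hab⟩ := Nat.Prime.sq_add_sq h3
    have hπ : Zsqrtd.norm (⟨(a : ℤ), (b : ℤ)⟩ : GaussianInt) = (p : ℤ) := by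
      rw [Zsqrtd.norm_def, ← hab]
      push_cast
      ring
    refine ⟨(range (k + 1)).image (fun i => (⟨(a : ℤ), (b : ℤ)⟩ : GaussianInt) ^ i *
      (star (⟨(a : ℤ), (b : ℤ)⟩ : GaussianInt)) ^ (k - i)), ?_, ?_⟩
    · rw [hcard]
      exact card_image_le.trans (by rw [card_range])
    · intro z hz
      obtain ⟨i, hi, hz'⟩ := repBy_split hp hπ k z hz
      exact ⟨_, mem_image_of_mem _ hi, hz'⟩

theorem repBy_mul {a b : ℕ} (ha : 0 < a) (hb : 0 < b) (hab : a.Coprime b) (h1 : RepBy a)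
    (h2 : RepBy b) : RepBy (a * b) := by
  classical
  obtain ⟨T₁, hT₁, h₁⟩ := h1
  obtain ⟨T₂, hT₂, h₂⟩ := h2
  refine ⟨(T₁ ×ˢ T₂).image (fun x => x.1 * x.2), ?_, ?_⟩
  · refine card_image_le.trans ?_
    rw [card_product, Nat.Coprime.card_divisors_mul hab]
    exact Nat.mul_le_mul hT₁ hT₂
  · intro z hz
    have h3 : z ∣ ((a : ℕ) : GaussianInt) * ((b : ℕ) : GaussianInt) := by
      refine ⟨star z, ?_⟩
      rw [← Zsqrtd.norm_eq_mul_conj z, hz]
      push_cast
      ring
    obtain ⟨x, y, hx, hy, hxy⟩ := exists_dvd_and_dvd_of_dvd_mul h3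
    have hnx : (Zsqrtd.norm x).natAbs ∣ a * a := by
      obtain ⟨w, hw⟩ := hx
      have h4 := congrArg Zsqrtd.norm hw
      rw [norm_natCast_gi, Zsqrtd.norm_mul] at h4
      refine ⟨(Zsqrtd.norm w).natAbs, ?_⟩
      rw [← Int.natAbs_mul, ← h4]
      exact_mod_cast rfl
    have hny : (Zsqrtd.norm y).natAbs ∣ b * b := by
      obtain ⟨w, hw⟩ := hy
      have h4 := congrArg Zsqrtd.norm hw
      rw [norm_natCast_gi, Zsqrtd.norm_mul] at h4
      refine ⟨(Zsqrtd.norm w).natAbs, ?_⟩
      rw [← Int.natAbs_mul, ← h4]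
      exact_mod_cast rfl
    have hprod : (Zsqrtd.norm x).natAbs * (Zsqrtd.norm y).natAbs = a * b := by
      rw [← Int.natAbs_mul, ← Zsqrtd.norm_mul, ← hxy, hz]
      exact_mod_cast rfl
    have hca : (Zsqrtd.norm x).natAbs.Coprime b := by
      have h5 : (a * a).Coprime b := Nat.Coprime.mul_left hab hab
      exact Nat.Coprime.coprime_dvd_left hnx h5
    have hcb : (Zsqrtd.norm y).natAbs.Coprime a := by
      have h5 : (b * b).Coprime a := Nat.Coprime.mul_left hab.symm hab.symm
      exact Nat.Coprime.coprime_dvd_left hny h5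
    have hda : (Zsqrtd.norm x).natAbs ∣ a :=
      hca.dvd_of_dvd_mul_right (hprod ▸ Dvd.intro _ rfl)
    have hdb : (Zsqrtd.norm y).natAbs ∣ b :=
      hcb.dvd_of_dvd_mul_left (hprod ▸ Dvd.intro_left _ rfl)
    have hla := Nat.le_of_dvd ha hda
    have hlb := Nat.le_of_dvd hb hdb
    have hxa : (Zsqrtd.norm x).natAbs = a := by
      by_contra hne
      have hlt : (Zsqrtd.norm x).natAbs < a := lt_of_le_of_ne hla hne
      have : (Zsqrtd.norm x).natAbs * (Zsqrtd.norm y).natAbs < a * b := by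
        calc (Zsqrtd.norm x).natAbs * (Zsqrtd.norm y).natAbs
            ≤ (Zsqrtd.norm x).natAbs * b := Nat.mul_le_mul_left _ hlb
          _ < a * b := Nat.mul_lt_mul_of_pos_right hlt hb
      omega
    have hyb : (Zsqrtd.norm y).natAbs = b := by
      rw [hxa] at hprod
      exact Nat.eq_of_mul_eq_mul_left ha hprod
    have hx' : Zsqrtd.norm x = (a : ℤ) := by
      rw [← hxa, Int.natAbs_of_nonneg (GaussianInt.norm_nonneg x)]
    have hy' : Zsqrtd.norm y = (b : ℤ) := by
      rw [← hyb, Int.natAbs_of_nonneg (GaussianInt.norm_nonneg y)]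
    obtain ⟨t₁, ht₁, hxt⟩ := h₁ x hx'
    obtain ⟨t₂, ht₂, hyt⟩ := h₂ y hy'
    refine ⟨t₁ * t₂, mem_image.2 ⟨(t₁, t₂), mem_product.2 ⟨ht₁, ht₂⟩, rfl⟩, ?_⟩
    rw [hxy]
    exact hxt.mul_mul hyt

theorem repBy_all (m : ℕ) (hm : 1 ≤ m) : RepBy m := by
  induction m using Nat.recOnPosPrimePosCoprime with
  | prime_pow p n hp hn => exact repBy_prime_pow hp
  | zero => omega
  | one => simpa using repBy_prime_pow (k := 0) Nat.prime_two
  | coprime a b ha hb hab h1 h2 =>
    exact repBy_mul (by omega) (by omega) hab (h1 (by omega)) (h2 (by omega))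

/-- the units of the Gaussian integers -/
theorem unit_cases (u : GaussianInt) (hu : IsUnit u) :
    u = ⟨1, 0⟩ ∨ u = ⟨-1, 0⟩ ∨ u = ⟨0, 1⟩ ∨ u = ⟨0, -1⟩ := by
  have h1 : Zsqrtd.norm u = 1 := by
    have h2 := Zsqrtd.norm_eq_one_iff.2 hu
    have h3 := GaussianInt.norm_nonneg u
    omega
  rw [Zsqrtd.norm_def] at h1
  obtain ⟨x, y⟩ := u
  simp only at h1
  have h2 : x * x + y * y = 1 := by linarith
  have hx : x ≤ 1 := by nlinarith
  have hx' : -1 ≤ x := by nlinarith
  have hy : y ≤ 1 := by nlinarith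
  have hy' : -1 ≤ y := by nlinarith
  interval_cases x <;> interval_cases y <;> simp_all

/-- the number of representations of `m` as a sum of two squares is at most four times the number of
its divisors -/
theorem r2_le (m : ℕ) (hm : 1 ≤ m) (S : Finset (ℤ × ℤ))
    (hS : ∀ v ∈ S, v.1 ^ 2 + v.2 ^ 2 = (m : ℤ)) : S.card ≤ 4 * m.divisors.card := by
  classical
  obtain ⟨T, hT, hrep⟩ := repBy_all m hm
  let Un : Finset GaussianInt := {⟨1, 0⟩, ⟨-1, 0⟩, ⟨0, 1⟩, ⟨0, -1⟩}
  have hUn : Un.card ≤ 4 := by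
    refine (card_insert_le _ _).trans ?_
    refine Nat.succ_le_succ ((card_insert_le _ _).trans ?_)
    refine Nat.succ_le_succ ((card_insert_le _ _).trans ?_)
    simp
  let F : GaussianInt × GaussianInt → ℤ × ℤ := fun x => ((x.1 * x.2).re, (x.1 * x.2).im)
  have hsub : S ⊆ (Un ×ˢ T).image F := by
    intro v hv
    have h1 : Zsqrtd.norm (⟨v.1, v.2⟩ : GaussianInt) = (m : ℤ) := by
      rw [Zsqrtd.norm_def, ← hS v hv]
      ring
    obtain ⟨t, ht, hz⟩ := hrep _ h1
    obtain ⟨u, hu⟩ := hz.symm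
    refine mem_image.2 ⟨((u : GaussianInt), t), mem_product.2 ⟨?_, ht⟩, ?_⟩
    · rcases unit_cases u u.isUnit with h | h | h | h <;> simp [Un, h]
    · show (((u : GaussianInt) * t).re, ((u : GaussianInt) * t).im) = v
      rw [mul_comm, hu]
  calc S.card ≤ ((Un ×ˢ T).image F).card := card_le_card hsub
    _ ≤ (Un ×ˢ T).card := card_image_le
    _ = Un.card * T.card := card_product _ _
    _ ≤ 4 * m.divisors.card := Nat.mul_le_mul hUn hT

end Pool.Agent.DG
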