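import Pool.Agent.helper41.DG.Mert

/-! # The multiplicative weights -/

set_option autoImplicit false

open Finset

namespace Pool.Agent.DG

/-- the indicator function of the sums of two squares: every prime `p ≡ 3 mod 4` divides `m` to an
even power -/
noncomputable def bn (m : ℕ) : ℝ :=
  if ∀ p ∈ m.primeFactors, p % 4 = 3 → Even (padicValNat p m) then 1 else 0

/-- the weight `c ^ ω_I(m)` -/
noncomputable def wt (I : Finset ℕ) (c : ℝ) (m : ℕ) : ℝ := ∏ p ∈ I, (if p ∣ m then c else 1)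

/-- the multiplicative function `b(m) τ(m)² 4 ^ (-ω_I(m))` -/
noncomputable def fw (I : Finset ℕ) (m : ℕ) : ℝ :=
  bn m * (m.divisors.card : ℝ) ^ 2 * wt I (1 / 4) m

theorem bn_nonneg (m : ℕ) : 0 ≤ bn m := by
  unfold bn; split_ifs <;> norm_num

theorem bn_le_one (m : ℕ) : bn m ≤ 1 := by
  unfold bn; split_ifs <;> norm_num

theorem bn_one : bn 1 = 1 := by
  unfold bn; simp

theorem bn_mul (a b : ℕ) (h : Nat.Coprime a b) : bn (a * b) = bn a * bn b := by
  by_cases ha : a = 0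
  · subst ha
    rw [Nat.coprime_zero_left] at h
    subst h
    rw [bn_one, mul_one, mul_one]
  by_cases hb : b = 0
  · subst hb
    rw [Nat.coprime_zero_right] at h
    subst h
    rw [bn_one, one_mul, one_mul]
  have key : (∀ p ∈ (a * b).primeFactors, p % 4 = 3 → Even (padicValNat p (a * b))) ↔
      (∀ p ∈ a.primeFactors, p % 4 = 3 → Even (padicValNat p a)) ∧
        (∀ p ∈ b.primeFactors, p % 4 = 3 → Even (padicValNat p b)) := by
    rw [h.primeFactors_mul]
    have h1 : ∀ p ∈ a.primeFactors, padicValNat p (a * b) = padicValNat p a := by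
      intro p hp
      have hpp := Nat.prime_of_mem_primeFactors hp
      have : Fact p.Prime := ⟨hpp⟩
      have hpb : ¬ p ∣ b := fun hd =>
        Nat.not_coprime_of_dvd_of_dvd hpp.one_lt (Nat.dvd_of_mem_primeFactors hp) hd h
      rw [padicValNat.mul ha hb, padicValNat.eq_zero_of_not_dvd hpb, add_zero]
    have h2 : ∀ p ∈ b.primeFactors, padicValNat p (a * b) = padicValNat p b := by
      intro p hp
      have hpp := Nat.prime_of_mem_primeFactors hp
      have : Fact p.Prime := ⟨hpp⟩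
      have hpa : ¬ p ∣ a := fun hd =>
        Nat.not_coprime_of_dvd_of_dvd hpp.one_lt hd (Nat.dvd_of_mem_primeFactors hp) h
      rw [padicValNat.mul ha hb, padicValNat.eq_zero_of_not_dvd hpa, zero_add]
    constructor
    · intro hP
      refine ⟨fun p hp h3 => ?_, fun p hp h3 => ?_⟩
      · rw [← h1 p hp]; exact hP p (mem_union_left _ hp) h3
      · rw [← h2 p hp]; exact hP p (mem_union_right _ hp) h3
    · rintro ⟨hA, hB⟩ p hp h3
      rcases mem_union.1 hp with hp | hp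
      · rw [h1 p hp]; exact hA p hp h3
      · rw [h2 p hp]; exact hB p hp h3
  unfold bn
  by_cases hA : ∀ p ∈ a.primeFactors, p % 4 = 3 → Even (padicValNat p a)
  · by_cases hB : ∀ p ∈ b.primeFactors, p % 4 = 3 → Even (padicValNat p b)
    · rw [if_pos hA, if_pos hB, if_pos (key.2 ⟨hA, hB⟩), mul_one]
    · rw [if_neg hB, if_neg (fun hc => hB (key.1 hc).2), mul_zero]
  · rw [if_neg hA, if_neg (fun hc => hA (key.1 hc).1), zero_mul]

theorem bn_prime (p : ℕ) (hp : p.Prime) : bn p = if p % 4 = 3 then 0 else 1 := by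
  have : Fact p.Prime := ⟨hp⟩
  unfold bn
  rw [hp.primeFactors]
  by_cases h3 : p % 4 = 3
  · rw [if_pos h3, if_neg]
    intro h
    have h1 := h p (mem_singleton_self p) h3
    rw [padicValNat_self] at h1
    exact absurd h1 (by decide)
  · rw [if_neg h3, if_pos]
    intro q hq hq3
    rw [mem_singleton] at hq
    subst hq
    exact absurd hq3 h3

/-- sums of two squares -/
theorem bn_eq_one {m : ℕ} (x y : ℤ) (h : x ^ 2 + y ^ 2 = (m : ℤ)) : bn m = 1 := by
  unfold bn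
  rw [if_pos]
  intro p hp h3
  refine (Nat.eq_sq_add_sq_iff.1 ⟨x.natAbs, y.natAbs, ?_⟩) p hp h3
  zify
  rw [sq_abs, sq_abs, h]

lemma wt_nonneg (I : Finset ℕ) {c : ℝ} (hc : 0 ≤ c) (m : ℕ) : 0 ≤ wt I c m := by
  unfold wt
  refine prod_nonneg fun p _ => ?_
  split_ifs
  · exact hc
  · exact zero_le_one

lemma wt_le_one (I : Finset ℕ) {c : ℝ} (hc : 0 ≤ c) (hc1 : c ≤ 1) (m : ℕ) : wt I c m ≤ 1 := by
  unfold wt
  refine prod_le_one (fun p _ => ?_) fun p _ => ?_
  · split_ifs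
    · exact hc
    · exact zero_le_one
  · split_ifs
    · exact hc1
    · exact le_rfl

lemma wt_one (I : Finset ℕ) (hI : ∀ p ∈ I, p.Prime) (c : ℝ) : wt I c 1 = 1 := by
  unfold wt
  refine prod_eq_one fun p hp => ?_
  rw [if_neg]
  intro h
  exact (hI p hp).one_lt.ne' (Nat.dvd_one.1 h)

lemma wt_mul (I : Finset ℕ) (hI : ∀ p ∈ I, p.Prime) (c : ℝ) (a b : ℕ) (h : Nat.Coprime a b) :
    wt I c (a * b) = wt I c a * wt I c b := by
  unfold wt
  rw [← prod_mul_distrib]
  refine prod_congr rfl fun p hp => ?_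
  have hpp := hI p hp
  by_cases h1 : p ∣ a
  · have h2 : ¬ p ∣ b := fun hd => Nat.not_coprime_of_dvd_of_dvd hpp.one_lt h1 hd h
    rw [if_pos h1, if_neg h2, if_pos (Dvd.dvd.mul_right h1 b), mul_one]
  · by_cases h2 : p ∣ b
    · rw [if_neg h1, if_pos h2, if_pos (Dvd.dvd.mul_left h2 a), one_mul]
    · rw [if_neg h1, if_neg h2, if_neg, mul_one]
      intro h3
      rcases (hpp.dvd_mul).1 h3 with h3 | h3
      · exact h1 h3
      · exact h2 h3

lemma wt_prime (I : Finset ℕ) (hI : ∀ p ∈ I, p.Prime) (c : ℝ) (p : ℕ) (hp : p.Prime) :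
    wt I c p = if p ∈ I then c else 1 := by
  unfold wt
  have h1 : ∀ q ∈ I, (if q ∣ p then c else 1) = if q = p then c else 1 := by
    intro q hq
    have : q ∣ p ↔ q = p := Nat.prime_dvd_prime_iff_eq (hI q hq) hp
    by_cases h : q = p
    · rw [if_pos h, if_pos (this.2 h)]
    · rw [if_neg h, if_neg (fun h' => h (this.1 h'))]
  rw [prod_congr rfl h1, prod_ite_eq']

theorem fw_nonneg (I : Finset ℕ) (m : ℕ) : 0 ≤ fw I m := by
  unfold fw
  exact mul_nonneg (mul_nonneg (bn_nonneg m) (sq_nonneg _)) (wt_nonneg I (by norm_num) m)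

theorem fw_one (I : Finset ℕ) (hI : ∀ p ∈ I, p.Prime) : fw I 1 = 1 := by
  unfold fw
  rw [bn_one, wt_one I hI]
  simp

theorem fw_mul (I : Finset ℕ) (hI : ∀ p ∈ I, p.Prime) (a b : ℕ) (h : Nat.Coprime a b) :
    fw I (a * b) = fw I a * fw I b := by
  unfold fw
  rw [bn_mul a b h, wt_mul I hI _ a b h, h.card_divisors_mul]
  push_cast
  ring

theorem fw_prime_pow_le (I : Finset ℕ) (hI : ∀ p ∈ I, p.Prime) (p k : ℕ) (hp : p.Prime) :
    fw I (p ^ k) ≤ ((k : ℝ) + 1) ^ 2 := by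
  have _ := hI
  unfold fw
  have h1 : ((p ^ k).divisors.card : ℝ) = (k : ℝ) + 1 := by
    rw [Nat.divisors_prime_pow hp, card_map, card_range]
    push_cast; rfl
  rw [h1]
  have h2 := bn_nonneg (p ^ k)
  have h3 := bn_le_one (p ^ k)
  have h4 := wt_nonneg I (c := 1 / 4) (by norm_num) (p ^ k)
  have h5 := wt_le_one I (c := 1 / 4) (by norm_num) (by norm_num) (p ^ k)
  have h6 : 0 ≤ ((k : ℝ) + 1) ^ 2 := by positivity
  calc bn (p ^ k) * ((k : ℝ) + 1) ^ 2 * wt I (1 / 4) (p ^ k)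
      ≤ 1 * ((k : ℝ) + 1) ^ 2 * 1 := by
        apply mul_le_mul _ h5 h4 (by positivity)
        exact mul_le_mul_of_nonneg_right h3 h6
    _ = ((k : ℝ) + 1) ^ 2 := by ring

/-- the values at the primes -/
theorem fw_prime (I : Finset ℕ) (hI : ∀ p ∈ I, p.Prime) (p : ℕ) (hp : p.Prime) :
    fw I p = (if p % 4 = 3 then 0 else if p ∈ I then 1 else 4) := by
  unfold fw
  rw [bn_prime p hp, wt_prime I hI _ p hp, hp.divisors, card_pair hp.one_lt.ne]
  split_ifs <;> norm_num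

theorem mem_I4 {w z : ℝ} {p : ℕ} : p ∈ I4 w z ↔ p.Prime ∧ p % 4 = 1 ∧ w < (p : ℝ) ∧ (p : ℝ) ≤ z := by
  unfold I4
  rw [mem_filter, mem_Icc]
  constructor
  · rintro ⟨⟨h1, h2⟩, h3, h4, h5⟩
    exact ⟨h3, h4, h5, (Nat.le_floor_iff' (by omega)).1 h2⟩
  · rintro ⟨h3, h4, h5, h6⟩
    exact ⟨⟨h3.one_le, (Nat.le_floor_iff' h3.pos.ne').2 h6⟩, h3, h4, h5⟩

/-- blocks of the primes `≡ 1 mod 4` -/
theorem I4_block : ∃ C1 : ℝ, 10 ≤ C1 ∧ ∀ w z : ℝ, C1 ≤ w → ∀ t : ℝ, 1 ≤ t →
    ∑ p ∈ (I4 w z).filter (fun p : ℕ => t < (p : ℝ) ∧ (p : ℝ) ≤ t ^ 2), 1 / (p : ℝ) ≤ 2 / 5 := by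
  obtain ⟨C, hC, hM⟩ := mertens4
  refine ⟨max 10 (Real.exp (20 * C)), le_max_left _ _, fun w z hw t ht => ?_⟩
  have hw10 : 10 ≤ w := (le_max_left _ _).trans hw
  have hwe : Real.exp (20 * C) ≤ w := (le_max_right _ _).trans hw
  by_cases hle : max w t ≤ t ^ 2
  · have hw2 : 2 ≤ max w t := by
      have := le_max_left w t
      linarith
    have h1 := hM (max w t) (t ^ 2) hw2 hle
    have hlw : 20 * C ≤ Real.log (max w t) := by
      rw [Real.le_log_iff_exp_le (by linarith)]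
      exact hwe.trans (le_max_left _ _)
    have hlpos : 0 < Real.log (max w t) := by linarith
    have hsub : (I4 w z).filter (fun p : ℕ => t < (p : ℝ) ∧ (p : ℝ) ≤ t ^ 2) ⊆ I4 (max w t) (t ^ 2) := by
      intro p hp
      rw [mem_filter, mem_I4] at hp
      rw [mem_I4]
      exact ⟨hp.1.1, hp.1.2.1, max_lt hp.1.2.2.1 hp.2.1, hp.2.2⟩
    have h2 : ∑ p ∈ (I4 w z).filter (fun p : ℕ => t < (p : ℝ) ∧ (p : ℝ) ≤ t ^ 2), 1 / (p : ℝ) ≤
        ∑ p ∈ I4 (max w t) (t ^ 2), 1 / (p : ℝ) :=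
      sum_le_sum_of_subset_of_nonneg hsub fun p _ _ => by positivity
    have h3 : C / Real.log (max w t) ≤ 1 / 20 := by
      rw [div_le_iff₀ hlpos]; linarith
    have h4 : Real.log (Real.log (t ^ 2) / Real.log (max w t)) ≤ Real.log 2 := by
      have ht1 : 1 < t := by
        by_contra hcon
        push Not at hcon
        have : t = 1 := le_antisymm hcon ht
        rw [this] at hle
        have := le_max_left w 1
        linarith
      have hlt : 0 < Real.log t := Real.log_pos ht1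
      apply Real.log_le_log
      · rw [Real.log_pow]
        push_cast
        positivity
      · rw [div_le_iff₀ hlpos, Real.log_pow]
        push_cast
        have : Real.log t ≤ Real.log (max w t) := Real.log_le_log (by linarith) (le_max_right _ _)
        linarith
    have h5 := Real.log_two_lt_d9
    linarith
  · have he : (I4 w z).filter (fun p : ℕ => t < (p : ℝ) ∧ (p : ℝ) ≤ t ^ 2) = ∅ := by
      rw [filter_eq_empty_iff]
      rintro p hp ⟨h1, h2⟩
      rw [mem_I4] at hp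
      exact hle ((max_lt hp.2.2.1 h1).le.trans h2)
    rw [he, sum_empty]
    norm_num

/-- lower bound for the product -/
theorem I4_prod (w z : ℝ) :
    Real.exp (-1) * Real.exp (-∑ p ∈ I4 w z, 1 / (p : ℝ)) ≤ ∏ p ∈ I4 w z, (1 - 1 / (p : ℝ)) := by
  have hp5 : ∀ p ∈ I4 w z, (5:ℝ) ≤ p := by
    intro p hp
    rw [mem_I4] at hp
    have h1 := hp.1.two_le
    have h2 := hp.2.1
    have : 5 ≤ p := by
      by_contra hcon
      push Not at hcon
      interval_cases p <;> omega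
    exact_mod_cast this
  have h1 : ∀ p ∈ I4 w z, Real.exp (-(1 / (p : ℝ)) - 2 * ((p : ℝ) ^ 2)⁻¹) ≤ 1 - 1 / (p : ℝ) := by
    intro p hp
    have h5 := hp5 p hp
    have hx1 : (0:ℝ) < 1 - 1 / (p : ℝ) := by
      rw [sub_pos, div_lt_one (by linarith)]; linarith
    have h2 : Real.exp (-(1 / (p : ℝ)) - 2 * ((p : ℝ) ^ 2)⁻¹) ≤ Real.exp (-(1 / ((p : ℝ) - 1))) := by
      apply Real.exp_le_exp.2
      have e : 1 / ((p : ℝ) - 1) ≤ 1 / (p : ℝ) + 2 * ((p : ℝ) ^ 2)⁻¹ := by
        have e1 : 1 / (p : ℝ) + 2 * ((p : ℝ) ^ 2)⁻¹ = ((p : ℝ) + 2) / (p : ℝ) ^ 2 := by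
          field_simp
        rw [e1, div_le_div_iff₀ (by linarith) (by positivity)]
        nlinarith
      linarith
    refine h2.trans ?_
    rw [Real.exp_neg, inv_le_comm₀ (Real.exp_pos _) hx1]
    have h3 := Real.add_one_le_exp (1 / ((p : ℝ) - 1))
    have e : (1 - 1 / (p : ℝ))⁻¹ = 1 / ((p : ℝ) - 1) + 1 := by
      have : (p : ℝ) - 1 ≠ 0 := by linarith
      have : (p : ℝ) ≠ 0 := by linarith
      field_simp
      ring
    rw [e]; exact h3
  have h2 : ∏ p ∈ I4 w z, Real.exp (-(1 / (p : ℝ)) - 2 * ((p : ℝ) ^ 2)⁻¹) ≤ ∏ p ∈ I4 w z, (1 - 1 / (p : ℝ)) :=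
    prod_le_prod (fun p _ => (Real.exp_pos _).le) h1
  refine le_trans ?_ h2
  rw [← Real.exp_sum, ← Real.exp_add]
  apply Real.exp_le_exp.2
  rw [sum_sub_distrib, ← mul_sum, sum_neg_distrib]
  have h3 : ∑ p ∈ I4 w z, ((p : ℝ) ^ 2)⁻¹ ≤ 1 / 4 := by
    have hsub : I4 w z ⊆ Ioc 4 (max 4 ⌊z⌋₊) := by
      intro p hp
      have a := hp5 p hp
      have b := (mem_I4.1 hp).2.2.2
      have b' : p ≤ ⌊z⌋₊ := by
        apply Nat.le_floor b
      have a' : 5 ≤ p := by exact_mod_cast a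
      rw [mem_Ioc]
      exact ⟨by omega, b'.trans (le_max_right _ _)⟩
    have h4 : ∑ p ∈ I4 w z, ((p : ℝ) ^ 2)⁻¹ ≤ ∑ p ∈ Ioc 4 (max 4 ⌊z⌋₊), ((p : ℝ) ^ 2)⁻¹ :=
      sum_le_sum_of_subset_of_nonneg hsub fun p _ _ => by positivity
    have h5 := sum_Ioc_inv_sq_le_sub (α := ℝ) (k := 4) (n := max 4 ⌊z⌋₊) (by norm_num) (le_max_left _ _)
    have h6 : (0:ℝ) ≤ ((max 4 ⌊z⌋₊ : ℕ) : ℝ)⁻¹ := by positivity
    have h7 : ((4 : ℕ) : ℝ)⁻¹ = 1 / 4 := by norm_num
    rw [h7] at h5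
    linarith
  linarith

/-- upper bound for the sum of the reciprocals -/
theorem I4_exp : ∃ C : ℝ, 0 < C ∧ ∀ (N : ℕ) (w : ℝ), 2 ≤ N → 2 ≤ w → w ≤ N →
    Real.exp (∑ p ∈ I4 w ((N : ℝ) ^ (1 / 30 : ℝ)), 1 / (p : ℝ)) ≤
      C * Real.sqrt (Real.log N / Real.log w) := by
  obtain ⟨C, hC, hM⟩ := mertens4
  refine ⟨Real.exp (C / Real.log 2), Real.exp_pos _, fun N w hN hw hwN => ?_⟩
  have hN' : (2:ℝ) ≤ N := by exact_mod_cast hN
  have hl2 : 0 < Real.log 2 := Real.log_pos (by norm_num)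
  have hlw : 0 < Real.log w := Real.log_pos (by linarith)
  have hlN : Real.log w ≤ Real.log N := Real.log_le_log (by linarith) hwN
  have hratio : 1 ≤ Real.log N / Real.log w := by rw [one_le_div hlw]; exact hlN
  have hexp1 : 1 ≤ Real.exp (C / Real.log 2) := Real.one_le_exp (by positivity)
  by_cases hz : w ≤ (N : ℝ) ^ (1 / 30 : ℝ)
  · have h1 := hM w _ hw hz
    have h2 : Real.log ((N : ℝ) ^ (1 / 30 : ℝ)) = (1 / 30) * Real.log N := Real.log_rpow (by linarith) _
    have h3 : C / Real.log w ≤ C / Real.log 2 :=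
      div_le_div_of_nonneg_left hC.le hl2 (Real.log_le_log (by norm_num) hw)
    have h4 : Real.log (Real.log ((N : ℝ) ^ (1 / 30 : ℝ)) / Real.log w) ≤
        Real.log (Real.log N / Real.log w) := by
      rw [h2]
      apply Real.log_le_log
      · have : 0 < Real.log N := by linarith
        positivity
      · apply div_le_div_of_nonneg_right _ hlw.le
        have : 0 < Real.log N := by linarith
        linarith
    have h5 : Real.sqrt (Real.log N / Real.log w) =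
        Real.exp ((1 / 2) * Real.log (Real.log N / Real.log w)) := by
      rw [Real.sqrt_eq_rpow, Real.rpow_def_of_pos (by linarith), mul_comm]
    rw [h5, ← Real.exp_add]
    apply Real.exp_le_exp.2
    linarith
  · have he : I4 w ((N : ℝ) ^ (1 / 30 : ℝ)) = ∅ := by
      rw [eq_empty_iff_forall_notMem]
      intro p hp
      rw [mem_I4] at hp
      exact hz (hp.2.2.1.le.trans hp.2.2.2)
    rw [he, sum_empty, Real.exp_zero]
    have h6 : 1 ≤ Real.sqrt (Real.log N / Real.log w) := Real.one_le_sqrt.2 hratio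
    calc (1:ℝ) = 1 * 1 := (one_mul 1).symm
      _ ≤ _ := mul_le_mul hexp1 h6 zero_le_one (by positivity)

end Pool.Agent.DG
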