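import Pool.Agent.helper41.DG.Defs
import Pool.Agent.helper41.DG.R2
import Pool.Agent.helper41.DG.Wt

/-! # The Cauchy-Schwarz inequality -/

set_option autoImplicit false

open Finset

namespace Pool.Agent.DG

/-- the square of the length of a lattice vector -/
def nsq (v : ℤ × ℤ) : ℕ := (v.1 ^ 2 + v.2 ^ 2).natAbs

/-- the number of the distinct distances between `X` and `Y` -/
def Td (X Y : Finset (ℤ × ℤ)) : ℕ := ((X ×ˢ Y).image (fun q => nsq (q.1 - q.2))).card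

theorem nsq_cast (v : ℤ × ℤ) : ((nsq v : ℕ) : ℤ) = v.1 ^ 2 + v.2 ^ 2 := by
  unfold nsq
  rw [Int.natCast_natAbs, abs_of_nonneg (by positivity)]

theorem nsq_mem (N : ℕ) (u x y : ℤ × ℤ) (hx : Box N u x) (hy : Box N u y) (hxy : x ≠ y) :
    nsq (x - y) ∈ Icc 1 (2 * N ^ 2) := by
  obtain ⟨a1, a2, a3, a4⟩ := hx
  obtain ⟨b1, b2, b3, b4⟩ := hy
  rw [Finset.mem_Icc]
  have h := nsq_cast (x - y)
  rw [Prod.fst_sub, Prod.snd_sub] at h
  constructor
  · by_contra h0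
    have h1 : nsq (x - y) = 0 := by omega
    rw [h1, Nat.cast_zero] at h
    have h2 : (x.1 - y.1) ^ 2 = 0 := by nlinarith [sq_nonneg (x.1 - y.1), sq_nonneg (x.2 - y.2)]
    have h3 : (x.2 - y.2) ^ 2 = 0 := by nlinarith [sq_nonneg (x.1 - y.1), sq_nonneg (x.2 - y.2)]
    apply hxy
    ext
    · have := pow_eq_zero_iff (two_ne_zero) |>.mp h2
      omega
    · have := pow_eq_zero_iff (two_ne_zero) |>.mp h3
      omega
  · have h1 : (x.1 - y.1) ^ 2 ≤ (N : ℤ) ^ 2 := by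
      rw [sq_le_sq, abs_of_nonneg (Nat.cast_nonneg N : (0 : ℤ) ≤ N), abs_le]
      constructor <;> omega
    have h2 : (x.2 - y.2) ^ 2 ≤ (N : ℤ) ^ 2 := by
      rw [sq_le_sq, abs_of_nonneg (Nat.cast_nonneg N : (0 : ℤ) ≤ N), abs_le]
      constructor <;> omega
    have h3 : ((nsq (x - y) : ℕ) : ℤ) ≤ ((2 * N ^ 2 : ℕ) : ℤ) := by
      rw [h]
      push_cast
      linarith
    exact_mod_cast h3

theorem cnt_le (X Y : Finset (ℤ × ℤ)) (m : ℕ) (hm : 1 ≤ m) :
    ((X ×ˢ Y).filter (fun q => nsq (q.1 - q.2) = m)).card ≤ X.card * (4 * m.divisors.card) := by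
  rw [Finset.card_filter, Finset.sum_product, ← smul_eq_mul, ← Finset.sum_const]
  refine Finset.sum_le_sum fun x _ => ?_
  rw [← Finset.card_filter]
  have hinj : Function.Injective (fun y : ℤ × ℤ => x - y) := sub_right_injective
  rw [← Finset.card_image_of_injective _ hinj]
  refine r2_le m hm _ ?_
  intro v hv
  rw [Finset.mem_image] at hv
  obtain ⟨y, hy, rfl⟩ := hv
  rw [Finset.mem_filter] at hy
  rw [← nsq_cast]
  exact_mod_cast hy.2

theorem wt_sq (I : Finset ℕ) (m : ℕ) : wt I (1 / 2) m ^ 2 = wt I (1 / 4) m := by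
  unfold wt
  rw [← Finset.prod_pow]
  refine Finset.prod_congr rfl fun p _ => ?_
  split_ifs <;> norm_num

theorem cs_bound (I : Finset ℕ) (hI : ∀ p ∈ I, p.Prime) (N : ℕ) (u : ℤ × ℤ)
    (X Y : Finset (ℤ × ℤ)) (hX : ∀ x ∈ X, Box N u x) (hY : ∀ y ∈ Y, Box N u y)
    (hd : Disjoint X Y) :
    (∑ x ∈ X, ∑ y ∈ Y, wt I (1 / 2) (nsq (x - y))) ^ 2 ≤
      16 * (X.card : ℝ) ^ 2 * Td X Y * ∑ m ∈ Icc 1 (2 * N ^ 2), fw I m := by
  classical
  set Q := X ×ˢ Y with hQ
  set f : (ℤ × ℤ) × (ℤ × ℤ) → ℕ := fun q => nsq (q.1 - q.2) with hf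
  have hmem : ∀ q ∈ Q, f q ∈ Icc 1 (2 * N ^ 2) := by
    intro q hq
    rw [hQ, Finset.mem_product] at hq
    refine nsq_mem N u q.1 q.2 (hX _ hq.1) (hY _ hq.2) ?_
    intro h
    exact (Finset.disjoint_left.mp hd hq.1) (h ▸ hq.2)
  have hpos : ∀ m ∈ Icc 1 (2 * N ^ 2), (0 : ℝ) < (m.divisors.card : ℝ) := by
    intro m hm
    rw [Finset.mem_Icc] at hm
    exact_mod_cast Finset.card_pos.mpr ⟨1, Nat.one_mem_divisors.mpr (by omega)⟩
  rw [← Finset.sum_product' X Y (fun x y => wt I (1 / 2) (nsq (x - y)))]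
  have hcs := Finset.sum_mul_sq_le_sq_mul_sq Q
    (fun q => 1 / Real.sqrt ((f q).divisors.card : ℝ))
    (fun q => wt I (1 / 2) (f q) * Real.sqrt ((f q).divisors.card : ℝ))
  have e1 : ∑ q ∈ Q, 1 / Real.sqrt ((f q).divisors.card : ℝ) *
      (wt I (1 / 2) (f q) * Real.sqrt ((f q).divisors.card : ℝ)) =
      ∑ q ∈ Q, wt I (1 / 2) (nsq (q.1 - q.2)) := by
    refine Finset.sum_congr rfl fun q hq => ?_
    have h1 : Real.sqrt ((f q).divisors.card : ℝ) ≠ 0 :=
      (Real.sqrt_pos.mpr (hpos _ (hmem q hq))).ne'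
    field_simp
    rfl
  have e2 : ∑ q ∈ Q, (1 / Real.sqrt ((f q).divisors.card : ℝ)) ^ 2 ≤
      4 * (X.card : ℝ) * Td X Y := by
    have e3 : ∑ q ∈ Q, (1 / Real.sqrt ((f q).divisors.card : ℝ)) ^ 2 =
        ∑ m ∈ Q.image f, ∑ q ∈ Q with f q = m, 1 / ((f q).divisors.card : ℝ) := by
      rw [Finset.sum_fiberwise_of_maps_to (fun q hq => Finset.mem_image_of_mem f hq)]
      refine Finset.sum_congr rfl fun q hq => ?_
      rw [div_pow, one_pow, Real.sq_sqrt (Nat.cast_nonneg _)]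
    rw [e3]
    have e4 : ∀ m ∈ Q.image f, ∑ q ∈ Q with f q = m, 1 / ((f q).divisors.card : ℝ) ≤
        4 * (X.card : ℝ) := by
      intro m hm
      rw [Finset.mem_image] at hm
      obtain ⟨q0, hq0, rfl⟩ := hm
      have hm := hmem q0 hq0
      have hp := hpos _ hm
      have e5 : ∑ q ∈ Q with f q = f q0, 1 / ((f q).divisors.card : ℝ) =
          ((Q.filter (fun q => f q = f q0)).card : ℝ) * (1 / ((f q0).divisors.card : ℝ)) := by
        rw [← nsmul_eq_mul, ← Finset.sum_const]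
        refine Finset.sum_congr rfl fun q hq => ?_
        rw [(Finset.mem_filter.mp hq).2]
      rw [e5]
      have h1 : ((Q.filter (fun q => f q = f q0)).card : ℝ) ≤
          (X.card : ℝ) * (4 * ((f q0).divisors.card : ℝ)) := by
        exact_mod_cast cnt_le X Y (f q0) (Finset.mem_Icc.mp hm).1
      calc ((Q.filter (fun q => f q = f q0)).card : ℝ) * (1 / ((f q0).divisors.card : ℝ))
          ≤ ((X.card : ℝ) * (4 * ((f q0).divisors.card : ℝ))) * (1 / ((f q0).divisors.card : ℝ)) :=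
            mul_le_mul_of_nonneg_right h1 (by positivity)
        _ = 4 * (X.card : ℝ) := by field_simp
    calc ∑ m ∈ Q.image f, ∑ q ∈ Q with f q = m, 1 / ((f q).divisors.card : ℝ)
        ≤ ∑ m ∈ Q.image f, 4 * (X.card : ℝ) := Finset.sum_le_sum e4
      _ = 4 * (X.card : ℝ) * Td X Y := by
        rw [Finset.sum_const, nsmul_eq_mul, mul_comm]
        rfl
  have e6 : ∑ q ∈ Q, (wt I (1 / 2) (f q) * Real.sqrt ((f q).divisors.card : ℝ)) ^ 2 ≤
      4 * (X.card : ℝ) * ∑ m ∈ Icc 1 (2 * N ^ 2), fw I m := by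
    rw [← Finset.sum_fiberwise_of_maps_to hmem, Finset.mul_sum]
    refine Finset.sum_le_sum fun m hm => ?_
    have hterm : ∀ q ∈ Q.filter (fun q => f q = m),
        (wt I (1 / 2) (f q) * Real.sqrt ((f q).divisors.card : ℝ)) ^ 2 =
          wt I (1 / 4) m * (m.divisors.card : ℝ) := by
      intro q hq
      rw [(Finset.mem_filter.mp hq).2, mul_pow, wt_sq, Real.sq_sqrt (Nat.cast_nonneg _)]
    rw [Finset.sum_congr rfl hterm, Finset.sum_const, nsmul_eq_mul]
    by_cases hne : (Q.filter (fun q => f q = m)).card = 0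
    · rw [hne, Nat.cast_zero, zero_mul]
      have := fw_nonneg I m
      positivity
    · obtain ⟨q, hq⟩ := Finset.card_pos.mp (Nat.pos_of_ne_zero hne)
      have hqm := (Finset.mem_filter.mp hq).2
      have hb : bn m = 1 := by
        refine bn_eq_one (q.1 - q.2).1 (q.1 - q.2).2 ?_
        rw [← nsq_cast, ← hqm]
      have h1 : ((Q.filter (fun q => f q = m)).card : ℝ) ≤
          (X.card : ℝ) * (4 * (m.divisors.card : ℝ)) := by
        exact_mod_cast cnt_le X Y m (Finset.mem_Icc.mp hm).1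
      have h2 : 0 ≤ wt I (1 / 4) m * (m.divisors.card : ℝ) := by
        rw [← wt_sq]
        positivity
      calc ((Q.filter (fun q => f q = m)).card : ℝ) * (wt I (1 / 4) m * (m.divisors.card : ℝ))
          ≤ ((X.card : ℝ) * (4 * (m.divisors.card : ℝ))) *
              (wt I (1 / 4) m * (m.divisors.card : ℝ)) := mul_le_mul_of_nonneg_right h1 h2
        _ = 4 * (X.card : ℝ) * fw I m := by
          unfold fw
          rw [hb]
          ring
  rw [e1] at hcs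
  have hS : 0 ≤ ∑ q ∈ Q, (wt I (1 / 2) (f q) * Real.sqrt ((f q).divisors.card : ℝ)) ^ 2 :=
    Finset.sum_nonneg fun _ _ => sq_nonneg _
  calc (∑ q ∈ Q, wt I (1 / 2) (nsq (q.1 - q.2))) ^ 2
      ≤ (∑ q ∈ Q, (1 / Real.sqrt ((f q).divisors.card : ℝ)) ^ 2) *
          ∑ q ∈ Q, (wt I (1 / 2) (f q) * Real.sqrt ((f q).divisors.card : ℝ)) ^ 2 := hcs
    _ ≤ (4 * (X.card : ℝ) * Td X Y) *
          (4 * (X.card : ℝ) * ∑ m ∈ Icc 1 (2 * N ^ 2), fw I m) :=
        mul_le_mul e2 e6 hS (by positivity)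
    _ = 16 * (X.card : ℝ) ^ 2 * Td X Y * ∑ m ∈ Icc 1 (2 * N ^ 2), fw I m := by ring

end Pool.Agent.DG
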