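import Pool.Agent.helper41.DG.Block

/-! # The Brun-Hooley minorant -/

set_option autoImplicit false

open Finset

namespace Pool.Agent.DG

/-- tails of the relative errors -/
noncomputable def tl : ℕ → ℝ
  | 0 => 1 / 2
  | r + 1 => (2 / 75) * (1 / 4) ^ r

theorem comb_loc {P Q : Finset ℕ} (h : Q ⊆ P) {B : ℕ → ℤ × ℤ → ℝ} {b : ℕ → ℕ × ℕ → ℂ}
    {β : ℕ → ℝ} (hL : Loc P B b β) : Loc Q B b β where
  prime := fun p hp => hL.prime p (h hp)
  nonneg := fun p hp => hL.nonneg p (h hp)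
  le_one := fun p hp => hL.le_one p (h hp)
  expand := fun p hp => hL.expand p (h hp)
  mean := fun p hp => hL.mean p (h hp)
  mean_nonneg := fun p hp => hL.mean_nonneg p (h hp)
  mean_le := fun p hp => hL.mean_le p (h hp)
  small := fun p hp => hL.small p (h hp)

theorem comb_Fr_empty : Fr ∅ = {0} := by
  ext k
  rw [mem_Fr, Finset.mem_singleton]
  constructor
  · rintro ⟨h, -⟩
    exact Finsupp.support_eq_empty.1 (Finset.subset_empty.1 h)
  · rintro rfl
    simp

theorem comb_tl_nonneg (r : ℕ) : 0 ≤ tl r := by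
  cases r with
  | zero => norm_num [tl]
  | succ r =>
    simp only [tl]
    positivity

theorem comb_tl_le (r : ℕ) : tl r ≤ 1 / 2 := by
  cases r with
  | zero => norm_num [tl]
  | succ r =>
    have : (1 / 4 : ℝ) ^ r ≤ 1 := pow_le_one₀ (by norm_num) (by norm_num)
    simp only [tl]
    linarith

theorem comb_fact (s : ℕ) :
    (2 / 5 : ℝ) ^ (2 * (s + 1) + 1) / ((2 * (s + 1) + 1).factorial : ℝ) ≤
      (12 / 1000) * (1 / 4) ^ s := by
  induction s with
  | zero => norm_num [Nat.factorial]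
  | succ s ih =>
    have e1 : 2 * (s + 1 + 1) + 1 = (2 * (s + 1) + 1) + 1 + 1 := by ring
    rw [e1, Nat.factorial_succ, Nat.factorial_succ]
    push_cast
    have hf : (0 : ℝ) < ((2 * (s + 1) + 1).factorial : ℝ) := by exact_mod_cast Nat.factorial_pos _
    have hs : (0 : ℝ) ≤ (s : ℝ) := Nat.cast_nonneg s
    set A : ℝ := (2 / 5 : ℝ) ^ (2 * (s + 1) + 1) / ((2 * (s + 1) + 1).factorial : ℝ) with hA
    have hA0 : 0 ≤ A := by positivity
    have e2 : (2 / 5 : ℝ) ^ (2 * (s + 1) + 1 + 1 + 1) /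
        ((2 * ((s : ℝ) + 1) + 2 + 1) * ((2 * ((s : ℝ) + 1) + 1 + 1) *
          ((2 * (s + 1) + 1).factorial : ℝ))) =
        A * ((4 / 25) / ((2 * ((s : ℝ) + 1) + 2 + 1) * (2 * ((s : ℝ) + 1) + 1 + 1))) := by
      rw [hA, pow_succ, pow_succ]
      field_simp
      ring
    rw [e2]
    have e3 : (4 / 25 : ℝ) / ((2 * ((s : ℝ) + 1) + 2 + 1) * (2 * ((s : ℝ) + 1) + 1 + 1)) ≤
        1 / 4 := by
      rw [div_le_iff₀ (by positivity)]
      nlinarith
    calc A * ((4 / 25) / ((2 * ((s : ℝ) + 1) + 2 + 1) * (2 * ((s : ℝ) + 1) + 1 + 1)))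
        ≤ A * (1 / 4) := mul_le_mul_of_nonneg_left e3 hA0
      _ ≤ (12 / 1000) * (1 / 4) ^ s * (1 / 4) := mul_le_mul_of_nonneg_right ih (by norm_num)
      _ = (12 / 1000) * (1 / 4) ^ (s + 1) := by ring

theorem comb_Z (r : ℕ) (Y Z : ℝ) (hY : 3 / 5 ≤ Y)
    (hZ : Z ≤ (2 / 5) ^ (2 * r + 1) / ((2 * r + 1).factorial : ℝ)) (h0 : r = 0 → Y = 1) :
    Z ≤ Y * (tl r - tl (r + 1)) := by
  cases r with
  | zero =>
    rw [h0 rfl]
    norm_num [Nat.factorial] at hZ
    norm_num [tl]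
    linarith
  | succ s =>
    have h := comb_fact s
    set q : ℝ := (1 / 4) ^ s with hq
    have hq0 : 0 < q := by positivity
    have e : tl (s + 1) - tl (s + 1 + 1) = q / 50 := by
      simp only [tl, pow_succ]
      rw [← hq]
      ring
    rw [e]
    nlinarith

theorem comb_aux {B : ℕ → ℤ × ℤ → ℝ} {b : ℕ → ℕ × ℕ → ℂ} {β : ℕ → ℝ} {w : ℝ} (hw0 : 10 ≤ w)
    (J : ℕ) : ∀ (r : ℕ) (P : Finset ℕ) (z : ℝ), Loc P B b β → 1 ≤ z → z ≤ w ^ (2 ^ J) →
    (∀ p ∈ P, w < (p : ℝ)) → (∀ p ∈ P, (p : ℝ) ≤ z) →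
    (∀ t : ℝ, 1 ≤ t →
      ∑ p ∈ P.filter (fun p : ℕ => t < (p : ℝ) ∧ (p : ℝ) ≤ t ^ 2), 1 / (p : ℝ) ≤ 2 / 5) →
    ∃ (Uf Gf : ℤ × ℤ → ℝ) (cu cg : (ℕ →₀ ℕ × ℕ) → ℂ) (U μ : ℝ),
      TP P Uf cu U (5 / (3 * w) * U) (z ^ (4 * r + 6)) ∧
      TP P Gf cg μ ((2 + tl r) * (5 / (3 * w)) * U) (z ^ (4 * r + 6)) ∧
      (∏ p ∈ P, (1 - 1 / (p : ℝ)) ≤ U) ∧ 0 < U ∧ (1 - tl r) * U ≤ μ ∧ μ ≤ U ∧
      (∀ v, ∏ p ∈ P, (1 - (1 / 2) * B p v) ≤ Uf v) ∧
      (∀ v, Gf v ≤ ∏ p ∈ P, (1 - (1 / 2) * B p v)) := by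
  induction J with
  | zero =>
    intro r P z hL hz1 hJ hw hz hb
    have hP : P = ∅ := by
      rw [Finset.eq_empty_iff_forall_notMem]
      intro p hp
      have h1 := hw p hp
      have h2 := hz p hp
      have h3 : z ≤ w := by simpa using hJ
      linarith
    subst hP
    have hT : ∀ η : ℝ, TP ∅ (fun _ => 1) (fun _ => 1) 1 η (z ^ (4 * r + 6)) := by
      intro η
      refine ⟨?_, ?_, ?_, ?_⟩
      · intro v
        rw [comb_Fr_empty, Finset.sum_singleton, pr_zero, ec_zero]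
        simp
      · simp
      · intro k hk hk0
        rw [comb_Fr_empty, Finset.mem_singleton] at hk
        exact absurd hk hk0
      · intro k hk _
        rw [comb_Fr_empty, Finset.mem_singleton] at hk
        subst hk
        have : md 0 = 1 := by simp [md]
        rw [this]
        simpa using one_le_pow₀ hz1
    refine ⟨fun _ => 1, fun _ => 1, fun _ => 1, fun _ => 1, 1, 1, hT _, hT _, ?_, one_pos, ?_,
      le_rfl, ?_, ?_⟩
    · simp
    · have := comb_tl_nonneg r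
      linarith
    · intro v
      simp
    · intro v
      simp
  | succ J ih =>
    intro r P z hL hz1 hJ hw hz hb
    have hw' : 0 < w := by linarith
    have hz0 : 0 ≤ z := by linarith
    set t := Real.sqrt z with ht
    have ht2 : t ^ 2 = z := Real.sq_sqrt hz0
    have ht1 : 1 ≤ t := by
      rw [ht]
      exact Real.one_le_sqrt.2 hz1
    have htJ : t ≤ w ^ (2 ^ J) := by
      have e : w ^ (2 ^ (J + 1)) = (w ^ (2 ^ J)) ^ 2 := by
        rw [← pow_mul, pow_succ]
      rw [e, ← ht2] at hJ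
      exact le_of_sq_le_sq hJ (by positivity)
    set P1 := P.filter (fun p : ℕ => t < (p : ℝ)) with hP1
    set P0 := P.filter (fun p : ℕ => ¬ t < (p : ℝ)) with hP0
    have hsub1 : P1 ⊆ P := Finset.filter_subset _ _
    have hsub0 : P0 ⊆ P := Finset.filter_subset _ _
    have hdisj : Disjoint P1 P0 := Finset.disjoint_filter_filter_not _ _ _
    have hunion : P1 ∪ P0 = P := Finset.filter_union_filter_not_eq _ _
    have hs1 : ∑ p ∈ P1, 1 / (p : ℝ) ≤ 2 / 5 := by
      have e : P1 = P.filter (fun p : ℕ => t < (p : ℝ) ∧ (p : ℝ) ≤ t ^ 2) := by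
        rw [hP1]
        refine Finset.filter_congr ?_
        intro p hp
        rw [ht2]
        exact ⟨fun h => ⟨h, hz p hp⟩, fun h => h.1⟩
      rw [e]
      exact hb t ht1
    obtain ⟨cy, ce, Y, Z, hTy, hTe, hYp, hY, hZ0, hZ, hr0, hup, hdf⟩ := block (comb_loc hsub1 hL)
      (w := w) (z := z) (by linarith) hz1 (fun p hp => hw p (hsub1 hp))
      (fun p hp => hz p (hsub1 hp)) hs1 r
    obtain ⟨Uf', Gf', cu, cg, U', μ', hTu, hTg, hUp, hU', hμ1, hμ2, hu0, hg0⟩ :=
      ih (r + 1) P0 t (comb_loc hsub0 hL) ht1 htJ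
      (fun p hp => hw p (hsub0 hp))
      (fun p hp => not_lt.1 (Finset.mem_filter.1 hp).2) (by
        intro u hu
        refine le_trans ?_ (hb u hu)
        refine Finset.sum_le_sum_of_subset_of_nonneg (Finset.filter_subset_filter _ hsub0) ?_
        intro p _ _
        positivity)
    have hZY := comb_Z r Y Z hY hZ hr0
    have hY0 : 0 < Y := by linarith
    have htl0 := comb_tl_nonneg r
    have htl1 := comb_tl_le r
    have htl0' := comb_tl_nonneg (r + 1)
    have htl1' := comb_tl_le (r + 1)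
    have hp1 : ∀ p ∈ P, 0 ≤ 1 - 1 / (p : ℝ) := by
      intro p hp
      have hp2 : (1 : ℝ) ≤ (p : ℝ) := by exact_mod_cast (hL.prime p hp).one_le
      have : 1 / (p : ℝ) ≤ 1 := by
        rw [div_le_one (by linarith)]
        exact hp2
      linarith
    have hpB : ∀ v, ∀ p ∈ P, 0 ≤ 1 - (1 / 2) * B p v := by
      intro v p hp
      have h1 := hL.le_one p hp v
      linarith
    set τ : ℝ := 5 / (3 * w) with hτ
    have hτ0 : 0 < τ := by positivity
    have hτw : 1 / w = (3 / 5) * τ := by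
      rw [hτ]
      field_simp
    have hτ1 : τ ≤ 1 / 6 := by
      rw [hτ, div_le_iff₀ (by positivity)]
      linarith
    have hw1 : 0 < 1 / w := by positivity
    have hμ0 : 0 ≤ μ' := by
      refine le_trans ?_ hμ1
      exact mul_nonneg (by linarith) hU'.le
    have hYτ : (1 / w) * U' ≤ τ * (Y * U') := by
      rw [hτw]
      nlinarith [mul_pos hτ0 hU']
    have e0 : ∀ Q : Finset ℕ, prt Q 0 = 0 := by
      intro Q
      ext p <;> simp [prt, Finsupp.filter_apply]
    -- norms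
    have hmem : ∀ k ∈ Fr P, prt P1 k ∈ Fr P1 ∧ prt P0 k ∈ Fr P0 ∧ prt P1 k + prt P0 k = k ∧
        md k = md (prt P1 k) * md (prt P0 k) := by
      intro k hk
      have hk' : k ∈ Fr (P1 ∪ P0) := by rw [hunion]; exact hk
      have hk'' : k ∈ Fr (P0 ∪ P1) := by rw [Finset.union_comm]; exact hk'
      have m1 : prt P1 k ∈ Fr P1 := prt_mem hk'
      have m0 : prt P0 k ∈ Fr P0 := prt_mem hk''
      have hsum := prt_add_prt hdisj hk'
      refine ⟨m1, m0, hsum, ?_⟩
      have := md_add hdisj m1 m0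
      rw [hsum] at this
      exact this
    have ncu : ∀ l ∈ Fr P0, ‖cu l‖ ≤ U' := by
      intro l hl
      by_cases h0 : l = 0
      · rw [h0, hTu.mean, Complex.norm_real, Real.norm_of_nonneg hU'.le]
      · refine (hTu.small l hl h0).trans ?_
        nlinarith
    have ncg : ∀ l ∈ Fr P0, ‖cg l‖ ≤ U' := by
      intro l hl
      by_cases h0 : l = 0
      · rw [h0, hTg.mean, Complex.norm_real, Real.norm_of_nonneg hμ0]
        exact hμ2
      · refine (hTg.small l hl h0).trans ?_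
        have : (2 + tl (r + 1)) * τ ≤ 1 := by nlinarith
        nlinarith
    refine ⟨fun v => yf P1 B r v * Uf' v, fun v => yf P1 B r v * Gf' v - ef P1 B r v * Uf' v,
      fun k => cy (prt P1 k) * cu (prt P0 k),
      fun k => cy (prt P1 k) * cg (prt P0 k) - ce (prt P1 k) * cu (prt P0 k), Y * U',
      Y * μ' - Z * U', ⟨?_, ?_, ?_, ?_⟩, ⟨?_, ?_, ?_, ?_⟩, ?_, mul_pos hY0 hU', ?_, ?_, ?_, ?_⟩
    · intro v
      have h := TP_mul_expand hdisj hTy.expand hTu.expand v
      rw [hunion] at h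
      exact h
    · simp only [e0]
      rw [hTy.mean, hTu.mean]
      push_cast
      ring
    · intro k hk hk0
      obtain ⟨m1, m0, hsum, hmd⟩ := hmem k hk
      show ‖cy (prt P1 k) * cu (prt P0 k)‖ ≤ τ * (Y * U')
      rw [norm_mul]
      by_cases h1 : prt P1 k = 0
      · by_cases h0 : prt P0 k = 0
        · exfalso
          apply hk0
          rw [← hsum, h1, h0, add_zero]
        · rw [h1, hTy.mean, Complex.norm_real, Real.norm_of_nonneg hY0.le]
          have := hTu.small _ m0 h0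
          calc Y * ‖cu (prt P0 k)‖ ≤ Y * (τ * U') := mul_le_mul_of_nonneg_left this hY0.le
            _ = τ * (Y * U') := by ring
      · refine le_trans ?_ hYτ
        exact mul_le_mul (hTy.small _ m1 h1) (ncu _ m0) (norm_nonneg _) hw1.le
    · intro k hk hck
      obtain ⟨m1, m0, hsum, hmd⟩ := hmem k hk
      have hc1 : cy (prt P1 k) ≠ 0 := left_ne_zero_of_mul hck
      have hc0 : cu (prt P0 k) ≠ 0 := right_ne_zero_of_mul hck
      have l1 := hTy.level _ m1 hc1
      have l0 := hTu.level _ m0 hc0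
      rw [hmd]
      push_cast
      calc (md (prt P1 k) : ℝ) * (md (prt P0 k) : ℝ) ≤ z ^ (2 * r + 1) * t ^ (4 * (r + 1) + 6) :=
            mul_le_mul l1 l0 (Nat.cast_nonneg _) (by positivity)
        _ = z ^ (4 * r + 6) := by
            have e : t ^ (4 * (r + 1) + 6) = z ^ (2 * r + 5) := by
              rw [← ht2, ← pow_mul]
              congr 1
              ring
            rw [e, ← pow_add]
            congr 1
            ring
    · intro v
      have h := TP_mul_expand hdisj hTy.expand hTg.expand v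
      have h' := TP_mul_expand hdisj hTe.expand hTu.expand v
      rw [hunion] at h h'
      have e : ((yf P1 B r v * Gf' v - ef P1 B r v * Uf' v : ℝ) : ℂ) =
          ((yf P1 B r v * Gf' v : ℝ) : ℂ) - ((ef P1 B r v * Uf' v : ℝ) : ℂ) := by
        push_cast
        ring
      show ((yf P1 B r v * Gf' v - ef P1 B r v * Uf' v : ℝ) : ℂ) = _
      rw [e, h, h', ← Finset.sum_sub_distrib]
      refine Finset.sum_congr rfl ?_
      intro k _
      ring
    · simp only [e0]
      rw [hTy.mean, hTu.mean, hTg.mean, hTe.mean]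
      push_cast
      ring
    · intro k hk hk0
      obtain ⟨m1, m0, hsum, hmd⟩ := hmem k hk
      show ‖cy (prt P1 k) * cg (prt P0 k) - ce (prt P1 k) * cu (prt P0 k)‖ ≤
        (2 + tl r) * τ * (Y * U')
      refine (norm_sub_le _ _).trans ?_
      rw [norm_mul, norm_mul]
      by_cases h1 : prt P1 k = 0
      · by_cases h0 : prt P0 k = 0
        · exfalso
          apply hk0
          rw [← hsum, h1, h0, add_zero]
        · rw [h1, hTy.mean, hTe.mean, Complex.norm_real, Complex.norm_real,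
            Real.norm_of_nonneg hY0.le, Real.norm_of_nonneg hZ0]
          have s1 := hTg.small _ m0 h0
          have s2 := hTu.small _ m0 h0
          calc Y * ‖cg (prt P0 k)‖ + Z * ‖cu (prt P0 k)‖
              ≤ Y * ((2 + tl (r + 1)) * τ * U') + Z * (τ * U') :=
                add_le_add (mul_le_mul_of_nonneg_left s1 hY0.le)
                  (mul_le_mul_of_nonneg_left s2 hZ0)
            _ = (Y * (2 + tl (r + 1)) + Z) * (τ * U') := by ring
            _ ≤ (Y * (2 + tl r)) * (τ * U') := by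
                refine mul_le_mul_of_nonneg_right ?_ (by positivity)
                nlinarith
            _ = (2 + tl r) * τ * (Y * U') := by ring
      · have b1 : ‖cy (prt P1 k)‖ * ‖cg (prt P0 k)‖ ≤ τ * (Y * U') := by
          refine le_trans ?_ hYτ
          exact mul_le_mul (hTy.small _ m1 h1) (ncg _ m0) (norm_nonneg _) hw1.le
        have b2 : ‖ce (prt P1 k)‖ * ‖cu (prt P0 k)‖ ≤ τ * (Y * U') := by
          refine le_trans ?_ hYτ
          exact mul_le_mul (hTe.small _ m1 h1) (ncu _ m0) (norm_nonneg _) hw1.le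
        have h3 : 0 ≤ tl r * (τ * (Y * U')) := by positivity
        nlinarith
    · intro k hk hck
      obtain ⟨m1, m0, hsum, hmd⟩ := hmem k hk
      have key : (md (prt P1 k) : ℝ) ≤ z ^ (2 * r + 1) ∧
          (md (prt P0 k) : ℝ) ≤ t ^ (4 * (r + 1) + 6) := by
        by_cases h : cy (prt P1 k) * cg (prt P0 k) = 0
        · have h' : ce (prt P1 k) * cu (prt P0 k) ≠ 0 := by
            intro h'
            apply hck
            show cy (prt P1 k) * cg (prt P0 k) - ce (prt P1 k) * cu (prt P0 k) = 0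
            rw [h, h', sub_zero]
          exact ⟨hTe.level _ m1 (left_ne_zero_of_mul h'), hTu.level _ m0 (right_ne_zero_of_mul h')⟩
        · exact ⟨hTy.level _ m1 (left_ne_zero_of_mul h), hTg.level _ m0 (right_ne_zero_of_mul h)⟩
      rw [hmd]
      push_cast
      calc (md (prt P1 k) : ℝ) * (md (prt P0 k) : ℝ) ≤ z ^ (2 * r + 1) * t ^ (4 * (r + 1) + 6) :=
            mul_le_mul key.1 key.2 (Nat.cast_nonneg _) (by positivity)
        _ = z ^ (4 * r + 6) := by
            have e : t ^ (4 * (r + 1) + 6) = z ^ (2 * r + 5) := by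
              rw [← ht2, ← pow_mul]
              congr 1
              ring
            rw [e, ← pow_add]
            congr 1
            ring
    · have h1 : 0 ≤ ∏ p ∈ P0, (1 - 1 / (p : ℝ)) :=
        Finset.prod_nonneg (fun p hp => hp1 p (hsub0 hp))
      have hprod : ∏ p ∈ P, (1 - 1 / (p : ℝ)) =
          (∏ p ∈ P1, (1 - 1 / (p : ℝ))) * ∏ p ∈ P0, (1 - 1 / (p : ℝ)) := by
        rw [← Finset.prod_union hdisj, hunion]
      rw [hprod]
      exact mul_le_mul hYp hUp h1 hY0.le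
    · have h1 := mul_le_mul_of_nonneg_left hμ1 hY0.le
      have h2 := mul_le_mul_of_nonneg_right hZY hU'.le
      nlinarith
    · have h1 := mul_le_mul_of_nonneg_left hμ2 hY0.le
      have h2 := mul_nonneg hZ0 hU'.le
      linarith
    · intro v
      have hprod : ∏ p ∈ P, (1 - (1 / 2) * B p v) =
          (∏ p ∈ P1, (1 - (1 / 2) * B p v)) * ∏ p ∈ P0, (1 - (1 / 2) * B p v) := by
        rw [← Finset.prod_union hdisj, hunion]
      have h1 : 0 ≤ ∏ p ∈ P1, (1 - (1 / 2) * B p v) :=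
        Finset.prod_nonneg (fun p hp => hpB v p (hsub1 hp))
      have h0 : 0 ≤ ∏ p ∈ P0, (1 - (1 / 2) * B p v) :=
        Finset.prod_nonneg (fun p hp => hpB v p (hsub0 hp))
      rw [hprod]
      exact mul_le_mul (hup v) (hu0 v) h0 (h1.trans (hup v))
    · intro v
      have hprod : ∏ p ∈ P, (1 - (1 / 2) * B p v) =
          (∏ p ∈ P1, (1 - (1 / 2) * B p v)) * ∏ p ∈ P0, (1 - (1 / 2) * B p v) := by
        rw [← Finset.prod_union hdisj, hunion]
      have h1 : 0 ≤ ∏ p ∈ P1, (1 - (1 / 2) * B p v) :=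
        Finset.prod_nonneg (fun p hp => hpB v p (hsub1 hp))
      have h0 : 0 ≤ ∏ p ∈ P0, (1 - (1 / 2) * B p v) :=
        Finset.prod_nonneg (fun p hp => hpB v p (hsub0 hp))
      have a1 := hup v
      have a2 := hdf v
      have a3 := hu0 v
      have a4 := hg0 v
      rw [hprod]
      set Q1 := ∏ p ∈ P1, (1 - (1 / 2) * B p v)
      set Q0 := ∏ p ∈ P0, (1 - (1 / 2) * B p v)
      show yf P1 B r v * Gf' v - ef P1 B r v * Uf' v ≤ Q1 * Q0
      have b1 : yf P1 B r v * Gf' v ≤ yf P1 B r v * Q0 :=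
        mul_le_mul_of_nonneg_left a4 (h1.trans a1)
      have b2 : (yf P1 B r v - Q1) * Q0 ≤ ef P1 B r v * Uf' v := by
        refine (mul_le_mul_of_nonneg_left a3 (sub_nonneg.2 a1)).trans ?_
        exact mul_le_mul_of_nonneg_right a2 (h0.trans a3)
      nlinarith

theorem minorant {P : Finset ℕ} {B : ℕ → ℤ × ℤ → ℝ} {b : ℕ → ℕ × ℕ → ℂ} {β : ℕ → ℝ}
    (hL : Loc P B b β) {w z : ℝ} (hw0 : 10 ≤ w) (hz1 : 1 ≤ z) (hw : ∀ p ∈ P, w < (p : ℝ))
    (hz : ∀ p ∈ P, (p : ℝ) ≤ z)
    (hb : ∀ t : ℝ, 1 ≤ t →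
      ∑ p ∈ P.filter (fun p : ℕ => t < (p : ℝ) ∧ (p : ℝ) ≤ t ^ 2), 1 / (p : ℝ) ≤ 2 / 5) :
    ∃ (G : ℤ × ℤ → ℝ) (c : (ℕ →₀ ℕ × ℕ) → ℂ) (μ U : ℝ),
      TP P G c μ (5 / w * U) (z ^ 6) ∧
      (∀ v, G v ≤ ∏ p ∈ P, (1 - (1 / 2) * B p v)) ∧
      (∏ p ∈ P, (1 - 1 / (p : ℝ)) ≤ U) ∧ 0 < U ∧ U / 2 ≤ μ := by
  obtain ⟨J, hJ⟩ : ∃ J : ℕ, z ≤ w ^ (2 ^ J) := by
    obtain ⟨J, hJ⟩ := pow_unbounded_of_one_lt z (by linarith : (1 : ℝ) < w)
    refine ⟨J, hJ.le.trans ?_⟩
    exact pow_le_pow_right₀ (by linarith) (Nat.lt_two_pow_self).le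
  obtain ⟨Uf, Gf, cu, cg, U, μ, h1, h2, h3, h4, h5, h6, h7, h8⟩ :=
    comb_aux hw0 J 0 P z hL hz1 hJ hw hz hb
  refine ⟨Gf, cg, μ, U, ⟨h2.expand, h2.mean, fun k hk hk0 => (h2.small k hk hk0).trans ?_,
    fun k hk hk0 => by simpa using h2.level k hk hk0⟩, h8, h3, h4, ?_⟩
  · have hw' : 0 < w := by linarith
    simp only [tl]
    have : (2 + 1 / 2) * (5 / (3 * w)) * U = (25 / 6) / w * U := by
      field_simp
      ring
    rw [this]
    have : (25 / 6) / w ≤ 5 / w := by
      apply div_le_div_of_nonneg_right _ hw'.le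
      norm_num
    nlinarith
  · have : (1 - tl 0) * U = U / 2 := by simp only [tl]; ring
    linarith

end Pool.Agent.DG
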