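import Pool.Agent.helper41.DG.BlockK

/-! # The Brun-Hooley majorant -/

set_option autoImplicit false

open Finset

namespace Pool.Agent.DG

/-- tails of the products -/
noncomputable def tu : ℕ → ℝ
  | 0 => 3
  | r + 1 => 1 + (1 / 5) * (1 / 4) ^ r

theorem combK_loc {P Q : Finset ℕ} (h : Q ⊆ P) {B : ℕ → ℤ × ℤ → ℝ} {b : ℕ → ℕ × ℕ → ℂ}
    {β : ℕ → ℝ} (hL : Loc P B b β) : Loc Q B b β where
  prime := fun p hp => hL.prime p (h hp)
  nonneg := fun p hp => hL.nonneg p (h hp)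
  le_one := fun p hp => hL.le_one p (h hp)
  expand := fun p hp => hL.expand p (h hp)
  mean := fun p hp => hL.mean p (h hp)
  mean_nonneg := fun p hp => hL.mean_nonneg p (h hp)
  mean_le := fun p hp => hL.mean_le p (h hp)
  small := fun p hp => hL.small p (h hp)

theorem combK_Fr_empty : Fr ∅ = {0} := by
  ext k
  rw [mem_Fr, Finset.mem_singleton]
  constructor
  · rintro ⟨h, -⟩
    exact Finsupp.support_eq_empty.1 (Finset.subset_empty.1 h)
  · rintro rfl
    simp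

theorem combK_one_le_tu (r : ℕ) : 1 ≤ tu r := by
  cases r with
  | zero => norm_num [tu]
  | succ r =>
    have : (0 : ℝ) ≤ (1 / 5) * (1 / 4) ^ r := by positivity
    simp only [tu]
    linarith

theorem combK_fact (s : ℕ) :
    (3 / 5 : ℝ) ^ (2 * (s + 1) + 1) / ((2 * (s + 1) + 1).factorial : ℝ) ≤
      (36 / 1000) * (1 / 4) ^ s := by
  induction s with
  | zero => norm_num [Nat.factorial]
  | succ s ih =>
    have e1 : 2 * (s + 1 + 1) + 1 = (2 * (s + 1) + 1) + 1 + 1 := by ring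
    rw [e1, Nat.factorial_succ, Nat.factorial_succ]
    push_cast
    have hf : (0 : ℝ) < ((2 * (s + 1) + 1).factorial : ℝ) := by exact_mod_cast Nat.factorial_pos _
    have hs : (0 : ℝ) ≤ (s : ℝ) := Nat.cast_nonneg s
    set A : ℝ := (3 / 5 : ℝ) ^ (2 * (s + 1) + 1) / ((2 * (s + 1) + 1).factorial : ℝ) with hA
    have hA0 : 0 ≤ A := by positivity
    have e2 : (3 / 5 : ℝ) ^ (2 * (s + 1) + 1 + 1 + 1) /
        ((2 * ((s : ℝ) + 1) + 2 + 1) * ((2 * ((s : ℝ) + 1) + 1 + 1) *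
          ((2 * (s + 1) + 1).factorial : ℝ))) =
        A * ((9 / 25) / ((2 * ((s : ℝ) + 1) + 2 + 1) * (2 * ((s : ℝ) + 1) + 1 + 1))) := by
      rw [hA, pow_succ, pow_succ]
      field_simp
      ring
    rw [e2]
    have e3 : (9 / 25 : ℝ) / ((2 * ((s : ℝ) + 1) + 2 + 1) * (2 * ((s : ℝ) + 1) + 1 + 1)) ≤
        1 / 4 := by
      rw [div_le_iff₀ (by positivity)]
      nlinarith
    calc A * ((9 / 25) / ((2 * ((s : ℝ) + 1) + 2 + 1) * (2 * ((s : ℝ) + 1) + 1 + 1)))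
        ≤ A * (1 / 4) := mul_le_mul_of_nonneg_left e3 hA0
      _ ≤ (36 / 1000) * (1 / 4) ^ s * (1 / 4) := mul_le_mul_of_nonneg_right ih (by norm_num)
      _ = (36 / 1000) * (1 / 4) ^ (s + 1) := by ring

theorem combK_tu (r : ℕ) :
    (1 + (5 / 2) * ((3 / 5 : ℝ) ^ (2 * r + 1) / ((2 * r + 1).factorial : ℝ))) * tu (r + 1) ≤
      tu r := by
  cases r with
  | zero => norm_num [tu, Nat.factorial]
  | succ s =>
    have h := combK_fact s
    set q : ℝ := (1 / 4) ^ s with hq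
    have hq0 : 0 < q := by positivity
    have hq1 : q ≤ 1 := pow_le_one₀ (by norm_num) (by norm_num)
    have h0 : (0 : ℝ) ≤ (3 / 5 : ℝ) ^ (2 * (s + 1) + 1) / ((2 * (s + 1) + 1).factorial : ℝ) := by
      positivity
    set ζ : ℝ := (3 / 5 : ℝ) ^ (2 * (s + 1) + 1) / ((2 * (s + 1) + 1).factorial : ℝ)
    have e : tu (s + 1 + 1) = 1 + q / 20 := by
      simp only [tu, pow_succ]
      rw [← hq]
      ring
    have e' : tu (s + 1) = 1 + q / 5 := by
      simp only [tu]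
      rw [← hq]
      ring
    rw [e, e']
    nlinarith [mul_nonneg h0 hq0.le]

theorem combK_aux {B : ℕ → ℤ × ℤ → ℝ} {b : ℕ → ℕ × ℕ → ℂ} {β κ : ℕ → ℝ} {w : ℝ} (hw0 : 10 ≤ w)
    (J : ℕ) : ∀ (r : ℕ) (P : Finset ℕ) (z : ℝ), Loc P B b β → (∀ p ∈ P, 0 ≤ κ p) →
    (∀ p ∈ P, κ p ≤ 3 / 4) → 1 ≤ z → z ≤ w ^ (2 ^ J) →
    (∀ p ∈ P, w < (p : ℝ)) → (∀ p ∈ P, (p : ℝ) ≤ z) →
    (∀ t : ℝ, 1 ≤ t →
      ∑ p ∈ P.filter (fun p : ℕ => t < (p : ℝ) ∧ (p : ℝ) ≤ t ^ 2), 1 / (p : ℝ) ≤ 2 / 5) →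
    ∃ (Uf : ℤ × ℤ → ℝ) (c : (ℕ →₀ ℕ × ℕ) → ℂ) (U : ℝ),
      TP P Uf c U (4 / w * U) (z ^ (4 * r + 4)) ∧ 0 < U ∧
      U ≤ tu r * ∏ p ∈ P, (1 - κ p * β p) ∧
      (∀ v, ∏ p ∈ P, (1 - κ p * B p v) ≤ Uf v) := by
  induction J with
  | zero =>
    intro r P z hL hκ0 hκ1 hz1 hJ hw hz hb
    have hP : P = ∅ := by
      rw [Finset.eq_empty_iff_forall_notMem]
      intro p hp
      have h1 := hw p hp
      have h2 := hz p hp
      have h3 : z ≤ w := by simpa using hJ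
      linarith
    subst hP
    refine ⟨fun _ => 1, fun _ => 1, 1, ⟨?_, ?_, ?_, ?_⟩, one_pos, ?_, ?_⟩
    · intro v
      rw [combK_Fr_empty, Finset.sum_singleton, pr_zero, ec_zero]
      simp
    · simp
    · intro k hk hk0
      rw [combK_Fr_empty, Finset.mem_singleton] at hk
      exact absurd hk hk0
    · intro k hk _
      rw [combK_Fr_empty, Finset.mem_singleton] at hk
      subst hk
      have : md 0 = 1 := by simp [md]
      rw [this]
      simpa using one_le_pow₀ hz1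
    · simpa using combK_one_le_tu r
    · intro v
      simp
  | succ J ih =>
    intro r P z hL hκ0 hκ1 hz1 hJ hw hz hb
    have hw' : 0 < w := by linarith
    have hz0 : 0 ≤ z := by linarith
    set t := Real.sqrt z with ht
    have ht2 : t ^ 2 = z := Real.sq_sqrt hz0
    have ht1 : 1 ≤ t := by
      rw [ht]
      exact Real.one_le_sqrt.2 hz1
    have htJ : t ≤ w ^ (2 ^ J) := by
      have e : w ^ (2 ^ (J + 1)) = (w ^ (2 ^ J)) ^ 2 := by
        rw [← pow_mul, pow_succ]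
      rw [e, ← ht2] at hJ
      exact le_of_sq_le_sq hJ (by positivity)
    set P1 := P.filter (fun p : ℕ => t < (p : ℝ)) with hP1
    set P0 := P.filter (fun p : ℕ => ¬ t < (p : ℝ)) with hP0
    have hsub1 : P1 ⊆ P := Finset.filter_subset _ _
    have hsub0 : P0 ⊆ P := Finset.filter_subset _ _
    have hdisj : Disjoint P1 P0 := Finset.disjoint_filter_filter_not _ _ _
    have hunion : P1 ∪ P0 = P := Finset.filter_union_filter_not_eq _ _
    have hs1 : ∑ p ∈ P1, 1 / (p : ℝ) ≤ 2 / 5 := by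
      have e : P1 = P.filter (fun p : ℕ => t < (p : ℝ) ∧ (p : ℝ) ≤ t ^ 2) := by
        rw [hP1]
        refine Finset.filter_congr ?_
        intro p hp
        rw [ht2]
        exact ⟨fun h => ⟨h, hz p hp⟩, fun h => h.1⟩
      rw [e]
      exact hb t ht1
    obtain ⟨c1, Y, hT1, hY, hY1, hpt1⟩ := blockK (combK_loc hsub1 hL)
      (fun p hp => hκ0 p (hsub1 hp)) (fun p hp => hκ1 p (hsub1 hp)) (w := w) (z := z)
      (by linarith) hz1 (fun p hp => hw p (hsub1 hp)) (fun p hp => hz p (hsub1 hp)) hs1 r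
    obtain ⟨Uf', c0, U', hT0, hU', hU1, hpt0⟩ := ih (r + 1) P0 t (combK_loc hsub0 hL)
      (fun p hp => hκ0 p (hsub0 hp)) (fun p hp => hκ1 p (hsub0 hp)) ht1 htJ
      (fun p hp => hw p (hsub0 hp))
      (fun p hp => not_lt.1 (Finset.mem_filter.1 hp).2) (by
        intro u hu
        refine le_trans ?_ (hb u hu)
        refine Finset.sum_le_sum_of_subset_of_nonneg (Finset.filter_subset_filter _ hsub0) ?_
        intro p _ _
        positivity)
    have hY0 : 0 < Y := by linarith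
    have hκβ : ∀ p ∈ P, 0 ≤ 1 - κ p * β p := by
      intro p hp
      have h1 := hL.mean_le p hp
      have h2 := hL.mean_nonneg p hp
      have h3 := hκ0 p hp
      have h4 := hκ1 p hp
      have hp2 : (2 : ℝ) ≤ (p : ℝ) := by exact_mod_cast (hL.prime p hp).two_le
      have h5 : (2 : ℝ) / (p : ℝ) ≤ 1 := by
        rw [div_le_one (by linarith)]
        exact hp2
      have h6 : β p ≤ 1 := h1.trans h5
      nlinarith
    have hκB : ∀ v, ∀ p ∈ P, 0 ≤ 1 - κ p * B p v := by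
      intro v p hp
      have h1 := hL.le_one p hp v
      have h2 := hL.nonneg p hp v
      have h3 := hκ0 p hp
      have h4 := hκ1 p hp
      nlinarith
    have h4w : 4 / w ≤ 1 := by
      rw [div_le_one hw']
      linarith
    have h4w0 : 0 ≤ 4 / w := by positivity
    refine ⟨fun v => yk P1 κ B r v * Uf' v, fun k => c1 (prt P1 k) * c0 (prt P0 k), Y * U',
      ⟨?_, ?_, ?_, ?_⟩, mul_pos hY0 hU', ?_, ?_⟩
    · intro v
      have h := TP_mul_expand hdisj hT1.expand hT0.expand v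
      rw [hunion] at h
      exact h
    · have e : ∀ Q : Finset ℕ, prt Q 0 = 0 := by
        intro Q
        ext p <;> simp [prt, Finsupp.filter_apply]
      simp only [e]
      rw [hT1.mean, hT0.mean]
      push_cast
      ring
    · intro k hk hk0
      have hk' : k ∈ Fr (P1 ∪ P0) := by rw [hunion]; exact hk
      have hk'' : k ∈ Fr (P0 ∪ P1) := by rw [Finset.union_comm]; exact hk'
      have m1 : prt P1 k ∈ Fr P1 := prt_mem hk'
      have m0 : prt P0 k ∈ Fr P0 := prt_mem hk''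
      have hsum := prt_add_prt hdisj hk'
      have n1 : prt P1 k = 0 → ‖c1 (prt P1 k)‖ = Y := by
        intro h
        rw [h, hT1.mean, Complex.norm_real, Real.norm_of_nonneg hY0.le]
      have n0 : prt P0 k = 0 → ‖c0 (prt P0 k)‖ = U' := by
        intro h
        rw [h, hT0.mean, Complex.norm_real, Real.norm_of_nonneg hU'.le]
      show ‖c1 (prt P1 k) * c0 (prt P0 k)‖ ≤ 4 / w * (Y * U')
      rw [norm_mul]
      by_cases h1 : prt P1 k = 0
      · by_cases h0 : prt P0 k = 0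
        · exfalso
          apply hk0
          rw [← hsum, h1, h0, add_zero]
        · rw [n1 h1]
          have := hT0.small _ m0 h0
          calc Y * ‖c0 (prt P0 k)‖ ≤ Y * (4 / w * U') := mul_le_mul_of_nonneg_left this hY0.le
            _ = 4 / w * (Y * U') := by ring
      · have b1 := hT1.small _ m1 h1
        have b0 : ‖c0 (prt P0 k)‖ ≤ U' := by
          by_cases h0 : prt P0 k = 0
          · exact (n0 h0).le
          · refine (hT0.small _ m0 h0).trans ?_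
            nlinarith
        calc ‖c1 (prt P1 k)‖ * ‖c0 (prt P0 k)‖ ≤ (4 / w * Y) * U' :=
              mul_le_mul b1 b0 (norm_nonneg _) (by positivity)
          _ = 4 / w * (Y * U') := by ring
    · intro k hk hck
      have hk' : k ∈ Fr (P1 ∪ P0) := by rw [hunion]; exact hk
      have hk'' : k ∈ Fr (P0 ∪ P1) := by rw [Finset.union_comm]; exact hk'
      have m1 : prt P1 k ∈ Fr P1 := prt_mem hk'
      have m0 : prt P0 k ∈ Fr P0 := prt_mem hk''
      have hsum := prt_add_prt hdisj hk'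
      have hc1 : c1 (prt P1 k) ≠ 0 := left_ne_zero_of_mul hck
      have hc0 : c0 (prt P0 k) ≠ 0 := right_ne_zero_of_mul hck
      have l1 := hT1.level _ m1 hc1
      have l0 := hT0.level _ m0 hc0
      have hmd : md k = md (prt P1 k) * md (prt P0 k) := by
        have := md_add hdisj m1 m0
        rw [hsum] at this
        exact this
      rw [hmd]
      push_cast
      calc (md (prt P1 k) : ℝ) * (md (prt P0 k) : ℝ) ≤ z ^ (2 * r) * t ^ (4 * (r + 1) + 4) :=
            mul_le_mul l1 l0 (Nat.cast_nonneg _) (by positivity)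
        _ = z ^ (4 * r + 4) := by
            have e : t ^ (4 * (r + 1) + 4) = z ^ (2 * r + 4) := by
              rw [← ht2, ← pow_mul]
              congr 1
              ring
            rw [e, ← pow_add]
            congr 1
            ring
    · have hp1 : 0 ≤ ∏ p ∈ P1, (1 - κ p * β p) :=
        Finset.prod_nonneg (fun p hp => hκβ p (hsub1 hp))
      have hp0 : 0 ≤ ∏ p ∈ P0, (1 - κ p * β p) :=
        Finset.prod_nonneg (fun p hp => hκβ p (hsub0 hp))
      have hprod : ∏ p ∈ P, (1 - κ p * β p) =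
          (∏ p ∈ P1, (1 - κ p * β p)) * ∏ p ∈ P0, (1 - κ p * β p) := by
        rw [← Finset.prod_union hdisj, hunion]
      have htu := combK_tu r
      have htu0 : 0 ≤ tu (r + 1) := le_trans zero_le_one (combK_one_le_tu _)
      rw [hprod]
      calc Y * U' ≤ ((1 + (5 / 2) * ((3 / 5) ^ (2 * r + 1) / ((2 * r + 1).factorial : ℝ))) *
            ∏ p ∈ P1, (1 - κ p * β p)) * (tu (r + 1) * ∏ p ∈ P0, (1 - κ p * β p)) :=
            mul_le_mul hY1 hU1 hU'.le (hY0.le.trans hY1)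
        _ = ((1 + (5 / 2) * ((3 / 5) ^ (2 * r + 1) / ((2 * r + 1).factorial : ℝ))) *
            tu (r + 1)) * ((∏ p ∈ P1, (1 - κ p * β p)) * ∏ p ∈ P0, (1 - κ p * β p)) := by ring
        _ ≤ tu r * ((∏ p ∈ P1, (1 - κ p * β p)) * ∏ p ∈ P0, (1 - κ p * β p)) :=
            mul_le_mul_of_nonneg_right htu (mul_nonneg hp1 hp0)
    · intro v
      have hprod : ∏ p ∈ P, (1 - κ p * B p v) =
          (∏ p ∈ P1, (1 - κ p * B p v)) * ∏ p ∈ P0, (1 - κ p * B p v) := by
        rw [← Finset.prod_union hdisj, hunion]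
      have hp1 : 0 ≤ ∏ p ∈ P1, (1 - κ p * B p v) :=
        Finset.prod_nonneg (fun p hp => hκB v p (hsub1 hp))
      have hp0 : 0 ≤ ∏ p ∈ P0, (1 - κ p * B p v) :=
        Finset.prod_nonneg (fun p hp => hκB v p (hsub0 hp))
      rw [hprod]
      exact mul_le_mul (hpt1 v) (hpt0 v) hp0 (hp1.trans (hpt1 v))

theorem majorant {P : Finset ℕ} {B : ℕ → ℤ × ℤ → ℝ} {b : ℕ → ℕ × ℕ → ℂ} {β κ : ℕ → ℝ}
    (hL : Loc P B b β) (hκ0 : ∀ p ∈ P, 0 ≤ κ p) (hκ1 : ∀ p ∈ P, κ p ≤ 3 / 4)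
    {w z : ℝ} (hw0 : 10 ≤ w) (hz1 : 1 ≤ z) (hw : ∀ p ∈ P, w < (p : ℝ))
    (hz : ∀ p ∈ P, (p : ℝ) ≤ z)
    (hb : ∀ t : ℝ, 1 ≤ t →
      ∑ p ∈ P.filter (fun p : ℕ => t < (p : ℝ) ∧ (p : ℝ) ≤ t ^ 2), 1 / (p : ℝ) ≤ 2 / 5) :
    ∃ (Uf : ℤ × ℤ → ℝ) (c : (ℕ →₀ ℕ × ℕ) → ℂ) (U : ℝ),
      TP P Uf c U (4 / w * U) (z ^ 4) ∧ 0 < U ∧ U ≤ 3 * ∏ p ∈ P, (1 - κ p * β p) ∧
      (∀ v, ∏ p ∈ P, (1 - κ p * B p v) ≤ Uf v) := by
  obtain ⟨J, hJ⟩ : ∃ J : ℕ, z ≤ w ^ (2 ^ J) := by
    obtain ⟨J, hJ⟩ := pow_unbounded_of_one_lt z (by linarith : (1 : ℝ) < w)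
    refine ⟨J, hJ.le.trans ?_⟩
    exact pow_le_pow_right₀ (by linarith) (Nat.lt_two_pow_self).le
  obtain ⟨Uf, c, U, h1, h2, h3, h4⟩ := combK_aux hw0 J 0 P z hL hκ0 hκ1 hz1 hJ hw hz hb
  refine ⟨Uf, c, U, ⟨h1.expand, h1.mean, h1.small, fun k hk hk0 => by
    simpa using h1.level k hk hk0⟩, h2, ?_, h4⟩
  simpa [tu] using h3

end Pool.Agent.DG
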