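import Pool.Agent.helper41.DG.Union

/-! # Near orthogonality of the characters of small modulus -/

set_option autoImplicit false

open Finset

namespace Pool.Agent.DG

namespace LS2

/-- geometric sums of a root of unity -/
lemma geom_bound {z : ℂ} (hz : ‖z‖ = 1) {m : ℕ} (hm : 0 < m) (hzm : z ^ m = 1) (hz1 : z ≠ 1)
    (N : ℕ) : ‖∑ i ∈ range N, z ^ i‖ ≤ m := by
  have h1 : z ^ N = z ^ (N % m) := by
    conv_lhs => rw [← Nat.div_add_mod N m, pow_add, pow_mul, hzm, one_pow, one_mul]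
  have h2 : ∑ i ∈ range N, z ^ i = ∑ i ∈ range (N % m), z ^ i := by
    rw [geom_sum_eq hz1, geom_sum_eq hz1, h1]
  rw [h2]
  calc ‖∑ i ∈ range (N % m), z ^ i‖ ≤ ∑ i ∈ range (N % m), ‖z ^ i‖ := norm_sum_le _ _
    _ = (N % m : ℕ) := by simp [norm_pow, hz]
    _ ≤ m := by exact_mod_cast (Nat.mod_lt N hm).le

lemma triv_bound {z : ℂ} (hz : ‖z‖ = 1) (N : ℕ) : ‖∑ i ∈ range N, z ^ i‖ ≤ N := by
  calc ‖∑ i ∈ range N, z ^ i‖ ≤ ∑ i ∈ range N, ‖z ^ i‖ := norm_sum_le _ _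
    _ = N := by simp [norm_pow, hz]

lemma ec_nat_mul (t : ℝ) (n : ℕ) : ec (t * n) = ec t ^ n := by
  induction n with
  | zero => simp [ec_zero]
  | succ n ih =>
    rw [pow_succ, ← ih, ← ec_add]
    push_cast
    ring_nf

lemma ec_eq_one {t : ℝ} (h : ec t = 1) : ∃ n : ℤ, t = n := by
  unfold ec at h
  rw [Complex.exp_eq_one_iff] at h
  obtain ⟨n, hn⟩ := h
  refine ⟨n, ?_⟩
  have h2 : (2 * Real.pi * Complex.I : ℂ) ≠ 0 := Complex.two_pi_I_ne_zero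
  have h3 : (2 * Real.pi * Complex.I : ℂ) * t = (2 * Real.pi * Complex.I : ℂ) * n := by
    rw [hn]; ring
  have h4 := mul_left_cancel₀ h2 h3
  exact_mod_cast h4

lemma prod_mul_sum_int {s : Finset ℕ} (hs : ∀ p ∈ s, p.Prime) (d : ℕ → ℤ) :
    ∃ e : ℤ, ((∏ p ∈ s, p : ℕ) : ℝ) * ∑ p ∈ s, (d p : ℝ) / (p : ℝ) = e := by
  refine ⟨∑ p ∈ s, d p * (∏ q ∈ s.erase p, (q : ℤ)), ?_⟩
  push_cast
  rw [Finset.mul_sum]
  apply Finset.sum_congr rfl
  intro p hp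
  have h0 : (p : ℝ) ≠ 0 := by exact_mod_cast (hs p hp).ne_zero
  rw [← Finset.mul_prod_erase s (fun p => (p : ℝ)) hp]
  field_simp

lemma frac_aux {P : Finset ℕ} (hP : ∀ p ∈ P, p.Prime) (d : ℕ → ℤ) (n : ℤ)
    (h : ∑ p ∈ P, (d p : ℝ) / (p : ℝ) = n) {p0 : ℕ} (hp0 : p0 ∈ P) : (p0 : ℤ) ∣ d p0 := by
  have hpr := hP p0 hp0
  obtain ⟨e, he⟩ := prod_mul_sum_int (s := P.erase p0)
    (fun p hp => hP p (Finset.mem_of_mem_erase hp)) d
  have h0 : (p0 : ℝ) ≠ 0 := by exact_mod_cast hpr.ne_zero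
  rw [← Finset.add_sum_erase P _ hp0] at h
  set M : ℕ := ∏ p ∈ P.erase p0, p with hM
  have h1 : (d p0 : ℝ) * M = (p0 : ℝ) * (n * M - e) := by
    rw [← he, ← h]
    field_simp
    ring
  have h2 : d p0 * (M : ℤ) = (p0 : ℤ) * (n * M - e) := by exact_mod_cast h1
  have h3 : (p0 : ℤ) ∣ d p0 * (M : ℤ) := ⟨_, h2⟩
  have hpi : Prime (p0 : ℤ) := Nat.prime_iff_prime_int.1 hpr
  rcases hpi.dvd_or_dvd h3 with h4 | h4
  · exact h4
  · exfalso
    have h5 : p0 ∣ M := by exact_mod_cast h4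
    rw [hM, (Nat.prime_iff.1 hpr).dvd_finsetProd_iff] at h5
    obtain ⟨q, hq, hq2⟩ := h5
    have := (Nat.prime_dvd_prime_iff_eq hpr (hP q (Finset.mem_of_mem_erase hq))).1 hq2
    exact (Finset.ne_of_mem_erase hq) this.symm

/-- coefficient of the phase -/
noncomputable def al (g : ℕ × ℕ → ℕ) (k : ℕ →₀ ℕ × ℕ) : ℝ := k.sum fun p a => (g a : ℝ) / (p : ℝ)

lemma pr_eq (k : ℕ →₀ ℕ × ℕ) (v : ℤ × ℤ) :
    pr k v = al Prod.fst k * (v.1 : ℝ) + al Prod.snd k * (v.2 : ℝ) := by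
  unfold pr al Finsupp.sum
  rw [Finset.sum_mul, Finset.sum_mul, ← Finset.sum_add_distrib]
  apply Finset.sum_congr rfl
  intro p _
  ring

lemma al_eq {P : Finset ℕ} {k : ℕ →₀ ℕ × ℕ} (hk : k.support ⊆ P) (g : ℕ × ℕ → ℕ) (hg : g 0 = 0) :
    al g k = ∑ p ∈ P, (g (k p) : ℝ) / (p : ℝ) := by
  unfold al
  exact Finsupp.sum_of_support_subset k hk _ (fun p _ => by simp [hg])

lemma md_al {P : Finset ℕ} (hP : ∀ p ∈ P, p.Prime) {k : ℕ →₀ ℕ × ℕ} (hk : k.support ⊆ P)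
    (g : ℕ × ℕ → ℕ) : ∃ e : ℤ, ((md k : ℕ) : ℝ) * al g k = e := by
  obtain ⟨e, he⟩ := prod_mul_sum_int (s := k.support) (fun p hp => hP p (hk hp))
    (fun p => (g (k p) : ℤ))
  refine ⟨e, ?_⟩
  rw [← he]
  unfold md al Finsupp.sum
  simp

lemma md_pos {P : Finset ℕ} (hP : ∀ p ∈ P, p.Prime) {k : ℕ →₀ ℕ × ℕ} (hk : k.support ⊆ P) :
    0 < md k :=
  Finset.prod_pos fun p hp => (hP p (hk hp)).pos

lemma eq_of_int {P : Finset ℕ} (hP : ∀ p ∈ P, p.Prime) {k l : ℕ →₀ ℕ × ℕ} (hk : k.support ⊆ P)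
    (hl : l.support ⊆ P) (g : ℕ × ℕ → ℕ) (hg : g 0 = 0) (hkg : ∀ p ∈ P, g (k p) < p)
    (hlg : ∀ p ∈ P, g (l p) < p) {n : ℤ} (h : al g k - al g l = n) :
    ∀ p ∈ P, g (k p) = g (l p) := by
  intro p hp
  rw [al_eq hk g hg, al_eq hl g hg, ← Finset.sum_sub_distrib] at h
  have h1 := frac_aux hP (fun p => (g (k p) : ℤ) - g (l p)) n (by
    rw [← h]
    apply Finset.sum_congr rfl
    intro q _
    push_cast
    ring) hp
  have h2 := hkg p hp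
  have h3 := hlg p hp
  have h4 : |(g (k p) : ℤ) - g (l p)| < p := by
    rw [abs_lt]; constructor <;> omega
  have h5 := Int.eq_zero_of_abs_lt_dvd h1 h4
  omega

lemma geo {P : Finset ℕ} (hP : ∀ p ∈ P, p.Prime) {D : ℝ} {k l : ℕ →₀ ℕ × ℕ} (hk : k.support ⊆ P)
    (hl : l.support ⊆ P) (hkD : ((md k : ℕ) : ℝ) ≤ D) (hlD : ((md l : ℕ) : ℝ) ≤ D)
    (g : ℕ × ℕ → ℕ) (hn : ∀ n : ℤ, al g k - al g l ≠ n) (N : ℕ) :
    ‖∑ i ∈ range N, ec (al g k - al g l) ^ i‖ ≤ D ^ 2 := by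
  obtain ⟨e, he⟩ := md_al hP hk g
  obtain ⟨e', he'⟩ := md_al hP hl g
  have hpos : 0 < md k * md l := Nat.mul_pos (md_pos hP hk) (md_pos hP hl)
  have h1 : ec (al g k - al g l) ^ (md k * md l) = 1 := by
    rw [← ec_nat_mul]
    have : (al g k - al g l) * ((md k * md l : ℕ) : ℝ) = ((md l * e - md k * e' : ℤ) : ℝ) := by
      push_cast
      rw [← he, ← he']
      ring
    rw [this, ec_int]
  have h2 : ec (al g k - al g l) ≠ 1 := by
    intro h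
    obtain ⟨n, hn'⟩ := ec_eq_one h
    exact hn n hn'
  refine (geom_bound (norm_ec _) hpos h1 h2 N).trans ?_
  push_cast
  have h3 : (0 : ℝ) ≤ (md k : ℕ) := Nat.cast_nonneg _
  have h4 : (0 : ℝ) ≤ (md l : ℕ) := Nat.cast_nonneg _
  nlinarith

end LS2

open LS2 in
/-- near orthogonality of the characters of small modulus on a box -/
theorem near_orth {P : Finset ℕ} (hP : ∀ p ∈ P, p.Prime) {D : ℝ} (hD : 1 ≤ D) (N : ℕ)
    (u : ℤ × ℤ) {k l : ℕ →₀ ℕ × ℕ} (hk : k ∈ Fr P) (hl : l ∈ Fr P) (hkD : ((md k : ℕ) : ℝ) ≤ D)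
    (hlD : ((md l : ℕ) : ℝ) ≤ D) (hkl : k ≠ l) :
    ‖∑ i ∈ range N, ∑ j ∈ range N, ec (pr k (u.1 + i, u.2 + j) - pr l (u.1 + i, u.2 + j))‖ ≤
      N * D ^ 2 := by
  rw [mem_Fr] at hk hl
  obtain ⟨hks, hkb⟩ := hk
  obtain ⟨hls, hlb⟩ := hl
  set θ₁ : ℝ := al Prod.fst k - al Prod.fst l with h1
  set θ₂ : ℝ := al Prod.snd k - al Prod.snd l with h2
  have hterm : ∀ i j : ℕ, ec (pr k (u.1 + i, u.2 + j) - pr l (u.1 + i, u.2 + j)) =
      ec (θ₁ * u.1 + θ₂ * u.2) * (ec θ₁ ^ i * ec θ₂ ^ j) := by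
    intro i j
    rw [← ec_nat_mul, ← ec_nat_mul, ← ec_add, ← ec_add, pr_eq, pr_eq]
    congr 1
    push_cast
    rw [h1, h2]
    ring
  have hsum : ∑ i ∈ range N, ∑ j ∈ range N,
      ec (pr k (u.1 + i, u.2 + j) - pr l (u.1 + i, u.2 + j)) =
      ec (θ₁ * u.1 + θ₂ * u.2) * ((∑ i ∈ range N, ec θ₁ ^ i) * ∑ j ∈ range N, ec θ₂ ^ j) := by
    rw [Finset.sum_mul_sum, Finset.mul_sum]
    apply Finset.sum_congr rfl
    intro i _
    rw [Finset.mul_sum]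
    apply Finset.sum_congr rfl
    intro j _
    exact hterm i j
  rw [hsum, norm_mul, norm_ec, one_mul, norm_mul]
  by_cases hc1 : ∀ n : ℤ, θ₁ ≠ n
  · have b1 := geo hP hks hls hkD hlD Prod.fst hc1 N
    have b2 := triv_bound (norm_ec θ₂) N
    calc ‖∑ i ∈ range N, ec θ₁ ^ i‖ * ‖∑ j ∈ range N, ec θ₂ ^ j‖ ≤ D ^ 2 * N :=
          mul_le_mul b1 b2 (norm_nonneg _) (by positivity)
      _ = N * D ^ 2 := mul_comm _ _
  · by_cases hc2 : ∀ n : ℤ, θ₂ ≠ n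
    · have b1 := triv_bound (norm_ec θ₁) N
      have b2 := geo hP hks hls hkD hlD Prod.snd hc2 N
      exact mul_le_mul b1 b2 (norm_nonneg _) (Nat.cast_nonneg _)
    · exfalso
      push Not at hc1 hc2
      obtain ⟨n1, hn1⟩ := hc1
      obtain ⟨n2, hn2⟩ := hc2
      have e1 := eq_of_int hP hks hls Prod.fst rfl (fun p hp => (hkb p hp).1)
        (fun p hp => (hlb p hp).1) hn1
      have e2 := eq_of_int hP hks hls Prod.snd rfl (fun p hp => (hkb p hp).2)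
        (fun p hp => (hlb p hp).2) hn2
      apply hkl
      ext p
      · by_cases hp : p ∈ P
        · exact e1 p hp
        · rw [Finsupp.notMem_support_iff.1 (fun h => hp (hks h)),
            Finsupp.notMem_support_iff.1 (fun h => hp (hls h))]
      · by_cases hp : p ∈ P
        · exact e2 p hp
        · rw [Finsupp.notMem_support_iff.1 (fun h => hp (hks h)),
            Finsupp.notMem_support_iff.1 (fun h => hp (hls h))]

end Pool.Agent.DG
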