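import Pool.Agent.helper41.DG.LS1
import Pool.Agent.helper41.DG.LS2

/-! # The large sieve for the frequencies of small modulus -/

set_option autoImplicit false

open Finset

namespace Pool.Agent.DG

theorem lsEc_mul_conj (s t : ℝ) : ec s * (starRingEnd ℂ) (ec t) = ec (s - t) := by
  unfold ec
  rw [← Complex.exp_conj, ← Complex.exp_add]
  congr 1
  simp only [map_mul, Complex.conj_ofReal, Complex.conj_I, map_ofNat, Complex.ofReal_sub]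
  ring

/-- the dual sum -/
noncomputable def lsF (K : Finset (ℕ →₀ ℕ × ℕ)) (a : (ℕ →₀ ℕ × ℕ) → ℂ) (v : ℤ × ℤ) : ℂ :=
  ∑ k ∈ K, (starRingEnd ℂ) (a k) * ec (pr k v)

theorem lsF_sq (K : Finset (ℕ →₀ ℕ × ℕ)) (a : (ℕ →₀ ℕ × ℕ) → ℂ) (v : ℤ × ℤ) :
    ((‖lsF K a v‖ ^ 2 : ℝ) : ℂ) =
      ∑ k ∈ K, ∑ l ∈ K, (starRingEnd ℂ) (a k) * a l * ec (pr k v - pr l v) := by
  rw [Complex.ofReal_pow, ← Complex.mul_conj', lsF, map_sum, Finset.sum_mul_sum]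
  refine Finset.sum_congr rfl fun k _ => Finset.sum_congr rfl fun l _ => ?_
  rw [map_mul, Complex.conj_conj, ← lsEc_mul_conj]
  ring

/-- the dual inequality -/
theorem lsF_le {K : Finset (ℕ →₀ ℕ × ℕ)} (a : (ℕ →₀ ℕ × ℕ) → ℂ) (N : ℕ) (u : ℤ × ℤ) {E : ℝ}
    (hE : ∀ k ∈ K, ∀ l ∈ K, k ≠ l →
      ‖∑ i ∈ range N, ∑ j ∈ range N, ec (pr k (u.1 + i, u.2 + j) - pr l (u.1 + i, u.2 + j))‖ ≤ E)
    (hE0 : 0 ≤ E) :
    ∑ i ∈ range N, ∑ j ∈ range N, ‖lsF K a (u.1 + i, u.2 + j)‖ ^ 2 ≤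
      ((N : ℝ) ^ 2 + E * K.card) * ∑ k ∈ K, ‖a k‖ ^ 2 := by
  set g : (ℕ →₀ ℕ × ℕ) → (ℕ →₀ ℕ × ℕ) → ℂ := fun k l =>
    ∑ i ∈ range N, ∑ j ∈ range N, ec (pr k (u.1 + i, u.2 + j) - pr l (u.1 + i, u.2 + j)) with hg
  have h1 : ((∑ i ∈ range N, ∑ j ∈ range N, ‖lsF K a (u.1 + i, u.2 + j)‖ ^ 2 : ℝ) : ℂ) =
      ∑ k ∈ K, ∑ l ∈ K, (starRingEnd ℂ) (a k) * a l * g k l := by
    have h2 : ((∑ i ∈ range N, ∑ j ∈ range N, ‖lsF K a (u.1 + i, u.2 + j)‖ ^ 2 : ℝ) : ℂ) =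
        ∑ i ∈ range N, ∑ j ∈ range N, ∑ k ∈ K, ∑ l ∈ K, (starRingEnd ℂ) (a k) * a l *
          ec (pr k (u.1 + i, u.2 + j) - pr l (u.1 + i, u.2 + j)) := by
      rw [Complex.ofReal_sum]
      refine Finset.sum_congr rfl fun i _ => ?_
      rw [Complex.ofReal_sum]
      exact Finset.sum_congr rfl fun j _ => lsF_sq K a _
    rw [h2]
    have h3 : ∀ i ∈ range N, ∑ j ∈ range N, ∑ k ∈ K, ∑ l ∈ K, (starRingEnd ℂ) (a k) * a l *
          ec (pr k (u.1 + i, u.2 + j) - pr l (u.1 + i, u.2 + j)) =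
        ∑ k ∈ K, ∑ l ∈ K, ∑ j ∈ range N, (starRingEnd ℂ) (a k) * a l *
          ec (pr k (u.1 + i, u.2 + j) - pr l (u.1 + i, u.2 + j)) := by
      intro i _
      rw [Finset.sum_comm]
      exact Finset.sum_congr rfl fun k _ => Finset.sum_comm
    rw [Finset.sum_congr rfl h3, Finset.sum_comm]
    refine Finset.sum_congr rfl fun k _ => ?_
    rw [Finset.sum_comm]
    refine Finset.sum_congr rfl fun l _ => ?_
    simp only [hg, Finset.mul_sum]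
  have h4 : ∑ i ∈ range N, ∑ j ∈ range N, ‖lsF K a (u.1 + i, u.2 + j)‖ ^ 2 ≤
      ∑ k ∈ K, ∑ l ∈ K, ‖a k‖ * ‖a l‖ * ‖g k l‖ := by
    have h5 : 0 ≤ ∑ i ∈ range N, ∑ j ∈ range N, ‖lsF K a (u.1 + i, u.2 + j)‖ ^ 2 :=
      Finset.sum_nonneg fun i _ => Finset.sum_nonneg fun j _ => sq_nonneg _
    calc ∑ i ∈ range N, ∑ j ∈ range N, ‖lsF K a (u.1 + i, u.2 + j)‖ ^ 2
        = ‖((∑ i ∈ range N, ∑ j ∈ range N, ‖lsF K a (u.1 + i, u.2 + j)‖ ^ 2 : ℝ) : ℂ)‖ := by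
          rw [Complex.norm_real, Real.norm_of_nonneg h5]
      _ = ‖∑ k ∈ K, ∑ l ∈ K, (starRingEnd ℂ) (a k) * a l * g k l‖ := by rw [h1]
      _ ≤ ∑ k ∈ K, ∑ l ∈ K, ‖(starRingEnd ℂ) (a k) * a l * g k l‖ :=
          (norm_sum_le _ _).trans (Finset.sum_le_sum fun k _ => norm_sum_le _ _)
      _ = ∑ k ∈ K, ∑ l ∈ K, ‖a k‖ * ‖a l‖ * ‖g k l‖ := by
          refine Finset.sum_congr rfl fun k _ => Finset.sum_congr rfl fun l _ => ?_
          rw [norm_mul, norm_mul, RCLike.norm_conj]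
  have h6 : ∀ k ∈ K, ∀ l ∈ K, ‖a k‖ * ‖a l‖ * ‖g k l‖ ≤
      (if k = l then (N : ℝ) ^ 2 * ‖a k‖ ^ 2 else 0) + E * (‖a k‖ * ‖a l‖) := by
    intro k hk l hl
    have h7 : 0 ≤ ‖a k‖ * ‖a l‖ := by positivity
    split_ifs with h
    · subst h
      have h8 : ‖g k k‖ = (N : ℝ) ^ 2 := by
        simp only [hg, sub_self]
        have : ec 0 = 1 := by simp [ec]
        simp only [this, Finset.sum_const, Finset.card_range, mul_one, nsmul_eq_mul]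
        rw [norm_mul, Complex.norm_natCast]
        ring
      rw [h8]
      nlinarith [mul_nonneg hE0 h7]
    · rw [zero_add]
      have := mul_le_mul_of_nonneg_left (hE k hk l hl h) h7
      linarith
  have h9 : ∑ k ∈ K, ∑ l ∈ K, ‖a k‖ * ‖a l‖ * ‖g k l‖ ≤
      (N : ℝ) ^ 2 * ∑ k ∈ K, ‖a k‖ ^ 2 + E * (∑ k ∈ K, ‖a k‖) ^ 2 := by
    calc ∑ k ∈ K, ∑ l ∈ K, ‖a k‖ * ‖a l‖ * ‖g k l‖
        ≤ ∑ k ∈ K, ∑ l ∈ K, ((if k = l then (N : ℝ) ^ 2 * ‖a k‖ ^ 2 else 0) +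
            E * (‖a k‖ * ‖a l‖)) :=
          Finset.sum_le_sum fun k hk => Finset.sum_le_sum fun l hl => h6 k hk l hl
      _ = (N : ℝ) ^ 2 * ∑ k ∈ K, ‖a k‖ ^ 2 + E * (∑ k ∈ K, ‖a k‖) ^ 2 := by
          simp only [Finset.sum_add_distrib]
          congr 1
          · rw [Finset.mul_sum]
            refine Finset.sum_congr rfl fun k hk => ?_
            rw [Finset.sum_ite_eq, if_pos hk]
          · rw [sq, Finset.sum_mul_sum, Finset.mul_sum]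
            refine Finset.sum_congr rfl fun k _ => ?_
            rw [Finset.mul_sum]
  have h10 : (∑ k ∈ K, ‖a k‖) ^ 2 ≤ K.card * ∑ k ∈ K, ‖a k‖ ^ 2 := sq_sum_le_card_mul_sum_sq
  have h11 := mul_le_mul_of_nonneg_left h10 hE0
  calc _ ≤ _ := h4
    _ ≤ _ := h9
    _ ≤ _ := by nlinarith

/-- the large sieve inequality -/
theorem large_sieve {P : Finset ℕ} (hP : ∀ p ∈ P, p.Prime) {D : ℝ} (hD : 1 ≤ D) {N : ℕ}
    (hN : D ^ 5 ≤ N) (u : ℤ × ℤ) (X : Finset (ℤ × ℤ)) (hX : ∀ x ∈ X, Box N u x) :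
    ∑ k ∈ (Fr P).filter (fun k => ((md k : ℕ) : ℝ) ≤ D), ‖∑ x ∈ X, ec (pr k x)‖ ^ 2 ≤
      2 * (N : ℝ) ^ 2 * X.card := by
  set K := (Fr P).filter (fun k => ((md k : ℕ) : ℝ) ≤ D) with hK
  set a : (ℕ →₀ ℕ × ℕ) → ℂ := fun k => ∑ x ∈ X, ec (pr k x) with ha
  set S : ℝ := ∑ k ∈ K, ‖a k‖ ^ 2 with hS
  have hS0 : 0 ≤ S := Finset.sum_nonneg fun k _ => sq_nonneg _
  have hD0 : 0 < D := by linarith
  have hcard : (K.card : ℝ) ≤ D ^ 3 := card_freq_le hP hD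
  have hE0 : (0 : ℝ) ≤ N * D ^ 2 := by positivity
  -- the dual inequality
  have h1 : ∑ i ∈ range N, ∑ j ∈ range N, ‖lsF K a (u.1 + i, u.2 + j)‖ ^ 2 ≤
      2 * (N : ℝ) ^ 2 * S := by
    refine (lsF_le a N u (E := N * D ^ 2) (fun k hk l hl hkl => ?_) hE0).trans ?_
    · rw [hK, Finset.mem_filter] at hk hl
      exact near_orth hP hD N u hk.1 hl.1 hk.2 hl.2 hkl
    · refine mul_le_mul_of_nonneg_right ?_ hS0
      have h2 : (N : ℝ) * D ^ 2 * K.card ≤ N * D ^ 2 * D ^ 3 :=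
        mul_le_mul_of_nonneg_left hcard hE0
      have h3 : (N : ℝ) * D ^ 2 * D ^ 3 = N * D ^ 5 := by ring
      have h4 : (N : ℝ) * D ^ 5 ≤ N * N := mul_le_mul_of_nonneg_left hN (Nat.cast_nonneg _)
      nlinarith
  -- the sum over X is part of the sum over the box
  have h5 : ∑ x ∈ X, ‖lsF K a x‖ ^ 2 ≤
      ∑ i ∈ range N, ∑ j ∈ range N, ‖lsF K a (u.1 + i, u.2 + j)‖ ^ 2 := by
    have hinj : Set.InjOn (fun p : ℕ × ℕ => ((u.1 + p.1, u.2 + p.2) : ℤ × ℤ))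
        (range N ×ˢ range N : Finset (ℕ × ℕ)) := by
      intro p _ q _ h
      simp only [Prod.mk.injEq, add_right_inj, Nat.cast_inj] at h
      exact Prod.ext h.1 h.2
    have hsub : X ⊆ (range N ×ˢ range N).image
        (fun p : ℕ × ℕ => ((u.1 + p.1, u.2 + p.2) : ℤ × ℤ)) := by
      intro x hx
      obtain ⟨h6, h7, h8, h9⟩ := hX x hx
      rw [Finset.mem_image]
      refine ⟨((x.1 - u.1).toNat, (x.2 - u.2).toNat), ?_, ?_⟩
      · rw [Finset.mem_product, Finset.mem_range, Finset.mem_range]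
        constructor <;> dsimp only <;> omega
      · refine Prod.ext ?_ ?_ <;> dsimp only <;> omega
    calc ∑ x ∈ X, ‖lsF K a x‖ ^ 2
        ≤ ∑ x ∈ (range N ×ˢ range N).image
            (fun p : ℕ × ℕ => ((u.1 + p.1, u.2 + p.2) : ℤ × ℤ)), ‖lsF K a x‖ ^ 2 :=
          Finset.sum_le_sum_of_subset_of_nonneg hsub fun _ _ _ => sq_nonneg _
      _ = ∑ i ∈ range N, ∑ j ∈ range N, ‖lsF K a (u.1 + i, u.2 + j)‖ ^ 2 := by
          rw [Finset.sum_image hinj, Finset.sum_product]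
  -- duality
  have h6 : S ≤ ∑ x ∈ X, ‖lsF K a x‖ := by
    have h7 : ((S : ℝ) : ℂ) = ∑ x ∈ X, lsF K a x := by
      rw [hS, Complex.ofReal_sum]
      unfold lsF
      rw [Finset.sum_comm]
      refine Finset.sum_congr rfl fun k _ => ?_
      rw [Complex.ofReal_pow, ← Complex.conj_mul', ← Finset.mul_sum]
    calc S = ‖((S : ℝ) : ℂ)‖ := by rw [Complex.norm_real, Real.norm_of_nonneg hS0]
      _ = ‖∑ x ∈ X, lsF K a x‖ := by rw [h7]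
      _ ≤ _ := norm_sum_le _ _
  have h8 : S ^ 2 ≤ X.card * (2 * (N : ℝ) ^ 2 * S) := by
    calc S ^ 2 ≤ (∑ x ∈ X, ‖lsF K a x‖) ^ 2 := by gcongr
      _ ≤ X.card * ∑ x ∈ X, ‖lsF K a x‖ ^ 2 := sq_sum_le_card_mul_sum_sq
      _ ≤ X.card * (2 * (N : ℝ) ^ 2 * S) :=
          mul_le_mul_of_nonneg_left (h5.trans h1) (Nat.cast_nonneg _)
  rcases hS0.eq_or_lt with h9 | h9
  · rw [← h9]
    positivity
  · have h10 : S * S ≤ (2 * (N : ℝ) ^ 2 * X.card) * S := by nlinarith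
    exact le_of_mul_le_mul_right h10 h9

end Pool.Agent.DG
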