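import Pool.Agent.helper41.DG.Comb
import Pool.Agent.helper41.DG.LS

/-! # The lower bound sieve for the differences of two arbitrary dense sets -/

set_option autoImplicit false

open Finset

namespace Pool.Agent.DG

theorem core_pr_sub (k : ℕ →₀ ℕ × ℕ) (x y : ℤ × ℤ) : pr k (x - y) = pr k x - pr k y := by
  unfold pr Finsupp.sum
  rw [← Finset.sum_sub_distrib]
  refine Finset.sum_congr rfl fun p _ => ?_
  simp only [Prod.fst_sub, Prod.snd_sub]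
  push_cast
  ring

theorem core_ec_sub (s t : ℝ) : ec (s - t) = ec s * (starRingEnd ℂ) (ec t) := by
  unfold ec
  rw [← Complex.exp_conj, ← Complex.exp_add]
  congr 1
  simp only [map_mul, Complex.conj_ofReal, Complex.conj_I, Complex.ofReal_sub, map_ofNat]
  ring

theorem core_pr_zero (v : ℤ × ℤ) : pr 0 v = 0 := by
  simp [pr]

theorem core_ec_zero : ec 0 = 1 := by
  simp [ec]

theorem core_zero_mem {P : Finset ℕ} (hP : ∀ p ∈ P, p.Prime) : (0 : ℕ →₀ ℕ × ℕ) ∈ Fr P := by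
  unfold Fr
  rw [Finset.mem_finsupp_iff]
  refine ⟨by simp, fun p hp => ?_⟩
  have := (hP p hp).pos
  simp [this]

/-- Cauchy-Schwarz for the two exponential sums. -/
theorem core_cs {P : Finset ℕ} (hP : ∀ p ∈ P, p.Prime) {D : ℝ} (hD : 1 ≤ D) {N : ℕ}
    (hN : D ^ 5 ≤ N) (u u' : ℤ × ℤ) (X Y : Finset (ℤ × ℤ)) (hX : ∀ x ∈ X, Box N u x)
    (hY : ∀ y ∈ Y, Box N u' y) :
    ∑ k ∈ (Fr P).filter (fun k => ((md k : ℕ) : ℝ) ≤ D),
      ‖∑ x ∈ X, ec (pr k x)‖ * ‖∑ y ∈ Y, ec (pr k y)‖ ≤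
      2 * (N : ℝ) ^ 2 * Real.sqrt ((X.card : ℝ) * Y.card) := by
  have h1 := large_sieve hP hD hN u X hX
  have h2 := large_sieve hP hD hN u' Y hY
  have hcs := Finset.sum_mul_sq_le_sq_mul_sq ((Fr P).filter (fun k => ((md k : ℕ) : ℝ) ≤ D))
    (fun k => ‖∑ x ∈ X, ec (pr k x)‖) (fun k => ‖∑ y ∈ Y, ec (pr k y)‖)
  have h0 : 0 ≤ ∑ k ∈ (Fr P).filter (fun k => ((md k : ℕ) : ℝ) ≤ D),
      ‖∑ y ∈ Y, ec (pr k y)‖ ^ 2 := Finset.sum_nonneg fun k _ => by positivity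
  have h3 : (∑ k ∈ (Fr P).filter (fun k => ((md k : ℕ) : ℝ) ≤ D),
      ‖∑ x ∈ X, ec (pr k x)‖ * ‖∑ y ∈ Y, ec (pr k y)‖) ^ 2 ≤
      (2 * (N : ℝ) ^ 2 * X.card) * (2 * (N : ℝ) ^ 2 * Y.card) :=
    hcs.trans (mul_le_mul h1 h2 h0 (by positivity))
  apply le_of_sq_le_sq _ (by positivity)
  rw [mul_pow, Real.sq_sqrt (by positivity)]
  calc _ ≤ _ := h3
    _ = _ := by ring

theorem core_lower {P : Finset ℕ} {B : ℕ → ℤ × ℤ → ℝ} {b : ℕ → ℕ × ℕ → ℂ} {β : ℕ → ℝ}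
    (hL : Loc P B b β) {w z : ℝ} (hw0 : 10 ≤ w) (hz1 : 1 ≤ z) (hw : ∀ p ∈ P, w < (p : ℝ))
    (hz : ∀ p ∈ P, (p : ℝ) ≤ z)
    (hb : ∀ t : ℝ, 1 ≤ t →
      ∑ p ∈ P.filter (fun p : ℕ => t < (p : ℝ) ∧ (p : ℝ) ≤ t ^ 2), 1 / (p : ℝ) ≤ 2 / 5)
    {N : ℕ} (hN : z ^ 30 ≤ N) (u u' : ℤ × ℤ) (X Y : Finset (ℤ × ℤ)) (hX : ∀ x ∈ X, Box N u x)
    (hY : ∀ y ∈ Y, Box N u' y)
    (hXY : 40 * (N : ℝ) ^ 2 ≤ w * Real.sqrt ((X.card : ℝ) * Y.card)) :
    (1 / 4) * ((X.card : ℝ) * Y.card) * ∏ p ∈ P, (1 - 1 / (p : ℝ)) ≤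
      ∑ x ∈ X, ∑ y ∈ Y, ∏ p ∈ P, (1 - (1 / 2) * B p (x - y)) := by
  obtain ⟨G, c, μ, U, hTP, hG, hU, hU0, hμ⟩ := minorant hL hw0 hz1 hw hz hb
  have hP := hL.prime
  have hD : (1 : ℝ) ≤ z ^ 6 := one_le_pow₀ hz1
  have hN' : (z ^ 6) ^ 5 ≤ (N : ℝ) := by
    rw [← pow_mul]; exact hN
  have hcs := core_cs hP hD hN' u u' X Y hX hY
  set A : (ℕ →₀ ℕ × ℕ) → ℂ := fun k => ∑ x ∈ X, ec (pr k x) with hA
  set Bk : (ℕ →₀ ℕ × ℕ) → ℂ := fun k => ∑ y ∈ Y, ec (pr k y) with hBk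
  set s : ℝ := Real.sqrt ((X.card : ℝ) * Y.card) with hs
  have hs2 : s ^ 2 = (X.card : ℝ) * Y.card := Real.sq_sqrt (by positivity)
  have hs0 : 0 ≤ s := Real.sqrt_nonneg _
  have hw' : 0 < w := by linarith
  -- the sum of G
  have hsum : ((∑ x ∈ X, ∑ y ∈ Y, G (x - y) : ℝ) : ℂ) =
      ∑ k ∈ Fr P, c k * (A k * (starRingEnd ℂ) (Bk k)) := by
    push_cast
    simp_rw [hTP.expand]
    have : ∀ x ∈ X, ∑ y ∈ Y, ∑ k ∈ Fr P, c k * ec (pr k (x - y)) =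
        ∑ k ∈ Fr P, c k * (ec (pr k x) * (starRingEnd ℂ) (Bk k)) := by
      intro x _
      rw [Finset.sum_comm]
      refine Finset.sum_congr rfl fun k _ => ?_
      rw [← Finset.mul_sum]
      congr 1
      simp only [hBk, map_sum]
      rw [Finset.mul_sum]
      refine Finset.sum_congr rfl fun y _ => ?_
      rw [core_pr_sub, core_ec_sub]
    rw [Finset.sum_congr rfl this, Finset.sum_comm]
    refine Finset.sum_congr rfl fun k _ => ?_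
    rw [← Finset.mul_sum]
    congr 1
    simp only [hA]
    rw [Finset.sum_mul]
  -- split off the zero frequency
  have h0 := core_zero_mem hP
  have hA0 : A 0 = (X.card : ℂ) := by
    simp [hA, core_pr_zero, core_ec_zero]
  have hB0 : Bk 0 = (Y.card : ℂ) := by
    simp [hBk, core_pr_zero, core_ec_zero]
  have hsplit : ((∑ x ∈ X, ∑ y ∈ Y, G (x - y) : ℝ) : ℂ) =
      ((μ * ((X.card : ℝ) * Y.card) : ℝ) : ℂ) +
      ∑ k ∈ (Fr P).erase 0, c k * (A k * (starRingEnd ℂ) (Bk k)) := by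
    rw [hsum, ← Finset.add_sum_erase _ _ h0, hTP.mean, hA0, hB0]
    simp
  have hη : 0 ≤ 5 / w * U := by positivity
  have hrest : ‖∑ k ∈ (Fr P).erase 0, c k * (A k * (starRingEnd ℂ) (Bk k))‖ ≤
      (5 / w * U) * (2 * (N : ℝ) ^ 2 * s) := by
    refine (norm_sum_le _ _).trans ?_
    calc ∑ k ∈ (Fr P).erase 0, ‖c k * (A k * (starRingEnd ℂ) (Bk k))‖
        ≤ ∑ k ∈ (Fr P).erase 0, (if ((md k : ℕ) : ℝ) ≤ z ^ 6 then
            (5 / w * U) * (‖A k‖ * ‖Bk k‖) else 0) := by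
          refine Finset.sum_le_sum fun k hk => ?_
          rw [Finset.mem_erase] at hk
          rw [norm_mul, norm_mul, RCLike.norm_conj]
          split_ifs with hmd
          · exact mul_le_mul_of_nonneg_right (hTP.small k hk.2 hk.1) (by positivity)
          · have : c k = 0 := by
              by_contra hc
              exact hmd (hTP.level k hk.2 hc)
            simp [this]
      _ ≤ ∑ k ∈ Fr P, (if ((md k : ℕ) : ℝ) ≤ z ^ 6 then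
            (5 / w * U) * (‖A k‖ * ‖Bk k‖) else 0) := by
          refine Finset.sum_le_sum_of_subset_of_nonneg (Finset.erase_subset _ _) fun k _ _ => ?_
          split_ifs
          · positivity
          · exact le_rfl
      _ = (5 / w * U) * ∑ k ∈ (Fr P).filter (fun k => ((md k : ℕ) : ℝ) ≤ z ^ 6),
            ‖A k‖ * ‖Bk k‖ := by
          rw [← Finset.sum_filter, Finset.mul_sum]
      _ ≤ (5 / w * U) * (2 * (N : ℝ) ^ 2 * s) := mul_le_mul_of_nonneg_left hcs hη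
  have hlow : μ * ((X.card : ℝ) * Y.card) - (5 / w * U) * (2 * (N : ℝ) ^ 2 * s) ≤
      ∑ x ∈ X, ∑ y ∈ Y, G (x - y) := by
    have hre := congrArg Complex.re hsplit
    rw [Complex.ofReal_re, Complex.add_re, Complex.ofReal_re] at hre
    have h4 := Complex.abs_re_le_norm
      (∑ k ∈ (Fr P).erase 0, c k * (A k * (starRingEnd ℂ) (Bk k)))
    have h5 := neg_abs_le (∑ k ∈ (Fr P).erase 0, c k * (A k * (starRingEnd ℂ) (Bk k))).re
    linarith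
  have hGle : ∑ x ∈ X, ∑ y ∈ Y, G (x - y) ≤
      ∑ x ∈ X, ∑ y ∈ Y, ∏ p ∈ P, (1 - (1 / 2) * B p (x - y)) :=
    Finset.sum_le_sum fun x _ => Finset.sum_le_sum fun y _ => hG _
  refine le_trans ?_ (hlow.trans hGle)
  rw [← hs2]
  -- 10 N^2 / w * s <= s^2 / 4
  have h6 : (5 / w * U) * (2 * (N : ℝ) ^ 2 * s) ≤ U * s ^ 2 / 4 := by
    have : (5 / w * U) * (2 * (N : ℝ) ^ 2 * s) = U * s * (40 * (N : ℝ) ^ 2) / (4 * w) := by
      field_simp
      ring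
    rw [this, div_le_iff₀ (by positivity)]
    calc U * s * (40 * (N : ℝ) ^ 2) ≤ U * s * (w * s) :=
          mul_le_mul_of_nonneg_left hXY (by positivity)
      _ = U * s ^ 2 / 4 * (4 * w) := by ring
  have h7 : U / 2 * s ^ 2 ≤ μ * s ^ 2 := mul_le_mul_of_nonneg_right hμ (by positivity)
  have h8 : (1 / 4) * s ^ 2 * ∏ p ∈ P, (1 - 1 / (p : ℝ)) ≤ (1 / 4) * s ^ 2 * U :=
    mul_le_mul_of_nonneg_left hU (by positivity)
  nlinarith

end Pool.Agent.DG
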