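import Mathlib

/-! # Distinct distances between dense subsets of a square grid: basic definitions -/

set_option autoImplicit false

open Finset

namespace Pool.Agent.DG

/-- `e(t) = exp(2 π i t)` -/
noncomputable def ec (t : ℝ) : ℂ := Complex.exp (2 * Real.pi * Complex.I * t)

/-- The frequencies with moduli in `P`: for every `p ∈ P` a pair of residues modulo `p`. -/
noncomputable def Fr (P : Finset ℕ) : Finset (ℕ →₀ ℕ × ℕ) :=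
  P.finsupp (fun p => range p ×ˢ range p)

/-- The phase of the frequency `k` at the lattice point `v`. -/
noncomputable def pr (k : ℕ →₀ ℕ × ℕ) (v : ℤ × ℤ) : ℝ :=
  k.sum (fun p a => ((a.1 : ℝ) * (v.1 : ℝ) + (a.2 : ℝ) * (v.2 : ℝ)) / (p : ℝ))

/-- The modulus of a frequency. -/
noncomputable def md (k : ℕ →₀ ℕ × ℕ) : ℕ := ∏ p ∈ k.support, p

/-- The box `[0, N)²` translated by `u`. -/
def Box (N : ℕ) (u v : ℤ × ℤ) : Prop :=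
  u.1 ≤ v.1 ∧ v.1 < u.1 + N ∧ u.2 ≤ v.2 ∧ v.2 < u.2 + N

/-- Local data: for every prime `p ∈ P` a function `B p` with values in `[0,1]` on the lattice,
periodic modulo `p`, with mean `β p ≤ 2 / p` and the other Fourier coefficients at most `1 / p`. -/
structure Loc (P : Finset ℕ) (B : ℕ → ℤ × ℤ → ℝ) (b : ℕ → ℕ × ℕ → ℂ) (β : ℕ → ℝ) : Prop where
  prime : ∀ p ∈ P, p.Prime
  nonneg : ∀ p ∈ P, ∀ v, 0 ≤ B p v
  le_one : ∀ p ∈ P, ∀ v, B p v ≤ 1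
  expand : ∀ p ∈ P, ∀ v : ℤ × ℤ, ((B p v : ℝ) : ℂ) =
    ∑ a ∈ range p ×ˢ range p, b p a * ec (((a.1 : ℝ) * (v.1 : ℝ) + (a.2 : ℝ) * (v.2 : ℝ)) / (p : ℝ))
  mean : ∀ p ∈ P, b p (0, 0) = ((β p : ℝ) : ℂ)
  mean_nonneg : ∀ p ∈ P, 0 ≤ β p
  mean_le : ∀ p ∈ P, β p ≤ 2 / (p : ℝ)
  small : ∀ p ∈ P, ∀ a ∈ range p ×ˢ range p, a ≠ (0, 0) → ‖b p a‖ ≤ 1 / (p : ℝ)

/-- `Φ` is a trigonometric polynomial with frequencies in `Fr P` of modulus at most `D`, mean `μ`, and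
all the other coefficients at most `η`. -/
structure TP (P : Finset ℕ) (Φ : ℤ × ℤ → ℝ) (c : (ℕ →₀ ℕ × ℕ) → ℂ) (μ η D : ℝ) : Prop where
  expand : ∀ v, ((Φ v : ℝ) : ℂ) = ∑ k ∈ Fr P, c k * ec (pr k v)
  mean : c 0 = ((μ : ℝ) : ℂ)
  small : ∀ k ∈ Fr P, k ≠ 0 → ‖c k‖ ≤ η
  level : ∀ k ∈ Fr P, c k ≠ 0 → ((md k : ℕ) : ℝ) ≤ D

end Pool.Agent.DG
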