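import Pool.Agent.helper41.DG.UpBox
import Pool.Agent.helper41.DG.WB

/-! # The upper bound sieve for the quadratic forms -/

set_option autoImplicit false

open Finset

namespace Pool.Agent.DG

/-- the sifting primes -/
noncomputable def IN (N : ℕ) (w : ℝ) : Finset ℕ := I4 w ((N : ℝ) ^ (1 / 30 : ℝ))

namespace Sv

theorem one_le_log {w : ℝ} (hw : 10 ≤ w) : 1 ≤ Real.log w := by
  rw [Real.le_log_iff_exp_le (by linarith)]
  have := Real.exp_one_lt_d9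
  linarith

/-- the level of the sieve -/
theorem exists_z (N M : ℕ) (hN : 2 ≤ N) (hM1 : 1 ≤ M) (hM : M ≤ N ^ 2) :
    ∃ z : ℝ, 1 ≤ z ∧ z ≤ (N : ℝ) ^ (1 / 30 : ℝ) ∧ z ^ 20 ≤ M ∧
      Real.log M ≤ 60 * Real.log z := by
  have hK1 : 1 ≤ min M N := le_min hM1 (by omega)
  have hK1' : (1 : ℝ) ≤ ((min M N : ℕ) : ℝ) := by exact_mod_cast hK1
  have hKN : ((min M N : ℕ) : ℝ) ≤ N := by exact_mod_cast min_le_right M N
  have hKM : ((min M N : ℕ) : ℝ) ≤ M := by exact_mod_cast min_le_left M N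
  have hM1' : (1 : ℝ) ≤ M := by exact_mod_cast hM1
  refine ⟨((min M N : ℕ) : ℝ) ^ (1 / 30 : ℝ), Real.one_le_rpow hK1' (by norm_num),
    Real.rpow_le_rpow (by linarith) hKN (by norm_num), ?_, ?_⟩
  · have h1 : (((min M N : ℕ) : ℝ) ^ (1 / 30 : ℝ)) ^ 20 = ((min M N : ℕ) : ℝ) ^ (2 / 3 : ℝ) := by
      rw [← Real.rpow_natCast, ← Real.rpow_mul (by linarith)]
      norm_num
    rw [h1]
    calc ((min M N : ℕ) : ℝ) ^ (2 / 3 : ℝ) ≤ ((min M N : ℕ) : ℝ) ^ (1 : ℝ) :=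
          Real.rpow_le_rpow_of_exponent_le hK1' (by norm_num)
      _ = ((min M N : ℕ) : ℝ) := Real.rpow_one _
      _ ≤ M := hKM
  · rw [Real.log_rpow (by linarith)]
    have h2 : Real.log M ≤ 2 * Real.log ((min M N : ℕ) : ℝ) := by
      rcases le_total M N with h | h
      · rw [min_eq_left h]
        have := Real.log_nonneg hM1'
        linarith
      · rw [min_eq_right h]
        have h3 : (M : ℝ) ≤ (N : ℝ) ^ 2 := by exact_mod_cast hM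
        have h4 := Real.log_le_log (by linarith) h3
        rw [Real.log_pow] at h4
        push_cast at h4
        exact h4
    linarith

theorem rpow_61 {x : ℝ} (hx : 0 ≤ x) : (61 * x) ^ (3 / 4 : ℝ) ≤ 61 * x ^ (3 / 4 : ℝ) := by
  rw [Real.mul_rpow (by norm_num) hx]
  have h1 : (61 : ℝ) ^ (3 / 4 : ℝ) ≤ 61 := by
    calc (61 : ℝ) ^ (3 / 4 : ℝ) ≤ (61 : ℝ) ^ (1 : ℝ) :=
          Real.rpow_le_rpow_of_exponent_le (by norm_num) (by norm_num)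
      _ = 61 := Real.rpow_one _
  exact mul_le_mul_of_nonneg_right h1 (Real.rpow_nonneg hx _)

theorem ratio_low {w z : ℝ} {M : ℕ} (hw : 10 ≤ w) (hz1 : 1 ≤ z) (hM1 : 1 ≤ M)
    (hl : Real.log M ≤ 60 * Real.log z) (h : z ≤ w) :
    1 ≤ 61 * (Real.log w / (1 + Real.log M)) ^ (3 / 4 : ℝ) := by
  have h1 := one_le_log hw
  have h2 : Real.log z ≤ Real.log w := Real.log_le_log (by linarith) h
  have h3 : 0 ≤ Real.log (M : ℝ) := Real.log_nonneg (by exact_mod_cast hM1)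
  have h4 : 1 ≤ 61 * (Real.log w / (1 + Real.log M)) := by
    rw [← mul_div_assoc, one_le_div (by linarith)]
    linarith
  calc (1 : ℝ) ≤ (61 * (Real.log w / (1 + Real.log M))) ^ (3 / 4 : ℝ) :=
        Real.one_le_rpow h4 (by norm_num)
    _ ≤ _ := rpow_61 (div_nonneg (by linarith) (by linarith))

theorem ratio_up {w z : ℝ} {M : ℕ} (hw : 10 ≤ w) (hM1 : 1 ≤ M)
    (hl : Real.log M ≤ 60 * Real.log z) (h : w ≤ z) :
    (Real.log w / Real.log z) ^ (3 / 4 : ℝ) ≤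
      61 * (Real.log w / (1 + Real.log M)) ^ (3 / 4 : ℝ) := by
  have h1 := one_le_log hw
  have h2 : Real.log w ≤ Real.log z := Real.log_le_log (by linarith) h
  have h3 : 0 ≤ Real.log (M : ℝ) := Real.log_nonneg (by exact_mod_cast hM1)
  have h4 : Real.log w / Real.log z ≤ 61 * (Real.log w / (1 + Real.log M)) := by
    rw [← mul_div_assoc, div_le_div_iff₀ (by linarith) (by linarith)]
    have h5 : 1 + Real.log (M : ℝ) ≤ 61 * Real.log z := by linarith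
    calc Real.log w * (1 + Real.log (M : ℝ)) ≤ Real.log w * (61 * Real.log z) :=
          mul_le_mul_of_nonneg_left h5 (by linarith)
      _ = 61 * Real.log w * Real.log z := by ring
  calc (Real.log w / Real.log z) ^ (3 / 4 : ℝ)
      ≤ (61 * (Real.log w / (1 + Real.log M))) ^ (3 / 4 : ℝ) :=
        Real.rpow_le_rpow (div_nonneg (by linarith) (by linarith)) h4 (by norm_num)
    _ ≤ _ := rpow_61 (div_nonneg (by linarith) (by linarith))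

theorem I4_mono {w z z' : ℝ} (h : z ≤ z') : I4 w z ⊆ I4 w z' := by
  intro p hp
  rw [mem_I4] at hp ⊢
  exact ⟨hp.1, hp.2.1, hp.2.2.1, hp.2.2.2.trans h⟩

theorem kp_mem {w z : ℝ} (hw : 10 ≤ w) {p : ℕ} (hp : p ∈ I4 w z) :
    0 ≤ kp p ∧ kp p ≤ 3 / 4 := by
  rw [mem_I4] at hp
  have hp0 : (10 : ℝ) < p := by linarith [hp.2.2.1]
  unfold kp
  have h1 : 0 < 1 / (2 * (p : ℝ)) := by positivity
  have h2 : 1 / (2 * (p : ℝ)) ≤ 3 / 4 := by
    rw [div_le_div_iff₀ (by positivity) (by norm_num)]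
    linarith
  constructor <;> linarith

theorem nb2_mem (q r : ℤ × ℤ) (p : ℕ) (v : ℤ × ℤ) : 0 ≤ nb2 q r p v ∧ nb2 q r p v ≤ 1 := by
  unfold nb2
  split_ifs <;> norm_num

theorem factor_mem {κ : ℝ} (h0 : 0 ≤ κ) (h1 : κ ≤ 3 / 4) (q r : ℤ × ℤ) (p : ℕ) (v : ℤ × ℤ) :
    0 ≤ 1 - κ * nb2 q r p v ∧ 1 - κ * nb2 q r p v ≤ 1 := by
  have h := nb2_mem q r p v
  have h2 : 0 ≤ κ * nb2 q r p v := mul_nonneg h0 h.1
  have h3 : κ * nb2 q r p v ≤ 1 := by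
    calc κ * nb2 q r p v ≤ κ * 1 := mul_le_mul_of_nonneg_left h.2 h0
      _ ≤ 1 := by linarith
  constructor <;> linarith

/-- the product over a subset is larger -/
theorem prod_mono {P Q : Finset ℕ} (h : P ⊆ Q) (f : ℕ → ℝ) (hf : ∀ p ∈ Q, 0 ≤ f p ∧ f p ≤ 1) :
    ∏ p ∈ Q, f p ≤ ∏ p ∈ P, f p := by
  classical
  rw [← Finset.prod_sdiff h]
  have h1 : ∏ p ∈ Q \ P, f p ≤ 1 := Finset.prod_le_one
    (fun p hp => (hf p (Finset.sdiff_subset hp)).1) (fun p hp => (hf p (Finset.sdiff_subset hp)).2)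
  have h2 : 0 ≤ ∏ p ∈ P, f p := Finset.prod_nonneg fun p hp => (hf p (h hp)).1
  calc (∏ p ∈ Q \ P, f p) * ∏ p ∈ P, f p ≤ 1 * ∏ p ∈ P, f p :=
        mul_le_mul_of_nonneg_right h1 h2
    _ = _ := one_mul _

/-- trivial bound -/
theorem sum_le_trivial (M : ℕ) (F : ℤ × ℤ → ℝ) (u : ℤ × ℤ) (hF : ∀ v, F v ≤ 1) :
    ∑ i ∈ range M, ∑ j ∈ range M, F (u.1 + (i : ℤ), u.2 + (j : ℤ)) ≤ (M : ℝ) ^ 2 := by
  calc ∑ i ∈ range M, ∑ j ∈ range M, F (u.1 + (i : ℤ), u.2 + (j : ℤ))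
      ≤ ∑ i ∈ range M, ∑ j ∈ range M, (1 : ℝ) :=
        Finset.sum_le_sum fun i _ => Finset.sum_le_sum fun j _ => hF _
    _ = (M : ℝ) ^ 2 := by simp [sq]

/-- The sieve bound for a subset of the primes of `I4 w z`. -/
theorem sieve_sub {C1 : ℝ} (hC1 : 10 ≤ C1)
    (hblock : ∀ w z : ℝ, C1 ≤ w → ∀ t : ℝ, 1 ≤ t →
      ∑ p ∈ (I4 w z).filter (fun p : ℕ => t < (p : ℝ) ∧ (p : ℝ) ≤ t ^ 2), 1 / (p : ℝ) ≤ 2 / 5)
    {w z : ℝ} (hw : C1 ≤ w) (hz1 : 1 ≤ z) {M : ℕ} (hzM : z ^ 20 ≤ M) (q r u : ℤ × ℤ)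
    (P Q : Finset ℕ) (hPI : P ⊆ I4 w z) (hPQ : P ⊆ Q)
    (hq : ∀ p ∈ P, ¬ (p : ℤ) ∣ q.1 ∧ ¬ (p : ℤ) ∣ q.2)
    (κ : ℕ → ℝ) (hκ : ∀ p ∈ Q, 0 ≤ κ p ∧ κ p ≤ 3 / 4) :
    ∑ i ∈ range M, ∑ j ∈ range M,
      ∏ p ∈ Q, (1 - κ p * nb2 q r p (u.1 + i, u.2 + j)) ≤
      6 * (M : ℝ) ^ 2 * ∏ p ∈ P, (1 - κ p * bt p) := by
  have hI : ∀ p ∈ P, p.Prime ∧ p % 4 = 1 ∧ w < (p : ℝ) ∧ (p : ℝ) ≤ z := fun p hp =>
    mem_I4.mp (hPI hp)
  obtain ⟨b, hb⟩ := norm_loc2 P q r fun p hp => ⟨(hI p hp).1, (hI p hp).2.1, hq p hp⟩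
  have hbl : ∀ t : ℝ, 1 ≤ t →
      ∑ p ∈ P.filter (fun p : ℕ => t < (p : ℝ) ∧ (p : ℝ) ≤ t ^ 2), 1 / (p : ℝ) ≤ 2 / 5 := by
    intro t ht
    refine le_trans (Finset.sum_le_sum_of_subset_of_nonneg (Finset.filter_subset_filter _ hPI) ?_)
      (hblock w z hw t ht)
    intro p _ _
    positivity
  have h1 := upper_box hb (fun p hp => (hκ p (hPQ hp)).1) (fun p hp => (hκ p (hPQ hp)).2)
    (w := w) (z := z) (by linarith) hz1 (fun p hp => (hI p hp).2.2.1)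
    (fun p hp => (hI p hp).2.2.2) hbl hzM u
  refine le_trans ?_ h1
  refine Finset.sum_le_sum fun i _ => Finset.sum_le_sum fun j _ => ?_
  exact prod_mono hPQ (fun p => 1 - κ p * nb2 q r p (u.1 + i, u.2 + j)) fun p hp =>
    factor_mem (hκ p hp).1 (hκ p hp).2 q r p _

end Sv

open Sv

theorem sieve_outer : ∃ C C1 : ℝ, 0 < C ∧ 10 ≤ C1 ∧ ∀ (N M : ℕ) (w : ℝ) (q r u : ℤ × ℤ),
    2 ≤ N → C1 ≤ w → w ≤ N → 1 ≤ M → M ≤ N ^ 2 →
    (∀ p ∈ IN N w, ¬ (p : ℤ) ∣ q.1 ∧ ¬ (p : ℤ) ∣ q.2) →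
    ∑ i ∈ range M, ∑ j ∈ range M,
      ∏ p ∈ IN N w, (1 - kp p * nb2 q r p (u.1 + i, u.2 + j)) ≤
      C * (M : ℝ) ^ 2 * (Real.log w / (1 + Real.log M)) ^ (3 / 4 : ℝ) := by
  obtain ⟨CW, hCW, hW⟩ := W_le
  obtain ⟨C1, hC1, hblock⟩ := I4_block
  refine ⟨61 + 366 * CW, C1, by positivity, hC1, ?_⟩
  intro N M w q r u hN hw hwN hM1 hM hq
  have hw10 : 10 ≤ w := hC1.trans hw
  obtain ⟨z, hz1, hzN, hzM, hl⟩ := exists_z N M hN hM1 hM
  have hM0 : (0 : ℝ) ≤ (M : ℝ) ^ 2 := by positivity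
  have hκ : ∀ p ∈ IN N w, 0 ≤ kp p ∧ kp p ≤ 3 / 4 := fun p hp => kp_mem hw10 hp
  have hlogM : 0 ≤ Real.log (M : ℝ) := Real.log_nonneg (by exact_mod_cast hM1)
  have hX : 0 ≤ (Real.log w / (1 + Real.log M)) ^ (3 / 4 : ℝ) :=
    Real.rpow_nonneg (div_nonneg (by linarith [one_le_log hw10]) (by linarith)) _
  rcases le_total z w with h | h
  · have h1 := ratio_low hw10 hz1 hM1 hl h
    have h2 := sum_le_trivial M (fun v => ∏ p ∈ IN N w, (1 - kp p * nb2 q r p v)) u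
      (fun v => Finset.prod_le_one
        (fun p hp => (factor_mem (hκ p hp).1 (hκ p hp).2 q r p v).1)
        (fun p hp => (factor_mem (hκ p hp).1 (hκ p hp).2 q r p v).2))
    refine le_trans h2 ?_
    calc (M : ℝ) ^ 2 ≤ (M : ℝ) ^ 2 * (61 * (Real.log w / (1 + Real.log M)) ^ (3 / 4 : ℝ)) :=
          le_mul_of_one_le_right hM0 h1
      _ ≤ (M : ℝ) ^ 2 * ((61 + 366 * CW) * (Real.log w / (1 + Real.log M)) ^ (3 / 4 : ℝ)) := by
          refine mul_le_mul_of_nonneg_left (mul_le_mul_of_nonneg_right ?_ hX) hM0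
          linarith
      _ = _ := by ring
  · have h1 := ratio_up hw10 hM1 hl h
    have hsub : I4 w z ⊆ IN N w := I4_mono hzN
    have h2 := sieve_sub hC1 hblock hw hz1 hzM q r u (I4 w z) (IN N w) (Finset.Subset.refl _)
      hsub (fun p hp => hq p (hsub hp)) kp hκ
    refine le_trans h2 ?_
    have h3 := hW w z hw10 h
    calc 6 * (M : ℝ) ^ 2 * ∏ p ∈ I4 w z, (1 - kp p * bt p)
        ≤ 6 * (M : ℝ) ^ 2 * (CW * (61 * (Real.log w / (1 + Real.log M)) ^ (3 / 4 : ℝ))) := by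
          refine mul_le_mul_of_nonneg_left (h3.trans ?_) (by positivity)
          exact mul_le_mul_of_nonneg_left h1 hCW.le
      _ = 366 * CW * (M : ℝ) ^ 2 * (Real.log w / (1 + Real.log M)) ^ (3 / 4 : ℝ) := by ring
      _ ≤ _ := by
          refine mul_le_mul_of_nonneg_right (mul_le_mul_of_nonneg_right ?_ hM0) hX
          linarith

theorem sieve_inner : ∃ C C1 : ℝ, 0 < C ∧ 10 ≤ C1 ∧ ∀ (N M m : ℕ) (w : ℝ) (q r u : ℤ × ℤ),
    2 ≤ N → C1 ≤ w → w ≤ N → 1 ≤ M → M ≤ N ^ 2 →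
    (∀ p ∈ IN N w, ¬ (p : ℤ) ∣ q.1 ∧ ¬ (p : ℤ) ∣ q.2) →
    ∑ i ∈ range M, ∑ j ∈ range M,
      ∏ p ∈ (IN N w).filter (fun p => ¬ p ∣ m), (1 - 3 / 4 * nb2 q r p (u.1 + i, u.2 + j)) ≤
      C * (M : ℝ) ^ 2 * (Real.log w / (1 + Real.log M)) ^ (3 / 4 : ℝ) *
        ∏ p ∈ (IN N w).filter (fun p => p ∣ m), (1 + 2 / (p : ℝ)) := by
  obtain ⟨CW, hCW, hW⟩ := W_le
  obtain ⟨C1, hC1, hblock⟩ := I4_block
  refine ⟨61 + 366 * CW, C1, by positivity, hC1, ?_⟩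
  intro N M m w q r u hN hw hwN hM1 hM hq
  have hw10 : 10 ≤ w := hC1.trans hw
  obtain ⟨z, hz1, hzN, hzM, hl⟩ := exists_z N M hN hM1 hM
  have hM0 : (0 : ℝ) ≤ (M : ℝ) ^ 2 := by positivity
  have hlogM : 0 ≤ Real.log (M : ℝ) := Real.log_nonneg (by exact_mod_cast hM1)
  have hX : 0 ≤ (Real.log w / (1 + Real.log M)) ^ (3 / 4 : ℝ) :=
    Real.rpow_nonneg (div_nonneg (by linarith [one_le_log hw10]) (by linarith)) _
  have hf1 : ∀ p : ℕ, (1 : ℝ) ≤ 1 + 2 / (p : ℝ) := fun p => by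
    have : (0 : ℝ) ≤ 2 / (p : ℝ) := by positivity
    linarith
  have hE1 : ∀ S : Finset ℕ, (1 : ℝ) ≤ ∏ p ∈ S, (1 + 2 / (p : ℝ)) := fun S => by
    calc (1 : ℝ) = ∏ p ∈ S, (1 : ℝ) := (Finset.prod_const_one).symm
      _ ≤ ∏ p ∈ S, (1 + 2 / (p : ℝ)) :=
        Finset.prod_le_prod (fun _ _ => zero_le_one) fun p _ => hf1 p
  rcases le_total z w with h | h
  · have h1 := ratio_low hw10 hz1 hM1 hl h
    have h2 := sum_le_trivial M
      (fun v => ∏ p ∈ (IN N w).filter (fun p => ¬ p ∣ m), (1 - 3 / 4 * nb2 q r p v)) u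
      (fun v => Finset.prod_le_one
        (fun p _ => (factor_mem (by norm_num) (by norm_num) q r p v).1)
        (fun p _ => (factor_mem (by norm_num) (by norm_num) q r p v).2))
    refine le_trans h2 ?_
    calc (M : ℝ) ^ 2 ≤ (M : ℝ) ^ 2 * (61 * (Real.log w / (1 + Real.log M)) ^ (3 / 4 : ℝ)) :=
          le_mul_of_one_le_right hM0 h1
      _ ≤ (M : ℝ) ^ 2 * ((61 + 366 * CW) * (Real.log w / (1 + Real.log M)) ^ (3 / 4 : ℝ)) := by
          refine mul_le_mul_of_nonneg_left (mul_le_mul_of_nonneg_right ?_ hX) hM0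
          linarith
      _ = (61 + 366 * CW) * (M : ℝ) ^ 2 * (Real.log w / (1 + Real.log M)) ^ (3 / 4 : ℝ) := by ring
      _ ≤ _ := le_mul_of_one_le_right (by positivity) (hE1 _)
  · have h1 := ratio_up hw10 hM1 hl h
    have hsub : I4 w z ⊆ IN N w := I4_mono hzN
    have h2 := sieve_sub hC1 hblock hw hz1 hzM q r u ((I4 w z).filter (fun p => ¬ p ∣ m))
      ((IN N w).filter (fun p => ¬ p ∣ m)) (Finset.filter_subset _ _)
      (Finset.filter_subset_filter _ hsub)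
      (fun p hp => hq p (hsub (Finset.mem_filter.mp hp).1)) (fun _ => 3 / 4)
      (fun p _ => ⟨by norm_num, le_refl _⟩)
    refine le_trans h2 ?_
    have h3 := hW w z hw10 h
    have h4 := prod_sub_le w z hw10 m
    have h5 : ∏ p ∈ (I4 w z).filter (fun p => p ∣ m), (1 + 2 / (p : ℝ)) ≤
        ∏ p ∈ (IN N w).filter (fun p => p ∣ m), (1 + 2 / (p : ℝ)) := by
      classical
      rw [← Finset.prod_sdiff (Finset.filter_subset_filter (fun p => p ∣ m) hsub)]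
      exact le_mul_of_one_le_left (Finset.prod_nonneg fun p _ => by positivity) (hE1 _)
    have hE0 : 0 ≤ ∏ p ∈ (I4 w z).filter (fun p => p ∣ m), (1 + 2 / (p : ℝ)) :=
      Finset.prod_nonneg fun p _ => by positivity
    have hE0' : 0 ≤ ∏ p ∈ (IN N w).filter (fun p => p ∣ m), (1 + 2 / (p : ℝ)) :=
      Finset.prod_nonneg fun p _ => by positivity
    have h6 : ∏ p ∈ (I4 w z).filter (fun p => ¬ p ∣ m), (1 - 3 / 4 * bt p) ≤
        CW * (61 * (Real.log w / (1 + Real.log M)) ^ (3 / 4 : ℝ)) *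
          ∏ p ∈ (IN N w).filter (fun p => p ∣ m), (1 + 2 / (p : ℝ)) := by
      refine h4.trans ?_
      refine mul_le_mul (h3.trans (mul_le_mul_of_nonneg_left h1 hCW.le)) h5 hE0 ?_
      positivity
    calc 6 * (M : ℝ) ^ 2 * ∏ p ∈ (I4 w z).filter (fun p => ¬ p ∣ m), (1 - 3 / 4 * bt p)
        ≤ 6 * (M : ℝ) ^ 2 * (CW * (61 * (Real.log w / (1 + Real.log M)) ^ (3 / 4 : ℝ)) *
          ∏ p ∈ (IN N w).filter (fun p => p ∣ m), (1 + 2 / (p : ℝ))) :=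
          mul_le_mul_of_nonneg_left h6 (by positivity)
      _ = 366 * CW * (M : ℝ) ^ 2 * (Real.log w / (1 + Real.log M)) ^ (3 / 4 : ℝ) *
          ∏ p ∈ (IN N w).filter (fun p => p ∣ m), (1 + 2 / (p : ℝ)) := by ring
      _ ≤ _ := by
          refine mul_le_mul_of_nonneg_right (mul_le_mul_of_nonneg_right
            (mul_le_mul_of_nonneg_right ?_ hM0) hX) hE0'
          linarith

end Pool.Agent.DG
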