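import Pool.Agent.helper41.DG.CS
import Pool.Agent.helper41.DG.Sv

/-! # Isosceles pairs in the box -/

set_option autoImplicit false
open scoped Classical

open Finset

namespace Pool.Agent.DG

/-- the vector `q x - a` -/
def qv (q : ℤ) (a x : ℤ × ℤ) : ℤ × ℤ := (q * x.1 - a.1, q * x.2 - a.2)

/-- the box `[0, N)²` -/
noncomputable def Bx (N : ℕ) : Finset (ℤ × ℤ) := (Finset.Ico (0 : ℤ) N) ×ˢ (Finset.Ico (0 : ℤ) N)

/-- the sup norm -/
def sn (v : ℤ × ℤ) : ℕ := max v.1.natAbs v.2.natAbs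

/-- the size of the point `a / q` relative to the box -/
noncomputable def Aq (N : ℕ) (q : ℤ) (a : ℤ × ℤ) : ℝ := (q : ℝ) + (sn a : ℝ) / (N : ℝ)

/-- `a / q` is in lowest terms -/
def Low (q : ℤ) (a : ℤ × ℤ) : Prop := 1 ≤ q ∧ ∀ d : ℤ, d ∣ q → d ∣ a.1 → d ∣ a.2 → IsUnit d

/-- the pairs of points of the box with the same distance to `a / q` -/
noncomputable def Iso (N : ℕ) (q : ℤ) (a : ℤ × ℤ) : Finset ((ℤ × ℤ) × (ℤ × ℤ)) :=
  (Bx N ×ˢ Bx N).filter (fun t => nsq (qv q a t.1) = nsq (qv q a t.2))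

/-- the isosceles pairs of direction `e` -/
noncomputable def Pe (N : ℕ) (q : ℤ) (a e : ℤ × ℤ) : Finset ((ℤ × ℤ) × (ℤ × ℤ)) :=
  (Iso N q a).filter (fun t => ∃ h : ℕ, 1 ≤ h ∧ t.2.1 - t.1.1 = h * e.1 ∧ t.2.2 - t.1.2 = h * e.2)

/-- the primitive directions -/
noncomputable def Dir (N : ℕ) : Finset (ℤ × ℤ) :=
  ((Finset.Icc (-(N : ℤ)) N) ×ˢ (Finset.Icc (-(N : ℤ)) N)).filter (fun e => IsCoprime e.1 e.2)

/-- the necessary conditions on the directions -/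
def Sd (N : ℕ) (q : ℤ) (a e : ℤ × ℤ) : Prop :=
  q ∣ 2 * (a.1 * e.1 + a.2 * e.2) ∧ |a.1 * e.1 + a.2 * e.2| ≤ 2 * q * N * sn e

/-- the weight `∏ (1 - κ_p [p ∣ m])` -/
noncomputable def Gw (I : Finset ℕ) (m : ℕ) : ℝ := ∏ p ∈ I, (if p ∣ m then 1 - kp p else 1)

theorem Geo_nsq_cast (v : ℤ × ℤ) : ((nsq v : ℕ) : ℤ) = v.1 ^ 2 + v.2 ^ 2 := by
  unfold nsq
  exact Int.natAbs_of_nonneg (by positivity)

theorem Geo_mul_sn {e : ℤ × ℤ} {h : ℤ} {B : ℤ} (hh : 0 ≤ h) (h1 : |h * e.1| ≤ B)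
    (h2 : |h * e.2| ≤ B) : h * sn e ≤ B := by
  unfold sn
  rw [abs_mul, abs_of_nonneg hh] at h1 h2
  rcases le_total e.1.natAbs e.2.natAbs with h3 | h3
  · rw [max_eq_right h3, Int.natCast_natAbs]
    exact h2
  · rw [max_eq_left h3, Int.natCast_natAbs]
    exact h1

theorem Geo_le_sn (a : ℤ × ℤ) : |a.1| ≤ (sn a : ℤ) ∧ |a.2| ≤ (sn a : ℤ) := by
  unfold sn
  rw [← Int.natCast_natAbs, ← Int.natCast_natAbs]
  exact ⟨by exact_mod_cast le_max_left _ _, by exact_mod_cast le_max_right _ _⟩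

theorem Geo_mem_Bx {N : ℕ} {x : ℤ × ℤ} (hx : x ∈ Bx N) :
    0 ≤ x.1 ∧ x.1 < N ∧ 0 ≤ x.2 ∧ x.2 < N := by
  unfold Bx at hx
  simp only [Finset.mem_product, Finset.mem_Ico] at hx
  exact ⟨hx.1.1, hx.1.2, hx.2.1, hx.2.2⟩

theorem Geo_mem_Iso {N : ℕ} {q : ℤ} {a : ℤ × ℤ} {t : (ℤ × ℤ) × (ℤ × ℤ)} (ht : t ∈ Iso N q a) :
    t.1 ∈ Bx N ∧ t.2 ∈ Bx N ∧ nsq (qv q a t.1) = nsq (qv q a t.2) := by
  unfold Iso at ht
  simp only [Finset.mem_filter, Finset.mem_product] at ht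
  exact ⟨ht.1.1, ht.1.2, ht.2⟩

theorem Geo_mem_Pe {N : ℕ} {q : ℤ} {a e : ℤ × ℤ} {t : (ℤ × ℤ) × (ℤ × ℤ)} (ht : t ∈ Pe N q a e) :
    t ∈ Iso N q a ∧ ∃ h : ℕ, 1 ≤ h ∧ t.2.1 - t.1.1 = h * e.1 ∧ t.2.2 - t.1.2 = h * e.2 := by
  unfold Pe at ht
  exact Finset.mem_filter.mp ht

/-- the direction of an isosceles pair: the other data -/
theorem Pe_hd {N : ℕ} {q : ℤ} {a e : ℤ × ℤ} (hq : 1 ≤ q) (he : IsCoprime e.1 e.2)
    {t : (ℤ × ℤ) × (ℤ × ℤ)} (ht : t ∈ Pe N q a e) :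
    ∃ h d : ℤ, 1 ≤ h ∧ h * sn e ≤ N ∧ |d| * sn e ≤ 2 * (q * N + sn a) ∧
      t.2.1 - t.1.1 = h * e.1 ∧ t.2.2 - t.1.2 = h * e.2 ∧
      q * (t.1.1 + t.2.1) - 2 * a.1 = -(d * e.2) ∧ q * (t.1.2 + t.2.2) - 2 * a.2 = d * e.1 ∧
      4 * (nsq (qv q a t.1) : ℤ) = (nsq e : ℤ) * ((q * h) ^ 2 + d ^ 2) := by
  obtain ⟨hI, n, hn, h1, h2⟩ := Geo_mem_Pe ht
  obtain ⟨hx, hx', heq⟩ := Geo_mem_Iso hI
  obtain ⟨x1, x2, x3, x4⟩ := Geo_mem_Bx hx
  obtain ⟨y1, y2, y3, y4⟩ := Geo_mem_Bx hx'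
  obtain ⟨⟨x, y⟩, ⟨x', y'⟩⟩ := t
  obtain ⟨e1, e2⟩ := e
  obtain ⟨a1, a2⟩ := a
  simp only at h1 h2 x1 x2 x3 x4 y1 y2 y3 y4 he heq ⊢
  have hE : (q * x - a1) ^ 2 + (q * y - a2) ^ 2 = (q * x' - a1) ^ 2 + (q * y' - a2) ^ 2 := by
    have h3 := congrArg (fun n : ℕ => (n : ℤ)) heq
    simpa [Geo_nsq_cast, qv] using h3
  have hn' : (1 : ℤ) ≤ n := by exact_mod_cast hn
  have hS : e1 * (q * (x + x') - 2 * a1) + e2 * (q * (y + y') - 2 * a2) = 0 := by
    have h3 : (q * n) * (e1 * (q * (x + x') - 2 * a1) + e2 * (q * (y + y') - 2 * a2)) = 0 := by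
      linear_combination (-(q * (q * (x + x') - 2 * a1))) * h1 +
        (-(q * (q * (y + y') - 2 * a2))) * h2 - hE
    rcases mul_eq_zero.mp h3 with h4 | h4
    · exact absurd h4 (by positivity)
    · exact h4
  obtain ⟨u, v, huv⟩ := he
  set S1 := q * (x + x') - 2 * a1 with hS1
  set S2 := q * (y + y') - 2 * a2 with hS2
  have hd1 : S1 = -((u * S2 - v * S1) * e2) := by
    linear_combination (-S1) * huv + u * hS
  have hd2 : S2 = (u * S2 - v * S1) * e1 := by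
    linear_combination (-S2) * huv + v * hS
  refine ⟨n, u * S2 - v * S1, hn', ?_, ?_, h1, h2, hd1, hd2, ?_⟩
  · refine Geo_mul_sn (by linarith) ?_ ?_
    · simp only
      rw [← h1, abs_le]
      constructor <;> linarith
    · simp only
      rw [← h2, abs_le]
      constructor <;> linarith
  · have hs := Geo_le_sn (a1, a2)
    have hs1 := abs_le.mp hs.1
    have hs2 := abs_le.mp hs.2
    simp only at hs1 hs2
    have q1 : 0 ≤ q * (x + x') := mul_nonneg (by linarith) (by linarith)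
    have q2 : q * (x + x') ≤ q * (2 * N) := mul_le_mul_of_nonneg_left (by linarith) (by linarith)
    have q3 : 0 ≤ q * (y + y') := mul_nonneg (by linarith) (by linarith)
    have q4 : q * (y + y') ≤ q * (2 * N) := mul_le_mul_of_nonneg_left (by linarith) (by linarith)
    refine Geo_mul_sn (abs_nonneg _) ?_ ?_
    · simp only
      rw [abs_mul, abs_abs, ← abs_mul, ← hd2, abs_le]
      constructor <;> linarith [hs2.1, hs2.2]
    · simp only
      rw [abs_mul, abs_abs, ← abs_mul, ← abs_neg, ← hd1, abs_le]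
      constructor <;> linarith [hs1.1, hs1.2]
  · rw [Geo_nsq_cast, Geo_nsq_cast]
    simp only [qv]
    have r1 : 2 * (q * x - a1) = S1 - q * (n * e1) := by rw [← h1, hS1]; ring
    have r2 : 2 * (q * y - a2) = S2 - q * (n * e2) := by rw [← h2, hS2]; ring
    have r3 : 4 * ((q * x - a1) ^ 2 + (q * y - a2) ^ 2) =
        (S1 - q * (n * e1)) ^ 2 + (S2 - q * (n * e2)) ^ 2 := by
      rw [← r1, ← r2]
      ring
    rw [r3]
    generalize hdd : u * S2 - v * S1 = d at hd1 hd2 ⊢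
    rw [hd1, hd2]
    ring

/-- the parametrization of the isosceles pairs of a given direction by a box -/
theorem Pe_param {N : ℕ} {q : ℤ} {a e : ℤ × ℤ} (hq : 1 ≤ q) (he : IsCoprime e.1 e.2) :
    ∃ (d0 : ℤ) (f : (ℤ × ℤ) × (ℤ × ℤ) → ℤ × ℤ), Set.InjOn f (Pe N q a e) ∧
      ∀ t ∈ Pe N q a e, 1 ≤ (f t).1 ∧ 0 ≤ (f t).2 ∧ (f t).1 * sn e ≤ N ∧
        (f t).2 * sn e ≤ 2 * N ∧
        4 * (nsq (qv q a t.1) : ℤ) =
          (nsq e : ℤ) * ((q * (f t).1) ^ 2 + (q * (f t).2 + d0) ^ 2) := by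
  rcases (Pe N q a e).eq_empty_or_nonempty with h0 | h0
  · refine ⟨0, fun _ => (0, 0), ?_, ?_⟩
    · rw [h0]
      simp
    · rw [h0]
      simp
  choose! h d h1 h2 h3 h4 h5 h6 h7 h8 using fun t (ht : t ∈ Pe N q a e) => Pe_hd hq he ht
  obtain ⟨t0, ht0, hmin⟩ := Finset.exists_min_image (Pe N q a e) d h0
  have hq0 : q ≠ 0 := by omega
  -- the difference of two values of `d`
  have hj : ∀ t ∈ Pe N q a e, ∃ j : ℤ, d t = q * j + d t0 ∧ j * sn e ≤ 2 * N := by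
    intro t ht
    obtain ⟨u, v, huv⟩ := he
    set j := u * ((t.1.2 + t.2.2) - (t0.1.2 + t0.2.2)) - v * ((t.1.1 + t.2.1) - (t0.1.1 + t0.2.1))
      with hjdef
    have e1 := h6 t ht
    have e2 := h7 t ht
    have e3 := h6 t0 ht0
    have e4 := h7 t0 ht0
    have ej : d t = q * j + d t0 := by
      rw [hjdef]
      linear_combination (-u) * e2 + u * e4 + v * e1 - v * e3 + (-(d t - d t0)) * huv
    have ej1 : (t.1.1 + t.2.1) - (t0.1.1 + t0.2.1) = -(j * e.2) := by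
      apply mul_left_cancel₀ hq0
      linear_combination e1 - e3 - e.2 * ej
    have ej2 : (t.1.2 + t.2.2) - (t0.1.2 + t0.2.2) = j * e.1 := by
      apply mul_left_cancel₀ hq0
      linear_combination e2 - e4 + e.1 * ej
    refine ⟨j, ej, ?_⟩
    have hj0 : 0 ≤ j := by
      have hm := hmin t ht
      by_contra hcon
      have hcon := not_le.mp hcon
      have : q * j < 0 := mul_neg_of_pos_of_neg (by linarith) hcon
      linarith
    obtain ⟨b1, b2, _⟩ := Geo_mem_Iso (Geo_mem_Pe ht).1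
    obtain ⟨c1, c2, _⟩ := Geo_mem_Iso (Geo_mem_Pe ht0).1
    have b1 := Geo_mem_Bx b1
    have b2 := Geo_mem_Bx b2
    have c1 := Geo_mem_Bx c1
    have c2 := Geo_mem_Bx c2
    refine Geo_mul_sn hj0 ?_ ?_
    · rw [← ej2, abs_le]
      constructor <;> linarith [b1.1, b1.2.1, b1.2.2.1, b1.2.2.2, b2.1, b2.2.1, b2.2.2.1, b2.2.2.2,
        c1.1, c1.2.1, c1.2.2.1, c1.2.2.2, c2.1, c2.2.1, c2.2.2.1, c2.2.2.2]
    · rw [← abs_neg, ← ej1, abs_le]
      constructor <;> linarith [b1.1, b1.2.1, b1.2.2.1, b1.2.2.2, b2.1, b2.2.1, b2.2.2.1, b2.2.2.2,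
        c1.1, c1.2.1, c1.2.2.1, c1.2.2.2, c2.1, c2.2.1, c2.2.2.1, c2.2.2.2]
  choose! j hj1 hj2 using hj
  refine ⟨d t0, fun t => (h t, j t), ?_, ?_⟩
  · intro t ht t' ht' hf
    have ht := Finset.mem_coe.mp ht
    have ht' := Finset.mem_coe.mp ht'
    simp only [Prod.mk.injEq] at hf
    have hdd : d t = d t' := by rw [hj1 t ht, hj1 t' ht', hf.2]
    have s1 : (t.1.1 + t.2.1) = (t'.1.1 + t'.2.1) := by
      apply mul_left_cancel₀ hq0
      linear_combination h6 t ht - h6 t' ht' - e.2 * hdd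
    have s2 : (t.1.2 + t.2.2) = (t'.1.2 + t'.2.2) := by
      apply mul_left_cancel₀ hq0
      linear_combination h7 t ht - h7 t' ht' + e.1 * hdd
    have s3 : t.2.1 - t.1.1 = t'.2.1 - t'.1.1 := by
      rw [h4 t ht, h4 t' ht', hf.1]
    have s4 : t.2.2 - t.1.2 = t'.2.2 - t'.1.2 := by
      rw [h5 t ht, h5 t' ht', hf.1]
    ext <;> linarith
  · intro t ht
    refine ⟨h1 t ht, ?_, h2 t ht, hj2 t ht, ?_⟩
    · have hm := hmin t ht
      have e1 := hj1 t ht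
      by_contra hcon
      have hcon := not_le.mp hcon
      have : q * j t < 0 := mul_neg_of_pos_of_neg (by linarith) hcon
      linarith
    · simp only
      rw [h8 t ht, hj1 t ht]

theorem Pe_Sd {N : ℕ} {q : ℤ} {a e : ℤ × ℤ} (hq : 1 ≤ q) (he : IsCoprime e.1 e.2)
    (hne : (Pe N q a e).Nonempty) : Sd N q a e := by
  obtain ⟨t, ht⟩ := hne
  obtain ⟨h, d, _, _, _, _, _, h6, h7, _⟩ := Pe_hd hq he ht
  obtain ⟨b1, b2, _⟩ := Geo_mem_Iso (Geo_mem_Pe ht).1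
  have b1 := Geo_mem_Bx b1
  have b2 := Geo_mem_Bx b2
  have key : 2 * (a.1 * e.1 + a.2 * e.2) =
      q * ((t.1.1 + t.2.1) * e.1 + (t.1.2 + t.2.2) * e.2) := by
    linear_combination (-e.1) * h6 - e.2 * h7
  refine ⟨⟨_, key⟩, ?_⟩
  have hs := Geo_le_sn e
  have e1 : |(t.1.1 + t.2.1) * e.1| ≤ 2 * N * sn e := by
    rw [abs_mul]
    refine mul_le_mul ?_ hs.1 (abs_nonneg _) (by positivity)
    rw [abs_le]
    constructor <;> linarith [b1.1, b1.2.1, b2.1, b2.2.1]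
  have e2 : |(t.1.2 + t.2.2) * e.2| ≤ 2 * N * sn e := by
    rw [abs_mul]
    refine mul_le_mul ?_ hs.2 (abs_nonneg _) (by positivity)
    rw [abs_le]
    constructor <;> linarith [b1.2.2.1, b1.2.2.2, b2.2.2.1, b2.2.2.2]
  have e3 : |(t.1.1 + t.2.1) * e.1 + (t.1.2 + t.2.2) * e.2| ≤ 4 * (N * sn e) := by
    refine (abs_add_le _ _).trans ?_
    linarith
  have e4 : 2 * |a.1 * e.1 + a.2 * e.2| ≤ q * (4 * (N * sn e)) := by
    have e5 : |2 * (a.1 * e.1 + a.2 * e.2)| = 2 * |a.1 * e.1 + a.2 * e.2| := by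
      rw [abs_mul]
      norm_num
    rw [← e5, key, abs_mul, abs_of_pos (by linarith : 0 < q)]
    exact mul_le_mul_of_nonneg_left e3 (by linarith)
  have e6 : q * (4 * ((N : ℤ) * sn e)) = 2 * (2 * q * N * sn e) := by ring
  rw [e6] at e4
  linarith

theorem Geo_dir {N : ℕ} {x x' : ℤ × ℤ} (hx : x ∈ Bx N) (hx' : x' ∈ Bx N) (hne : x ≠ x') :
    ∃ e ∈ Dir N, ∃ h : ℕ, 1 ≤ h ∧ x'.1 - x.1 = h * e.1 ∧ x'.2 - x.2 = h * e.2 := by
  obtain ⟨x1, x2, x3, x4⟩ := Geo_mem_Bx hx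
  obtain ⟨y1, y2, y3, y4⟩ := Geo_mem_Bx hx'
  set g : ℕ := Int.gcd (x'.1 - x.1) (x'.2 - x.2) with hg
  have hg0 : 0 < g := by
    rw [hg]
    refine Nat.pos_of_ne_zero fun h0 => ?_
    rw [Int.gcd_eq_zero_iff] at h0
    exact hne (Prod.ext (by linarith [h0.1]) (by linarith [h0.2]))
  have hgZ : (0 : ℤ) < g := by exact_mod_cast hg0
  obtain ⟨c1, hc1⟩ : (g : ℤ) ∣ x'.1 - x.1 := Int.gcd_dvd_left ..
  obtain ⟨c2, hc2⟩ : (g : ℤ) ∣ x'.2 - x.2 := Int.gcd_dvd_right ..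
  have hcop : IsCoprime c1 c2 := by
    have h1 := Int.gcd_eq_gcd_ab (x'.1 - x.1) (x'.2 - x.2)
    rw [← hg] at h1
    refine ⟨Int.gcdA (x'.1 - x.1) (x'.2 - x.2), Int.gcdB (x'.1 - x.1) (x'.2 - x.2), ?_⟩
    apply mul_left_cancel₀ hgZ.ne'
    rw [mul_one]
    conv_rhs => rw [h1]
    generalize Int.gcdA (x'.1 - x.1) (x'.2 - x.2) = A
    generalize Int.gcdB (x'.1 - x.1) (x'.2 - x.2) = B
    rw [hc1, hc2]
    ring
  have hbd : ∀ c z : ℤ, z = g * c → |z| ≤ N → -(N : ℤ) ≤ c ∧ c ≤ N := by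
    intro c z hz hzN
    rw [hz, abs_mul, abs_of_pos hgZ] at hzN
    have h1 : |c| ≤ g * |c| := by
      have : (1 : ℤ) ≤ g := hgZ
      nlinarith [abs_nonneg c]
    exact abs_le.mp (h1.trans hzN)
  refine ⟨(c1, c2), ?_, g, hg0, hc1, hc2⟩
  unfold Dir
  simp only [Finset.mem_filter, Finset.mem_product, Finset.mem_Icc]
  refine ⟨⟨hbd c1 _ hc1 ?_, hbd c2 _ hc2 ?_⟩, hcop⟩
  · rw [abs_le]
    constructor <;> linarith
  · rw [abs_le]
    constructor <;> linarith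

/-- the decomposition of the isosceles pairs -/
theorem energy_split (N : ℕ) (q : ℤ) (a : ℤ × ℤ) (F : ℕ → ℝ) (hF : ∀ m, 0 ≤ F m) :
    ∑ t ∈ Iso N q a, F (nsq (qv q a t.1)) ≤ ∑ x ∈ Bx N, F (nsq (qv q a x)) +
      ∑ e ∈ Dir N, ∑ t ∈ Pe N q a e, F (nsq (qv q a t.1)) := by
  rw [← Finset.sum_filter_add_sum_filter_not (Iso N q a) (fun t => t.1 = t.2)]
  refine add_le_add ?_ ?_
  · have h1 : ∑ t ∈ (Iso N q a).filter (fun t => t.1 = t.2), F (nsq (qv q a t.1)) =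
        ∑ x ∈ ((Iso N q a).filter (fun t => t.1 = t.2)).image Prod.fst, F (nsq (qv q a x)) := by
      rw [Finset.sum_image]
      intro t ht t' ht' h
      have h2 := (Finset.mem_filter.mp (Finset.mem_coe.mp ht)).2
      have h3 := (Finset.mem_filter.mp (Finset.mem_coe.mp ht')).2
      exact Prod.ext h (by rw [← h2, ← h3]; exact h)
    rw [h1]
    refine Finset.sum_le_sum_of_subset_of_nonneg ?_ fun _ _ _ => hF _
    intro x hx
    obtain ⟨t, ht, rfl⟩ := Finset.mem_image.mp hx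
    exact (Geo_mem_Iso (Finset.mem_filter.mp ht).1).1
  · have h1 : ∀ e ∈ Dir N, ∑ t ∈ Pe N q a e, F (nsq (qv q a t.1)) =
        ∑ t ∈ Iso N q a, if t ∈ Pe N q a e then F (nsq (qv q a t.1)) else 0 := by
      intro e _
      rw [← Finset.sum_filter]
      refine Finset.sum_congr ?_ fun _ _ => rfl
      ext t
      simp only [Finset.mem_filter]
      exact ⟨fun h => ⟨(Geo_mem_Pe h).1, h⟩, fun h => h.2⟩
    rw [Finset.sum_congr rfl h1, Finset.sum_comm]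
    have h2 : ∑ t ∈ (Iso N q a).filter (fun t => ¬ t.1 = t.2), F (nsq (qv q a t.1)) ≤
        ∑ t ∈ (Iso N q a).filter (fun t => ¬ t.1 = t.2),
          ∑ e ∈ Dir N, (if t ∈ Pe N q a e then F (nsq (qv q a t.1)) else 0) := by
      refine Finset.sum_le_sum fun t ht => ?_
      obtain ⟨ht1, ht2⟩ := Finset.mem_filter.mp ht
      obtain ⟨b1, b2, b3⟩ := Geo_mem_Iso ht1
      obtain ⟨e, he, h, hh, h3, h4⟩ := Geo_dir b1 b2 ht2
      have h5 : t ∈ Pe N q a e := by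
        unfold Pe
        exact Finset.mem_filter.mpr ⟨ht1, h, hh, h3, h4⟩
      have h6 := Finset.single_le_sum (f := fun e => if t ∈ Pe N q a e then F (nsq (qv q a t.1)) else 0)
        (s := Dir N) (fun e _ => by split_ifs; exacts [hF _, le_rfl]) he
      simp only [if_pos h5] at h6
      exact h6
    refine h2.trans ?_
    refine Finset.sum_le_sum_of_subset_of_nonneg (Finset.filter_subset _ _) fun t _ _ => ?_
    exact Finset.sum_nonneg fun e _ => by split_ifs; exacts [hF _, le_rfl]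

theorem sn_pos_of_mem_Dir {N : ℕ} {e : ℤ × ℤ} (he : e ∈ Dir N) :
    1 ≤ sn e ∧ sn e ≤ N ∧ IsCoprime e.1 e.2 := by
  unfold Dir at he
  simp only [Finset.mem_filter, Finset.mem_product, Finset.mem_Icc] at he
  obtain ⟨⟨h1, h2⟩, h3⟩ := he
  refine ⟨?_, ?_, h3⟩
  · unfold sn
    by_contra hcon
    have h4 : max e.1.natAbs e.2.natAbs = 0 := by omega
    have h5 : e.1 = 0 := by
      have := le_max_left e.1.natAbs e.2.natAbs
      omega
    have h6 : e.2 = 0 := by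
      have := le_max_right e.1.natAbs e.2.natAbs
      omega
    rw [h5, h6] at h3
    exact not_isCoprime_zero_zero h3
  · unfold sn
    refine max_le ?_ ?_ <;> omega

/-- the weights at a product -/
theorem wt_split (I : Finset ℕ) (hI : ∀ p ∈ I, p.Prime ∧ p ≠ 2) (m : ℕ) (m1 : ℕ) (m2 : ℤ)
    (h : 4 * (m : ℤ) = (m1 : ℤ) * m2) :
    wt I (1 / 4) m = (∏ p ∈ I.filter (fun p => p ∣ m1), (1 / 4 : ℝ)) *
      ∏ p ∈ I.filter (fun p => ¬ p ∣ m1), (1 - 3 / 4 * (if (p : ℤ) ∣ m2 then (1 : ℝ) else 0)) := by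
  unfold wt
  rw [← Finset.prod_filter_mul_prod_filter_not I (fun p => p ∣ m1)]
  have hm : ∀ p ∈ I, (p ∣ m ↔ p ∣ m1 ∨ (p : ℤ) ∣ m2) := by
    intro p hp
    obtain ⟨hp1, hp2⟩ := hI p hp
    have hpZ : Prime (p : ℤ) := Nat.prime_iff_prime_int.mp hp1
    have h4 : ¬ (p : ℤ) ∣ 4 := by
      intro h5
      have h6 : p ∣ 4 := by exact_mod_cast h5
      have h7 : p ∣ 2 ^ 2 := by norm_num; exact h6
      have h8 := (Nat.prime_dvd_prime_iff_eq hp1 Nat.prime_two).mp (hp1.dvd_of_dvd_pow h7)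
      exact hp2 h8
    have h5 : p ∣ m ↔ (p : ℤ) ∣ 4 * (m : ℤ) := by
      rw [hpZ.dvd_mul]
      constructor
      · intro h6
        exact Or.inr (by exact_mod_cast h6)
      · rintro (h6 | h6)
        · exact absurd h6 h4
        · exact_mod_cast h6
    rw [h5, h, hpZ.dvd_mul]
    constructor
    · rintro (h6 | h6)
      · exact Or.inl (by exact_mod_cast h6)
      · exact Or.inr h6
    · rintro (h6 | h6)
      · exact Or.inl (by exact_mod_cast h6)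
      · exact Or.inr h6
  congr 1
  · refine Finset.prod_congr rfl fun p hp => ?_
    obtain ⟨hp1, hp2⟩ := Finset.mem_filter.mp hp
    rw [if_pos ((hm p hp1).mpr (Or.inl hp2))]
  · refine Finset.prod_congr rfl fun p hp => ?_
    obtain ⟨hp1, hp2⟩ := Finset.mem_filter.mp hp
    by_cases h5 : (p : ℤ) ∣ m2
    · rw [if_pos ((hm p hp1).mpr (Or.inr h5)), if_pos h5]
      norm_num
    · rw [if_neg h5, if_neg]
      · norm_num
      · intro h6
        rcases (hm p hp1).mp h6 with h7 | h7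
        · exact hp2 h7
        · exact h5 h7

/-- the weights of the primes dividing the outer variable -/
theorem Gw_eq (I : Finset ℕ) (hI : ∀ p ∈ I, p.Prime) (m : ℕ) :
    (∏ p ∈ I.filter (fun p => p ∣ m), (1 / 4 : ℝ)) * ∏ p ∈ I.filter (fun p => p ∣ m), (1 + 2 / (p : ℝ)) =
      Gw I m := by
  unfold Gw
  rw [← Finset.prod_mul_distrib, ← Finset.prod_filter]
  refine Finset.prod_congr rfl fun p hp => ?_
  have hp0 : (p : ℝ) ≠ 0 := by
    exact_mod_cast (hI p (Finset.mem_filter.mp hp).1).ne_zero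
  unfold kp
  field_simp
  ring

end Pool.Agent.DG
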