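import Mathlib

/-! # An upper bound for the sums of nonnegative multiplicative functions -/

set_option autoImplicit false

open Finset

namespace Pool.Agent.DG

/-- the weights of the prime powers -/
noncomputable def HT_c (v : ℕ) : ℝ := ((v : ℝ) + 1) ^ 3 * (1 / 2) ^ v

theorem HT_c_nonneg (v : ℕ) : 0 ≤ HT_c v := by
  unfold HT_c
  positivity

theorem HT_summable_c : Summable HT_c := by
  have h := summable_pow_mul_geometric_of_norm_lt_one (R := ℝ) 3 (r := 1 / 2)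
    (by rw [Real.norm_eq_abs, abs_of_pos] <;> norm_num)
  have h2 := (summable_nat_add_iff 1).2 h
  have h3 := h2.mul_left 2
  refine h3.congr (fun v => ?_)
  unfold HT_c
  push_cast
  ring

theorem HT_pow_le {p v : ℕ} (hp : 2 ≤ p) (hv : 2 ≤ v) :
    (p : ℝ) ^ 2 * 2 ^ v ≤ 4 * (p : ℝ) ^ v := by
  obtain ⟨w, rfl⟩ := Nat.exists_eq_add_of_le hv
  have h1 : (2 : ℝ) ≤ p := by exact_mod_cast hp
  have h2 : (2 : ℝ) ^ w ≤ (p : ℝ) ^ w := pow_le_pow_left₀ (by norm_num) h1 w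
  have h3 : (0 : ℝ) ≤ (p : ℝ) ^ 2 := by positivity
  calc (p : ℝ) ^ 2 * 2 ^ (2 + w) = 4 * ((p : ℝ) ^ 2 * 2 ^ w) := by ring
    _ ≤ 4 * ((p : ℝ) ^ 2 * (p : ℝ) ^ w) := by
        have := mul_le_mul_of_nonneg_left h2 h3
        linarith
    _ = 4 * (p : ℝ) ^ (2 + w) := by ring

theorem HT_sum_inj {α β : Type*} (A : Finset α) (B : Finset β) (i : α → β) (a : α → ℝ)
    (b : β → ℝ) (hi : ∀ x ∈ A, i x ∈ B) (hinj : Set.InjOn i A) (hab : ∀ x ∈ A, a x ≤ b (i x))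
    (hb : ∀ y ∈ B, 0 ≤ b y) : ∑ x ∈ A, a x ≤ ∑ y ∈ B, b y := by
  classical
  calc ∑ x ∈ A, a x ≤ ∑ x ∈ A, b (i x) := sum_le_sum hab
    _ = ∑ y ∈ A.image i, b y := (sum_image hinj).symm
    _ ≤ ∑ y ∈ B, b y := sum_le_sum_of_subset_of_nonneg (image_subset_iff.2 hi)
        (fun y hy _ => hb y hy)

/-- the Euler product -/
theorem HT_L : ∃ C : ℝ, 0 < C ∧ ∀ F : ℕ → ℝ, (∀ m, 0 ≤ F m) → F 1 = 1 →
    (∀ a b : ℕ, Nat.Coprime a b → F (a * b) = F a * F b) →
    (∀ p k : ℕ, p.Prime → F (p ^ k) ≤ ((k : ℝ) + 1) ^ 2) → ∀ M : ℕ,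
    ∑ m ∈ Icc 1 M, F m / (m : ℝ) ≤ C *
      Real.exp (∑ p ∈ (Icc 1 M).filter Nat.Prime, F p / (p : ℝ)) := by
  set B : ℝ := ∑' v, HT_c v with hB
  have hB0 : 0 ≤ B := tsum_nonneg HT_c_nonneg
  have hZs : Summable (fun n : ℕ => 1 / (n : ℝ) ^ 2) :=
    Real.summable_one_div_nat_pow.2 (by norm_num)
  set Z : ℝ := ∑' n : ℕ, 1 / (n : ℝ) ^ 2 with hZ
  refine ⟨Real.exp (4 * B * Z), Real.exp_pos _, ?_⟩
  intro F h0 h1 hmul hpk M
  set f : ℕ → ℝ := fun m => F m / (m : ℝ) with hf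
  have hf0 : ∀ m, 0 ≤ f m := fun m => div_nonneg (h0 m) (Nat.cast_nonneg m)
  have hf1 : f 1 = 1 := by simp [hf, h1]
  have hfmul : ∀ {m n : ℕ}, Nat.Coprime m n → f (m * n) = f m * f n := by
    intro m n hmn
    simp only [hf]
    rw [hmul m n hmn]
    push_cast
    rw [mul_div_mul_comm]
  have hfc : ∀ p k : ℕ, p.Prime → f (p ^ k) ≤ HT_c k := by
    intro p k hp
    have hp2 : (2 : ℝ) ≤ p := by exact_mod_cast hp.two_le
    have h2 : (2 : ℝ) ^ k ≤ (p : ℝ) ^ k := pow_le_pow_left₀ (by norm_num) hp2 k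
    simp only [hf]
    push_cast
    unfold HT_c
    rw [one_div, inv_pow, ← div_eq_mul_inv]
    have h3 : F (p ^ k) ≤ ((k : ℝ) + 1) ^ 3 := by
      refine (hpk p k hp).trans ?_
      have : (1 : ℝ) ≤ (k : ℝ) + 1 := by linarith [(Nat.cast_nonneg k : (0 : ℝ) ≤ k)]
      exact pow_le_pow_right₀ this (by norm_num)
    exact div_le_div₀ (by positivity) h3 (by positivity) h2
  have hsum : ∀ {p : ℕ}, p.Prime → Summable (fun n : ℕ => ‖f (p ^ n)‖) := by
    intro p hp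
    refine Summable.of_nonneg_of_le (fun n => norm_nonneg _) (fun n => ?_) HT_summable_c
    rw [Real.norm_eq_abs, abs_of_nonneg (hf0 _)]
    exact hfc p n hp
  have hE := (EulerProduct.summable_and_hasSum_factoredNumbers_prod_filter_prime_tsum
    (R := ℝ) hf1 hfmul hsum (Icc 1 M)).2
  have hE2 : HasSum ((Nat.factoredNumbers (Icc 1 M)).indicator f)
      (∏ p ∈ Icc 1 M with p.Prime, ∑' n : ℕ, f (p ^ n)) :=
    hasSum_subtype_iff_indicator.1 hE
  have hle : ∑ m ∈ Icc 1 M, f m ≤ ∏ p ∈ Icc 1 M with p.Prime, ∑' n : ℕ, f (p ^ n) := by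
    have h3 := sum_le_hasSum (Icc 1 M)
      (fun m _ => Set.indicator_nonneg (fun x _ => hf0 x) m) hE2
    refine le_trans (le_of_eq ?_) h3
    refine sum_congr rfl (fun m hm => ?_)
    have hm' := mem_Icc.1 hm
    rw [Set.indicator_of_mem]
    rw [Nat.mem_factoredNumbers]
    refine ⟨by omega, fun p hp => ?_⟩
    have h4 := Nat.prime_of_mem_primeFactorsList hp
    have h5 := Nat.le_of_mem_primeFactorsList hp
    exact mem_Icc.2 ⟨h4.one_lt.le, h5.trans hm'.2⟩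
  refine hle.trans ?_
  have hfac : ∀ p ∈ (Icc 1 M).filter Nat.Prime, ∑' n : ℕ, f (p ^ n) ≤
      Real.exp (F p / (p : ℝ) + 4 * B * (1 / (p : ℝ) ^ 2)) := by
    intro p hp
    have hpp := (mem_filter.1 hp).2
    have hs : Summable (fun n : ℕ => f (p ^ n)) := by
      refine Summable.of_nonneg_of_le (fun n => hf0 _) (fun n => hfc p n hpp) HT_summable_c
    have hp2 : (2 : ℝ) ≤ p := by exact_mod_cast hpp.two_le
    rw [← hs.sum_add_tsum_nat_add 2]
    have h3 : ∑ i ∈ range 2, f (p ^ i) = 1 + F p / (p : ℝ) := by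
      rw [sum_range_succ, sum_range_succ, sum_range_zero, pow_zero, hf1, pow_one]
      simp [hf]
    have hsh : Summable (fun n : ℕ => HT_c (n + 2)) := (summable_nat_add_iff 2).2 HT_summable_c
    have h4 : ∑' n : ℕ, f (p ^ (n + 2)) ≤ 4 * B * (1 / (p : ℝ) ^ 2) := by
      have h5 : ∀ n : ℕ, f (p ^ (n + 2)) ≤ 4 / (p : ℝ) ^ 2 * HT_c (n + 2) := by
        intro n
        have h6 := HT_pow_le hpp.two_le (show 2 ≤ n + 2 by omega)
        have h7 : F (p ^ (n + 2)) ≤ (((n + 2 : ℕ) : ℝ) + 1) ^ 3 := by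
          refine (hpk p (n + 2) hpp).trans ?_
          have : (1 : ℝ) ≤ ((n + 2 : ℕ) : ℝ) + 1 := by
            linarith [(Nat.cast_nonneg (n + 2) : (0 : ℝ) ≤ ((n + 2 : ℕ) : ℝ))]
          exact pow_le_pow_right₀ this (by norm_num)
        simp only [hf]
        unfold HT_c
        have h8 : (0 : ℝ) < (p : ℝ) ^ (n + 2) := by positivity
        have h9 : 4 / (p : ℝ) ^ 2 * ((((n + 2 : ℕ) : ℝ) + 1) ^ 3 * (1 / 2) ^ (n + 2)) =
            (((n + 2 : ℕ) : ℝ) + 1) ^ 3 * (4 / ((p : ℝ) ^ 2 * 2 ^ (n + 2))) := by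
          rw [one_div, inv_pow]
          field_simp
        rw [h9, Nat.cast_pow, div_eq_mul_inv]
        refine mul_le_mul h7 ?_ (by positivity) (by positivity)
        rw [inv_eq_one_div, div_le_div_iff₀ h8 (by positivity)]
        linarith
      calc ∑' n : ℕ, f (p ^ (n + 2)) ≤ ∑' n : ℕ, 4 / (p : ℝ) ^ 2 * HT_c (n + 2) :=
            Summable.tsum_le_tsum h5 ((summable_nat_add_iff 2).2 hs) (hsh.mul_left _)
        _ = 4 / (p : ℝ) ^ 2 * ∑' n : ℕ, HT_c (n + 2) := tsum_mul_left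
        _ ≤ 4 / (p : ℝ) ^ 2 * B := by
            refine mul_le_mul_of_nonneg_left ?_ (by positivity)
            have := HT_summable_c.sum_add_tsum_nat_add 2
            rw [hB, ← this]
            have h6 : 0 ≤ ∑ i ∈ range 2, HT_c i := sum_nonneg (fun i _ => HT_c_nonneg i)
            linarith
        _ = 4 * B * (1 / (p : ℝ) ^ 2) := by ring
    rw [h3]
    have h10 := Real.add_one_le_exp (F p / (p : ℝ) + 4 * B * (1 / (p : ℝ) ^ 2))
    linarith
  have hnn : ∀ p ∈ (Icc 1 M).filter Nat.Prime, 0 ≤ ∑' n : ℕ, f (p ^ n) :=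
    fun p _ => tsum_nonneg (fun n => hf0 _)
  refine (prod_le_prod hnn hfac).trans ?_
  rw [← Real.exp_sum, ← Real.exp_add, Real.exp_le_exp, sum_add_distrib, ← mul_sum]
  have h11 : ∑ p ∈ (Icc 1 M).filter Nat.Prime, 1 / (p : ℝ) ^ 2 ≤ Z :=
    hZs.sum_le_tsum _ (fun n _ => by positivity)
  have h12 := mul_le_mul_of_nonneg_left h11 (by positivity : (0 : ℝ) ≤ 4 * B)
  linarith

theorem HT_log_le (p : ℕ) (hp : 1 ≤ p) :
    Real.log p / (p : ℝ) ^ 2 ≤ 2 * (1 / (p : ℝ) ^ (3 / 2 : ℝ)) := by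
  have hp0 : (0 : ℝ) < p := by exact_mod_cast hp
  have h1 : Real.log p ≤ 2 * (p : ℝ) ^ (1 / 2 : ℝ) := by
    have h2 := Real.log_le_rpow_div hp0.le (show (0 : ℝ) < 1 / 2 by norm_num)
    linarith
  have h3 : (p : ℝ) ^ 2 = (p : ℝ) ^ (1 / 2 : ℝ) * (p : ℝ) ^ (3 / 2 : ℝ) := by
    rw [← Real.rpow_add hp0, ← Real.rpow_natCast]
    norm_num
  rw [h3]
  have h4 : (0 : ℝ) < (p : ℝ) ^ (1 / 2 : ℝ) := Real.rpow_pos_of_pos hp0 _
  have h5 : (0 : ℝ) < (p : ℝ) ^ (3 / 2 : ℝ) := Real.rpow_pos_of_pos hp0 _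
  rw [← mul_div_assoc, div_le_div_iff₀ (by positivity) h5]
  nlinarith

/-- Chebyshev's bound with weights -/
theorem HT_G : ∃ C : ℝ, 0 < C ∧ ∀ (M K : ℕ) (y : ℝ), 0 ≤ y →
    ∑ x ∈ ((Icc 1 M).filter Nat.Prime ×ˢ Icc 1 K).filter
      (fun x => ((x.1 ^ x.2 : ℕ) : ℝ) ≤ y),
      (x.2 : ℝ) * ((x.2 : ℝ) + 1) ^ 2 * Real.log x.1 ≤ C * y := by
  set B : ℝ := ∑' v, HT_c v with hB
  have hB0 : 0 ≤ B := tsum_nonneg HT_c_nonneg
  have hZs : Summable (fun n : ℕ => 2 * (1 / (n : ℝ) ^ (3 / 2 : ℝ))) :=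
    (Real.summable_one_div_nat_rpow.2 (by norm_num)).mul_left 2
  set Z : ℝ := ∑' n : ℕ, 2 * (1 / (n : ℝ) ^ (3 / 2 : ℝ)) with hZ
  have hZ0 : 0 ≤ Z := tsum_nonneg (fun n => by positivity)
  refine ⟨4 * Real.log 4 + 4 * B * Z + 1, by positivity, ?_⟩
  intro M K y hy
  set A := ((Icc 1 M).filter Nat.Prime ×ˢ Icc 1 K).filter
      (fun x => ((x.1 ^ x.2 : ℕ) : ℝ) ≤ y) with hA
  set t : ℕ × ℕ → ℝ := fun x => (x.2 : ℝ) * ((x.2 : ℝ) + 1) ^ 2 * Real.log x.1 with ht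
  have hmem : ∀ x ∈ A, x.1.Prime ∧ 1 ≤ x.1 ∧ x.1 ≤ M ∧ 1 ≤ x.2 ∧ x.2 ≤ K ∧
      ((x.1 : ℝ)) ^ x.2 ≤ y := by
    intro x hx
    rw [hA, mem_filter, mem_product, mem_filter, mem_Icc, mem_Icc] at hx
    obtain ⟨⟨⟨⟨h1, h2⟩, h3⟩, h4, h5⟩, h6⟩ := hx
    push_cast at h6
    exact ⟨h3, h1, h2, h4, h5, h6⟩
  rw [← sum_filter_add_sum_filter_not A (fun x => x.2 = 1)]
  have h1 : ∑ x ∈ A.filter (fun x => x.2 = 1), t x ≤ 4 * (Real.log 4 * y) := by
    have h2 : ∑ x ∈ A.filter (fun x => x.2 = 1), t x ≤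
        ∑ p ∈ (Ioc 0 ⌊y⌋₊).filter Nat.Prime, 4 * Real.log p := by
      refine HT_sum_inj _ _ (fun x => x.1) _ _ ?_ ?_ ?_ ?_
      · intro x hx
        obtain ⟨hxA, hx1⟩ := mem_filter.1 hx
        obtain ⟨h1, h2, h3, h4, h5, h6⟩ := hmem x hxA
        rw [hx1, pow_one] at h6
        rw [mem_filter, mem_Ioc]
        exact ⟨⟨by omega, Nat.le_floor h6⟩, h1⟩
      · intro x hx x' hx' hxx
        have h3 := (mem_filter.1 (mem_coe.1 hx)).2
        have h4 := (mem_filter.1 (mem_coe.1 hx')).2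
        exact Prod.ext hxx (h3.trans h4.symm)
      · intro x hx
        obtain ⟨hxA, hx1⟩ := mem_filter.1 hx
        simp only [ht, hx1]
        norm_num
      · intro p hp
        have h3 := (mem_filter.1 hp).2
        have : (1 : ℝ) ≤ p := by exact_mod_cast h3.one_lt.le
        have := Real.log_nonneg this
        positivity
    refine h2.trans ?_
    rw [← mul_sum]
    have h3 := Chebyshev.theta_le_log4_mul_x hy
    unfold Chebyshev.theta at h3
    linarith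
  have h2 : ∑ x ∈ A.filter (fun x => ¬ x.2 = 1), t x ≤ 4 * B * Z * y := by
    have h3 : ∀ x ∈ A.filter (fun x => ¬ x.2 = 1), t x ≤
        (Real.log x.1 / (x.1 : ℝ) ^ 2) * (4 * HT_c x.2 * y) := by
      intro x hx
      obtain ⟨hxA, hx1⟩ := mem_filter.1 hx
      obtain ⟨h1, h2, h3, h4, h5, h6⟩ := hmem x hxA
      have h7 := HT_pow_le h1.two_le (show 2 ≤ x.2 by omega)
      have hp2 : (2 : ℝ) ≤ x.1 := by exact_mod_cast h1.two_le
      have hlog : 0 ≤ Real.log x.1 := Real.log_nonneg (by linarith)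
      have h8 : (x.1 : ℝ) ^ 2 * 2 ^ x.2 ≤ 4 * y := by linarith
      have h9 : (x.2 : ℝ) * ((x.2 : ℝ) + 1) ^ 2 ≤ ((x.2 : ℝ) + 1) ^ 3 := by
        have : 0 ≤ ((x.2 : ℝ) + 1) ^ 2 := by positivity
        nlinarith
      have h10 : (1 : ℝ) ≤ 4 * y / ((x.1 : ℝ) ^ 2 * 2 ^ x.2) := by
        rw [le_div_iff₀ (by positivity)]
        linarith
      have h11 : (Real.log x.1 / (x.1 : ℝ) ^ 2) * (4 * HT_c x.2 * y) =
          ((x.2 : ℝ) + 1) ^ 3 * Real.log x.1 * (4 * y / ((x.1 : ℝ) ^ 2 * 2 ^ x.2)) := by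
        unfold HT_c
        rw [one_div, inv_pow]
        field_simp
      rw [h11]
      simp only [ht]
      calc (x.2 : ℝ) * ((x.2 : ℝ) + 1) ^ 2 * Real.log x.1 ≤
            ((x.2 : ℝ) + 1) ^ 3 * Real.log x.1 := mul_le_mul_of_nonneg_right h9 hlog
        _ = ((x.2 : ℝ) + 1) ^ 3 * Real.log x.1 * 1 := by ring
        _ ≤ _ := mul_le_mul_of_nonneg_left h10 (by positivity)
    have h4 : ∑ x ∈ A.filter (fun x => ¬ x.2 = 1),
        (Real.log x.1 / (x.1 : ℝ) ^ 2) * (4 * HT_c x.2 * y) ≤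
        ∑ x ∈ (Icc 1 M ×ˢ Icc 1 K), (2 * (1 / (x.1 : ℝ) ^ (3 / 2 : ℝ))) * (4 * HT_c x.2 * y) := by
      refine HT_sum_inj _ _ (fun x => x) _ _ ?_ (fun _ _ _ _ h => h) ?_ ?_
      · intro x hx
        obtain ⟨h1, h2, h3, h4, h5, h6⟩ := hmem x (mem_filter.1 hx).1
        rw [mem_product, mem_Icc, mem_Icc]
        exact ⟨⟨h2, h3⟩, h4, h5⟩
      · intro x hx
        obtain ⟨h1, h2, h3, h4, h5, h6⟩ := hmem x (mem_filter.1 hx).1
        have := HT_c_nonneg x.2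
        exact mul_le_mul_of_nonneg_right (HT_log_le x.1 h2) (by positivity)
      · intro x hx
        have := HT_c_nonneg x.2
        positivity
    have h5 : ∑ x ∈ (Icc 1 M ×ˢ Icc 1 K),
        (2 * (1 / (x.1 : ℝ) ^ (3 / 2 : ℝ))) * (4 * HT_c x.2 * y) =
        (∑ p ∈ Icc 1 M, 2 * (1 / (p : ℝ) ^ (3 / 2 : ℝ))) * (4 * (∑ v ∈ Icc 1 K, HT_c v) * y) := by
      rw [sum_product, sum_mul]
      refine sum_congr rfl (fun p _ => ?_)
      simp only
      rw [mul_sum, sum_mul, mul_sum]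
    have h6 : ∑ p ∈ Icc 1 M, 2 * (1 / (p : ℝ) ^ (3 / 2 : ℝ)) ≤ Z :=
      hZs.sum_le_tsum _ (fun n _ => by positivity)
    have h7 : ∑ v ∈ Icc 1 K, HT_c v ≤ B := HT_summable_c.sum_le_tsum _ (fun n _ => HT_c_nonneg n)
    have h8 : 0 ≤ ∑ v ∈ Icc 1 K, HT_c v := sum_nonneg (fun v _ => HT_c_nonneg v)
    calc ∑ x ∈ A.filter (fun x => ¬ x.2 = 1), t x ≤ _ := sum_le_sum h3
      _ ≤ _ := h4
      _ = _ := h5
      _ ≤ Z * (4 * (∑ v ∈ Icc 1 K, HT_c v) * y) :=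
          mul_le_mul_of_nonneg_right h6 (by positivity)
      _ ≤ Z * (4 * B * y) := by
          refine mul_le_mul_of_nonneg_left ?_ hZ0
          exact mul_le_mul_of_nonneg_right (by linarith) hy
      _ = 4 * B * Z * y := by ring
  have h3 : 0 ≤ y := hy
  nlinarith

/-- the logarithmic weights -/
theorem HT_W : ∃ C : ℝ, 0 < C ∧ ∀ F : ℕ → ℝ, (∀ m, 0 ≤ F m) →
    (∀ a b : ℕ, Nat.Coprime a b → F (a * b) = F a * F b) →
    (∀ p k : ℕ, p.Prime → F (p ^ k) ≤ ((k : ℝ) + 1) ^ 2) → ∀ M : ℕ,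
    ∑ m ∈ Icc 1 M, F m * Real.log m ≤ C * M * ∑ m ∈ Icc 1 M, F m / (m : ℝ) := by
  obtain ⟨C, hC, hG⟩ := HT_G
  refine ⟨C, hC, ?_⟩
  intro F h0 hmul hpk M
  set A := (Icc 1 M).sigma (fun m => m.primeFactors) with hA
  set P := (Icc 1 M).filter Nat.Prime ×ˢ Icc 1 M with hP
  set B := (Icc 1 M ×ˢ P).filter (fun y => y.1 * y.2.1 ^ y.2.2 ≤ M) with hB
  have h1 : ∑ m ∈ Icc 1 M, F m * Real.log m =
      ∑ x ∈ A, F x.1 * ((x.1.factorization x.2 : ℝ) * Real.log x.2) := by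
    rw [hA, sum_sigma]
    refine sum_congr rfl (fun m _ => ?_)
    rw [Real.log_nat_eq_sum_factorization, Finsupp.sum, mul_sum, Nat.support_factorization]
  rw [h1]
  have h2 : ∑ x ∈ A, F x.1 * ((x.1.factorization x.2 : ℝ) * Real.log x.2) ≤
      ∑ y ∈ B, F y.1 * ((y.2.2 : ℝ) * ((y.2.2 : ℝ) + 1) ^ 2 * Real.log y.2.1) := by
    refine HT_sum_inj A B
      (fun x => (x.1 / x.2 ^ x.1.factorization x.2, (x.2, x.1.factorization x.2))) _ _ ?_ ?_ ?_ ?_
    · intro x hx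
      obtain ⟨hx1, hx2⟩ := mem_sigma.1 hx
      have hx1' := mem_Icc.1 hx1
      have hpp := Nat.prime_of_mem_primeFactors hx2
      have hdvd := Nat.dvd_of_mem_primeFactors hx2
      have hm0 : x.1 ≠ 0 := by omega
      have hself := Nat.ordProj_mul_ordCompl_eq_self x.1 x.2
      have hdvd2 := Nat.ordProj_dvd x.1 x.2
      have hpos : 0 < x.2 ^ x.1.factorization x.2 := pow_pos hpp.pos _
      simp only [hB, hP, mem_filter, mem_product, mem_Icc]
      refine ⟨⟨⟨?_, ?_⟩, ⟨⟨?_, ?_⟩, hpp⟩, ?_, ?_⟩, ?_⟩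
      · exact Nat.div_pos (Nat.le_of_dvd (by omega) hdvd2) hpos
      · exact (Nat.div_le_self _ _).trans hx1'.2
      · exact hpp.one_lt.le
      · exact (Nat.le_of_dvd (by omega) hdvd).trans hx1'.2
      · exact (hpp.dvd_iff_one_le_factorization hm0).1 hdvd
      · exact ((Nat.factorization_lt x.2 hm0).le).trans hx1'.2
      · rw [mul_comm]
        rw [hself]
        exact hx1'.2
    · intro x hx x' hx' hxx
      simp only [Prod.mk.injEq] at hxx
      obtain ⟨h3, h4, h5⟩ := hxx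
      have hself := Nat.ordProj_mul_ordCompl_eq_self x.1 x.2
      have hself' := Nat.ordProj_mul_ordCompl_eq_self x'.1 x'.2
      have h6 : x.1 = x'.1 := by
        have h7 : x.2 ^ x.1.factorization x.2 = x'.2 ^ x'.1.factorization x'.2 := by
          rw [h5, h4]
        calc x.1 = x.2 ^ x.1.factorization x.2 * (x.1 / x.2 ^ x.1.factorization x.2) :=
              hself.symm
          _ = x'.2 ^ x'.1.factorization x'.2 * (x'.1 / x'.2 ^ x'.1.factorization x'.2) := by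
              rw [h3, h7]
          _ = x'.1 := hself'
      obtain ⟨m, p⟩ := x
      obtain ⟨m', p'⟩ := x'
      simp only at h4 h6
      subst h4
      subst h6
      rfl
    · intro x hx
      obtain ⟨hx1, hx2⟩ := mem_sigma.1 hx
      have hx1' := mem_Icc.1 hx1
      have hpp := Nat.prime_of_mem_primeFactors hx2
      have hm0 : x.1 ≠ 0 := by omega
      have hself := Nat.ordProj_mul_ordCompl_eq_self x.1 x.2
      have hcop := (Nat.coprime_ordCompl hpp hm0).pow_left (x.1.factorization x.2)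
      have h3 := hmul _ _ hcop
      rw [hself] at h3
      have h4 := hpk x.2 (x.1.factorization x.2) hpp
      have h5 : 0 ≤ Real.log (x.2 : ℝ) :=
        Real.log_nonneg (by exact_mod_cast hpp.one_lt.le)
      simp only
      rw [h3]
      have h6 := h0 (x.1 / x.2 ^ x.1.factorization x.2)
      have h7 : F (x.2 ^ x.1.factorization x.2) * F (x.1 / x.2 ^ x.1.factorization x.2) ≤
          ((x.1.factorization x.2 : ℝ) + 1) ^ 2 * F (x.1 / x.2 ^ x.1.factorization x.2) :=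
        mul_le_mul_of_nonneg_right h4 h6
      calc F (x.2 ^ x.1.factorization x.2) * F (x.1 / x.2 ^ x.1.factorization x.2) *
            ((x.1.factorization x.2 : ℝ) * Real.log x.2) ≤
            ((x.1.factorization x.2 : ℝ) + 1) ^ 2 * F (x.1 / x.2 ^ x.1.factorization x.2) *
            ((x.1.factorization x.2 : ℝ) * Real.log x.2) :=
          mul_le_mul_of_nonneg_right h7 (by positivity)
        _ = _ := by ring
    · intro y hy
      simp only [hB, hP, mem_filter, mem_product, mem_Icc] at hy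
      have h3 := h0 y.1
      have h5 : 0 ≤ Real.log (y.2.1 : ℝ) :=
        Real.log_nonneg (by exact_mod_cast hy.1.2.1.1.1)
      positivity
  refine h2.trans ?_
  rw [hB, sum_filter, sum_product, mul_sum]
  refine sum_le_sum (fun n hn => ?_)
  have hn1 := (mem_Icc.1 hn).1
  have hn0 : (0 : ℝ) < n := by exact_mod_cast hn1
  have h3 := hG M M ((M : ℝ) / n) (by positivity)
  rw [← sum_filter]
  simp only
  rw [← mul_sum]
  have h4 : P.filter (fun x => n * x.1 ^ x.2 ≤ M) =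
      P.filter (fun x => ((x.1 ^ x.2 : ℕ) : ℝ) ≤ (M : ℝ) / n) := by
    refine filter_congr (fun x _ => ?_)
    rw [le_div_iff₀ hn0, mul_comm n]
    constructor
    · intro h; exact_mod_cast h
    · intro h; exact_mod_cast h
  rw [h4]
  have h5 := mul_le_mul_of_nonneg_left h3 (h0 n)
  refine h5.trans (le_of_eq ?_)
  field_simp

/-- the upper bound of Hall and Tenenbaum -/
theorem hall_tenenbaum : ∃ C : ℝ, 0 < C ∧ ∀ F : ℕ → ℝ, (∀ m, 0 ≤ F m) → F 1 = 1 →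
    (∀ a b : ℕ, Nat.Coprime a b → F (a * b) = F a * F b) →
    (∀ p k : ℕ, p.Prime → F (p ^ k) ≤ ((k : ℝ) + 1) ^ 2) → ∀ M : ℕ, 2 ≤ M →
    ∑ m ∈ Icc 1 M, F m ≤ C * (M / Real.log M) *
      Real.exp (∑ p ∈ (Icc 1 M).filter Nat.Prime, F p / (p : ℝ)) := by
  obtain ⟨C1, hC1, hL⟩ := HT_L
  obtain ⟨C2, hC2, hW⟩ := HT_W
  refine ⟨(1 + C2) * C1, by positivity, ?_⟩
  intro F h0 h1 hmul hpk M hM
  have hM0 : (0 : ℝ) < M := by
    have : 0 < M := by omega
    exact_mod_cast this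
  have hlogM : 0 < Real.log M := Real.log_pos (by exact_mod_cast (by omega : 1 < M))
  set S := ∑ m ∈ Icc 1 M, F m with hS
  set L := ∑ m ∈ Icc 1 M, F m / (m : ℝ) with hLdef
  have h2 : S * Real.log M ≤ M * L + ∑ m ∈ Icc 1 M, F m * Real.log m := by
    rw [hS, hLdef, sum_mul, mul_sum, ← sum_add_distrib]
    refine sum_le_sum (fun m hm => ?_)
    have hm1 := mem_Icc.1 hm
    have hm0 : (0 : ℝ) < m := by exact_mod_cast hm1.1
    have h3 : Real.log M ≤ M / m + Real.log m := by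
      have h4 : Real.log ((M : ℝ) / m) = Real.log M - Real.log m :=
        Real.log_div hM0.ne' hm0.ne'
      have h5 := Real.log_le_sub_one_of_pos (show (0 : ℝ) < (M : ℝ) / m by positivity)
      linarith
    have h6 := mul_le_mul_of_nonneg_left h3 (h0 m)
    refine h6.trans (le_of_eq ?_)
    ring
  have h3 := hW F h0 hmul hpk M
  have h4 := hL F h0 h1 hmul hpk M
  rw [← hLdef] at h3 h4
  set E := Real.exp (∑ p ∈ (Icc 1 M).filter Nat.Prime, F p / (p : ℝ)) with hE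
  have h5 : S * Real.log M ≤ (1 + C2) * C1 * M * E := by
    calc S * Real.log M ≤ M * L + C2 * M * L := by linarith
      _ = (1 + C2) * M * L := by ring
      _ ≤ (1 + C2) * M * (C1 * E) := mul_le_mul_of_nonneg_left h4 (by positivity)
      _ = (1 + C2) * C1 * M * E := by ring
  have h6 : S ≤ (1 + C2) * C1 * M * E / Real.log M := by
    rw [le_div_iff₀ hlogM]
    exact h5
  refine h6.trans (le_of_eq ?_)
  ring

end Pool.Agent.DG
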