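import Pool.Agent.helper41.DG.Union

/-! # The number of the frequencies of small modulus -/

set_option autoImplicit false

open Finset

namespace Pool.Agent.DG

/-- the frequencies of modulus `M` have their support in the prime factors of `M` -/
theorem mem_of_md {P : Finset ℕ} (hP : ∀ p ∈ P, p.Prime) {k : ℕ →₀ ℕ × ℕ} (hk : k ∈ Fr P) :
    k ∈ Fr (md k).primeFactors := by
  rw [mem_Fr] at hk ⊢
  have hs : (md k).primeFactors = k.support := by
    unfold md
    exact Nat.primeFactors_prod fun p hp => hP p (hk.1 hp)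
  rw [hs]
  exact ⟨subset_rfl, fun p hp => hk.2 p (hk.1 hp)⟩

theorem card_Fr_le (M : ℕ) (hM : M ≠ 0) : (Fr M.primeFactors).card ≤ M ^ 2 := by
  unfold Fr
  rw [Finset.card_finsupp]
  have h1 : ∏ p ∈ M.primeFactors, (range p ×ˢ range p).card = (∏ p ∈ M.primeFactors, p) ^ 2 := by
    rw [← Finset.prod_pow]
    refine Finset.prod_congr rfl fun p _ => ?_
    rw [Finset.card_product, Finset.card_range, sq]
  rw [h1]
  exact Nat.pow_le_pow_left (Nat.le_of_dvd (Nat.pos_of_ne_zero hM) M.prod_primeFactors_dvd) 2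

/-- the number of the frequencies of modulus at most `D` -/
theorem card_freq_le {P : Finset ℕ} (hP : ∀ p ∈ P, p.Prime) {D : ℝ} (hD : 1 ≤ D) :
    (((Fr P).filter (fun k => ((md k : ℕ) : ℝ) ≤ D)).card : ℝ) ≤ D ^ 3 := by
  classical
  set n : ℕ := ⌊D⌋₊ with hn
  have hnD : (n : ℝ) ≤ D := Nat.floor_le (by linarith)
  have hpos : ∀ k ∈ Fr P, 1 ≤ md k := fun k hk => by
    rw [mem_Fr] at hk
    exact Nat.one_le_iff_ne_zero.2 (Finset.prod_ne_zero_iff.2 fun p hp => (hP p (hk.1 hp)).ne_zero)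
  have hsub : (Fr P).filter (fun k => ((md k : ℕ) : ℝ) ≤ D) ⊆
      (Finset.Icc 1 n).biUnion (fun M => Fr M.primeFactors) := by
    intro k hk
    rw [Finset.mem_filter] at hk
    rw [Finset.mem_biUnion]
    exact ⟨md k, Finset.mem_Icc.2 ⟨hpos k hk.1, Nat.le_floor hk.2⟩, mem_of_md hP hk.1⟩
  have h1 : ((Fr P).filter (fun k => ((md k : ℕ) : ℝ) ≤ D)).card ≤ n * n ^ 2 := by
    refine (Finset.card_le_card hsub).trans (Finset.card_biUnion_le.trans ?_)
    refine (Finset.sum_le_card_nsmul _ _ (n ^ 2) fun M hM => ?_).trans ?_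
    · rw [Finset.mem_Icc] at hM
      exact (card_Fr_le M (by omega)).trans (Nat.pow_le_pow_left hM.2 2)
    · rw [Nat.card_Icc, smul_eq_mul, Nat.add_sub_cancel]
  have h2 : (((Fr P).filter (fun k => ((md k : ℕ) : ℝ) ≤ D)).card : ℝ) ≤ (n : ℝ) ^ 3 := by
    have : (((Fr P).filter (fun k => ((md k : ℕ) : ℝ) ≤ D)).card : ℝ) ≤ ((n * n ^ 2 : ℕ) : ℝ) := by
      exact_mod_cast h1
    refine this.trans (le_of_eq ?_)
    push_cast
    ring
  exact h2.trans (pow_le_pow_left₀ (Nat.cast_nonneg n) hnD 3)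

end Pool.Agent.DG
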