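import Mathlib
import Pool.Agent.helper91.Mertens

/-! # Mertens' theorem modulo four (upper and lower bounds) -/

set_option autoImplicit false

open Finset

namespace Pool.Agent.DG

/-- the primes `p ≡ 1 mod 4` with `w < p ≤ z` -/
noncomputable def I4 (w z : ℝ) : Finset ℕ :=
  (Icc 1 ⌊z⌋₊).filter (fun p => p.Prime ∧ p % 4 = 1 ∧ w < (p : ℝ))

namespace Mert

open Pool.Agent.helper91

/-! ### Abel summation -/

lemma abel_aux (a f : ℕ → ℝ) (B : ℝ) (m : ℕ)
    (hS : ∀ k, m ≤ k → |∑ n ∈ Ioc m k, a n| ≤ B)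
    (hf : ∀ n, m < n → f (n + 1) ≤ f n) (N : ℕ) (hN : m + 1 ≤ N) :
    |∑ n ∈ Ioc m N, a n * f n - (∑ n ∈ Ioc m N, a n) * f N| ≤ B * (f (m + 1) - f N) := by
  induction N, hN using Nat.le_induction with
  | base => simp
  | succ N hN ih =>
    rw [Finset.sum_Ioc_succ_top (by omega), Finset.sum_Ioc_succ_top (by omega)]
    have h1 := hS N (by omega)
    have h2 := hf N (by omega)
    have h3 : ∑ n ∈ Ioc m N, a n * f n + a (N + 1) * f (N + 1) -
        (∑ n ∈ Ioc m N, a n + a (N + 1)) * f (N + 1) =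
        (∑ n ∈ Ioc m N, a n * f n - (∑ n ∈ Ioc m N, a n) * f N) +
        (∑ n ∈ Ioc m N, a n) * (f N - f (N + 1)) := by ring
    rw [h3]
    refine (abs_add_le _ _).trans ?_
    rw [abs_mul, abs_of_nonneg (sub_nonneg.mpr h2)]
    have h4 : |∑ n ∈ Ioc m N, a n| * (f N - f (N + 1)) ≤ B * (f N - f (N + 1)) :=
      mul_le_mul_of_nonneg_right h1 (by linarith)
    linarith [ih, h4]

lemma abel (a f : ℕ → ℝ) (B : ℝ) (m : ℕ)
    (hS : ∀ k, m ≤ k → |∑ n ∈ Ioc m k, a n| ≤ B)
    (hf : ∀ n, m < n → f (n + 1) ≤ f n) (hf0 : ∀ n, m < n → 0 ≤ f n) (N : ℕ) (hN : m ≤ N) :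
    |∑ n ∈ Ioc m N, a n * f n| ≤ B * f (m + 1) := by
  have hB : 0 ≤ B := (abs_nonneg _).trans (hS m le_rfl)
  rcases Nat.eq_or_lt_of_le hN with rfl | h
  · simpa using mul_nonneg hB (hf0 (m + 1) (by omega))
  · have h1 := abel_aux a f B m hS hf N h
    have h2 : |(∑ n ∈ Ioc m N, a n) * f N| ≤ B * f N := by
      rw [abs_mul, abs_of_nonneg (hf0 N h)]
      exact mul_le_mul_of_nonneg_right (hS N hN) (hf0 N h)
    have h3 : ∑ n ∈ Ioc m N, a n * f n = (∑ n ∈ Ioc m N, a n * f n -
      (∑ n ∈ Ioc m N, a n) * f N) + (∑ n ∈ Ioc m N, a n) * f N := by ring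
    rw [h3]
    refine (abs_add_le _ _).trans ?_
    linarith

/-! ### The character modulo four -/

/-- the character modulo four as a real function -/
noncomputable def c (n : ℕ) : ℝ := ((ZMod.χ₄ (n : ZMod 4) : ℤ) : ℝ)

lemma c_mul (m n : ℕ) : c (m * n) = c m * c n := by
  rw [c, c, c, Nat.cast_mul, map_mul, Int.cast_mul]

lemma c_one_mod {n : ℕ} (h : n % 4 = 1) : c n = 1 := by
  simp [c, ZMod.χ₄_nat_one_mod_four h]

lemma c_three_mod {n : ℕ} (h : n % 4 = 3) : c n = -1 := by
  simp [c, ZMod.χ₄_nat_three_mod_four h]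

lemma c_even {n : ℕ} (h : n % 2 = 0) : c n = 0 := by
  rw [c, ZMod.χ₄_nat_eq_if_mod_four, if_pos h, Int.cast_zero]

lemma abs_c_le (n : ℕ) : |c n| ≤ 1 := by
  rcases Nat.even_or_odd n with h | h
  · rw [c_even (Nat.even_iff.mp h)]; simp
  · rcases Nat.odd_mod_four_iff.mp (Nat.odd_iff.mp h) with h | h
    · rw [c_one_mod h]; simp
    · rw [c_three_mod h]; simp

lemma sum_c (n : ℕ) : ∑ i ∈ Ioc 0 n, c i = if n % 4 = 1 ∨ n % 4 = 2 then 1 else 0 := by
  induction n with
  | zero => simp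
  | succ n ih =>
    rw [Finset.sum_Ioc_succ_top (by omega), ih]
    have h4 : n % 4 = 0 ∨ n % 4 = 1 ∨ n % 4 = 2 ∨ n % 4 = 3 := by omega
    rcases h4 with h | h | h | h
    · rw [c_one_mod (by omega), if_neg (by omega), if_pos (by omega)]; norm_num
    · rw [c_even (by omega), if_pos (by omega), if_pos (by omega)]; norm_num
    · rw [c_three_mod (by omega), if_pos (by omega), if_neg (by omega)]; norm_num
    · rw [c_even (by omega), if_neg (by omega), if_neg (by omega)]; norm_num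

lemma abs_sum_c_le (m k : ℕ) (h : m ≤ k) : |∑ i ∈ Ioc m k, c i| ≤ 1 := by
  have h1 : ∑ i ∈ Ioc 0 k, c i = ∑ i ∈ Ioc 0 m, c i + ∑ i ∈ Ioc m k, c i :=
    (Finset.sum_Ioc_consecutive _ (Nat.zero_le m) h).symm
  rw [sum_c, sum_c] at h1
  rw [abs_le]
  split_ifs at h1 <;> constructor <;> linarith

/-- the sum of `χ(n)/n` up to `N` -/
noncomputable def L (N : ℕ) : ℝ := ∑ n ∈ Ioc 0 N, c n / n

lemma L_sub {m N : ℕ} (h : m ≤ N) : |L N - L m| ≤ 1 / ((m : ℝ) + 1) := by
  have h1 : L N - L m = ∑ n ∈ Ioc m N, c n * (1 / (n : ℝ)) := by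
    rw [L, L, ← Finset.sum_Ioc_consecutive _ (Nat.zero_le m) h]
    simp [div_eq_mul_inv]
  rw [h1]
  have := abel c (fun n => 1 / (n : ℝ)) 1 m (abs_sum_c_le m) ?_ ?_ N h
  · simpa using this
  · intro n hn
    have : (0:ℝ) < n := by exact_mod_cast (by omega : 0 < n)
    apply one_div_le_one_div_of_le this
    push_cast; linarith
  · intro n hn
    positivity

lemma L_ge {N : ℕ} (h : 1 ≤ N) : 1 / 2 ≤ L N := by
  have h1 := L_sub h
  have h2 : L 1 = 1 := by simp [L, c_one_mod]
  rw [h2, abs_le] at h1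
  norm_num at h1
  linarith [h1.1]

/-! ### The sum of `χ(n) log n / n` -/

lemma sum_clog (N : ℕ) : |∑ n ∈ Ioc 0 N, c n * (Real.log n / n)| ≤ 1 := by
  rcases Nat.lt_or_ge N 2 with h | h
  · interval_cases N <;> simp
  · rw [← Finset.sum_Ioc_consecutive _ (Nat.zero_le 2) h]
    have h1 : ∑ n ∈ Ioc 0 2, c n * (Real.log n / n) = 0 := by
      rw [Finset.sum_Ioc_succ_top (by omega), Finset.sum_Ioc_succ_top (by omega)]
      simp [c_even]
    rw [h1, zero_add]
    have h2 := abel c (fun n => Real.log n / (n : ℝ)) 1 2 (abs_sum_c_le 2) ?_ ?_ N h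
    · refine h2.trans ?_
      have h3 : Real.log 3 ≤ 3 - 1 := Real.log_le_sub_one_of_pos (by norm_num)
      push_cast
      norm_num
      rw [div_le_one (by norm_num)]
      linarith
    · intro n hn
      have h4 : Real.exp 1 ≤ (n : ℝ) := Real.exp_one_lt_three.le.trans (by exact_mod_cast hn)
      exact Real.log_div_self_antitoneOn h4 (by
        simp only [Set.mem_Ici]; push_cast; linarith) (by push_cast; linarith)
    · intro n hn
      have := Real.log_natCast_nonneg n
      positivity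

/-! ### The sum of `χ(n) Λ(n) / n` -/

/-- `χ(n) Λ(n) / n` as an arithmetic function -/
noncomputable def fA : ArithmeticFunction ℝ :=
  ⟨fun n => c n * (ArithmeticFunction.vonMangoldt n / n), by simp⟩

/-- `χ(n) / n` as an arithmetic function -/
noncomputable def gA : ArithmeticFunction ℝ := ⟨fun n => c n / n, by simp⟩

lemma fA_apply (n : ℕ) : fA n = c n * (ArithmeticFunction.vonMangoldt n / n) := rfl

lemma gA_apply (n : ℕ) : gA n = c n / n := rfl

lemma fA_mul_gA (n : ℕ) : (fA * gA) n = c n * (Real.log n / n) := by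
  rw [ArithmeticFunction.mul_apply]
  have h1 : ∀ x ∈ n.divisorsAntidiagonal, fA x.1 * gA x.2 =
      c n / n * ArithmeticFunction.vonMangoldt x.1 := by
    intro x hx
    rw [Nat.mem_divisorsAntidiagonal] at hx
    rw [fA_apply, gA_apply, ← hx.1, c_mul]
    push_cast
    have hx1 : (x.1 : ℝ) ≠ 0 := by
      have : x.1 ≠ 0 := by
        intro h
        exact hx.2 (by rw [← hx.1, h, zero_mul])
      exact_mod_cast this
    have hx2 : (x.2 : ℝ) ≠ 0 := by
      have : x.2 ≠ 0 := by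
        intro h
        exact hx.2 (by rw [← hx.1, h, mul_zero])
      exact_mod_cast this
    field_simp
  rw [Finset.sum_congr rfl h1, ← Finset.mul_sum, Nat.sum_divisorsAntidiagonal
    (f := fun i _ => ArithmeticFunction.vonMangoldt i), ArithmeticFunction.vonMangoldt_sum]
  ring

/-- the sum of `χ(n) Λ(n) / n` up to `N` -/
noncomputable def P (N : ℕ) : ℝ :=
  ∑ n ∈ Ioc 0 N, c n * (ArithmeticFunction.vonMangoldt n / n)

lemma sum_Λ (N : ℕ) : ∑ n ∈ Ioc 0 N, ArithmeticFunction.vonMangoldt n ≤ (Real.log 4 + 4) * N := by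
  have := Chebyshev.psi_le_const_mul_self (x := (N : ℝ)) (by positivity)
  rwa [Chebyshev.psi, Nat.floor_natCast] at this

lemma div_floor_bound {N d : ℕ} (hd : 0 < d) (hN : 0 < N) :
    1 / (((N / d : ℕ) : ℝ) + 1) ≤ (d : ℝ) / N := by
  have hd' : (0:ℝ) < d := by exact_mod_cast hd
  have hN' : (0:ℝ) < N := by exact_mod_cast hN
  rw [div_le_div_iff₀ (by positivity) hN', one_mul]
  have h1 : N < d * (N / d + 1) := by
    exact Nat.lt_mul_div_succ N hd
  exact_mod_cast h1.le

lemma L_mul_P {N : ℕ} (hN : 1 ≤ N) : |L N * P N| ≤ 1 + (Real.log 4 + 4) := by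
  have h1 : ∑ n ∈ Ioc 0 N, c n * (Real.log n / n) =
      ∑ d ∈ Ioc 0 N, c d * (ArithmeticFunction.vonMangoldt d / d) * L (N / d) := by
    have := ArithmeticFunction.sum_Ioc_mul_eq_sum_sum fA gA N
    simp only [fA_mul_gA, fA_apply, gA_apply] at this
    exact this
  have hN0 : (0:ℝ) < N := by exact_mod_cast hN
  have h2 : L N * P N = ∑ n ∈ Ioc 0 N, c n * (Real.log n / n) +
      ∑ d ∈ Ioc 0 N, c d * (ArithmeticFunction.vonMangoldt d / d) * (L N - L (N / d)) := by
    rw [h1, P, Finset.mul_sum, ← Finset.sum_add_distrib]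
    exact Finset.sum_congr rfl fun d _ => by ring
  have h3 : |∑ d ∈ Ioc 0 N, c d * (ArithmeticFunction.vonMangoldt d / d) *
      (L N - L (N / d))| ≤ Real.log 4 + 4 := by
    refine (Finset.abs_sum_le_sum_abs _ _).trans ?_
    have h4 : ∀ d ∈ Ioc 0 N, |c d * (ArithmeticFunction.vonMangoldt d / d) *
        (L N - L (N / d))| ≤ ArithmeticFunction.vonMangoldt d / N := by
      intro d hd
      rw [Finset.mem_Ioc] at hd
      have hd0 : (0:ℝ) < d := by exact_mod_cast hd.1
      have hΛ : 0 ≤ ArithmeticFunction.vonMangoldt d := ArithmeticFunction.vonMangoldt_nonneg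
      rw [abs_mul, abs_mul, abs_of_nonneg (div_nonneg hΛ hd0.le)]
      have h5 : |L N - L (N / d)| ≤ (d : ℝ) / N :=
        (L_sub (Nat.div_le_self N d)).trans (div_floor_bound hd.1 (by omega))
      calc |c d| * (ArithmeticFunction.vonMangoldt d / d) * |L N - L (N / d)|
          ≤ 1 * (ArithmeticFunction.vonMangoldt d / d) * ((d : ℝ) / N) := by
            gcongr
            exact abs_c_le d
        _ = ArithmeticFunction.vonMangoldt d / N := by field_simp
    refine (Finset.sum_le_sum h4).trans ?_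
    rw [← Finset.sum_div, div_le_iff₀ hN0]
    exact sum_Λ N
  rw [h2]
  exact (abs_add_le _ _).trans (add_le_add (sum_clog N) h3)

lemma abs_P_le {N : ℕ} (hN : 1 ≤ N) : |P N| ≤ 2 * (1 + (Real.log 4 + 4)) := by
  have h1 := L_mul_P hN
  have h2 := L_ge hN
  rw [abs_mul, abs_of_pos (by linarith)] at h1
  have h3 : 1 / 2 * |P N| ≤ L N * |P N| := mul_le_mul_of_nonneg_right h2 (abs_nonneg _)
  linarith

/-! ### Prime powers -/

lemma sum_Λ_div {N : ℕ} (hN : 1 ≤ N) :
    ∑ n ∈ Ioc 0 N, ArithmeticFunction.vonMangoldt n / n ≤ Real.log N + (Real.log 4 + 4) := by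
  have hN0 : (0:ℝ) < N := by exact_mod_cast hN
  have h1 : ∑ n ∈ Ioc 0 N, Real.log n =
      ∑ n ∈ Ioc 0 N, ArithmeticFunction.vonMangoldt n * ((N / n : ℕ) : ℝ) := by
    have := ArithmeticFunction.sum_Ioc_mul_zeta_eq_sum (ArithmeticFunction.vonMangoldt) N
    rw [ArithmeticFunction.vonMangoldt_mul_zeta] at this
    simpa using this
  have h2 : ∑ n ∈ Ioc 0 N, Real.log n ≤ N * Real.log N := by
    calc ∑ n ∈ Ioc 0 N, Real.log (n:ℝ) ≤ ∑ n ∈ Ioc 0 N, Real.log N := by
          refine Finset.sum_le_sum fun n hn => ?_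
          rw [Finset.mem_Ioc] at hn
          exact Real.log_le_log (by exact_mod_cast hn.1) (by exact_mod_cast hn.2)
      _ = N * Real.log N := by simp
  have h3 : N * (∑ n ∈ Ioc 0 N, ArithmeticFunction.vonMangoldt n / n) -
      ∑ n ∈ Ioc 0 N, ArithmeticFunction.vonMangoldt n ≤
      ∑ n ∈ Ioc 0 N, ArithmeticFunction.vonMangoldt n * ((N / n : ℕ) : ℝ) := by
    rw [Finset.mul_sum, ← Finset.sum_sub_distrib]
    refine Finset.sum_le_sum fun n hn => ?_
    rw [Finset.mem_Ioc] at hn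
    have hn0 : (0:ℝ) < n := by exact_mod_cast hn.1
    have h4 : (N:ℝ) / n - 1 ≤ ((N / n : ℕ) : ℝ) := by
      have := Nat.lt_floor_add_one ((N:ℝ) / n)
      rw [Nat.floor_div_eq_div] at this
      linarith
    have hΛ : 0 ≤ ArithmeticFunction.vonMangoldt n := ArithmeticFunction.vonMangoldt_nonneg
    calc (N:ℝ) * (ArithmeticFunction.vonMangoldt n / n) - ArithmeticFunction.vonMangoldt n
        = ArithmeticFunction.vonMangoldt n * ((N:ℝ) / n - 1) := by field_simp
      _ ≤ _ := mul_le_mul_of_nonneg_left h4 hΛ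
  have h5 := sum_Λ N
  have h6 : (N:ℝ) * (∑ n ∈ Ioc 0 N, ArithmeticFunction.vonMangoldt n / n) ≤
      N * (Real.log N + (Real.log 4 + 4)) := by
    linarith
  exact le_of_mul_le_mul_left h6 hN0

/-- the sum of `log p / p` over all primes up to `N`, as a sum over all integers -/
lemma M_eq (N : ℕ) : Mertens.M N = ∑ n ∈ Ioc 0 N, if n.Prime then Real.log n / n else 0 := by
  rw [Mertens.M, Nat.primesLE_eq_filter_Ioc_zero, Finset.sum_filter]

/-- the sum of `χ(p) log p / p` over the primes up to `N` -/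
noncomputable def Q (N : ℕ) : ℝ :=
  ∑ n ∈ Ioc 0 N, c n * (if n.Prime then Real.log n / n else 0)

lemma P_sub_Q {N : ℕ} (hN : 1 ≤ N) :
    |P N - Q N| ≤ Real.log 4 + 4 + (1 + Mertens.Cpp) := by
  have h1 : P N - Q N = ∑ n ∈ Ioc 0 N, c n *
      (ArithmeticFunction.vonMangoldt n / n - (if n.Prime then Real.log n / n else 0)) := by
    rw [P, Q, ← Finset.sum_sub_distrib]
    exact Finset.sum_congr rfl fun n _ => by ring
  have h2 : |P N - Q N| ≤ ∑ n ∈ Ioc 0 N,
      (ArithmeticFunction.vonMangoldt n / n - (if n.Prime then Real.log n / n else 0)) := by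
    rw [h1]
    refine (Finset.abs_sum_le_sum_abs _ _).trans (Finset.sum_le_sum fun n hn => ?_)
    have h3 : 0 ≤ (ArithmeticFunction.vonMangoldt n / n -
        (if n.Prime then Real.log n / n else 0) : ℝ) := by
      split_ifs with h
      · rw [ArithmeticFunction.vonMangoldt_apply_prime h, sub_self]
      · have hΛ : 0 ≤ ArithmeticFunction.vonMangoldt n := ArithmeticFunction.vonMangoldt_nonneg
        rw [sub_zero]
        positivity
    rw [abs_mul, abs_of_nonneg h3]
    have h4 := mul_le_mul_of_nonneg_right (abs_c_le n) h3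
    linarith
  rw [Finset.sum_sub_distrib, ← M_eq] at h2
  have h5 := sum_Λ_div hN
  have h6 := Mertens.lower hN
  linarith

/-! ### The primes `1 mod 4` -/

/-- the summand -/
noncomputable def a4 (n : ℕ) : ℝ := if n.Prime ∧ n % 4 = 1 then Real.log n / n else 0

/-- the sum of `log p / p` over the primes `1 mod 4` -/
noncomputable def A4 (N : ℕ) : ℝ := ∑ n ∈ Ioc 0 N, a4 n

lemma two_a4 (n : ℕ) : 2 * a4 n = (if n.Prime then Real.log n / n else 0) +
    c n * (if n.Prime then Real.log n / n else 0) -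
    (if n = 2 then Real.log 2 / 2 else 0) := by
  unfold a4
  by_cases hp : n.Prime
  · rcases hp.eq_two_or_odd with rfl | h
    · simp [c_even, Nat.prime_two]
    · have h2 : n ≠ 2 := by rintro rfl; omega
      rcases Nat.odd_mod_four_iff.mp h with h | h
      · simp only [hp, h, c_one_mod h, h2, and_self, if_true, if_false]; ring
      · simp only [hp, h, c_three_mod h, h2, if_true, if_false]; norm_num
  · have h2 : n ≠ 2 := by rintro rfl; exact hp Nat.prime_two
    simp [hp, h2]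

lemma two_A4 (N : ℕ) : |2 * A4 N - (Mertens.M N + Q N)| ≤ 1 := by
  have h1 : 2 * A4 N = Mertens.M N + Q N - ∑ n ∈ Ioc 0 N, (if n = 2 then Real.log 2 / 2 else 0) := by
    rw [A4, Finset.mul_sum, M_eq, Q, ← Finset.sum_add_distrib, ← Finset.sum_sub_distrib]
    exact Finset.sum_congr rfl fun n _ => two_a4 n
  have h2 : ∑ n ∈ Ioc 0 N, (if n = 2 then Real.log 2 / 2 else (0:ℝ)) =
      if 2 ∈ Ioc 0 N then Real.log 2 / 2 else 0 := by
    rw [Finset.sum_ite_eq']
  have h3 : Real.log 2 ≤ 2 - 1 := Real.log_le_sub_one_of_pos (by norm_num)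
  have h4 : 0 ≤ Real.log 2 := Real.log_nonneg (by norm_num)
  rw [h1, h2]
  rw [abs_le]
  split_ifs <;> constructor <;> linarith

lemma A4_bound : ∃ C : ℝ, 0 < C ∧ ∀ N : ℕ, 1 ≤ N → |A4 N - 1 / 2 * Real.log N| ≤ C := by
  refine ⟨(1 + (2 + Mertens.Cpp) + 2 * (1 + (Real.log 4 + 4)) +
    (Real.log 4 + 4 + (1 + Mertens.Cpp))) / 2, ?_, fun N hN => ?_⟩
  · have h1 := Mertens.Cpp_nonneg
    have h2 : 0 ≤ Real.log 4 := Real.log_nonneg (by norm_num)
    positivity
  · have h1 := two_A4 N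
    have h2 := Mertens.abs_le hN
    have h3 := abs_P_le hN
    have h4 := P_sub_Q hN
    rw [abs_le] at *
    constructor <;> linarith [h1.1, h1.2, h2.1, h2.2, h3.1, h3.2, h4.1, h4.2]

/-! ### Partial summation -/

lemma log_ratio {a b : ℝ} (ha : 0 < a) (hb : 0 < b) : (b - a) / b ≤ Real.log b - Real.log a := by
  have h1 := Real.log_le_sub_one_of_pos (div_pos ha hb)
  rw [Real.log_div ha.ne' hb.ne'] at h1
  have h2 : (b - a) / b = 1 - a / b := by field_simp
  rw [h2]
  linarith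

lemma log_ratio' {a b : ℝ} (ha : 0 < a) (hb : 0 < b) : Real.log b - Real.log a ≤ (b - a) / a := by
  have h1 := Real.log_le_sub_one_of_pos (div_pos hb ha)
  rw [Real.log_div hb.ne' ha.ne'] at h1
  have h2 : (b - a) / a = b / a - 1 := by field_simp
  rw [h2]
  linarith

/-- the main term sum -/
noncomputable def T (m N : ℕ) : ℝ :=
  ∑ n ∈ Ioc m N, (Real.log n - Real.log ((n : ℝ) - 1)) * (1 / Real.log n)

/-- the sum of `1/p` over the primes `1 mod 4` in `(m, N]` -/
noncomputable def R (m N : ℕ) : ℝ := ∑ n ∈ Ioc m N, a4 n * (1 / Real.log n)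

lemma R_sub_T {C : ℝ} (hC : ∀ N : ℕ, 1 ≤ N → |A4 N - 1 / 2 * Real.log N| ≤ C)
    {m N : ℕ} (hm : 2 ≤ m) (hN : m ≤ N) :
    |R m N - 1 / 2 * T m N| ≤ 2 * C * (1 / Real.log ((m : ℝ) + 1)) := by
  have h1 : R m N - 1 / 2 * T m N = ∑ n ∈ Ioc m N,
      (a4 n - 1 / 2 * (Real.log n - Real.log ((n : ℝ) - 1))) * (1 / Real.log n) := by
    rw [R, T, Finset.mul_sum, ← Finset.sum_sub_distrib]
    exact Finset.sum_congr rfl fun n _ => by ring
  have hS : ∀ k, m ≤ k → ∑ n ∈ Ioc m k, (a4 n - 1 / 2 * (Real.log n - Real.log ((n : ℝ) - 1))) =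
      (A4 k - 1 / 2 * Real.log k) - (A4 m - 1 / 2 * Real.log m) := by
    intro k hk
    induction k, hk using Nat.le_induction with
    | base => simp
    | succ k hk ih =>
      have hA : A4 (k + 1) = A4 k + a4 (k + 1) := by
        rw [A4, A4, Finset.sum_Ioc_succ_top (Nat.zero_le k)]
      rw [Finset.sum_Ioc_succ_top (by omega), ih, hA]
      push_cast
      rw [add_sub_cancel_right]
      ring
  rw [h1]
  have := abel (fun n => a4 n - 1 / 2 * (Real.log n - Real.log ((n : ℝ) - 1)))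
    (fun n => 1 / Real.log n) (2 * C) m ?_ ?_ ?_ N hN
  · simpa using this
  · intro k hk
    rw [hS k hk]
    have h2 := hC k (by omega)
    have h3 := hC m (by omega)
    rw [abs_le] at *
    constructor <;> linarith [h2.1, h2.2, h3.1, h3.2]
  · intro n hn
    have h2 : (1:ℝ) < n := by exact_mod_cast (by omega : 1 < n)
    apply one_div_le_one_div_of_le (Real.log_pos h2)
    apply Real.log_le_log (by linarith)
    push_cast
    linarith
  · intro n hn
    have := Real.log_natCast_nonneg n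
    positivity

lemma T_le {m N : ℕ} (hm : 2 ≤ m) (hN : m ≤ N) :
    T m N ≤ Real.log (Real.log N) - Real.log (Real.log m) := by
  induction N, hN using Nat.le_induction with
  | base => simp [T]
  | succ N hN ih =>
    rw [T, Finset.sum_Ioc_succ_top (by omega), ← T]
    have hN1 : (1:ℝ) < N := by exact_mod_cast (by omega : 1 < N)
    have h1 : 0 < Real.log N := Real.log_pos hN1
    have h2 : 0 < Real.log (N + 1 : ℝ) := Real.log_pos (by linarith)
    have h3 := log_ratio h1 h2
    push_cast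
    rw [add_sub_cancel_right, mul_one_div]
    linarith

lemma T_ge {m N : ℕ} (hm : 2 ≤ m) (hN : m ≤ N) :
    Real.log (Real.log N) - Real.log (Real.log m) -
      (1 / Real.log m - 1 / Real.log N) ≤ T m N := by
  induction N, hN using Nat.le_induction with
  | base => simp [T]
  | succ N hN ih =>
    rw [T, Finset.sum_Ioc_succ_top (by omega), ← T]
    have hN1 : (1:ℝ) < N := by exact_mod_cast (by omega : 1 < N)
    have h1 : 0 < Real.log N := Real.log_pos hN1
    have h2 : 0 < Real.log (N + 1 : ℝ) := Real.log_pos (by linarith)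
    have h3 := log_ratio' h1 h2
    have h4 : Real.log (N + 1 : ℝ) - Real.log N ≤ 1 := by
      have h5 := log_ratio' (show (0:ℝ) < N by linarith) (show (0:ℝ) < (N:ℝ) + 1 by linarith)
      have h6 : ((N:ℝ) + 1 - N) / N ≤ 1 := by
        rw [div_le_one (by linarith)]
        linarith
      linarith
    have h4' : 0 ≤ Real.log (N + 1 : ℝ) - Real.log N :=
      sub_nonneg.mpr (Real.log_le_log (by linarith) (by linarith))
    push_cast
    rw [add_sub_cancel_right, mul_one_div]
    set x := Real.log (N : ℝ)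
    set y := Real.log ((N : ℝ) + 1)
    have h7 : (y - x) / x - (y - x) / y ≤ 1 / x - 1 / y := by
      rw [div_sub_div _ _ h1.ne' h2.ne', div_sub_div _ _ h1.ne' h2.ne',
        div_le_div_iff_of_pos_right (mul_pos h1 h2)]
      nlinarith
    linarith

lemma I4_sum (w z : ℝ) (hw : 2 ≤ w) :
    ∑ p ∈ I4 w z, 1 / (p : ℝ) = R ⌊w⌋₊ ⌊z⌋₊ := by
  have h1 : I4 w z = (Ioc ⌊w⌋₊ ⌊z⌋₊).filter (fun p => p.Prime ∧ p % 4 = 1) := by
    ext p
    simp only [I4, Finset.mem_filter, Finset.mem_Icc, Finset.mem_Ioc]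
    rw [Nat.floor_lt (by linarith)]
    constructor
    · rintro ⟨⟨_, h2⟩, h3, h4, h5⟩
      exact ⟨⟨h5, h2⟩, h3, h4⟩
    · rintro ⟨⟨h5, h2⟩, h3, h4⟩
      exact ⟨⟨h3.one_le, h2⟩, h3, h4, h5⟩
  rw [h1, R, Finset.sum_filter]
  refine Finset.sum_congr rfl fun n _ => ?_
  rw [a4]
  split_ifs with h
  · have h2 : (1:ℝ) < n := by exact_mod_cast h.1.one_lt
    have h3 := Real.log_pos h2
    field_simp
  · simp

end Mert

theorem mertens4 : ∃ C : ℝ, 0 < C ∧ ∀ w z : ℝ, 2 ≤ w → w ≤ z →
    ∑ p ∈ I4 w z, 1 / (p : ℝ) ≤ (1 / 2) * Real.log (Real.log z / Real.log w) +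
      C / Real.log w := by
  obtain ⟨C, hC0, hC⟩ := Mert.A4_bound
  refine ⟨2 * C + 1, by linarith, fun w z hw hwz => ?_⟩
  rw [Mert.I4_sum w z hw]
  set m := ⌊w⌋₊ with hm
  set N := ⌊z⌋₊ with hN
  have hm2 : 2 ≤ m := Nat.le_floor (by exact_mod_cast hw)
  have hmN : m ≤ N := Nat.floor_le_floor hwz
  have hmw : (m:ℝ) ≤ w := Nat.floor_le (by linarith)
  have hwm : w < (m:ℝ) + 1 := Nat.lt_floor_add_one w
  have hNz : (N:ℝ) ≤ z := Nat.floor_le (by linarith)
  have hm2' : (2:ℝ) ≤ m := by exact_mod_cast hm2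
  have hlw : 0 < Real.log w := Real.log_pos (by linarith)
  have hlz : 0 < Real.log z := Real.log_pos (by linarith)
  have hlm : 0 < Real.log m := Real.log_pos (by linarith)
  have hN2' : (2:ℝ) ≤ N := by exact_mod_cast hm2.trans hmN
  have hlN : 0 < Real.log N := Real.log_pos (by linarith)
  have h1 := (abs_le.mp (Mert.R_sub_T hC hm2 hmN)).2
  have h2 := Mert.T_le hm2 hmN
  have h3 : 1 / Real.log ((m:ℝ) + 1) ≤ 1 / Real.log w :=
    one_div_le_one_div_of_le hlw (Real.log_le_log (by linarith) hwm.le)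
  have h4 : Real.log (Real.log N) ≤ Real.log (Real.log z) :=
    Real.log_le_log hlN (Real.log_le_log (by linarith) hNz)
  have h5 : Real.log (Real.log w) - Real.log (Real.log m) ≤ 2 / Real.log w := by
    have h6 := Mert.log_ratio' hlm hlw
    have h7 := Mert.log_ratio' (show (0:ℝ) < m by linarith) (show (0:ℝ) < w by linarith)
    have h8 : (w - m) / m ≤ 1 := by
      rw [div_le_one (by linarith)]
      linarith
    have h9 : Real.log w ≤ 2 * Real.log m := by
      have h10 : Real.log w ≤ Real.log ((m:ℝ) ^ 2) :=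
        Real.log_le_log (by linarith) (by nlinarith)
      rwa [Real.log_pow, Nat.cast_ofNat] at h10
    have h11 : (Real.log w - Real.log m) / Real.log m ≤ 1 / Real.log m := by
      gcongr
      linarith
    have h12 : 1 / Real.log m ≤ 2 / Real.log w := by
      rw [div_le_div_iff₀ hlm hlw]
      linarith
    linarith
  rw [Real.log_div hlz.ne' hlw.ne']
  have h13 : 2 * C * (1 / Real.log ((m:ℝ) + 1)) ≤ 2 * C * (1 / Real.log w) :=
    mul_le_mul_of_nonneg_left h3 (by linarith)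
  have h14 : (2 * C + 1) / Real.log w = 2 * C * (1 / Real.log w) + 1 / 2 * (2 / Real.log w) := by
    ring
  rw [h14]
  linarith

theorem mertens4_lower : ∃ C : ℝ, 0 < C ∧ ∀ w z : ℝ, 2 ≤ w → w ≤ z →
    (1 / 2) * Real.log (Real.log z / Real.log w) - C / Real.log w ≤
      ∑ p ∈ I4 w z, 1 / (p : ℝ) := by
  obtain ⟨C, hC0, hC⟩ := Mert.A4_bound
  refine ⟨2 * C + 2, by linarith, fun w z hw hwz => ?_⟩
  rw [Mert.I4_sum w z hw]
  set m := ⌊w⌋₊ with hm
  set N := ⌊z⌋₊ with hN
  have hm2 : 2 ≤ m := Nat.le_floor (by exact_mod_cast hw)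
  have hmN : m ≤ N := Nat.floor_le_floor hwz
  have hmw : (m:ℝ) ≤ w := Nat.floor_le (by linarith)
  have hwm : w < (m:ℝ) + 1 := Nat.lt_floor_add_one w
  have hNz : (N:ℝ) ≤ z := Nat.floor_le (by linarith)
  have hzN : z < (N:ℝ) + 1 := Nat.lt_floor_add_one z
  have hm2' : (2:ℝ) ≤ m := by exact_mod_cast hm2
  have hmN' : (m:ℝ) ≤ N := by exact_mod_cast hmN
  have hlw : 0 < Real.log w := Real.log_pos (by linarith)
  have hlz : 0 < Real.log z := Real.log_pos (by linarith)
  have hlm : 0 < Real.log m := Real.log_pos (by linarith)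
  have hN2' : (2:ℝ) ≤ N := by exact_mod_cast hm2.trans hmN
  have hlN : 0 < Real.log N := Real.log_pos (by linarith)
  have hlmN : Real.log m ≤ Real.log N := Real.log_le_log (by linarith) hmN'
  have h1 := (abs_le.mp (Mert.R_sub_T hC hm2 hmN)).1
  have h2 := Mert.T_ge hm2 hmN
  have h3 : 1 / Real.log ((m:ℝ) + 1) ≤ 1 / Real.log w :=
    one_div_le_one_div_of_le hlw (Real.log_le_log (by linarith) hwm.le)
  have h4 : Real.log (Real.log m) ≤ Real.log (Real.log w) :=
    Real.log_le_log hlm (Real.log_le_log (by linarith) hmw)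
  have h9 : Real.log w ≤ 2 * Real.log m := by
    have h10 : Real.log w ≤ Real.log ((m:ℝ) ^ 2) :=
      Real.log_le_log (by linarith) (by nlinarith)
    rwa [Real.log_pow, Nat.cast_ofNat] at h10
  have h12 : 1 / Real.log m ≤ 2 / Real.log w := by
    rw [div_le_div_iff₀ hlm hlw]
    linarith
  have h5 : Real.log (Real.log z) - Real.log (Real.log N) ≤ 1 / Real.log N := by
    have h6 := Mert.log_ratio' hlN hlz
    have h7 := Mert.log_ratio' (show (0:ℝ) < N by linarith) (show (0:ℝ) < z by linarith)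
    have h8 : (z - N) / N ≤ 1 := by
      rw [div_le_one (by linarith)]
      linarith
    have h11 : (Real.log z - Real.log N) / Real.log N ≤ 1 / Real.log N := by
      gcongr
      linarith
    linarith
  rw [Real.log_div hlz.ne' hlw.ne']
  have h13 : 2 * C * (1 / Real.log ((m:ℝ) + 1)) ≤ 2 * C * (1 / Real.log w) :=
    mul_le_mul_of_nonneg_left h3 (by linarith)
  have h14 : (2 * C + 2) / Real.log w = 2 * C * (1 / Real.log w) + 2 / Real.log w := by
    ring
  have h15 : 0 < 2 / Real.log w := by positivity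
  rw [h14]
  linarith

end Pool.Agent.DG
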