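import Pool.Agent.helper41.DG.Mert

/-! # Mertens' theorem modulo four

The lower bound `mertens4_lower` is proved in `Mert`. -/
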