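import Pool.Agent.helper41.DG.Union

/-! # The local data of the norm form -/

set_option autoImplicit false

open Finset

namespace Pool.Agent.DG

/-- the indicator function of `p ∣ |q v + r|²` -/
noncomputable def nb (q : ℤ) (r : ℤ × ℤ) (p : ℕ) (v : ℤ × ℤ) : ℝ :=
  if (p : ℤ) ∣ (q * v.1 + r.1) ^ 2 + (q * v.2 + r.2) ^ 2 then 1 else 0

theorem nl_ec_nat_mul (t : ℕ) (x : ℝ) : ec (t * x) = ec x ^ t := by
  unfold ec
  rw [← Complex.exp_nat_mul]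
  congr 1
  push_cast
  ring

theorem nl_ec_eq_one {p : ℕ} (hp : p ≠ 0) {w : ℤ} (h : ec ((w : ℝ) / (p : ℝ)) = 1) :
    (p : ℤ) ∣ w := by
  unfold ec at h
  rw [Complex.exp_eq_one_iff] at h
  obtain ⟨n, hn⟩ := h
  have h1 : (2 * (Real.pi : ℂ) * Complex.I) ≠ 0 := Complex.two_pi_I_ne_zero
  have h2 : (((w : ℝ) / (p : ℝ) : ℝ) : ℂ) = (n : ℂ) := by
    have h3 : (2 * (Real.pi : ℂ) * Complex.I) * (((w : ℝ) / (p : ℝ) : ℝ) : ℂ) =
        (2 * (Real.pi : ℂ) * Complex.I) * (n : ℂ) := by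
      rw [hn]
      ring
    exact mul_left_cancel₀ h1 h3
  have h4 : (w : ℝ) / (p : ℝ) = (n : ℝ) := by exact_mod_cast h2
  have hp' : (p : ℝ) ≠ 0 := by exact_mod_cast hp
  rw [div_eq_iff hp'] at h4
  refine ⟨n, ?_⟩
  have h5 : (w : ℝ) = ((n * p : ℤ) : ℝ) := by
    push_cast
    exact h4
  have h6 : w = n * p := by exact_mod_cast h5
  rw [h6, mul_comm]

/-- the phase depends on the numerator modulo `p` -/
theorem nl_ec_congr {p : ℕ} (hp : p ≠ 0) {m n : ℤ} (h : (p : ℤ) ∣ m - n) :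
    ec ((m : ℝ) / (p : ℝ)) = ec ((n : ℝ) / (p : ℝ)) := by
  obtain ⟨k, hk⟩ := h
  have hp' : (p : ℝ) ≠ 0 := by exact_mod_cast hp
  have h1 : m = n + p * k := by linarith
  have h2 : (m : ℝ) / (p : ℝ) = (n : ℝ) / (p : ℝ) + (k : ℝ) := by
    rw [h1]
    push_cast
    field_simp
  rw [h2, ec_add, ec_int, mul_one]

/-- the geometric sum -/
theorem nl_geom {p : ℕ} (hp : p ≠ 0) (w : ℤ) :
    ∑ t ∈ range p, ec (((t : ℝ) * (w : ℝ)) / (p : ℝ)) =
      (p : ℂ) * (if (p : ℤ) ∣ w then 1 else 0) := by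
  have h1 : ∀ t : ℕ, ec (((t : ℝ) * (w : ℝ)) / (p : ℝ)) = ec ((w : ℝ) / (p : ℝ)) ^ t := by
    intro t
    rw [← nl_ec_nat_mul, mul_div_assoc]
  rw [Finset.sum_congr rfl fun t _ => h1 t]
  split_ifs with h
  · have h2 : ec ((w : ℝ) / (p : ℝ)) = 1 := by
      have h3 := nl_ec_congr hp (m := w) (n := 0) (by rwa [sub_zero])
      rw [h3, Int.cast_zero, zero_div, ec_zero]
    simp [h2]
  · have h2 : ec ((w : ℝ) / (p : ℝ)) ≠ 1 := fun h3 => h (nl_ec_eq_one hp h3)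
    have h3 : ec ((w : ℝ) / (p : ℝ)) ^ p = 1 := by
      rw [← nl_ec_nat_mul]
      have hp' : (p : ℝ) ≠ 0 := by exact_mod_cast hp
      rw [mul_div_cancel₀ _ hp']
      exact ec_int w
    rw [mul_zero]
    have h4 := geom_sum_mul (ec ((w : ℝ) / (p : ℝ))) p
    rw [h3, sub_self] at h4
    exact (mul_eq_zero.1 h4).resolve_right (sub_ne_zero.2 h2)

/-- the sum over a line -/
theorem nl_line {p : ℕ} (hp : p ≠ 0) (c : ℕ) (w : ℤ × ℤ) :
    ∑ a ∈ range p ×ˢ range p, (if a.2 = (c * a.1) % p then (1 : ℂ) else 0) *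
      ec (((a.1 : ℝ) * (w.1 : ℝ) + (a.2 : ℝ) * (w.2 : ℝ)) / (p : ℝ)) =
      (p : ℂ) * (if (p : ℤ) ∣ w.1 + c * w.2 then 1 else 0) := by
  rw [Finset.sum_product, ← nl_geom hp]
  refine Finset.sum_congr rfl fun s _ => ?_
  rw [Finset.sum_eq_single ((c * s) % p)]
  · rw [if_pos rfl, one_mul]
    have h1 := nl_ec_congr hp (m := (s : ℤ) * w.1 + ((c * s % p : ℕ) : ℤ) * w.2)
      (n := (s : ℤ) * (w.1 + c * w.2)) (by
        have h2 : ((c * s % p : ℕ) : ℤ) = (c * s : ℤ) - p * ((c * s / p : ℕ) : ℤ) := by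
          have h3 := Nat.mod_add_div (c * s) p
          have h4 : ((c * s % p + p * (c * s / p) : ℕ) : ℤ) = ((c * s : ℕ) : ℤ) := by rw [h3]
          push_cast at h4 ⊢
          linarith
        refine ⟨-(((c * s / p : ℕ) : ℤ) * w.2), ?_⟩
        rw [h2]
        ring)
    push_cast at h1 ⊢
    exact h1
  · intro b _ hb
    rw [if_neg hb, zero_mul]
  · intro h
    exact absurd (Finset.mem_range.2 (Nat.mod_lt _ (Nat.pos_of_ne_zero hp))) h

/-- the sum over all the frequencies -/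
theorem nl_full {p : ℕ} (hp : p ≠ 0) (w : ℤ × ℤ) :
    ∑ a ∈ range p ×ˢ range p, ec (((a.1 : ℝ) * (w.1 : ℝ) + (a.2 : ℝ) * (w.2 : ℝ)) / (p : ℝ)) =
      (p : ℂ) ^ 2 * ((if (p : ℤ) ∣ w.1 then 1 else 0) * (if (p : ℤ) ∣ w.2 then 1 else 0)) := by
  have h1 : ∀ a : ℕ × ℕ, ec (((a.1 : ℝ) * (w.1 : ℝ) + (a.2 : ℝ) * (w.2 : ℝ)) / (p : ℝ)) =
      ec (((a.1 : ℝ) * (w.1 : ℝ)) / (p : ℝ)) * ec (((a.2 : ℝ) * (w.2 : ℝ)) / (p : ℝ)) := by
    intro a
    rw [← ec_add, add_div]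
  rw [Finset.sum_congr rfl fun a _ => h1 a, Finset.sum_product,
    ← Finset.sum_mul_sum (range p) (range p) (fun s => ec (((s : ℝ) * (w.1 : ℝ)) / (p : ℝ)))
      (fun s => ec (((s : ℝ) * (w.2 : ℝ)) / (p : ℝ))), nl_geom hp, nl_geom hp]
  ring

/-- the coefficients -/
noncomputable def nlb (p c c' : ℕ) (q' : ℤ) (r : ℤ × ℤ) (a : ℕ × ℕ) : ℂ :=
  ec (((q' * (a.1 * r.1 + a.2 * r.2) : ℤ) : ℝ) / (p : ℝ)) *
    (((p : ℂ) * (if a.2 = (c * a.1) % p then (1 : ℂ) else 0) +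
      (p : ℂ) * (if a.2 = (c' * a.1) % p then (1 : ℂ) else 0) - 1) / (p : ℂ) ^ 2)

theorem nl_expand {p : ℕ} (hp : p ≠ 0) (c c' : ℕ) (q' : ℤ) (r v : ℤ × ℤ) :
    ∑ a ∈ range p ×ˢ range p, nlb p c c' q' r a *
      ec (((a.1 : ℝ) * (v.1 : ℝ) + (a.2 : ℝ) * (v.2 : ℝ)) / (p : ℝ)) =
      (if (p : ℤ) ∣ (v.1 + q' * r.1) + c * (v.2 + q' * r.2) then 1 else 0) +
      (if (p : ℤ) ∣ (v.1 + q' * r.1) + c' * (v.2 + q' * r.2) then 1 else 0) -
      (if (p : ℤ) ∣ v.1 + q' * r.1 then 1 else 0) * (if (p : ℤ) ∣ v.2 + q' * r.2 then 1 else 0) := by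
  set w : ℤ × ℤ := (v.1 + q' * r.1, v.2 + q' * r.2) with hw
  have hpC : (p : ℂ) ≠ 0 := by exact_mod_cast hp
  have h1 : ∀ a : ℕ × ℕ, nlb p c c' q' r a *
      ec (((a.1 : ℝ) * (v.1 : ℝ) + (a.2 : ℝ) * (v.2 : ℝ)) / (p : ℝ)) =
      (1 / (p : ℂ)) * ((if a.2 = (c * a.1) % p then (1 : ℂ) else 0) *
        ec (((a.1 : ℝ) * (w.1 : ℝ) + (a.2 : ℝ) * (w.2 : ℝ)) / (p : ℝ))) +
      (1 / (p : ℂ)) * ((if a.2 = (c' * a.1) % p then (1 : ℂ) else 0) *
        ec (((a.1 : ℝ) * (w.1 : ℝ) + (a.2 : ℝ) * (w.2 : ℝ)) / (p : ℝ))) -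
      (1 / (p : ℂ) ^ 2) * ec (((a.1 : ℝ) * (w.1 : ℝ) + (a.2 : ℝ) * (w.2 : ℝ)) / (p : ℝ)) := by
    intro a
    have h2 : ec (((a.1 : ℝ) * (w.1 : ℝ) + (a.2 : ℝ) * (w.2 : ℝ)) / (p : ℝ)) =
        ec (((q' * (a.1 * r.1 + a.2 * r.2) : ℤ) : ℝ) / (p : ℝ)) *
          ec (((a.1 : ℝ) * (v.1 : ℝ) + (a.2 : ℝ) * (v.2 : ℝ)) / (p : ℝ)) := by
      rw [← ec_add, ← add_div]
      congr 2
      rw [hw]
      push_cast
      ring
    rw [h2]
    unfold nlb
    field_simp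
  rw [Finset.sum_congr rfl fun a _ => h1 a, Finset.sum_sub_distrib, Finset.sum_add_distrib,
    ← Finset.mul_sum, ← Finset.mul_sum, ← Finset.mul_sum, nl_line hp, nl_line hp, nl_full hp]
  field_simp
  rfl

/-- the indicator of the zero set of the norm form -/
theorem nl_nb {p : ℕ} (hp : p.Prime) (hp2 : p ≠ 2) {c c' : ℕ} {q q' : ℤ} (hc : (p : ℤ) ∣ (c : ℤ) ^ 2 + 1)
    (hc' : (p : ℤ) ∣ (c : ℤ) + c') (hq : (p : ℤ) ∣ q * q' - 1) (r v : ℤ × ℤ) :
    ((nb q r p v : ℝ) : ℂ) =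
      (if (p : ℤ) ∣ (v.1 + q' * r.1) + c * (v.2 + q' * r.2) then 1 else 0) +
      (if (p : ℤ) ∣ (v.1 + q' * r.1) + c' * (v.2 + q' * r.2) then 1 else 0) -
      (if (p : ℤ) ∣ v.1 + q' * r.1 then 1 else 0) * (if (p : ℤ) ∣ v.2 + q' * r.2 then 1 else 0) := by
  have : Fact p.Prime := ⟨hp⟩
  simp only [← ZMod.intCast_zmod_eq_zero_iff_dvd] at hc hc' hq ⊢
  unfold nb
  simp only [← ZMod.intCast_zmod_eq_zero_iff_dvd]
  push_cast at hc hc' hq ⊢
  set C : ZMod p := (c : ZMod p) with hC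
  set C' : ZMod p := (c' : ZMod p) with hC''
  set Q : ZMod p := (q : ZMod p) with hQ
  set Q' : ZMod p := (q' : ZMod p) with hQ'
  set x : ZMod p := (v.1 : ZMod p) + Q' * (r.1 : ZMod p) with hx
  set y : ZMod p := (v.2 : ZMod p) + Q' * (r.2 : ZMod p) with hy
  have h2 : (2 : ZMod p) ≠ 0 := by
    intro h
    have h3 : ((2 : ℕ) : ZMod p) = 0 := by exact_mod_cast h
    rw [ZMod.natCast_eq_zero_iff] at h3
    exact hp2 ((Nat.prime_dvd_prime_iff_eq hp Nat.prime_two).1 h3)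
  have hC0 : C ≠ 0 := by
    intro h
    rw [h] at hc
    simp at hc
  have hCC : C' = -C := by linear_combination hc'
  have hQ0 : Q ≠ 0 := by
    intro h
    rw [h, zero_mul, zero_sub] at hq
    exact one_ne_zero (neg_eq_zero.1 hq)
  have e1 : (Q * (v.1 : ZMod p) + (r.1 : ZMod p)) ^ 2 + (Q * (v.2 : ZMod p) + (r.2 : ZMod p)) ^ 2 =
      Q ^ 2 * ((x + C * y) * (x + C' * y)) := by
    have f1 : Q * (v.1 : ZMod p) + (r.1 : ZMod p) = Q * x := by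
      rw [hx]
      linear_combination (-(r.1 : ZMod p)) * hq
    have f2 : Q * (v.2 : ZMod p) + (r.2 : ZMod p) = Q * y := by
      rw [hy]
      linear_combination (-(r.2 : ZMod p)) * hq
    rw [f1, f2, hCC]
    linear_combination (Q ^ 2 * y ^ 2) * hc
  rw [e1]
  have e2 : Q ^ 2 * ((x + C * y) * (x + C' * y)) = 0 ↔ x + C * y = 0 ∨ x + C' * y = 0 := by
    rw [mul_eq_zero, or_iff_right (pow_ne_zero 2 hQ0), mul_eq_zero]
  have e3 : (x + C * y = 0 ∧ x + C' * y = 0) ↔ (x = 0 ∧ y = 0) := by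
    constructor
    · rintro ⟨g1, g2⟩
      have g3 : 2 * (C * y) = 0 := by
        rw [hCC] at g2
        linear_combination g1 - g2
      have g4 : y = 0 := by
        rcases mul_eq_zero.1 g3 with h | h
        · exact absurd h h2
        · exact (mul_eq_zero.1 h).resolve_left hC0
      refine ⟨?_, g4⟩
      rw [g4, mul_zero, add_zero] at g1
      exact g1
    · rintro ⟨g1, g2⟩
      rw [g1, g2]
      simp
  by_cases hA : x + C * y = 0
  · by_cases hB : x + C' * y = 0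
    · obtain ⟨hx0, hy0⟩ := e3.1 ⟨hA, hB⟩
      rw [if_pos (e2.2 (Or.inl hA)), if_pos hA, if_pos hB, if_pos hx0, if_pos hy0]
      push_cast
      ring
    · have hxy : ¬ (x = 0 ∧ y = 0) := fun h => hB (e3.2 h).2
      rw [if_pos (e2.2 (Or.inl hA)), if_pos hA, if_neg hB]
      by_cases hx0 : x = 0
      · rw [if_pos hx0, if_neg fun hy0 => hxy ⟨hx0, hy0⟩]
        push_cast
        ring
      · rw [if_neg hx0]
        push_cast
        ring
  · have hxy : ¬ (x = 0 ∧ y = 0) := fun h => hA (e3.2 h).1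
    have hz : (if x = 0 then (1 : ℂ) else 0) * (if y = 0 then (1 : ℂ) else 0) = 0 := by
      by_cases hx0 : x = 0
      · rw [if_neg fun hy0 => hxy ⟨hx0, hy0⟩, mul_zero]
      · rw [if_neg hx0, zero_mul]
    rw [hz, if_neg hA]
    by_cases hB : x + C' * y = 0
    · rw [if_pos (e2.2 (Or.inr hB)), if_pos hB]
      push_cast
      ring
    · rw [if_neg fun h => (e2.1 h).elim hA hB, if_neg hB]
      push_cast
      ring

/-- the size of the coefficients -/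
theorem nl_small {p : ℕ} (hp : p.Prime) (hp2 : p ≠ 2) {c c' : ℕ} (hc : (p : ℤ) ∣ (c : ℤ) ^ 2 + 1)
    (hc' : (p : ℤ) ∣ (c : ℤ) + c') (q' : ℤ) (r : ℤ × ℤ) {a : ℕ × ℕ}
    (ha : a ∈ range p ×ˢ range p) (h0 : a ≠ (0, 0)) : ‖nlb p c c' q' r a‖ ≤ 1 / (p : ℝ) := by
  have : Fact p.Prime := ⟨hp⟩
  obtain ⟨ha1, ha2⟩ := Finset.mem_product.1 ha
  rw [Finset.mem_range] at ha1 ha2
  have hp0 : (0 : ℝ) < p := by exact_mod_cast hp.pos
  have hp1 : (1 : ℝ) ≤ p := by exact_mod_cast hp.one_lt.le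
  -- not both
  have key : ¬ (a.2 = (c * a.1) % p ∧ a.2 = (c' * a.1) % p) := by
    rintro ⟨g1, g2⟩
    have f1 : (a.2 : ZMod p) = (c : ZMod p) * (a.1 : ZMod p) := by
      rw [g1]
      push_cast
      simp
    have f2 : (a.2 : ZMod p) = (c' : ZMod p) * (a.1 : ZMod p) := by
      rw [g2]
      push_cast
      simp
    have k1 : (c : ZMod p) ^ 2 + 1 = 0 := by
      rw [← ZMod.intCast_zmod_eq_zero_iff_dvd] at hc
      push_cast at hc
      exact hc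
    have k2 : (c : ZMod p) + (c' : ZMod p) = 0 := by
      rw [← ZMod.intCast_zmod_eq_zero_iff_dvd] at hc'
      push_cast at hc'
      exact hc'
    have h2 : (2 : ZMod p) ≠ 0 := by
      intro h
      have h3 : ((2 : ℕ) : ZMod p) = 0 := by exact_mod_cast h
      rw [ZMod.natCast_eq_zero_iff] at h3
      exact hp2 ((Nat.prime_dvd_prime_iff_eq hp Nat.prime_two).1 h3)
    have hC0 : (c : ZMod p) ≠ 0 := by
      intro h
      rw [h] at k1
      simp at k1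
    have f3 : 2 * ((c : ZMod p) * (a.1 : ZMod p)) = 0 := by
      linear_combination f2 - f1 + (a.1 : ZMod p) * k2
    have f4 : (a.1 : ZMod p) = 0 := by
      rcases mul_eq_zero.1 f3 with h | h
      · exact absurd h h2
      · exact (mul_eq_zero.1 h).resolve_left hC0
    rw [ZMod.natCast_eq_zero_iff] at f4
    have f5 : a.1 = 0 := Nat.eq_zero_of_dvd_of_lt f4 ha1
    rw [f5, mul_zero, Nat.zero_mod] at g1
    exact h0 (Prod.ext f5 g1)
  unfold nlb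
  rw [norm_mul, norm_ec, one_mul, norm_div, norm_pow, Complex.norm_natCast]
  have hn : ‖(p : ℂ) * (if a.2 = (c * a.1) % p then (1 : ℂ) else 0) +
      (p : ℂ) * (if a.2 = (c' * a.1) % p then (1 : ℂ) else 0) - 1‖ ≤ (p : ℝ) := by
    have hpp : ‖(p : ℂ) - 1‖ ≤ (p : ℝ) := by
      have e : (p : ℂ) - 1 = (((p : ℝ) - 1 : ℝ) : ℂ) := by push_cast; rfl
      rw [e, Complex.norm_real, Real.norm_of_nonneg (by linarith)]
      linarith
    by_cases g1 : a.2 = (c * a.1) % p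
    · have g2 : ¬ a.2 = (c' * a.1) % p := fun h => key ⟨g1, h⟩
      rw [if_pos g1, if_neg g2, mul_one, mul_zero, add_zero]
      exact hpp
    · rw [if_neg g1, mul_zero, zero_add]
      by_cases g2 : a.2 = (c' * a.1) % p
      · rw [if_pos g2, mul_one]
        exact hpp
      · rw [if_neg g2, mul_zero, zero_sub, norm_neg, norm_one]
        exact hp1
  rw [div_le_div_iff₀ (pow_pos hp0 2) hp0]
  nlinarith

theorem norm_loc (P : Finset ℕ) (q : ℤ) (r : ℤ × ℤ)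
    (hP : ∀ p ∈ P, p.Prime ∧ p % 4 = 1 ∧ ¬ (p : ℤ) ∣ q) :
    ∃ b : ℕ → ℕ × ℕ → ℂ, Loc P (nb q r) b (fun p => (2 * (p : ℝ) - 1) / (p : ℝ) ^ 2) := by
  have hex : ∀ p : ℕ, ∃ (c c' : ℕ) (q' : ℤ), p ∈ P → (p : ℤ) ∣ (c : ℤ) ^ 2 + 1 ∧
      (p : ℤ) ∣ (c : ℤ) + c' ∧ (p : ℤ) ∣ q * q' - 1 := by
    intro p
    by_cases hp : p ∈ P
    · obtain ⟨h1, h2, h3⟩ := hP p hp
      have : Fact p.Prime := ⟨h1⟩
      obtain ⟨i, hi⟩ := ZMod.exists_sq_eq_neg_one_iff.2 (show p % 4 ≠ 3 by omega)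
      have hq0 : (q : ZMod p) ≠ 0 := fun h => h3 ((ZMod.intCast_zmod_eq_zero_iff_dvd q p).1 h)
      refine ⟨i.val, (-i).val, (((q : ZMod p)⁻¹).val : ℤ), fun _ => ⟨?_, ?_, ?_⟩⟩
      · rw [← ZMod.intCast_zmod_eq_zero_iff_dvd]
        push_cast
        rw [ZMod.natCast_zmod_val, sq, ← hi]
        ring
      · rw [← ZMod.intCast_zmod_eq_zero_iff_dvd]
        push_cast
        rw [ZMod.natCast_zmod_val, ZMod.natCast_zmod_val, add_neg_cancel]
      · rw [← ZMod.intCast_zmod_eq_zero_iff_dvd]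
        push_cast
        rw [ZMod.natCast_zmod_val, mul_inv_cancel₀ hq0, sub_self]
    · exact ⟨0, 0, 0, fun h => absurd h hp⟩
  choose c c' q' h using hex
  refine ⟨fun p => nlb p (c p) (c' p) (q' p) r, ?_, ?_, ?_, ?_, ?_, ?_, ?_, ?_⟩
  · exact fun p hp => (hP p hp).1
  · intro p _ v
    unfold nb
    split_ifs <;> norm_num
  · intro p _ v
    unfold nb
    split_ifs <;> norm_num
  · intro p hp v
    obtain ⟨h1, h2, -⟩ := hP p hp
    obtain ⟨g1, g2, g3⟩ := h p hp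
    rw [nl_expand h1.ne_zero, nl_nb h1 (by omega) g1 g2 g3]
  · intro p hp
    obtain ⟨h1, -, -⟩ := hP p hp
    unfold nlb
    simp only [mul_zero, Nat.zero_mod, if_true, mul_one, Nat.cast_zero, zero_mul, add_zero,
      Int.cast_zero, zero_div, ec_zero, one_mul]
    push_cast
    ring
  · intro p hp
    have hp1 : (1 : ℝ) ≤ p := by exact_mod_cast (hP p hp).1.one_lt.le
    exact div_nonneg (by linarith) (by positivity)
  · intro p hp
    have hp0 : (0 : ℝ) < p := by exact_mod_cast (hP p hp).1.pos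
    rw [div_le_div_iff₀ (pow_pos hp0 2) hp0]
    nlinarith
  · intro p hp a ha h0
    obtain ⟨h1, h2, -⟩ := hP p hp
    obtain ⟨g1, g2, -⟩ := h p hp
    exact nl_small h1 (by omega) g1 g2 (q' p) r ha h0

end Pool.Agent.DG
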