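import Pool.Agent.helper41.DG.Geo

/-! # The cells -/

set_option autoImplicit false
open scoped Classical

open Finset

namespace Pool.Agent.DG

/-- the cell of the point `y.2 / y.1` -/
def Cell (N : ℕ) (q : ℤ) (r u : ℤ × ℤ) (y : ℤ × (ℤ × ℤ)) : Prop :=
  y.1 = q ∧ y.2.1 % q = r.1 ∧ y.2.2 % q = r.2 ∧ y.2.1 / q / N = u.1 ∧ y.2.2 / q / N = u.2

/-- the weight of an integer -/
noncomputable def Pig_H (k : ℤ) : ℝ := 1 / (1 + (k.natAbs : ℝ)) ^ 2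

theorem Pig_H_nonneg (k : ℤ) : 0 ≤ Pig_H k := by
  unfold Pig_H; positivity

theorem Pig_summable : Summable Pig_H := by
  have h1 : Summable (fun n : ℕ => 1 / (1 + (n : ℝ)) ^ 2) := by
    have h := (summable_nat_add_iff 1).2 (Real.summable_one_div_nat_pow.2 one_lt_two)
    refine h.congr fun n => ?_
    push_cast
    rw [add_comm]
  refine Summable.of_nat_of_neg ?_ ?_
  · refine h1.congr fun n => ?_
    simp [Pig_H]
  · refine h1.congr fun n => ?_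
    simp [Pig_H]

/-- the weight of a cell -/
noncomputable def Pig_K (k : ℤ × ((ℤ × ℤ) × (ℤ × ℤ))) : ℝ :=
  Pig_H k.1 * ((Pig_H k.2.1.1 * Pig_H k.2.1.2) * (Pig_H k.2.2.1 * Pig_H k.2.2.2))

theorem Pig_K_nonneg (k : ℤ × ((ℤ × ℤ) × (ℤ × ℤ))) : 0 ≤ Pig_K k := by
  unfold Pig_K
  have := Pig_H_nonneg k.1
  have := Pig_H_nonneg k.2.1.1
  have := Pig_H_nonneg k.2.1.2
  have := Pig_H_nonneg k.2.2.1
  have := Pig_H_nonneg k.2.2.2
  positivity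

theorem Pig_K_summable : Summable Pig_K := by
  have h := Pig_summable
  have h2 : Summable (fun x : ℤ × ℤ => Pig_H x.1 * Pig_H x.2) :=
    h.mul_of_nonneg h Pig_H_nonneg Pig_H_nonneg
  have n2 : ∀ x : ℤ × ℤ, 0 ≤ Pig_H x.1 * Pig_H x.2 := fun x =>
    mul_nonneg (Pig_H_nonneg _) (Pig_H_nonneg _)
  have h4 : Summable (fun x : (ℤ × ℤ) × (ℤ × ℤ) =>
      (Pig_H x.1.1 * Pig_H x.1.2) * (Pig_H x.2.1 * Pig_H x.2.2)) :=
    h2.mul_of_nonneg h2 n2 n2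
  exact h.mul_of_nonneg h4 Pig_H_nonneg fun x => mul_nonneg (n2 _) (n2 _)

theorem Pig_le {q : ℤ} {r u : ℤ × ℤ} (hq : 1 ≤ q) (h1 : 0 ≤ r.1) (h2 : r.1 < q) (h3 : 0 ≤ r.2)
    (h4 : r.2 < q) : 1 / ((q : ℝ) * (1 + sn u)) ^ 6 ≤ 4 * Pig_K (q, (r, u)) := by
  have hq' : (1 : ℝ) ≤ (q : ℝ) := by exact_mod_cast hq
  have hqn : ((q.natAbs : ℕ) : ℝ) = (q : ℝ) := by
    rw [Nat.cast_natAbs, abs_of_nonneg (by omega)]
  have hr1 : 1 + ((r.1.natAbs : ℕ) : ℝ) ≤ (q : ℝ) := by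
    rw [Nat.cast_natAbs, abs_of_nonneg h1]
    have : 1 + r.1 ≤ q := by omega
    exact_mod_cast this
  have hr2 : 1 + ((r.2.natAbs : ℕ) : ℝ) ≤ (q : ℝ) := by
    rw [Nat.cast_natAbs, abs_of_nonneg h3]
    have : 1 + r.2 ≤ q := by omega
    exact_mod_cast this
  have hu1 : 1 + ((u.1.natAbs : ℕ) : ℝ) ≤ 1 + (sn u : ℝ) := by
    have : u.1.natAbs ≤ sn u := le_max_left _ _
    have : ((u.1.natAbs : ℕ) : ℝ) ≤ (sn u : ℝ) := by exact_mod_cast this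
    linarith
  have hu2 : 1 + ((u.2.natAbs : ℕ) : ℝ) ≤ 1 + (sn u : ℝ) := by
    have : u.2.natAbs ≤ sn u := le_max_right _ _
    have : ((u.2.natAbs : ℕ) : ℝ) ≤ (sn u : ℝ) := by exact_mod_cast this
    linarith
  have hs : (1 : ℝ) ≤ 1 + (sn u : ℝ) := by
    have : (0 : ℝ) ≤ (sn u : ℝ) := Nat.cast_nonneg _
    linarith
  have a1 : (1 : ℝ) / q ^ 2 ≤ 4 * Pig_H q := by
    unfold Pig_H
    rw [hqn, mul_one_div, div_le_div_iff₀ (by positivity) (by positivity)]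
    nlinarith
  have a2 : (1 : ℝ) / q ^ 2 ≤ Pig_H r.1 := by
    unfold Pig_H
    apply one_div_le_one_div_of_le (by positivity)
    exact pow_le_pow_left₀ (by positivity) hr1 2
  have a3 : (1 : ℝ) / q ^ 2 ≤ Pig_H r.2 := by
    unfold Pig_H
    apply one_div_le_one_div_of_le (by positivity)
    exact pow_le_pow_left₀ (by positivity) hr2 2
  have a4 : (1 : ℝ) / (1 + (sn u : ℝ)) ^ 2 ≤ Pig_H u.1 := by
    unfold Pig_H
    apply one_div_le_one_div_of_le (by positivity)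
    exact pow_le_pow_left₀ (by positivity) hu1 2
  have a5 : (1 : ℝ) / (1 + (sn u : ℝ)) ^ 2 ≤ Pig_H u.2 := by
    unfold Pig_H
    apply one_div_le_one_div_of_le (by positivity)
    exact pow_le_pow_left₀ (by positivity) hu2 2
  have a6 : (1 : ℝ) / (1 + (sn u : ℝ)) ^ 2 ≤ 1 := by
    rw [div_le_one (by positivity)]
    exact one_le_pow₀ hs
  have e : (1 : ℝ) / ((q : ℝ) * (1 + sn u)) ^ 6 =
      (1 / (q : ℝ) ^ 2) * (((1 / (q : ℝ) ^ 2) * (1 / (q : ℝ) ^ 2)) *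
        ((1 / (1 + (sn u : ℝ)) ^ 2) * (1 / (1 + (sn u : ℝ)) ^ 2))) *
        (1 / (1 + (sn u : ℝ)) ^ 2) := by
    field_simp
  have p0 : (0 : ℝ) ≤ 1 / (q : ℝ) ^ 2 := by positivity
  have p1 : (0 : ℝ) ≤ 1 / (1 + (sn u : ℝ)) ^ 2 := by positivity
  rw [e]
  unfold Pig_K
  dsimp only
  have b1 : (1 / (q : ℝ) ^ 2) * (1 / (q : ℝ) ^ 2) ≤ Pig_H r.1 * Pig_H r.2 :=
    mul_le_mul a2 a3 p0 (Pig_H_nonneg _)
  have b2 : (1 / (1 + (sn u : ℝ)) ^ 2) * (1 / (1 + (sn u : ℝ)) ^ 2) ≤ Pig_H u.1 * Pig_H u.2 :=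
    mul_le_mul a4 a5 p1 (Pig_H_nonneg _)
  have b3 : ((1 / (q : ℝ) ^ 2) * (1 / (q : ℝ) ^ 2)) *
      ((1 / (1 + (sn u : ℝ)) ^ 2) * (1 / (1 + (sn u : ℝ)) ^ 2)) ≤
      (Pig_H r.1 * Pig_H r.2) * (Pig_H u.1 * Pig_H u.2) :=
    mul_le_mul b1 b2 (mul_nonneg p1 p1) (mul_nonneg (Pig_H_nonneg _) (Pig_H_nonneg _))
  have b4 : (1 / (q : ℝ) ^ 2) * (((1 / (q : ℝ) ^ 2) * (1 / (q : ℝ) ^ 2)) *
      ((1 / (1 + (sn u : ℝ)) ^ 2) * (1 / (1 + (sn u : ℝ)) ^ 2))) ≤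
      (4 * Pig_H q) * ((Pig_H r.1 * Pig_H r.2) * (Pig_H u.1 * Pig_H u.2)) :=
    mul_le_mul a1 b3 (mul_nonneg (mul_nonneg p0 p0) (mul_nonneg p1 p1))
      (by have := Pig_H_nonneg q; positivity)
  have p2 : (0 : ℝ) ≤ (4 * Pig_H q) *
      ((Pig_H r.1 * Pig_H r.2) * (Pig_H u.1 * Pig_H u.2)) :=
    le_trans (mul_nonneg p0 (mul_nonneg (mul_nonneg p0 p0) (mul_nonneg p1 p1))) b4
  calc _ ≤ ((4 * Pig_H q) * ((Pig_H r.1 * Pig_H r.2) * (Pig_H u.1 * Pig_H u.2))) * 1 :=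
        mul_le_mul b4 a6 p1 p2
    _ = _ := by ring

/-- the cell of a point -/
def Pig_cell (N : ℕ) (y : ℤ × (ℤ × ℤ)) : ℤ × ((ℤ × ℤ) × (ℤ × ℤ)) :=
  (y.1, ((y.2.1 % y.1, y.2.2 % y.1), (y.2.1 / y.1 / N, y.2.2 / y.1 / N)))

theorem Pig_cell_iff (N : ℕ) (k : ℤ × ((ℤ × ℤ) × (ℤ × ℤ))) (y : ℤ × (ℤ × ℤ)) :
    Pig_cell N y = k ↔ Cell N k.1 k.2.1 k.2.2 y := by
  obtain ⟨q, ⟨r1, r2⟩, u1, u2⟩ := k
  unfold Pig_cell Cell
  simp only [Prod.mk.injEq]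
  constructor
  · rintro ⟨h1, ⟨h2, h3⟩, h4, h5⟩
    subst h1
    exact ⟨rfl, h2, h3, h4, h5⟩
  · rintro ⟨h1, h2, h3, h4, h5⟩
    subst h1
    exact ⟨rfl, ⟨h2, h3⟩, h4, h5⟩

/-- the weighted pigeonhole principle -/
theorem pigeon : ∃ c : ℝ, 0 < c ∧ ∀ (N : ℕ) (Y : Finset (ℤ × (ℤ × ℤ))), 1 ≤ N → Y.Nonempty →
    (∀ y ∈ Y, 1 ≤ y.1) → ∃ (q : ℤ) (r u : ℤ × ℤ), 1 ≤ q ∧
      c * (Y.card / ((q : ℝ) * (1 + sn u)) ^ 6) ≤
        ((Y.filter (fun y => Cell N q r u y)).card : ℝ) := by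
  have hT : 0 ≤ ∑' k, Pig_K k := tsum_nonneg Pig_K_nonneg
  refine ⟨1 / (4 * (∑' k, Pig_K k) + 1), by positivity, fun N Y hN hY hy => ?_⟩
  set B : ℝ := ∑' k, Pig_K k with hB
  by_contra hcon
  push Not at hcon
  have hYc : (0 : ℝ) < (Y.card : ℝ) := by exact_mod_cast hY.card_pos
  have h1 : (Y.card : ℝ) = ∑ k ∈ Y.image (Pig_cell N),
      ((Y.filter (fun y => Cell N k.1 k.2.1 k.2.2 y)).card : ℝ) := by
    rw [Finset.card_eq_sum_card_image (Pig_cell N) Y]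
    push_cast
    apply Finset.sum_congr rfl
    intro k _
    congr 2
    apply Finset.filter_congr
    intro y _
    exact Pig_cell_iff N k y
  have h2 : ∀ k ∈ Y.image (Pig_cell N),
      ((Y.filter (fun y => Cell N k.1 k.2.1 k.2.2 y)).card : ℝ) ≤
        (1 / (4 * B + 1) * Y.card) * (4 * Pig_K k) := by
    intro k hk
    obtain ⟨y, hyY, rfl⟩ := Finset.mem_image.mp hk
    have hq : 1 ≤ y.1 := hy y hyY
    have hlt := hcon y.1 (y.2.1 % y.1, y.2.2 % y.1) (y.2.1 / y.1 / N, y.2.2 / y.1 / N) hq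
    have hle := Pig_le (q := y.1) (r := (y.2.1 % y.1, y.2.2 % y.1))
      (u := (y.2.1 / y.1 / N, y.2.2 / y.1 / N)) hq (Int.emod_nonneg _ (by omega))
      (Int.emod_lt_of_pos _ (by omega)) (Int.emod_nonneg _ (by omega))
      (Int.emod_lt_of_pos _ (by omega))
    refine le_trans (le_of_lt hlt) ?_
    have e : 1 / (4 * B + 1) * ((Y.card : ℝ) /
        ((y.1 : ℝ) * (1 + sn (y.2.1 / y.1 / N, y.2.2 / y.1 / N))) ^ 6) =
        (1 / (4 * B + 1) * Y.card) *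
          (1 / ((y.1 : ℝ) * (1 + sn (y.2.1 / y.1 / N, y.2.2 / y.1 / N))) ^ 6) := by
      ring
    rw [e]
    apply mul_le_mul_of_nonneg_left hle
    positivity
  have h3 : ∑ k ∈ Y.image (Pig_cell N), Pig_K k ≤ B :=
    Pig_K_summable.sum_le_tsum _ (fun k _ => Pig_K_nonneg k)
  have h4 : (Y.card : ℝ) ≤ (1 / (4 * B + 1) * Y.card) * (4 * B) := by
    calc (Y.card : ℝ) = _ := h1
      _ ≤ ∑ k ∈ Y.image (Pig_cell N), (1 / (4 * B + 1) * Y.card) * (4 * Pig_K k) :=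
          Finset.sum_le_sum h2
      _ = (1 / (4 * B + 1) * Y.card) * (4 * ∑ k ∈ Y.image (Pig_cell N), Pig_K k) := by
          rw [Finset.mul_sum, Finset.mul_sum]
      _ ≤ _ := by
          apply mul_le_mul_of_nonneg_left _ (by positivity)
          linarith
  have h5 : (1 / (4 * B + 1) * (Y.card : ℝ)) * (4 * B) < Y.card := by
    have hp : 0 < 4 * B + 1 := by positivity
    have e : (1 / (4 * B + 1) * (Y.card : ℝ)) * (4 * B) = Y.card * (4 * B / (4 * B + 1)) := by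
      ring
    rw [e]
    have : 4 * B / (4 * B + 1) < 1 := by
      rw [div_lt_one hp]; linarith
    nlinarith
  linarith

/-- one coordinate -/
theorem Pig_coord {N : ℕ} {q a u : ℤ} (hN : 1 ≤ N) (hq : 1 ≤ q) (h : a / q / N = u) :
    |a| ≤ q * N * (1 + |u|) ∧ q * N * (|u| - 1) ≤ |a| := by
  have hN' : (1 : ℤ) ≤ (N : ℤ) := by exact_mod_cast hN
  have hqN : 0 < q * (N : ℤ) := by positivity
  have h0 : a / (q * N) = u := by
    rw [← h, Int.ediv_ediv_of_nonneg (by omega)]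
  have h1 : q * N * u ≤ a := by
    rw [← h0]; exact Int.mul_ediv_self_le (by omega)
  have h2 : a < q * N * u + q * N := by
    rw [← h0]; exact Int.lt_mul_ediv_self_add hqN
  constructor
  · rw [abs_le]
    rcases abs_cases u with ⟨e, _⟩ | ⟨e, _⟩ <;> rw [e] <;> constructor <;> nlinarith
  · rcases abs_cases u with ⟨e, hu⟩ | ⟨e, hu⟩ <;> rw [e]
    · have : a ≤ |a| := le_abs_self a
      nlinarith
    · have : -a ≤ |a| := neg_le_abs a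
      nlinarith

/-- the size of the points of a cell -/
theorem Aq_cell {N : ℕ} {q : ℤ} {r u : ℤ × ℤ} {y : ℤ × (ℤ × ℤ)} (hN : 1 ≤ N) (hq : 1 ≤ q)
    (hy : Cell N q r u y) :
    (q : ℝ) * (1 + sn u) ≤ 4 * Aq N q y.2 ∧ Aq N q y.2 ≤ 4 * ((q : ℝ) * (1 + sn u)) := by
  obtain ⟨h0, -, -, h1, h2⟩ := hy
  obtain ⟨a1, b1⟩ := Pig_coord hN hq h1
  obtain ⟨a2, b2⟩ := Pig_coord hN hq h2
  have hN' : (1 : ℤ) ≤ (N : ℤ) := by exact_mod_cast hN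
  have hqN : 0 < q * (N : ℤ) := by positivity
  have s1 : (sn u : ℤ) = max |u.1| |u.2| := by
    unfold sn
    push_cast
    rfl
  have s2 : (sn y.2 : ℤ) = max |y.2.1| |y.2.2| := by
    unfold sn
    push_cast
    rfl
  have c1 : (sn y.2 : ℤ) ≤ q * N * (1 + sn u) := by
    rw [s2, s1]
    apply max_le
    · refine a1.trans ?_
      apply mul_le_mul_of_nonneg_left _ hqN.le
      linarith [le_max_left |u.1| |u.2|]
    · refine a2.trans ?_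
      apply mul_le_mul_of_nonneg_left _ hqN.le
      linarith [le_max_right |u.1| |u.2|]
  have c2 : q * N * ((sn u : ℤ) - 1) ≤ (sn y.2 : ℤ) := by
    rw [s2, s1]
    rcases max_cases |u.1| |u.2| with ⟨e, _⟩ | ⟨e, _⟩ <;> rw [e]
    · exact b1.trans (le_max_left _ _)
    · exact b2.trans (le_max_right _ _)
  have hq' : (1 : ℝ) ≤ (q : ℝ) := by exact_mod_cast hq
  have hNr : (1 : ℝ) ≤ (N : ℝ) := by exact_mod_cast hN
  have hNp : (0 : ℝ) < (N : ℝ) := by linarith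
  have d1 : ((sn y.2 : ℕ) : ℝ) ≤ (q : ℝ) * N * (1 + (sn u : ℕ)) := by exact_mod_cast c1
  have d2 : (q : ℝ) * N * (((sn u : ℕ) : ℝ) - 1) ≤ ((sn y.2 : ℕ) : ℝ) := by exact_mod_cast c2
  have hs : (0 : ℝ) ≤ ((sn u : ℕ) : ℝ) := Nat.cast_nonneg _
  have f1 : ((sn y.2 : ℕ) : ℝ) / N ≤ (q : ℝ) * (1 + (sn u : ℕ)) := by
    rw [div_le_iff₀ hNp]; linarith
  have f2 : (q : ℝ) * (((sn u : ℕ) : ℝ) - 1) ≤ ((sn y.2 : ℕ) : ℝ) / N := by
    rw [le_div_iff₀ hNp]; linarith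
  have f3 : (0 : ℝ) ≤ ((sn y.2 : ℕ) : ℝ) / N := by positivity
  unfold Aq
  have g1 : (0 : ℝ) ≤ (q : ℝ) * (sn u : ℕ) := by positivity
  constructor
  · nlinarith
  · nlinarith

end Pool.Agent.DG
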