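import Pool.Agent.helper41.DG.Geo

/-! # The number of the directions -/

set_option autoImplicit false
open scoped Classical

open Finset

namespace Pool.Agent.DG

/-- separated points of an interval -/
theorem SCount_sep (T : Finset ℝ) (δ L c : ℝ) (hδ : 0 < δ) (hL : 0 ≤ L)
    (hsep : ∀ t ∈ T, ∀ t' ∈ T, t ≠ t' → δ ≤ |t - t'|) (hint : ∀ t ∈ T, c ≤ t ∧ t ≤ c + L) :
    (T.card : ℝ) ≤ 1 + L / δ := by
  have h1 : T.card ≤ (Finset.range (⌊L / δ⌋₊ + 1)).card := by
    refine Finset.card_le_card_of_injOn (fun t => ⌊(t - c) / δ⌋₊) (fun t ht => ?_) ?_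
    · have h2 := hint t ht
      simp only [Finset.coe_range, Set.mem_Iio]
      refine Nat.lt_succ_of_le (Nat.floor_le_floor ?_)
      exact div_le_div_of_nonneg_right (by linarith) hδ.le
    · intro t ht t' ht' h
      by_contra hne
      have h3 := hsep t ht t' ht' hne
      have h4 : 0 ≤ (t - c) / δ := div_nonneg (by linarith [(hint t ht).1]) hδ.le
      have h5 : 0 ≤ (t' - c) / δ := div_nonneg (by linarith [(hint t' ht').1]) hδ.le
      have h6 : ⌊(t - c) / δ⌋₊ = ⌊(t' - c) / δ⌋₊ := h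
      have h7 := Nat.floor_le h4
      have h8 := Nat.lt_floor_add_one ((t - c) / δ)
      have h9 := Nat.floor_le h5
      have h10 := Nat.lt_floor_add_one ((t' - c) / δ)
      rw [h6] at h7 h8
      have h11 : |(t - c) / δ - (t' - c) / δ| < 1 := by rw [abs_lt]; constructor <;> linarith
      rw [← sub_div, show t - c - (t' - c) = t - t' by ring, abs_div, abs_of_pos hδ, div_lt_one hδ] at h11
      linarith
  rw [Finset.card_range] at h1
  have h2 : (T.card : ℝ) ≤ (⌊L / δ⌋₊ : ℝ) + 1 := by exact_mod_cast h1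
  have h3 := Nat.floor_le (div_nonneg hL hδ.le)
  linarith

theorem SCount_det {q : ℤ} {a e e' : ℤ × ℤ} (hl : Low q a)
    (h : q ∣ 2 * (a.1 * e.1 + a.2 * e.2)) (h' : q ∣ 2 * (a.1 * e'.1 + a.2 * e'.2)) :
    q ∣ 2 * (e.1 * e'.2 - e.2 * e'.1) := by
  have h1 : q ∣ a.1 * (2 * (e.1 * e'.2 - e.2 * e'.1)) := by
    have : a.1 * (2 * (e.1 * e'.2 - e.2 * e'.1)) =
      e'.2 * (2 * (a.1 * e.1 + a.2 * e.2)) - e.2 * (2 * (a.1 * e'.1 + a.2 * e'.2)) := by ring
    rw [this]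
    exact dvd_sub (h.mul_left _) (h'.mul_left _)
  have h2 : q ∣ a.2 * (2 * (e.1 * e'.2 - e.2 * e'.1)) := by
    have : a.2 * (2 * (e.1 * e'.2 - e.2 * e'.1)) =
      e.1 * (2 * (a.1 * e'.1 + a.2 * e'.2)) - e'.1 * (2 * (a.1 * e.1 + a.2 * e.2)) := by ring
    rw [this]
    exact dvd_sub (h'.mul_left _) (h.mul_left _)
  have h3 : q ∣ (Int.gcd a.1 a.2 : ℤ) * (2 * (e.1 * e'.2 - e.2 * e'.1)) := by
    rw [Int.gcd_eq_gcd_ab, add_mul]
    refine dvd_add ?_ ?_
    · rw [mul_right_comm]; exact h1.mul_right _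
    · rw [mul_right_comm]; exact h2.mul_right _
  have h4 : IsCoprime q (Int.gcd a.1 a.2 : ℤ) := by
    rw [Int.isCoprime_iff_gcd_eq_one]
    have h5 : ((Int.gcd q (Int.gcd a.1 a.2 : ℤ) : ℕ) : ℤ) ∣ q := Int.gcd_dvd_left _ _
    have h6 : ((Int.gcd q (Int.gcd a.1 a.2 : ℤ) : ℕ) : ℤ) ∣ (Int.gcd a.1 a.2 : ℤ) := Int.gcd_dvd_right _ _
    have h7 := hl.2 _ h5 (h6.trans (Int.gcd_dvd_left _ _)) (h6.trans (Int.gcd_dvd_right _ _))
    rw [Int.isUnit_iff_natAbs_eq] at h7
    simpa using h7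
  exact h4.dvd_of_dvd_mul_left h3

theorem SCount_half {N : ℕ} {q : ℤ} {a : ℤ × ℤ} {E : ℕ} (S : Finset (ℤ × ℤ)) (hN : 1 ≤ N)
    (hl : Low q a) (hE : 1 ≤ E) (hS : ∀ e ∈ S, IsCoprime e.1 e.2 ∧ Sd N q a e ∧ |e.2| ≤ e.1 ∧
      (E : ℤ) ≤ e.1 ∧ e.1 < 2 * E) :
    (S.card : ℝ) ≤ 1 + 80 * ((E : ℝ) ^ 2 / Aq N q a) := by
  have hq : (1 : ℝ) ≤ q := by exact_mod_cast hl.1
  have hNr : (1 : ℝ) ≤ N := by exact_mod_cast hN
  have hEr : (1 : ℝ) ≤ E := by exact_mod_cast hE
  have hsna : (0 : ℝ) ≤ (sn a : ℝ) := Nat.cast_nonneg _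
  have hA : 0 < Aq N q a := by
    unfold Aq
    have : 0 ≤ (sn a : ℝ) / N := by positivity
    linarith
  have hpos : ∀ e ∈ S, (E : ℝ) ≤ (e.1 : ℝ) ∧ (e.1 : ℝ) < 2 * E ∧ |(e.2 : ℝ)| ≤ e.1 := fun e he => by
    obtain ⟨-, -, h3, h4, h5⟩ := hS e he
    refine ⟨by exact_mod_cast h4, by exact_mod_cast h5, by exact_mod_cast h3⟩
  -- separation
  have hsep : ∀ e ∈ S, ∀ e' ∈ S, e.1 * e'.2 - e.2 * e'.1 ≠ 0 →
      (q : ℝ) / (8 * (E : ℝ) ^ 2) ≤ |(e.2 : ℝ) / e.1 - (e'.2 : ℝ) / e'.1| := by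
    intro e he e' he' hne
    have h1 := SCount_det hl (hS e he).2.1.1 (hS e' he').2.1.1
    have h2 : q ≤ |2 * (e.1 * e'.2 - e.2 * e'.1)| :=
      Int.le_of_dvd (abs_pos.2 (mul_ne_zero two_ne_zero hne)) ((dvd_abs _ _).2 h1)
    have h3 : (q : ℝ) ≤ |2 * ((e.1 : ℝ) * e'.2 - e.2 * e'.1)| := by exact_mod_cast h2
    obtain ⟨p1, p2, -⟩ := hpos e he
    obtain ⟨p1', p2', -⟩ := hpos e' he'
    have he1 : (0 : ℝ) < e.1 := by linarith
    have he1' : (0 : ℝ) < e'.1 := by linarith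
    have h4 : (e.2 : ℝ) / e.1 - (e'.2 : ℝ) / e'.1 = -((e.1 : ℝ) * e'.2 - e.2 * e'.1) / (e.1 * e'.1) := by
      field_simp
      ring
    rw [h4, abs_div, abs_neg, abs_of_pos (mul_pos he1 he1'), div_le_div_iff₀ (by positivity) (by positivity)]
    rw [abs_mul, abs_two] at h3
    have h5 : (e.1 : ℝ) * e'.1 ≤ 4 * (E : ℝ) ^ 2 := by nlinarith
    have h6 : 0 ≤ |(e.1 : ℝ) * e'.2 - e.2 * e'.1| := abs_nonneg _
    nlinarith [mul_le_mul h3 h5 (by positivity) (by positivity)]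
  have hinj : Set.InjOn (fun e : ℤ × ℤ => (e.2 : ℝ) / e.1) (S : Set (ℤ × ℤ)) := by
    intro e he e' he' h
    have he := Finset.mem_coe.1 he
    have he' := Finset.mem_coe.1 he'
    have hdet : e.1 * e'.2 - e.2 * e'.1 = 0 := by
      by_contra hne
      have h1 := hsep e he e' he' hne
      have h2 : (e.2 : ℝ) / e.1 - (e'.2 : ℝ) / e'.1 = 0 := sub_eq_zero.2 h
      rw [h2, abs_zero] at h1
      have : 0 < (q : ℝ) / (8 * (E : ℝ) ^ 2) := by positivity
      linarith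
    obtain ⟨c1, -, -, c4, -⟩ := hS e he
    obtain ⟨c1', -, -, c4', -⟩ := hS e' he'
    have hEz : (1 : ℤ) ≤ E := by exact_mod_cast hE
    have d1 : e.1 ∣ e'.1 := by
      refine c1.dvd_of_dvd_mul_left (Dvd.intro e'.2 ?_)
      linarith
    have d2 : e'.1 ∣ e.1 := by
      refine c1'.dvd_of_dvd_mul_left (Dvd.intro e.2 ?_)
      linarith
    have h1 : e.1 = e'.1 := le_antisymm (Int.le_of_dvd (by linarith) d1) (Int.le_of_dvd (by linarith) d2)
    have h2 : e.2 = e'.2 := by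
      rw [← h1] at hdet
      have h3 : e.1 * (e'.2 - e.2) = 0 := by linarith
      have h4 : e.1 ≠ 0 := by linarith
      have := (mul_eq_zero.1 h3).resolve_left h4
      linarith
    exact Prod.ext h1 h2
  have hcount : ∀ L c : ℝ, 0 ≤ L → (∀ e ∈ S, c ≤ (e.2 : ℝ) / e.1 ∧ (e.2 : ℝ) / e.1 ≤ c + L) →
      (S.card : ℝ) ≤ 1 + L * (8 * (E : ℝ) ^ 2) / q := by
    intro L c hL hc
    have h1 := SCount_sep (S.image fun e => (e.2 : ℝ) / e.1) ((q : ℝ) / (8 * (E : ℝ) ^ 2)) L c (by positivity) hL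
      (by
        intro t ht t' ht' hne
        obtain ⟨e, he, rfl⟩ := Finset.mem_image.1 ht
        obtain ⟨e', he', rfl⟩ := Finset.mem_image.1 ht'
        refine hsep e he e' he' fun h => hne ?_
        have h1 := hpos e he
        have h2 := hpos e' he'
        have he1 : (e.1 : ℝ) ≠ 0 := by linarith [h1.1]
        have he1' : (e'.1 : ℝ) ≠ 0 := by linarith [h2.1]
        rw [div_eq_div_iff he1 he1']
        have : ((e.1 * e'.2 - e.2 * e'.1 : ℤ) : ℝ) = 0 := by exact_mod_cast h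
        push_cast at this
        linarith)
      (by
        intro t ht
        obtain ⟨e, he, rfl⟩ := Finset.mem_image.1 ht
        exact hc e he)
    rw [Finset.card_image_of_injOn hinj] at h1
    rwa [div_div_eq_mul_div] at h1
  by_cases hsn : (sn a : ℝ) ≤ 4 * q * N
  · have h1 := hcount 2 (-1) (by norm_num) fun e he => by
      obtain ⟨p1, p2, p3⟩ := hpos e he
      have he1 : (0 : ℝ) < e.1 := by linarith
      have := abs_le.1 p3
      refine ⟨?_, ?_⟩
      · rw [le_div_iff₀ he1]; linarith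
      · rw [div_le_iff₀ he1]; linarith
    have h2 : Aq N q a ≤ 5 * q := by
      unfold Aq
      have : (sn a : ℝ) / N ≤ 4 * q := by
        rw [div_le_iff₀ (by linarith)]; exact hsn
      linarith
    refine h1.trans (add_le_add le_rfl ?_)
    rw [← mul_div_assoc, div_le_div_iff₀ (by linarith) hA]
    nlinarith [mul_le_mul_of_nonneg_left h2 (show (0 : ℝ) ≤ 16 * (E : ℝ) ^ 2 by positivity)]
  · push Not at hsn
    have hsnpos : (0 : ℝ) < sn a := by
      have : (0 : ℝ) < 4 * q * N := by positivity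
      linarith
    have hSd : ∀ e ∈ S, |(a.1 : ℝ) + (e.2 : ℝ) / e.1 * a.2| ≤ 2 * q * N := by
      intro e he
      obtain ⟨-, ⟨-, h2⟩, h3, h4, h5⟩ := hS e he
      obtain ⟨p1, p2, p3⟩ := hpos e he
      have he1 : (0 : ℝ) < e.1 := by linarith
      have h6 : ((sn e : ℕ) : ℤ) = e.1 := by
        unfold sn
        have : 0 ≤ |e.2| := abs_nonneg _
        rw [Int.abs_eq_natAbs] at h3
        omega
      rw [h6] at h2
      have h7 : |(a.1 : ℝ) * e.1 + a.2 * e.2| ≤ 2 * q * N * e.1 := by exact_mod_cast h2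
      have h8 : (a.1 : ℝ) + (e.2 : ℝ) / e.1 * a.2 = ((a.1 : ℝ) * e.1 + a.2 * e.2) / e.1 := by
        field_simp
      rw [h8, abs_div, abs_of_pos he1, div_le_iff₀ he1]
      exact h7
    by_cases ha2 : (sn a : ℝ) ≤ 2 * |(a.2 : ℝ)|
    · have ha2pos : 0 < |(a.2 : ℝ)| := by linarith
      have ha2ne : (a.2 : ℝ) ≠ 0 := abs_pos.1 ha2pos
      set ρ : ℝ := 2 * q * N / |(a.2 : ℝ)| with hρ
      have hρ0 : 0 ≤ ρ := by positivity
      have h1 := hcount (2 * ρ) (-(a.1 : ℝ) / a.2 - ρ) (by positivity) fun e he => by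
        have h2 := hSd e he
        have h3 : |(e.2 : ℝ) / e.1 - (-(a.1 : ℝ) / a.2)| ≤ ρ := by
          have h4 : (e.2 : ℝ) / e.1 - (-(a.1 : ℝ) / a.2) = ((a.1 : ℝ) + (e.2 : ℝ) / e.1 * a.2) / a.2 := by
            rw [eq_div_iff ha2ne, sub_mul, div_mul_cancel₀ _ ha2ne]
            ring
          rw [h4, abs_div, hρ]
          exact div_le_div_of_nonneg_right h2 ha2pos.le
        have := abs_le.1 h3
        constructor <;> linarith
      refine h1.trans (add_le_add le_rfl ?_)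
      have h2 : 2 * ρ * (8 * (E : ℝ) ^ 2) / q = 32 * N * (E : ℝ) ^ 2 / |(a.2 : ℝ)| := by
        rw [hρ]
        field_simp
        ring
      rw [h2, ← mul_div_assoc, div_le_div_iff₀ ha2pos hA]
      have h3 : Aq N q a * N ≤ 5 / 2 * |(a.2 : ℝ)| := by
        unfold Aq
        rw [add_mul, div_mul_cancel₀ _ (by linarith)]
        linarith
      have hE2 : (0 : ℝ) ≤ (E : ℝ) ^ 2 := by positivity
      nlinarith [mul_le_mul_of_nonneg_left h3 hE2]
    · push Not at ha2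
      have hempty : S = ∅ := by
        rw [Finset.eq_empty_iff_forall_notMem]
        intro e he
        obtain ⟨p1, p2, p3⟩ := hpos e he
        have he1 : (0 : ℝ) < e.1 := by linarith
        have h1 := hSd e he
        have h2 : (sn a : ℝ) = |(a.1 : ℝ)| := by
          have h3 : 2 * a.2.natAbs < sn a := by
            have : (2 : ℝ) * (a.2.natAbs : ℝ) < sn a := by
              rw [Nat.cast_natAbs]; push_cast; exact ha2
            exact_mod_cast this
          have h4 : sn a = a.1.natAbs := by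
            unfold sn at h3 ⊢
            omega
          rw [h4, Nat.cast_natAbs]; push_cast; rfl
        have h3 : |(e.2 : ℝ) / e.1 * a.2| ≤ |(a.2 : ℝ)| := by
          rw [abs_mul, abs_div, abs_of_pos he1]
          have : |(e.2 : ℝ)| / e.1 ≤ 1 := (div_le_one he1).2 p3
          nlinarith [abs_nonneg (a.2 : ℝ)]
        have h4 : |(a.1 : ℝ)| ≤ |(a.1 : ℝ) + (e.2 : ℝ) / e.1 * a.2| + |(e.2 : ℝ) / e.1 * a.2| := by
          have := abs_sub ((a.1 : ℝ) + (e.2 : ℝ) / e.1 * a.2) ((e.2 : ℝ) / e.1 * a.2)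
          simpa using this
        linarith
      rw [hempty]
      have : 0 ≤ (E : ℝ) ^ 2 / Aq N q a := by positivity
      simp only [Finset.card_empty, Nat.cast_zero]
      linarith

theorem SCount_map {N : ℕ} {q : ℤ} {a : ℤ × ℤ} {E : ℕ} (S : Finset (ℤ × ℤ)) (hN : 1 ≤ N)
    (hl : Low q a) (hE : 1 ≤ E) (φ : ℤ × ℤ → ℤ × ℤ) (hφ : Function.Injective φ)
    (hS : ∀ e ∈ S, IsCoprime (φ e).1 (φ e).2 ∧ Sd N q a (φ e) ∧ |(φ e).2| ≤ (φ e).1 ∧
      (E : ℤ) ≤ (φ e).1 ∧ (φ e).1 < 2 * E) :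
    (S.card : ℝ) ≤ 1 + 80 * ((E : ℝ) ^ 2 / Aq N q a) := by
  have h := SCount_half (S.image φ) hN hl hE (by
    intro e he
    obtain ⟨e', he', rfl⟩ := Finset.mem_image.1 he
    exact hS e' he')
  rwa [Finset.card_image_of_injective _ hφ] at h

theorem Sd_count : ∃ C : ℝ, 0 < C ∧ ∀ (N : ℕ) (q : ℤ) (a : ℤ × ℤ) (E : ℕ) (S : Finset (ℤ × ℤ)),
    1 ≤ N → Low q a → 1 ≤ E →
    (∀ e ∈ S, IsCoprime e.1 e.2 ∧ Sd N q a e ∧ E ≤ sn e ∧ sn e < 2 * E) →
    (S.card : ℝ) ≤ C * (1 + (E : ℝ) ^ 2 / Aq N q a) := by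
  refine ⟨320, by norm_num, fun N q a E S hN hl hE hS => ?_⟩
  have hAsw : Aq N q (a.2, a.1) = Aq N q a := by
    unfold Aq sn
    rw [max_comm]
  have hlsw : Low q (a.2, a.1) := ⟨hl.1, fun d h1 h2 h3 => hl.2 d h1 h3 h2⟩
  have hsn : ∀ e : ℤ × ℤ, sn (-e.1, -e.2) = sn e ∧ sn (e.2, e.1) = sn e ∧ sn (-e.2, -e.1) = sn e := by
    intro e
    unfold sn
    simp only [Int.natAbs_neg]
    exact ⟨trivial, max_comm _ _, max_comm _ _⟩
  have hX : 0 ≤ (E : ℝ) ^ 2 / Aq N q a := by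
    have hq : (1 : ℝ) ≤ q := by exact_mod_cast hl.1
    unfold Aq
    positivity
  -- the four parts
  have k1 := SCount_map (a := a) (S.filter fun e => |e.2| ≤ e.1) hN hl hE (fun e => e)
    (fun _ _ h => h) (by
      intro e he
      obtain ⟨heS, h1⟩ := Finset.mem_filter.1 he
      obtain ⟨c1, c2, c3, c4⟩ := hS e heS
      have h2 : ((sn e : ℕ) : ℤ) = e.1 := by
        unfold sn
        rw [Int.abs_eq_natAbs] at h1
        omega
      refine ⟨c1, c2, h1, ?_, ?_⟩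
      · rw [← h2]; exact_mod_cast c3
      · rw [← h2]; exact_mod_cast c4)
  have k2 := SCount_map (a := a) (S.filter fun e => |e.2| ≤ -e.1) hN hl hE (fun e => (-e.1, -e.2))
    (fun x y h => by simpa [Prod.ext_iff] using h) (by
      intro e he
      obtain ⟨heS, h1⟩ := Finset.mem_filter.1 he
      obtain ⟨c1, c2, c3, c4⟩ := hS e heS
      have h2 : ((sn e : ℕ) : ℤ) = -e.1 := by
        unfold sn
        rw [Int.abs_eq_natAbs] at h1
        omega
      refine ⟨c1.neg_neg, ⟨?_, ?_⟩, by simpa using h1, ?_, ?_⟩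
      · show q ∣ 2 * (a.1 * -e.1 + a.2 * -e.2)
        rw [show 2 * (a.1 * -e.1 + a.2 * -e.2) = -(2 * (a.1 * e.1 + a.2 * e.2)) by ring]
        exact c2.1.neg_right
      · have h3 := c2.2
        rw [(hsn e).1, show a.1 * -e.1 + a.2 * -e.2 = -(a.1 * e.1 + a.2 * e.2) by ring, abs_neg]
        exact h3
      · show (E : ℤ) ≤ -e.1
        rw [← h2]; exact_mod_cast c3
      · show -e.1 < 2 * (E : ℤ)
        rw [← h2]; exact_mod_cast c4)
  have k3 := SCount_map (a := (a.2, a.1)) (S.filter fun e => |e.1| ≤ e.2) hN hlsw hE (fun e => (e.2, e.1))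
    (fun x y h => by
      have h1 := Prod.ext_iff.1 h
      exact Prod.ext h1.2 h1.1) (by
      intro e he
      obtain ⟨heS, h1⟩ := Finset.mem_filter.1 he
      obtain ⟨c1, c2, c3, c4⟩ := hS e heS
      have h2 : ((sn e : ℕ) : ℤ) = e.2 := by
        unfold sn
        rw [Int.abs_eq_natAbs] at h1
        omega
      refine ⟨c1.symm, ⟨?_, ?_⟩, h1, ?_, ?_⟩
      · have := c2.1
        rwa [add_comm] at this
      · have h3 := c2.2
        rw [(hsn e).2.1]
        rwa [add_comm] at h3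
      · show (E : ℤ) ≤ e.2
        rw [← h2]; exact_mod_cast c3
      · show e.2 < 2 * (E : ℤ)
        rw [← h2]; exact_mod_cast c4)
  have k4 := SCount_map (a := (a.2, a.1)) (S.filter fun e => |e.1| ≤ -e.2) hN hlsw hE (fun e => (-e.2, -e.1))
    (fun x y h => by
      have h1 := Prod.ext_iff.1 h
      exact Prod.ext (neg_injective h1.2) (neg_injective h1.1)) (by
      intro e he
      obtain ⟨heS, h1⟩ := Finset.mem_filter.1 he
      obtain ⟨c1, c2, c3, c4⟩ := hS e heS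
      have h2 : ((sn e : ℕ) : ℤ) = -e.2 := by
        unfold sn
        rw [Int.abs_eq_natAbs] at h1
        omega
      refine ⟨c1.symm.neg_neg, ⟨?_, ?_⟩, by simpa using h1, ?_, ?_⟩
      · show q ∣ 2 * (a.2 * -e.2 + a.1 * -e.1)
        rw [show 2 * (a.2 * -e.2 + a.1 * -e.1) = -(2 * (a.1 * e.1 + a.2 * e.2)) by ring]
        exact c2.1.neg_right
      · have h3 := c2.2
        rw [(hsn e).2.2, show a.2 * -e.2 + a.1 * -e.1 = -(a.1 * e.1 + a.2 * e.2) by ring, abs_neg]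
        exact h3
      · show (E : ℤ) ≤ -e.2
        rw [← h2]; exact_mod_cast c3
      · show -e.2 < 2 * (E : ℤ)
        rw [← h2]; exact_mod_cast c4)
  rw [hAsw] at k3 k4
  have hsub : S ⊆ ((S.filter fun e => |e.2| ≤ e.1) ∪ (S.filter fun e => |e.2| ≤ -e.1)) ∪
      ((S.filter fun e => |e.1| ≤ e.2) ∪ (S.filter fun e => |e.1| ≤ -e.2)) := by
    intro e he
    simp only [Finset.mem_union, Finset.mem_filter, he, true_and]
    rcases le_total |e.2| |e.1| with h | h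
    · left
      rcases abs_cases e.1 with h1 | h1
      · left; rw [← h1.1]; exact h
      · right; rw [← h1.1]; exact h
    · right
      rcases abs_cases e.2 with h1 | h1
      · left; rw [← h1.1]; exact h
      · right; rw [← h1.1]; exact h
  have hcard := (Finset.card_le_card hsub).trans (Finset.card_union_le _ _)
  have hc1 := Finset.card_union_le (S.filter fun e => |e.2| ≤ e.1) (S.filter fun e => |e.2| ≤ -e.1)
  have hc2 := Finset.card_union_le (S.filter fun e => |e.1| ≤ e.2) (S.filter fun e => |e.1| ≤ -e.2)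
  have hfin : (S.card : ℝ) ≤ ((S.filter fun e => |e.2| ≤ e.1).card : ℝ) +
      (S.filter fun e => |e.2| ≤ -e.1).card + ((S.filter fun e => |e.1| ≤ e.2).card +
        (S.filter fun e => |e.1| ≤ -e.2).card) := by
    have : S.card ≤ (S.filter fun e => |e.2| ≤ e.1).card + (S.filter fun e => |e.2| ≤ -e.1).card +
      ((S.filter fun e => |e.1| ≤ e.2).card + (S.filter fun e => |e.1| ≤ -e.2).card) := by omega
    exact_mod_cast this
  linarith

end Pool.Agent.DG
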