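import Pool.Agent.helper41.DG.SCover

/-! # The sieve for the directions -/

set_option autoImplicit false
open scoped Classical

open Finset

namespace Pool.Agent.DG

theorem SSieve_nonneg (I : Finset ℕ) (q r v : ℤ × ℤ) :
    0 ≤ ∏ p ∈ I, (1 - kp p * nb2 q r p v) := by
  refine prod_nonneg fun p _ => ?_
  have h1 : kp p ≤ 3 / 4 := by
    unfold kp
    have : (0 : ℝ) ≤ 1 / (2 * (p : ℝ)) := by positivity
    linarith
  unfold nb2
  split_ifs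
  · linarith
  · linarith

theorem SSieve_Gw (I : Finset ℕ) (q : ℤ) (r v : ℤ × ℤ) :
    Gw I (nsq (q * v.1 + r.1, q * v.2 + r.2)) = ∏ p ∈ I, (1 - kp p * nb2 (q, q) r p v) := by
  unfold Gw
  refine prod_congr rfl fun p _ => ?_
  unfold nb2 nsq
  have h : (p : ℤ) ∣ (q * v.1 + r.1) ^ 2 + (q * v.2 + r.2) ^ 2 ↔
      p ∣ ((q * v.1 + r.1) ^ 2 + (q * v.2 + r.2) ^ 2).natAbs := Int.natCast_dvd
  by_cases hp : p ∣ ((q * v.1 + r.1) ^ 2 + (q * v.2 + r.2) ^ 2).natAbs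
  · rw [if_pos hp, if_pos (h.mpr hp)]; ring
  · rw [if_neg hp, if_neg (fun h' => hp (h.mp h'))]; ring

theorem SSieve_coord (q l : ℕ) (hq : 1 ≤ q) (x u : ℤ) (h1 : u ≤ x) (h2 : x < u + l) :
    ∃ r i : ℕ, r < q ∧ i < l / q + 2 ∧ (r : ℤ) = x % q ∧ x = q * ((u - r) / q + i) + r := by
  have hq' : (0 : ℤ) < q := by exact_mod_cast hq
  have hr0 : 0 ≤ x % q := Int.emod_nonneg _ hq'.ne'
  have hr1 : x % q < q := Int.emod_lt_of_pos _ hq'
  obtain ⟨r, hr⟩ := Int.eq_ofNat_of_zero_le hr0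
  have hx : x = q * (x / q) + r := by
    have := Int.mul_ediv_add_emod x q
    omega
  have hle : (u - r) / q ≤ x / q := by
    have h3 : u - r ≤ q * (x / q) := by omega
    have h4 : (u - r) / q ≤ (q * (x / q)) / q := Int.ediv_le_ediv hq' h3
    rwa [Int.mul_ediv_cancel_left _ hq'.ne'] at h4
  obtain ⟨i, hi⟩ := Int.eq_ofNat_of_zero_le (sub_nonneg.mpr hle)
  refine ⟨r, i, ?_, ?_, hr.symm, ?_⟩
  · rw [hr] at hr1; exact_mod_cast hr1
  · have h5 : u - r < q * ((u - r) / q + 1) := by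
      have := Int.lt_mul_ediv_self_add (x := u - r) hq'
      linarith [this]
    have h6 : (l : ℤ) < q * (((l / q : ℕ) : ℤ) + 1) := by
      have := Nat.lt_mul_div_succ l hq
      exact_mod_cast this
    have h7 : (q : ℤ) * (x / q) < q * ((u - r) / q + 1 + (((l / q : ℕ) : ℤ) + 1)) := by
      have : (q : ℤ) * ((u - r) / q + 1 + (((l / q : ℕ) : ℤ) + 1)) =
        q * ((u - r) / q + 1) + q * (((l / q : ℕ) : ℤ) + 1) := by ring
      rw [this]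
      omega
    have h8 : x / q < (u - r) / q + 1 + (((l / q : ℕ) : ℤ) + 1) := lt_of_mul_lt_mul_left h7 hq'.le
    have h9 : (i : ℤ) < ((l / q : ℕ) : ℤ) + 2 := by omega
    exact_mod_cast h9
  · have : (u - r) / q + (i : ℤ) = x / q := by omega
    rw [this]; exact hx

theorem Sd_sieve : ∃ C C1 : ℝ, 0 < C ∧ 10 ≤ C1 ∧ ∀ (N : ℕ) (w : ℝ) (q : ℤ) (a : ℤ × ℤ) (E : ℕ)
    (S : Finset (ℤ × ℤ)), 2 ≤ N → C1 ≤ w → w ≤ N → Low q a → (q : ℝ) ≤ w → 1 ≤ E → E ≤ N →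
    Aq N q a ≤ E → (∀ e ∈ S, Sd N q a e ∧ E ≤ sn e ∧ sn e < 2 * E) →
    ∑ e ∈ S, Gw (IN N w) (nsq e) ≤ C * ((E : ℝ) ^ 2 / Aq N q a) *
      (Real.log w / (1 + Real.log (E / Aq N q a))) ^ (3 / 4 : ℝ) := by
  obtain ⟨C0, hcov⟩ := strip_cover
  obtain ⟨Cs, C1, hCs, hC1, hs⟩ := sieve_outer
  refine ⟨32 * (C0 + 1) * Cs, C1, by positivity, hC1, ?_⟩
  intro N w q0 a E S hN hw hwN hL hqw hE hEN hAE hS
  obtain ⟨q, rfl⟩ : ∃ q : ℕ, q0 = q :=
    ⟨q0.toNat, (Int.toNat_of_nonneg (by have := hL.1; omega)).symm⟩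
  have hq1 : 1 ≤ q := by exact_mod_cast hL.1
  have hqR : (1 : ℝ) ≤ q := by exact_mod_cast hq1
  have hER : (1 : ℝ) ≤ E := by exact_mod_cast hE
  set A : ℝ := Aq N q a with hA
  have hqA : (q : ℝ) ≤ A := by
    rw [hA]; unfold Aq
    have : (0 : ℝ) ≤ (sn a : ℝ) / (N : ℝ) := by positivity
    push_cast; linarith
  have hA1 : 1 ≤ A := hqR.trans hqA
  have hA0 : 0 < A := by linarith
  have hEA : 1 ≤ (E : ℝ) / A := by rw [le_div_iff₀ hA0]; linarith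
  set l : ℕ := ⌈(q : ℝ) * E / A⌉₊ with hl
  have hqE : 0 < (q : ℝ) * E / A := by positivity
  have hl1 : 1 ≤ l := Nat.ceil_pos.mpr hqE
  have hl2 : (q : ℝ) * E ≤ l * A := by
    have := Nat.le_ceil ((q : ℝ) * E / A)
    rwa [div_le_iff₀ hA0] at this
  have hl3 : (l : ℝ) * A ≤ 2 * (q * E) := by
    have h1 := (Nat.ceil_lt_add_one hqE.le).le
    have h2 : (l : ℝ) * A ≤ ((q : ℝ) * E / A + 1) * A := mul_le_mul_of_nonneg_right h1 hA0.le
    have h3 : ((q : ℝ) * E / A + 1) * A = q * E + A := by field_simp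
    have h4 : (E : ℝ) ≤ q * E := by nlinarith
    linarith
  obtain ⟨U, hUc, hU⟩ := hcov N q a E (by omega) (by exact_mod_cast hq1) hE l hl1
    (by push_cast; exact hl2) (by push_cast; exact hl3)
  have hR := class_count q a hL
  set R : Finset (ℕ × ℕ) := ((range q) ×ˢ (range q)).filter
      (fun e => (q : ℤ) ∣ 2 * (a.1 * (e.1 : ℤ) + a.2 * (e.2 : ℤ))) with hRdef
  set M : ℕ := l / q + 2 with hM
  have hMle : (M : ℝ) ≤ 4 * (E / A) := by
    have h1 : ((l / q : ℕ) : ℝ) ≤ (l : ℝ) / q := Nat.cast_div_le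
    have h2 : (l : ℝ) / q ≤ 2 * (E / A) := by
      rw [div_le_iff₀ (by linarith)]
      have h3 : (l : ℝ) ≤ 2 * (q * E) / A := by rw [le_div_iff₀ hA0]; exact hl3
      calc (l : ℝ) ≤ 2 * (q * E) / A := h3
        _ = 2 * (E / A) * q := by ring
    rw [hM]; push_cast; linarith
  have hMge : (E : ℝ) / A ≤ M := by
    have h1 : (l : ℝ) < q * ((l / q : ℕ) + 1) := by exact_mod_cast Nat.lt_mul_div_succ l hq1
    have h2 : (E : ℝ) / A ≤ (l : ℝ) / q := by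
      rw [div_le_div_iff₀ hA0 (by linarith)]
      linarith
    have h3 : (l : ℝ) / q ≤ ((l / q : ℕ) : ℝ) + 1 := by
      rw [div_le_iff₀ (by linarith)]; linarith
    rw [hM]; push_cast; linarith
  have hM1 : 1 ≤ M := by
    rw [hM]
    exact le_trans (by norm_num : 1 ≤ 2) (Nat.le_add_left 2 (l / q))
  have hN10 : (10 : ℝ) ≤ N := by linarith
  have hMN : M ≤ N ^ 2 := by
    have h1 : (M : ℝ) ≤ (N : ℝ) ^ 2 := by
      have h2 : (E : ℝ) / A ≤ N := by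
        rw [div_le_iff₀ hA0]
        have : (E : ℝ) ≤ N := by exact_mod_cast hEN
        nlinarith
      nlinarith
    exact_mod_cast h1
  have hdiv : ∀ p ∈ IN N w, ¬ (p : ℤ) ∣ ((q : ℤ), (q : ℤ)).1 ∧ ¬ (p : ℤ) ∣ ((q : ℤ), (q : ℤ)).2 := by
    intro p hp
    have hpw : w < (p : ℝ) := by
      have : p ∈ I4 w ((N : ℝ) ^ (1 / 30 : ℝ)) := hp
      exact (mem_I4.mp this).2.2.1
    have hn : ¬ (p : ℤ) ∣ (q : ℤ) := by
      intro h
      have h1 : p ∣ q := by exact_mod_cast h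
      have h2 : p ≤ q := Nat.le_of_dvd hq1 h1
      have h3 : (p : ℝ) ≤ q := by exact_mod_cast h2
      have h4 : ((q : ℤ) : ℝ) = (q : ℝ) := by push_cast; rfl
      rw [h4] at hqw
      linarith
    exact ⟨hn, hn⟩
  -- the index set
  set T : Finset ((ℤ × ℤ) × ((ℕ × ℕ) × (ℕ × ℕ))) := U ×ˢ (R ×ˢ (range M ×ˢ range M)) with hT
  set V : (ℤ × ℤ) × ((ℕ × ℕ) × (ℕ × ℕ)) → ℤ × ℤ := fun t =>
    ((t.1.1 - (t.2.1.1 : ℤ)) / q + (t.2.2.1 : ℤ), (t.1.2 - (t.2.1.2 : ℤ)) / q + (t.2.2.2 : ℤ)) with hV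
  set F : (ℤ × ℤ) × ((ℕ × ℕ) × (ℕ × ℕ)) → ℤ × ℤ := fun t =>
    ((q : ℤ) * (V t).1 + (t.2.1.1 : ℤ), (q : ℤ) * (V t).2 + (t.2.1.2 : ℤ)) with hF
  have hcover : ∀ e ∈ S, ∃ t ∈ T, F t = e := by
    intro e he
    obtain ⟨hSd, hE1, hE2⟩ := hS e he
    obtain ⟨u, huU, hu1, hu2, hu3, hu4⟩ := hU e hSd hE1 hE2
    obtain ⟨r1, i1, hr1, hi1, hrx1, hx1⟩ := SSieve_coord q l hq1 e.1 u.1 hu1 hu2
    obtain ⟨r2, i2, hr2, hi2, hrx2, hx2⟩ := SSieve_coord q l hq1 e.2 u.2 hu3 hu4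
    refine ⟨(u, ((r1, r2), (i1, i2))), ?_, ?_⟩
    · rw [hT, mem_product, mem_product, mem_product, mem_range, mem_range]
      refine ⟨huU, ?_, hi1, hi2⟩
      rw [hRdef, mem_filter, mem_product, mem_range, mem_range]
      refine ⟨⟨hr1, hr2⟩, ?_⟩
      obtain ⟨c, hc⟩ := hSd.1
      refine ⟨c - 2 * (a.1 * ((u.1 - r1) / q + i1) + a.2 * ((u.2 - r2) / q + i2)), ?_⟩
      have e1 : (r1 : ℤ) = e.1 - q * ((u.1 - r1) / q + i1) := by linarith
      have e2 : (r2 : ℤ) = e.2 - q * ((u.2 - r2) / q + i2) := by linarith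
      have hh : 2 * (a.1 * (r1 : ℤ) + a.2 * (r2 : ℤ)) = 2 * (a.1 * e.1 + a.2 * e.2) -
          2 * (a.1 * (e.1 - r1) + a.2 * (e.2 - r2)) := by ring
      have k1 : e.1 - (r1 : ℤ) = q * ((u.1 - r1) / q + i1) := by linarith
      have k2 : e.2 - (r2 : ℤ) = q * ((u.2 - r2) / q + i2) := by linarith
      show 2 * (a.1 * (r1 : ℤ) + a.2 * (r2 : ℤ)) = _
      rw [hh, hc, k1, k2]
      ring
    · rw [hF, hV]
      exact Prod.ext hx1.symm hx2.symm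
  choose! τ hτT hτF using hcover
  have hinj : Set.InjOn τ (S : Set (ℤ × ℤ)) := by
    intro x hx y hy hxy
    have h1 := hτF x hx
    have h2 := hτF y hy
    rw [← h1, ← h2, hxy]
  set G : ℤ × ℤ → ℝ := fun e => Gw (IN N w) (nsq e) with hG
  have hGF : ∀ t, G (F t) = ∏ p ∈ IN N w, (1 - kp p * nb2 ((q : ℤ), (q : ℤ))
      ((t.2.1.1 : ℤ), (t.2.1.2 : ℤ)) p (V t)) := by
    intro t
    exact SSieve_Gw (IN N w) q ((t.2.1.1 : ℤ), (t.2.1.2 : ℤ)) (V t)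
  have hGnn : ∀ t, 0 ≤ G (F t) := fun t => by rw [hGF]; exact SSieve_nonneg _ _ _ _
  set W' : ℝ := (Real.log w / (1 + Real.log M)) ^ (3 / 4 : ℝ) with hW'
  set W : ℝ := (Real.log w / (1 + Real.log (E / A))) ^ (3 / 4 : ℝ) with hW
  have step1 : ∑ e ∈ S, G e ≤ ∑ t ∈ T, G (F t) := by
    calc ∑ e ∈ S, G e = ∑ e ∈ S, G (F (τ e)) :=
          sum_congr rfl (fun e he => by rw [hτF e he])
      _ = ∑ t ∈ S.image τ, G (F t) := (sum_image (f := fun t => G (F t)) hinj).symm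
      _ ≤ ∑ t ∈ T, G (F t) := by
          refine sum_le_sum_of_subset_of_nonneg ?_ (fun t _ _ => hGnn t)
          intro t ht
          obtain ⟨e, he, rfl⟩ := mem_image.mp ht
          exact hτT e he
  have step2 : ∑ t ∈ T, G (F t) ≤ (U.card : ℝ) * ((R.card : ℝ) * (Cs * (M : ℝ) ^ 2 * W')) := by
    rw [hT, sum_product]
    have hin : ∀ u ∈ U, ∑ x ∈ R ×ˢ (range M ×ˢ range M), G (F (u, x)) ≤
        (R.card : ℝ) * (Cs * (M : ℝ) ^ 2 * W') := by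
      intro u _
      rw [sum_product]
      have hin2 : ∀ r ∈ R, ∑ x ∈ range M ×ˢ range M, G (F (u, (r, x))) ≤
          Cs * (M : ℝ) ^ 2 * W' := by
        intro r _
        rw [sum_product]
        have h := hs N M w ((q : ℤ), (q : ℤ)) ((r.1 : ℤ), (r.2 : ℤ))
          ((u.1 - (r.1 : ℤ)) / q, (u.2 - (r.2 : ℤ)) / q) hN hw hwN hM1 hMN hdiv
        refine le_trans (le_of_eq ?_) h
        refine sum_congr rfl fun i _ => sum_congr rfl fun j _ => ?_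
        rw [hGF]
      calc ∑ r ∈ R, ∑ x ∈ range M ×ˢ range M, G (F (u, (r, x)))
          ≤ ∑ _r ∈ R, Cs * (M : ℝ) ^ 2 * W' := sum_le_sum hin2
        _ = (R.card : ℝ) * (Cs * (M : ℝ) ^ 2 * W') := by rw [sum_const, nsmul_eq_mul]
    calc ∑ u ∈ U, ∑ x ∈ R ×ˢ (range M ×ˢ range M), G (F (u, x))
        ≤ ∑ _u ∈ U, (R.card : ℝ) * (Cs * (M : ℝ) ^ 2 * W') := sum_le_sum hin
      _ = (U.card : ℝ) * ((R.card : ℝ) * (Cs * (M : ℝ) ^ 2 * W')) := by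
          rw [sum_const, nsmul_eq_mul]
  have hlogw : 0 ≤ Real.log w := Real.log_nonneg (by linarith)
  have hlogEA : 0 ≤ Real.log (E / A) := Real.log_nonneg hEA
  have hlogM : Real.log (E / A) ≤ Real.log M := Real.log_le_log (by linarith) hMge
  have hWW : W' ≤ W := by
    rw [hW', hW]
    apply Real.rpow_le_rpow
    · positivity
    · apply div_le_div_of_nonneg_left hlogw (by linarith) (by linarith)
    · norm_num
  have hW0 : 0 ≤ W' := by rw [hW']; positivity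
  have hWnn : 0 ≤ W := hW0.trans hWW
  have hM2 : (M : ℝ) ^ 2 ≤ 16 * (E / A) ^ 2 := by
    have h0 : (0 : ℝ) ≤ M := Nat.cast_nonneg _
    nlinarith
  have hUc' : (U.card : ℝ) ≤ (C0 : ℝ) * (A / q) := by
    have := hUc
    push_cast at this
    exact this
  have hRc : (R.card : ℝ) ≤ 2 * q := by exact_mod_cast hR
  have hC0 : (0 : ℝ) ≤ C0 := Nat.cast_nonneg _
  have step3 : (U.card : ℝ) * ((R.card : ℝ) * (Cs * (M : ℝ) ^ 2 * W')) ≤
      ((C0 : ℝ) * (A / q)) * ((2 * q) * (Cs * (16 * (E / A) ^ 2) * W)) := by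
    have hin1 : Cs * (M : ℝ) ^ 2 * W' ≤ Cs * (16 * (E / A) ^ 2) * W := by
      apply mul_le_mul _ hWW hW0 (by positivity)
      exact mul_le_mul_of_nonneg_left hM2 hCs.le
    have hin0 : 0 ≤ Cs * (M : ℝ) ^ 2 * W' := by positivity
    apply mul_le_mul hUc' _ (by positivity) (by positivity)
    exact mul_le_mul hRc hin1 hin0 (by positivity)
  have step4 : ((C0 : ℝ) * (A / q)) * ((2 * q) * (Cs * (16 * (E / A) ^ 2) * W)) =
      32 * C0 * Cs * ((E : ℝ) ^ 2 / A) * W := by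
    have hq0 : (q : ℝ) ≠ 0 := by positivity
    field_simp
    ring
  have step5 : 32 * (C0 : ℝ) * Cs * ((E : ℝ) ^ 2 / A) * W ≤
      32 * ((C0 : ℝ) + 1) * Cs * ((E : ℝ) ^ 2 / A) * W := by
    apply mul_le_mul_of_nonneg_right _ hWnn
    apply mul_le_mul_of_nonneg_right _ (by positivity)
    apply mul_le_mul_of_nonneg_right _ hCs.le
    linarith
  calc ∑ e ∈ S, Gw (IN N w) (nsq e) ≤ ∑ t ∈ T, G (F t) := step1
    _ ≤ (U.card : ℝ) * ((R.card : ℝ) * (Cs * (M : ℝ) ^ 2 * W')) := step2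
    _ ≤ ((C0 : ℝ) * (A / q)) * ((2 * q) * (Cs * (16 * (E / A) ^ 2) * W)) := step3
    _ = 32 * C0 * Cs * ((E : ℝ) ^ 2 / A) * W := step4
    _ ≤ 32 * ((C0 : ℝ) + 1) * Cs * ((E : ℝ) ^ 2 / A) * W := step5

end Pool.Agent.DG
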