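import Pool.Agent.helper41.DG.SCount
import Pool.Agent.helper41.DG.SSieve

/-! # The sum over the directions -/

set_option autoImplicit false
open scoped Classical

open Finset

namespace Pool.Agent.DG

theorem SSum_log2_ge : (1 / 2 : ℝ) ≤ Real.log 2 := by
  have := Real.log_two_gt_d9
  linarith

/-- one term of the dyadic sum, by telescoping -/
theorem SSum_tele (i : ℕ) : (1 / (1 + Real.log (2 ^ i)) ) ^ (3 / 4 : ℝ) ≤
    8 * (((i : ℝ) + 1) ^ (1 / 4 : ℝ) - (i : ℝ) ^ (1 / 4 : ℝ)) := by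
  have hi : (0 : ℝ) ≤ i := Nat.cast_nonneg i
  have h1 : Real.log (2 ^ i) = i * Real.log 2 := by
    rw [Real.log_pow]
  have hl := SSum_log2_ge
  have h2 : ((i : ℝ) + 1) / 2 ≤ 1 + Real.log (2 ^ i) := by
    rw [h1]
    nlinarith
  have hpos : (0 : ℝ) < (i : ℝ) + 1 := by linarith
  have h3 : 1 / (1 + Real.log (2 ^ i)) ≤ 2 / ((i : ℝ) + 1) := by
    rw [div_le_div_iff₀ (by linarith) hpos]
    linarith
  have h0 : 0 ≤ 1 / (1 + Real.log (2 ^ i)) := by
    apply div_nonneg zero_le_one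
    linarith
  set x : ℝ := ((i : ℝ) + 1) ^ (1 / 4 : ℝ) with hx
  set y : ℝ := (i : ℝ) ^ (1 / 4 : ℝ) with hy
  have hx0 : 0 < x := Real.rpow_pos_of_pos hpos _
  have hy0 : 0 ≤ y := Real.rpow_nonneg hi _
  have hyx : y ≤ x := Real.rpow_le_rpow hi (by linarith) (by norm_num)
  have hx4 : x ^ 4 = (i : ℝ) + 1 := by
    rw [hx, ← Real.rpow_natCast, ← Real.rpow_mul hpos.le]
    norm_num
  have hy4 : y ^ 4 = (i : ℝ) := by
    rw [hy, ← Real.rpow_natCast, ← Real.rpow_mul hi]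
    norm_num
  have h4 : (1 : ℝ) ≤ 4 * x ^ 3 * (x - y) := by
    have e1 : (x - y) * (x ^ 3 + x ^ 2 * y + x * y ^ 2 + y ^ 3) = 1 := by
      have : (x - y) * (x ^ 3 + x ^ 2 * y + x * y ^ 2 + y ^ 3) = x ^ 4 - y ^ 4 := by ring
      rw [this, hx4, hy4]
      ring
    have e2 : x ^ 3 + x ^ 2 * y + x * y ^ 2 + y ^ 3 ≤ 4 * x ^ 3 := by
      have a1 : x ^ 2 * y ≤ x ^ 3 := by
        have : x ^ 2 * y ≤ x ^ 2 * x := mul_le_mul_of_nonneg_left hyx (by positivity)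
        nlinarith
      have a2 : x * y ^ 2 ≤ x ^ 3 := by
        have : y ^ 2 ≤ x ^ 2 := by nlinarith
        have := mul_le_mul_of_nonneg_left this hx0.le
        nlinarith
      have a3 : y ^ 3 ≤ x ^ 3 := pow_le_pow_left₀ hy0 hyx 3
      linarith
    have e3 := mul_le_mul_of_nonneg_left e2 (sub_nonneg.mpr hyx)
    linarith
  have h5 : (2 / ((i : ℝ) + 1)) ^ (3 / 4 : ℝ) ≤ 2 * (1 / x ^ 3) := by
    rw [Real.div_rpow (by norm_num) hpos.le]
    have e1 : ((i : ℝ) + 1) ^ (3 / 4 : ℝ) = x ^ 3 := by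
      rw [hx, ← Real.rpow_natCast, ← Real.rpow_mul hpos.le]
      norm_num
    have e2 : (2 : ℝ) ^ (3 / 4 : ℝ) ≤ 2 := by
      calc (2 : ℝ) ^ (3 / 4 : ℝ) ≤ (2 : ℝ) ^ (1 : ℝ) :=
            Real.rpow_le_rpow_of_exponent_le (by norm_num) (by norm_num)
        _ = 2 := Real.rpow_one 2
    rw [e1, div_eq_mul_one_div]
    exact mul_le_mul_of_nonneg_right e2 (by positivity)
  have h6 : 1 / x ^ 3 ≤ 4 * (x - y) := by
    rw [div_le_iff₀ (by positivity)]
    linarith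
  calc (1 / (1 + Real.log (2 ^ i)) ) ^ (3 / 4 : ℝ) ≤ (2 / ((i : ℝ) + 1)) ^ (3 / 4 : ℝ) :=
        Real.rpow_le_rpow h0 h3 (by norm_num)
    _ ≤ 2 * (1 / x ^ 3) := h5
    _ ≤ 8 * (x - y) := by linarith

theorem SSum_tele_sum (n : ℕ) :
    ∑ i ∈ range n, (1 / (1 + Real.log (2 ^ i)) ) ^ (3 / 4 : ℝ) ≤ 8 * (n : ℝ) ^ (1 / 4 : ℝ) := by
  induction n with
  | zero =>
      simp
  | succ n ih =>
      rw [sum_range_succ]
      have := SSum_tele n
      push_cast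
      linarith

/-- the dyadic sum of the savings -/
theorem dyadic_sum : ∃ C : ℝ, 0 < C ∧ ∀ N : ℕ, 2 ≤ N →
    ∑ i ∈ range (Nat.log 2 N + 1), (1 / (1 + Real.log (2 ^ i)) ) ^ (3 / 4 : ℝ) ≤
      C * (Real.log N) ^ (1 / 4 : ℝ) := by
  refine ⟨32, by norm_num, ?_⟩
  intro N hN
  refine (SSum_tele_sum _).trans ?_
  have hL : 1 ≤ Nat.log 2 N := by
    have := Nat.log_pos (b := 2) (by norm_num) hN
    omega
  have h1 : (2 : ℝ) ^ (Nat.log 2 N) ≤ N := by
    exact_mod_cast Nat.pow_log_le_self 2 (by omega : N ≠ 0)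
  have h2 : (Nat.log 2 N : ℝ) * Real.log 2 ≤ Real.log N := by
    have := Real.log_le_log (by positivity) h1
    rwa [Real.log_pow] at this
  have hl := SSum_log2_ge
  have hL' : (1 : ℝ) ≤ (Nat.log 2 N : ℝ) := by exact_mod_cast hL
  have h3 : ((Nat.log 2 N + 1 : ℕ) : ℝ) ≤ 4 * Real.log N := by
    push_cast
    nlinarith
  have hlog : 0 ≤ Real.log N := by
    apply Real.log_nonneg
    have : (2 : ℝ) ≤ N := by exact_mod_cast hN
    linarith
  have h4 : ((Nat.log 2 N + 1 : ℕ) : ℝ) ^ (1 / 4 : ℝ) ≤ (4 * Real.log N) ^ (1 / 4 : ℝ) :=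
    Real.rpow_le_rpow (Nat.cast_nonneg _) h3 (by norm_num)
  have h5 : (4 : ℝ) ^ (1 / 4 : ℝ) ≤ 4 := by
    calc (4 : ℝ) ^ (1 / 4 : ℝ) ≤ (4 : ℝ) ^ (1 : ℝ) :=
          Real.rpow_le_rpow_of_exponent_le (by norm_num) (by norm_num)
      _ = 4 := Real.rpow_one 4
  rw [Real.mul_rpow (by norm_num) hlog] at h4
  have h6 := mul_le_mul_of_nonneg_right h5 (Real.rpow_nonneg hlog (1 / 4 : ℝ))
  linarith

theorem SSum_kp (p : ℕ) : 1 / 4 ≤ kp p ∧ kp p ≤ 3 / 4 := by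
  unfold kp
  rcases Nat.eq_zero_or_pos p with h | h
  · subst h
    norm_num
  · have hp : (1 : ℝ) ≤ p := by exact_mod_cast h
    have h1 : 0 ≤ 1 / (2 * (p : ℝ)) := by positivity
    have h2 : 1 / (2 * (p : ℝ)) ≤ 1 / 2 := by
      apply div_le_div_of_nonneg_left <;> linarith
    constructor <;> linarith

theorem SSum_Gw_nonneg (I : Finset ℕ) (m : ℕ) : 0 ≤ Gw I m := by
  unfold Gw
  apply prod_nonneg
  intro p _
  have := SSum_kp p
  split_ifs <;> linarith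

theorem SSum_Gw_le_one (I : Finset ℕ) (m : ℕ) : Gw I m ≤ 1 := by
  unfold Gw
  apply prod_le_one
  · intro p _
    have := SSum_kp p
    split_ifs <;> linarith
  · intro p _
    have := SSum_kp p
    split_ifs <;> linarith

theorem SSum_Aq_ge {N : ℕ} {q : ℤ} {a : ℤ × ℤ} (h : Low q a) :
    1 ≤ Aq N q a ∧ (q : ℝ) ≤ Aq N q a := by
  have hq : (1 : ℝ) ≤ q := by exact_mod_cast h.1
  have : 0 ≤ (sn a : ℝ) / (N : ℝ) := by positivity
  unfold Aq
  constructor <;> linarith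

/-- the power of a product of three factors -/
theorem SSum_rpow3 {c l t : ℝ} (hc : 1 ≤ c) (hl : 0 ≤ l) (ht : 0 ≤ t) :
    (c * l * t) ^ (3 / 4 : ℝ) ≤ c * (l ^ (3 / 4 : ℝ) * t ^ (3 / 4 : ℝ)) := by
  have hc0 : 0 ≤ c := by linarith
  rw [Real.mul_rpow (mul_nonneg hc0 hl) ht, Real.mul_rpow hc0 hl, mul_assoc]
  apply mul_le_mul_of_nonneg_right
  · calc c ^ (3 / 4 : ℝ) ≤ c ^ (1 : ℝ) := Real.rpow_le_rpow_of_exponent_le hc (by norm_num)
      _ = c := Real.rpow_one c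
  · exact mul_nonneg (Real.rpow_nonneg hl _) (Real.rpow_nonneg ht _)

/-- one dyadic range -/
theorem SSum_range : ∃ K C3 C1 : ℝ, 0 < K ∧ 0 < C3 ∧ 10 ≤ C1 ∧
    ∀ (N : ℕ) (w : ℝ) (q : ℤ) (a : ℤ × ℤ) (E : ℕ) (S : Finset (ℤ × ℤ)),
    2 ≤ N → C1 ≤ w → w ≤ N → Low q a → Aq N q a ≤ w → 1 ≤ E → E ≤ N →
    (∀ e ∈ S, IsCoprime e.1 e.2 ∧ Sd N q a e ∧ E ≤ sn e ∧ sn e < 2 * E) →
    ∑ e ∈ S, Gw (IN N w) (nsq e) / (sn e : ℝ) ^ 2 ≤
      C3 * (1 / (E : ℝ) ^ 2) + K * ((Real.log w) ^ (3 / 4 : ℝ) / Aq N q a) *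
        (1 / (1 + Real.log E)) ^ (3 / 4 : ℝ) := by
  obtain ⟨C2, C1, hC2, hC1, H2⟩ := Sd_sieve
  obtain ⟨C3, hC3, H3⟩ := Sd_count
  refine ⟨2 * C2 + 3 * C3, C3, C1, by positivity, hC3, hC1, ?_⟩
  intro N w q a E S hN hw hwN hLow hAw hE hEN hS
  obtain ⟨hA1, hqA⟩ := SSum_Aq_ge (N := N) hLow
  set A : ℝ := Aq N q a with hA
  have hA0 : 0 < A := by linarith
  have hE1 : (1 : ℝ) ≤ E := by exact_mod_cast hE
  have hE0 : (0 : ℝ) < E := by linarith
  have hEsq : (0 : ℝ) < (E : ℝ) ^ 2 := by positivity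
  have hw1 : 1 ≤ Real.log w := by
    rw [Real.le_log_iff_exp_le (by linarith)]
    have := Real.exp_one_lt_d9
    linarith
  have hlw0 : 0 ≤ Real.log w := by linarith
  have hlogE : 0 ≤ Real.log E := Real.log_nonneg hE1
  set t : ℝ := 1 / (1 + Real.log E) with ht
  have ht0 : 0 ≤ t := by positivity
  have htE : t * (1 + Real.log E) = 1 := by
    rw [ht]
    field_simp
  set lw : ℝ := (Real.log w) ^ (3 / 4 : ℝ) with hlw
  have hlwn : 0 ≤ lw := Real.rpow_nonneg hlw0 _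
  have htn : 0 ≤ t ^ (3 / 4 : ℝ) := Real.rpow_nonneg ht0 _
  -- reduction to the sum of the weights
  have hred : ∑ e ∈ S, Gw (IN N w) (nsq e) / (sn e : ℝ) ^ 2 ≤
      (∑ e ∈ S, Gw (IN N w) (nsq e)) / (E : ℝ) ^ 2 := by
    rw [sum_div]
    apply sum_le_sum
    intro e he
    obtain ⟨_, _, h1, _⟩ := hS e he
    have h1' : (E : ℝ) ≤ sn e := by exact_mod_cast h1
    apply div_le_div_of_nonneg_left (SSum_Gw_nonneg _ _) hEsq
    exact pow_le_pow_left₀ hE0.le h1' 2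
  refine hred.trans ?_
  by_cases hcase : A ^ 2 ≤ E
  · have hAE : A ≤ E := by nlinarith
    have h1 := H2 N w q a E S hN hw hwN hLow (by linarith) hE hEN hAE
      (fun e he => ⟨(hS e he).2.1, (hS e he).2.2⟩)
    have h2 : Real.log (E / A) = Real.log E - Real.log A := Real.log_div hE0.ne' hA0.ne'
    have h3 : 2 * Real.log A ≤ Real.log E := by
      have := Real.log_le_log (by positivity) hcase
      rw [Real.log_pow] at this
      push_cast at this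
      exact this
    have h4 : (1 / 2) * (1 + Real.log E) ≤ 1 + Real.log (E / A) := by
      rw [h2]
      linarith
    have h5 : Real.log w / (1 + Real.log (E / A)) ≤ 2 * Real.log w * t := by
      rw [div_le_iff₀ (by linarith)]
      have e1 : 0 ≤ 2 * Real.log w * t := by positivity
      have e2 := mul_le_mul_of_nonneg_left h4 e1
      have e3 : 2 * Real.log w * t * (1 / 2 * (1 + Real.log E)) = Real.log w := by
        have : 2 * Real.log w * t * (1 / 2 * (1 + Real.log E)) =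
          Real.log w * (t * (1 + Real.log E)) := by ring
        rw [this, htE, mul_one]
      linarith
    have h6 : 0 ≤ Real.log w / (1 + Real.log (E / A)) := by
      apply div_nonneg hlw0
      linarith
    have h7 : (Real.log w / (1 + Real.log (E / A))) ^ (3 / 4 : ℝ) ≤ 2 * (lw * t ^ (3 / 4 : ℝ)) :=
      (Real.rpow_le_rpow h6 h5 (by norm_num)).trans (SSum_rpow3 (by norm_num) hlw0 ht0)
    have h8 : ∑ e ∈ S, Gw (IN N w) (nsq e) ≤
        C2 * ((E : ℝ) ^ 2 / A) * (2 * (lw * t ^ (3 / 4 : ℝ))) :=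
      h1.trans (mul_le_mul_of_nonneg_left h7 (by positivity))
    have h9 : (∑ e ∈ S, Gw (IN N w) (nsq e)) / (E : ℝ) ^ 2 ≤
        2 * C2 * (lw / A) * t ^ (3 / 4 : ℝ) := by
      rw [div_le_iff₀ hEsq]
      refine h8.trans (le_of_eq ?_)
      field_simp
    have h10 : 0 ≤ C3 * (1 / (E : ℝ) ^ 2) := by positivity
    have h11 : 0 ≤ 3 * C3 * (lw / A) * t ^ (3 / 4 : ℝ) := by positivity
    have h12 : (2 * C2 + 3 * C3) * (lw / A) * t ^ (3 / 4 : ℝ) =
      2 * C2 * (lw / A) * t ^ (3 / 4 : ℝ) + 3 * C3 * (lw / A) * t ^ (3 / 4 : ℝ) := by ring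
    rw [h12]
    linarith
  · push Not at hcase
    have h1 := H3 N q a E S (by omega) hLow hE hS
    rw [← hA] at h1
    have h2 : ∑ e ∈ S, Gw (IN N w) (nsq e) ≤ S.card := by
      calc ∑ e ∈ S, Gw (IN N w) (nsq e) ≤ ∑ e ∈ S, (1 : ℝ) :=
            sum_le_sum (fun e _ => SSum_Gw_le_one _ _)
        _ = S.card := by simp
    have h3 : Real.log E ≤ 2 * Real.log w := by
      have e1 : Real.log E ≤ Real.log (A ^ 2) := Real.log_le_log hE0 hcase.le
      rw [Real.log_pow] at e1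
      push_cast at e1
      have e2 : Real.log A ≤ Real.log w := Real.log_le_log hA0 hAw
      linarith
    have h4 : 1 ≤ 3 * Real.log w * t := by
      have e1 : 1 + Real.log E ≤ 3 * Real.log w := by linarith
      have e2 := mul_le_mul_of_nonneg_left e1 ht0
      linarith
    have h5 : 1 ≤ 3 * (lw * t ^ (3 / 4 : ℝ)) := by
      have e1 := Real.one_le_rpow h4 (by norm_num : (0 : ℝ) ≤ 3 / 4)
      exact e1.trans (SSum_rpow3 (by norm_num) hlw0 ht0)
    have h6 : (∑ e ∈ S, Gw (IN N w) (nsq e)) / (E : ℝ) ^ 2 ≤ C3 * (1 / (E : ℝ) ^ 2) + C3 / A := by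
      rw [div_le_iff₀ hEsq]
      refine (h2.trans h1).trans (le_of_eq ?_)
      field_simp
    have h7 : C3 / A ≤ 3 * C3 * (lw / A) * t ^ (3 / 4 : ℝ) := by
      have e1 : 0 ≤ C3 / A := by positivity
      have e2 := mul_le_mul_of_nonneg_left h5 e1
      have e3 : C3 / A * (3 * (lw * t ^ (3 / 4 : ℝ))) = 3 * C3 * (lw / A) * t ^ (3 / 4 : ℝ) := by
        ring
      linarith
    have h11 : 0 ≤ 2 * C2 * (lw / A) * t ^ (3 / 4 : ℝ) := by positivity
    have h12 : (2 * C2 + 3 * C3) * (lw / A) * t ^ (3 / 4 : ℝ) =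
      2 * C2 * (lw / A) * t ^ (3 / 4 : ℝ) + 3 * C3 * (lw / A) * t ^ (3 / 4 : ℝ) := by ring
    rw [h12]
    linarith

theorem SSum_geom (n : ℕ) : ∑ i ∈ range n, 1 / ((2 ^ i : ℝ)) ^ 2 ≤ 4 / 3 - (4 / 3) * (1 / 4) ^ n := by
  induction n with
  | zero => norm_num
  | succ n ih =>
      rw [sum_range_succ]
      have e1 : 1 / ((2 ^ n : ℝ)) ^ 2 = (1 / 4) ^ n := by
        rw [← pow_mul, mul_comm n 2, pow_mul, one_div_pow]
        norm_num
      have h0 : (0 : ℝ) ≤ (1 / 4) ^ n := by positivity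
      rw [e1, pow_succ]
      linarith

theorem outerI : ∃ C C1 : ℝ, 0 < C ∧ 10 ≤ C1 ∧ ∀ (N : ℕ) (w : ℝ) (q : ℤ) (a : ℤ × ℤ),
    2 ≤ N → C1 ≤ w → w ≤ N → Low q a → Aq N q a ≤ w →
    ∑ e ∈ (Dir N).filter (fun e => Sd N q a e), Gw (IN N w) (nsq e) / (sn e : ℝ) ^ 2 ≤
      C * (1 + (Real.log w) ^ (3 / 4 : ℝ) * (Real.log N) ^ (1 / 4 : ℝ) / Aq N q a) := by
  obtain ⟨K, C3, C1, hK, hC3, hC1, H⟩ := SSum_range
  obtain ⟨C4, hC4, H4⟩ := dyadic_sum
  refine ⟨2 * C3 + K * C4, C1, by positivity, hC1, ?_⟩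
  intro N w q a hN hw hwN hLow hAw
  obtain ⟨hA1, _⟩ := SSum_Aq_ge (N := N) hLow
  set A : ℝ := Aq N q a with hA
  have hA0 : 0 < A := by linarith
  have hlw0 : 0 ≤ Real.log w := Real.log_nonneg (by linarith)
  have hN2 : (2 : ℝ) ≤ N := by exact_mod_cast hN
  have hlN0 : 0 ≤ Real.log N := Real.log_nonneg (by linarith)
  set D : Finset (ℤ × ℤ) := (Dir N).filter (fun e => Sd N q a e) with hD
  have hmaps : ∀ e ∈ D, Nat.log 2 (sn e) ∈ range (Nat.log 2 N + 1) := by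
    intro e he
    rw [hD, mem_filter] at he
    obtain ⟨h1, h2, _⟩ := sn_pos_of_mem_Dir he.1
    rw [mem_range]
    have := Nat.log_mono_right (b := 2) h2
    omega
  rw [← sum_fiberwise_of_maps_to hmaps]
  have hterm : ∀ i ∈ range (Nat.log 2 N + 1),
      ∑ e ∈ D with Nat.log 2 (sn e) = i, Gw (IN N w) (nsq e) / (sn e : ℝ) ^ 2 ≤
        C3 * (1 / ((2 ^ i : ℝ)) ^ 2) + K * ((Real.log w) ^ (3 / 4 : ℝ) / A) *
          (1 / (1 + Real.log (2 ^ i))) ^ (3 / 4 : ℝ) := by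
    intro i hi
    rw [mem_range] at hi
    have hEN : 2 ^ i ≤ N :=
      (Nat.pow_le_pow_right (by norm_num) (by omega : i ≤ Nat.log 2 N)).trans
        (Nat.pow_log_le_self 2 (by omega))
    have := H N w q a (2 ^ i) (D.filter (fun e => Nat.log 2 (sn e) = i)) hN hw hwN hLow hAw
      Nat.one_le_two_pow hEN (by
        intro e he
        rw [mem_filter, hD, mem_filter] at he
        obtain ⟨⟨he1, he2⟩, he3⟩ := he
        obtain ⟨h1, h2, h3⟩ := sn_pos_of_mem_Dir he1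
        refine ⟨h3, he2, ?_, ?_⟩
        · rw [← he3]
          exact Nat.pow_log_le_self 2 (by omega)
        · rw [← he3]
          have := Nat.lt_pow_succ_log_self (b := 2) (by norm_num) (sn e)
          rw [pow_succ] at this
          omega)
    push_cast at this
    exact this
  refine (sum_le_sum hterm).trans ?_
  rw [sum_add_distrib, ← mul_sum, ← mul_sum]
  have h1 : ∑ i ∈ range (Nat.log 2 N + 1), 1 / ((2 ^ i : ℝ)) ^ 2 ≤ 2 := by
    have e1 := SSum_geom (Nat.log 2 N + 1)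
    have e2 : (0 : ℝ) ≤ (1 / 4) ^ (Nat.log 2 N + 1) := by positivity
    linarith
  have h2 := H4 N hN
  have hB : 0 ≤ (Real.log w) ^ (3 / 4 : ℝ) / A := div_nonneg (Real.rpow_nonneg hlw0 _) hA0.le
  have h3 := mul_le_mul_of_nonneg_left h2 (mul_nonneg hK.le hB)
  have h4 := mul_le_mul_of_nonneg_left h1 hC3.le
  set R : ℝ := (Real.log w) ^ (3 / 4 : ℝ) * (Real.log N) ^ (1 / 4 : ℝ) / A with hR
  have hR0 : 0 ≤ R :=
    div_nonneg (mul_nonneg (Real.rpow_nonneg hlw0 _) (Real.rpow_nonneg hlN0 _)) hA0.le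
  have h5 : K * ((Real.log w) ^ (3 / 4 : ℝ) / A) * (C4 * (Real.log N) ^ (1 / 4 : ℝ)) =
      K * C4 * R := by
    rw [hR]
    ring
  have h6 : 0 ≤ C3 * R := mul_nonneg hC3.le hR0
  have h7 : 0 ≤ K * C4 := by positivity
  nlinarith

end Pool.Agent.DG
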