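import Pool.Agent.helper41.DG.HT
import Pool.Agent.helper41.DG.Wt

/-! # Upper bounds for the sums of the weights -/

set_option autoImplicit false

open Finset

namespace Pool.Agent.DG

theorem sig_sum_ite_mem_le (S J : Finset ℕ) (g : ℕ → ℝ) (hg : ∀ p, 0 ≤ g p) :
    ∑ p ∈ S, (if p ∈ J then g p else 0) ≤ ∑ p ∈ J, g p := by
  rw [← Finset.sum_filter]
  apply Finset.sum_le_sum_of_subset_of_nonneg
  · intro p hp
    exact (Finset.mem_filter.1 hp).2
  · intro p _ _
    exact hg p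

theorem sig_prime_mod_four {p : ℕ} (hp : p.Prime) (h2 : p ≠ 2) (h3 : p % 4 ≠ 3) :
    p % 4 = 1 ∧ 2 < p := by
  have h1 := hp.two_le
  rcases hp.eq_two_or_odd with h | h
  · exact absurd h h2
  · omega

theorem sig_le : ∃ C : ℝ, 0 < C ∧ ∀ (N : ℕ) (w : ℝ), 2 ≤ N → 2 ≤ w → w ≤ N →
    ∑ m ∈ Icc 1 (2 * N ^ 2), fw (I4 w ((N : ℝ) ^ (1 / 30 : ℝ))) m ≤
      C * ((N : ℝ) ^ 2 / Real.log N) * (Real.log w) ^ 2 *
        Real.exp (∑ p ∈ I4 w ((N : ℝ) ^ (1 / 30 : ℝ)), 1 / (p : ℝ)) := by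
  obtain ⟨C1, hC1, hHT⟩ := hall_tenenbaum
  obtain ⟨C2, hC2, hM⟩ := mertens4
  have hl2 : 0 < Real.log 2 := Real.log_pos (by norm_num)
  refine ⟨C1 * 2 * (Real.exp (2 + 2 * Real.log 90 + 8 * (C2 / Real.log 2)) *
    (1 / Real.log 2) ^ 2), by positivity, ?_⟩
  intro N w hN hw hwN
  set z : ℝ := (N : ℝ) ^ (1 / 30 : ℝ) with hz
  set I := I4 w z with hI
  have hN' : (2 : ℝ) ≤ N := by exact_mod_cast hN
  have hN0 : (0 : ℝ) < N := by linarith
  have hIp : ∀ p ∈ I, p.Prime := fun p hp => (mem_I4.1 hp).1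
  have hlN : Real.log 2 ≤ Real.log N := Real.log_le_log (by norm_num) hN'
  have hlN0 : 0 < Real.log N := lt_of_lt_of_le hl2 hlN
  have hlw : 0 < Real.log w := Real.log_pos (by linarith)
  have hMN : 2 ≤ 2 * N ^ 2 := by nlinarith
  have h1 := hHT (fw I) (fw_nonneg I) (fw_one I hIp) (fun a b h => fw_mul I hIp a b h)
    (fun p k hp => fw_prime_pow_le I hIp p k hp) (2 * N ^ 2) hMN
  refine h1.trans ?_
  -- the real number `M`
  have hMr : ((2 * N ^ 2 : ℕ) : ℝ) = 2 * (N : ℝ) ^ 2 := by push_cast; ring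
  have hlogM : Real.log ((2 * N ^ 2 : ℕ) : ℝ) = Real.log 2 + 2 * Real.log N := by
    rw [hMr, Real.log_mul (by norm_num) (by positivity), Real.log_pow]
    push_cast
    ring
  have hlogM1 : Real.log ((2 * N ^ 2 : ℕ) : ℝ) ≤ 3 * Real.log N := by
    rw [hlogM]; linarith
  have hlogM2 : Real.log N ≤ Real.log ((2 * N ^ 2 : ℕ) : ℝ) := by
    rw [hlogM]; linarith
  have hlogM0 : 0 < Real.log ((2 * N ^ 2 : ℕ) : ℝ) := lt_of_lt_of_le hlN0 hlogM2
  -- the number `z'`
  set z' : ℝ := max z 2 with hz'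
  have hz0 : 0 < z := Real.rpow_pos_of_pos hN0 _
  have hlogz : Real.log z = (1 / 30) * Real.log N := by rw [hz, Real.log_rpow hN0]
  have hz'2 : 2 ≤ z' := le_max_right _ _
  have hzN : z ≤ N := by
    have : (N : ℝ) ^ (1 / 30 : ℝ) ≤ (N : ℝ) ^ (1 : ℝ) :=
      Real.rpow_le_rpow_of_exponent_le (by linarith) (by norm_num)
    rwa [Real.rpow_one] at this
  have hNM : (N : ℝ) ≤ ((2 * N ^ 2 : ℕ) : ℝ) := by
    rw [hMr]
    nlinarith
  have hz'M : z' ≤ ((2 * N ^ 2 : ℕ) : ℝ) := max_le (hzN.trans hNM) (hN'.trans hNM)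
  have hlz'2 : Real.log 2 ≤ Real.log z' := Real.log_le_log (by norm_num) hz'2
  have hlz' : (1 / 30) * Real.log N ≤ Real.log z' := by
    rw [← hlogz]
    exact Real.log_le_log hz0 (le_max_left _ _)
  have hlz'0 : 0 < Real.log z' := lt_of_lt_of_le hl2 hlz'2
  have hA : ∑ p ∈ I4 2 w, 1 / (p : ℝ) ≤
      (1 / 2) * Real.log (Real.log w / Real.log 2) + C2 / Real.log 2 := hM 2 w le_rfl hw
  have hB : ∑ p ∈ I4 z' ((2 * N ^ 2 : ℕ) : ℝ), 1 / (p : ℝ) ≤
      (1 / 2) * Real.log 90 + C2 / Real.log 2 := by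
    refine (hM z' _ hz'2 hz'M).trans ?_
    have h2 : Real.log ((2 * N ^ 2 : ℕ) : ℝ) / Real.log z' ≤ 90 := by
      rw [div_le_iff₀ hlz'0]
      linarith
    have h3 : Real.log (Real.log ((2 * N ^ 2 : ℕ) : ℝ) / Real.log z') ≤ Real.log 90 :=
      Real.log_le_log (div_pos hlogM0 hlz'0) h2
    have h4 : C2 / Real.log z' ≤ C2 / Real.log 2 :=
      div_le_div_of_nonneg_left hC2.le hl2 hlz'2
    linarith
  -- the sum over the primes
  have hS : ∑ p ∈ (Icc 1 (2 * N ^ 2)).filter Nat.Prime, fw I p / (p : ℝ) ≤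
      ∑ p ∈ I, 1 / (p : ℝ) + (2 + 2 * Real.log 90 + 8 * (C2 / Real.log 2)) +
        2 * Real.log (Real.log w / Real.log 2) := by
    have hpt : ∀ p ∈ (Icc 1 (2 * N ^ 2)).filter Nat.Prime, fw I p / (p : ℝ) ≤
        (((if p ∈ ({2} : Finset ℕ) then 4 / (p : ℝ) else 0) +
          (if p ∈ I then 1 / (p : ℝ) else 0)) +
          (if p ∈ I4 2 w then 4 / (p : ℝ) else 0)) +
          (if p ∈ I4 z' ((2 * N ^ 2 : ℕ) : ℝ) then 4 / (p : ℝ) else 0) := by
      intro p hp
      obtain ⟨hp1, hp2⟩ := Finset.mem_filter.1 hp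
      have hpM : (p : ℝ) ≤ ((2 * N ^ 2 : ℕ) : ℝ) := by
        exact_mod_cast (Finset.mem_Icc.1 hp1).2
      have hp0 : (0 : ℝ) < p := by exact_mod_cast hp2.pos
      have n1 : 0 ≤ (if p ∈ ({2} : Finset ℕ) then 4 / (p : ℝ) else 0) := by
        split_ifs <;> positivity
      have n2 : 0 ≤ (if p ∈ I then 1 / (p : ℝ) else 0) := by split_ifs <;> positivity
      have n3 : 0 ≤ (if p ∈ I4 2 w then 4 / (p : ℝ) else 0) := by split_ifs <;> positivity
      have n4 : 0 ≤ (if p ∈ I4 z' ((2 * N ^ 2 : ℕ) : ℝ) then 4 / (p : ℝ) else 0) := by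
        split_ifs <;> positivity
      rw [fw_prime I hIp p hp2]
      by_cases h3 : p % 4 = 3
      · rw [if_pos h3, zero_div]
        linarith
      rw [if_neg h3]
      by_cases hpI : p ∈ I
      · rw [if_pos hpI, if_pos hpI] at *
        linarith
      rw [if_neg hpI]
      by_cases h2 : p = 2
      · have : p ∈ ({2} : Finset ℕ) := Finset.mem_singleton.2 h2
        rw [if_pos this]
        linarith
      obtain ⟨h41, h42⟩ := sig_prime_mod_four hp2 h2 h3
      have h42' : (2 : ℝ) < p := by exact_mod_cast h42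
      by_cases hpw : (p : ℝ) ≤ w
      · have : p ∈ I4 2 w := mem_I4.2 ⟨hp2, h41, h42', hpw⟩
        rw [if_pos this]
        linarith
      · have hpz : z < p := by
          by_contra hcon
          exact hpI (mem_I4.2 ⟨hp2, h41, lt_of_not_ge hpw, le_of_not_gt hcon⟩)
        have : p ∈ I4 z' ((2 * N ^ 2 : ℕ) : ℝ) :=
          mem_I4.2 ⟨hp2, h41, max_lt hpz h42', hpM⟩
        rw [if_pos this]
        linarith
    refine (Finset.sum_le_sum hpt).trans ?_
    rw [Finset.sum_add_distrib, Finset.sum_add_distrib, Finset.sum_add_distrib]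
    have s1 := sig_sum_ite_mem_le ((Icc 1 (2 * N ^ 2)).filter Nat.Prime) {2}
      (fun p => 4 / (p : ℝ)) (fun p => by positivity)
    have s2 := sig_sum_ite_mem_le ((Icc 1 (2 * N ^ 2)).filter Nat.Prime) I
      (fun p => 1 / (p : ℝ)) (fun p => by positivity)
    have s3 := sig_sum_ite_mem_le ((Icc 1 (2 * N ^ 2)).filter Nat.Prime) (I4 2 w)
      (fun p => 4 / (p : ℝ)) (fun p => by positivity)
    have s4 := sig_sum_ite_mem_le ((Icc 1 (2 * N ^ 2)).filter Nat.Prime)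
      (I4 z' ((2 * N ^ 2 : ℕ) : ℝ)) (fun p => 4 / (p : ℝ)) (fun p => by positivity)
    have e1 : ∑ p ∈ ({2} : Finset ℕ), 4 / (p : ℝ) = 2 := by
      rw [Finset.sum_singleton]; norm_num
    have e3 : ∑ p ∈ I4 2 w, 4 / (p : ℝ) = 4 * ∑ p ∈ I4 2 w, 1 / (p : ℝ) := by
      rw [Finset.mul_sum]
      exact Finset.sum_congr rfl fun p _ => by ring
    have e4 : ∑ p ∈ I4 z' ((2 * N ^ 2 : ℕ) : ℝ), 4 / (p : ℝ) =
        4 * ∑ p ∈ I4 z' ((2 * N ^ 2 : ℕ) : ℝ), 1 / (p : ℝ) := by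
      rw [Finset.mul_sum]
      exact Finset.sum_congr rfl fun p _ => by ring
    rw [e1] at s1
    rw [e3] at s3
    rw [e4] at s4
    linarith
  have hE : Real.exp (∑ p ∈ (Icc 1 (2 * N ^ 2)).filter Nat.Prime, fw I p / (p : ℝ)) ≤
      Real.exp (∑ p ∈ I, 1 / (p : ℝ)) *
        Real.exp (2 + 2 * Real.log 90 + 8 * (C2 / Real.log 2)) *
        (Real.log w / Real.log 2) ^ 2 := by
    refine (Real.exp_le_exp.2 hS).trans (le_of_eq ?_)
    rw [Real.exp_add, Real.exp_add]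
    congr 1
    have : 2 * Real.log (Real.log w / Real.log 2) =
        Real.log ((Real.log w / Real.log 2) ^ 2) := by
      rw [Real.log_pow]; push_cast; ring
    rw [this, Real.exp_log (by positivity)]
  have hD : ((2 * N ^ 2 : ℕ) : ℝ) / Real.log ((2 * N ^ 2 : ℕ) : ℝ) ≤
      2 * ((N : ℝ) ^ 2 / Real.log N) := by
    rw [← mul_div_assoc, ← hMr]
    exact div_le_div_of_nonneg_left (by positivity) hlN0 hlogM2
  calc C1 * (((2 * N ^ 2 : ℕ) : ℝ) / Real.log ((2 * N ^ 2 : ℕ) : ℝ)) *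
        Real.exp (∑ p ∈ (Icc 1 (2 * N ^ 2)).filter Nat.Prime, fw I p / (p : ℝ))
      ≤ C1 * (2 * ((N : ℝ) ^ 2 / Real.log N)) *
        (Real.exp (∑ p ∈ I, 1 / (p : ℝ)) *
        Real.exp (2 + 2 * Real.log 90 + 8 * (C2 / Real.log 2)) *
        (Real.log w / Real.log 2) ^ 2) := by
        apply mul_le_mul (mul_le_mul_of_nonneg_left hD hC1.le) hE (Real.exp_pos _).le
        positivity
    _ = C1 * 2 * (Real.exp (2 + 2 * Real.log 90 + 8 * (C2 / Real.log 2)) *
        (1 / Real.log 2) ^ 2) * ((N : ℝ) ^ 2 / Real.log N) * Real.log w ^ 2 *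
        Real.exp (∑ p ∈ I, 1 / (p : ℝ)) := by
        rw [div_pow, div_pow]
        ring

/-- the number of the sums of two squares (Landau, upper bound) -/
theorem bn_sum_le : ∃ C : ℝ, 0 < C ∧ ∀ M : ℕ, 2 ≤ M →
    ∑ m ∈ Icc 1 M, bn m ≤ C * (M / Real.sqrt (Real.log M)) := by
  obtain ⟨C1, hC1, hHT⟩ := hall_tenenbaum
  obtain ⟨C2, hC2, hM⟩ := mertens4
  have hl2 : 0 < Real.log 2 := Real.log_pos (by norm_num)
  refine ⟨C1 * (Real.exp (1 / 2 + C2 / Real.log 2) * (1 / Real.sqrt (Real.log 2))),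
    by positivity, ?_⟩
  intro M hM2
  have hM' : (2 : ℝ) ≤ M := by exact_mod_cast hM2
  have hlM : Real.log 2 ≤ Real.log M := Real.log_le_log (by norm_num) hM'
  have hlM0 : 0 < Real.log M := lt_of_lt_of_le hl2 hlM
  have h1 := hHT bn bn_nonneg bn_one (fun a b h => bn_mul a b h)
    (fun p k _ => by
      refine (bn_le_one _).trans ?_
      have : (0 : ℝ) ≤ k := Nat.cast_nonneg k
      nlinarith) M hM2
  refine h1.trans ?_
  have hA := hM 2 M le_rfl hM'
  have hS : ∑ p ∈ (Icc 1 M).filter Nat.Prime, bn p / (p : ℝ) ≤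
      (1 / 2 + C2 / Real.log 2) + (1 / 2) * Real.log (Real.log M / Real.log 2) := by
    have hpt : ∀ p ∈ (Icc 1 M).filter Nat.Prime, bn p / (p : ℝ) ≤
        (if p ∈ ({2} : Finset ℕ) then 1 / (p : ℝ) else 0) +
          (if p ∈ I4 2 M then 1 / (p : ℝ) else 0) := by
      intro p hp
      obtain ⟨hp1, hp2⟩ := Finset.mem_filter.1 hp
      have hpM : (p : ℝ) ≤ M := by exact_mod_cast (Finset.mem_Icc.1 hp1).2
      have hp0 : (0 : ℝ) < p := by exact_mod_cast hp2.pos
      have n1 : 0 ≤ (if p ∈ ({2} : Finset ℕ) then 1 / (p : ℝ) else 0) := by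
        split_ifs <;> positivity
      have n2 : 0 ≤ (if p ∈ I4 2 M then 1 / (p : ℝ) else 0) := by split_ifs <;> positivity
      rw [bn_prime p hp2]
      by_cases h3 : p % 4 = 3
      · rw [if_pos h3, zero_div]
        linarith
      rw [if_neg h3]
      by_cases h2 : p = 2
      · have : p ∈ ({2} : Finset ℕ) := Finset.mem_singleton.2 h2
        rw [if_pos this]
        linarith
      obtain ⟨h41, h42⟩ := sig_prime_mod_four hp2 h2 h3
      have h42' : (2 : ℝ) < p := by exact_mod_cast h42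
      have : p ∈ I4 2 M := mem_I4.2 ⟨hp2, h41, h42', hpM⟩
      rw [if_pos this]
      linarith
    refine (Finset.sum_le_sum hpt).trans ?_
    rw [Finset.sum_add_distrib]
    have s1 := sig_sum_ite_mem_le ((Icc 1 M).filter Nat.Prime) {2}
      (fun p => 1 / (p : ℝ)) (fun p => by positivity)
    have s2 := sig_sum_ite_mem_le ((Icc 1 M).filter Nat.Prime) (I4 2 M)
      (fun p => 1 / (p : ℝ)) (fun p => by positivity)
    have e1 : ∑ p ∈ ({2} : Finset ℕ), 1 / (p : ℝ) = 1 / 2 := by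
      rw [Finset.sum_singleton]; norm_num
    rw [e1] at s1
    linarith
  have hq : 0 < Real.log M / Real.log 2 := div_pos hlM0 hl2
  have hE : Real.exp (∑ p ∈ (Icc 1 M).filter Nat.Prime, bn p / (p : ℝ)) ≤
      Real.exp (1 / 2 + C2 / Real.log 2) * Real.sqrt (Real.log M / Real.log 2) := by
    refine (Real.exp_le_exp.2 hS).trans (le_of_eq ?_)
    rw [Real.exp_add]
    congr 1
    have : (1 / 2) * Real.log (Real.log M / Real.log 2) =
        Real.log (Real.sqrt (Real.log M / Real.log 2)) := by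
      rw [Real.log_sqrt hq.le]
      ring
    rw [this, Real.exp_log (Real.sqrt_pos.2 hq)]
  calc C1 * ((M : ℝ) / Real.log M) *
        Real.exp (∑ p ∈ (Icc 1 M).filter Nat.Prime, bn p / (p : ℝ))
      ≤ C1 * ((M : ℝ) / Real.log M) *
        (Real.exp (1 / 2 + C2 / Real.log 2) * Real.sqrt (Real.log M / Real.log 2)) := by
        apply mul_le_mul_of_nonneg_left hE
        positivity
    _ = C1 * (Real.exp (1 / 2 + C2 / Real.log 2) * (1 / Real.sqrt (Real.log 2))) *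
        (M / Real.sqrt (Real.log M)) := by
        rw [Real.sqrt_div hlM0.le]
        have hs : Real.sqrt (Real.log M) ≠ 0 := (Real.sqrt_pos.2 hlM0).ne'
        have hs2 : Real.log M = Real.sqrt (Real.log M) * Real.sqrt (Real.log M) :=
          (Real.mul_self_sqrt hlM0.le).symm
        have e : (M : ℝ) / Real.log M * Real.sqrt (Real.log M) =
            M / Real.sqrt (Real.log M) := by
          rw [div_mul_eq_mul_div, div_eq_div_iff hlM0.ne' hs]
          conv_rhs => rw [hs2]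
          ring
        rw [← e]
        ring

end Pool.Agent.DG
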