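import Pool.Agent.helper41.DG.Sig

/-! # Few distinct distances: the upper bound of Erdős -/

set_option autoImplicit false
open scoped Classical

open Finset

namespace Pool.Agent.DG

/-- the lattice point in the Euclidean plane -/
noncomputable def gp (p : ℕ × ℕ) : EuclideanSpace ℝ (Fin 2) := !₂[(p.1 : ℝ), (p.2 : ℝ)]

theorem gp_inj : Function.Injective gp := by
  intro p q h
  have h0 : gp p 0 = gp q 0 := by rw [h]
  have h1 : gp p 1 = gp q 1 := by rw [h]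
  simp only [gp] at h0 h1
  have e0 : (p.1 : ℝ) = q.1 := by simpa using h0
  have e1 : (p.2 : ℝ) = q.2 := by simpa using h1
  exact Prod.ext (by exact_mod_cast e0) (by exact_mod_cast e1)

/-- the square of the distance of two lattice points -/
def sqd (p q : ℕ × ℕ) : ℕ :=
  (((p.1 : ℤ) - q.1) ^ 2 + ((p.2 : ℤ) - q.2) ^ 2).toNat

theorem sqd_cast (p q : ℕ × ℕ) :
    ((sqd p q : ℕ) : ℤ) = ((p.1 : ℤ) - q.1) ^ 2 + ((p.2 : ℤ) - q.2) ^ 2 :=
  Int.toNat_of_nonneg (by positivity)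

theorem dist_gp (p q : ℕ × ℕ) : dist (gp p) (gp q) = Real.sqrt (sqd p q : ℕ) := by
  rw [EuclideanSpace.dist_eq]
  congr 1
  have h := sqd_cast p q
  have h2 : ((sqd p q : ℕ) : ℝ) = ((p.1 : ℝ) - q.1) ^ 2 + ((p.2 : ℝ) - q.2) ^ 2 := by
    have := congrArg (fun z : ℤ => (z : ℝ)) h
    push_cast at this
    exact this
  rw [h2, Fin.sum_univ_two]
  simp [gp, Real.dist_eq, sq_abs]

theorem sqd_pos {p q : ℕ × ℕ} (h : p ≠ q) : 1 ≤ sqd p q := by
  have h1 := sqd_cast p q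
  by_contra hlt
  have h0 : sqd p q = 0 := by omega
  rw [h0] at h1
  have hx : ((p.1 : ℤ) - q.1) ^ 2 = 0 := by
    have := sq_nonneg ((p.1 : ℤ) - q.1)
    have := sq_nonneg ((p.2 : ℤ) - q.2)
    push_cast at h1
    linarith
  have hy : ((p.2 : ℤ) - q.2) ^ 2 = 0 := by
    have := sq_nonneg ((p.1 : ℤ) - q.1)
    have := sq_nonneg ((p.2 : ℤ) - q.2)
    push_cast at h1
    linarith
  have hx' : (p.1 : ℤ) - q.1 = 0 := by simpa using hx
  have hy' : (p.2 : ℤ) - q.2 = 0 := by simpa using hy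
  exact h (Prod.ext (by omega) (by omega))

theorem sqd_le {K : ℕ} {p q : ℕ × ℕ} (h1 : p.1 < K) (h2 : p.2 < K) (h3 : q.1 < K) (h4 : q.2 < K) :
    sqd p q ≤ 2 * K ^ 2 := by
  have h := sqd_cast p q
  have hx : ((p.1 : ℤ) - q.1) ^ 2 ≤ (K : ℤ) ^ 2 := by
    apply sq_le_sq'
    · omega
    · omega
  have hy : ((p.2 : ℤ) - q.2) ^ 2 ≤ (K : ℤ) ^ 2 := by
    apply sq_le_sq'
    · omega
    · omega
  have : ((sqd p q : ℕ) : ℤ) ≤ ((2 * K ^ 2 : ℕ) : ℤ) := by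
    rw [h]; push_cast; linarith
  exact_mod_cast this

theorem f_upper : ∃ C : ℝ, 0 < C ∧ ∀ n : ℕ, 1 ≤ n →
    ∃ P : Finset (EuclideanSpace ℝ (Fin 2)), P.card = 2 * n ∧
      ((P.offDiag.image (fun p => dist p.1 p.2)).card : ℝ) ≤
        C * (n / Real.sqrt (Real.log (2 * n))) := by
  obtain ⟨C, hC, hsum⟩ := bn_sum_le
  refine ⟨16 * C, by positivity, fun n hn => ?_⟩
  set K : ℕ := Nat.sqrt (2 * n) + 1 with hK
  have hK1 : 2 * n < K ^ 2 := by
    rw [hK, pow_two]; exact Nat.lt_succ_sqrt (2 * n)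
  have hs1 : Nat.sqrt (2 * n) ^ 2 ≤ 2 * n := Nat.sqrt_le' (2 * n)
  have hs2 : 1 ≤ Nat.sqrt (2 * n) := by
    rw [Nat.le_sqrt]; omega
  have hK2 : 2 * K ^ 2 ≤ 16 * n := by
    have : K ≤ 2 * Nat.sqrt (2 * n) := by omega
    have h3 : K ^ 2 ≤ (2 * Nat.sqrt (2 * n)) ^ 2 := Nat.pow_le_pow_left this 2
    have h4 : (2 * Nat.sqrt (2 * n)) ^ 2 = 4 * Nat.sqrt (2 * n) ^ 2 := by ring
    omega
  -- the grid
  set G : Finset (EuclideanSpace ℝ (Fin 2)) := (range K ×ˢ range K).image gp with hG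
  have hGc : G.card = K ^ 2 := by
    rw [hG, card_image_of_injective _ gp_inj, card_product, card_range, pow_two]
  obtain ⟨P, hPG, hPc⟩ := Finset.exists_subset_card_eq (s := G) (n := 2 * n) (by omega)
  refine ⟨P, hPc, ?_⟩
  set D : Finset ℕ := (Icc 1 (2 * K ^ 2)).filter (fun m => bn m = 1) with hD
  have hsub : P.offDiag.image (fun p => dist p.1 p.2) ⊆ D.image (fun m : ℕ => Real.sqrt (m : ℝ)) := by
    intro d hd
    rw [mem_image] at hd
    obtain ⟨⟨a, b⟩, hab, rfl⟩ := hd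
    rw [mem_offDiag] at hab
    obtain ⟨ha, hb, hne⟩ := hab
    have ha' := hPG ha
    have hb' := hPG hb
    rw [hG, mem_image] at ha' hb'
    obtain ⟨p, hp, rfl⟩ := ha'
    obtain ⟨q, hq, rfl⟩ := hb'
    rw [mem_product, mem_range, mem_range] at hp hq
    have hpq : p ≠ q := fun h => hne (by rw [h])
    rw [mem_image]
    refine ⟨sqd p q, ?_, (dist_gp p q).symm⟩
    rw [hD, mem_filter, mem_Icc]
    exact ⟨⟨sqd_pos hpq, sqd_le hp.1 hp.2 hq.1 hq.2⟩,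
      bn_eq_one ((p.1 : ℤ) - q.1) ((p.2 : ℤ) - q.2) (sqd_cast p q).symm⟩
  have h1 : ((P.offDiag.image (fun p => dist p.1 p.2)).card : ℝ) ≤ (D.card : ℝ) := by
    exact_mod_cast (card_le_card hsub).trans card_image_le
  have h2 : (D.card : ℝ) ≤ ∑ m ∈ Icc 1 (2 * K ^ 2), bn m := by
    have h3 : (D.card : ℝ) = ∑ m ∈ D, bn m := by
      rw [card_eq_sum_ones]
      push_cast
      exact sum_congr rfl (fun m hm => ((mem_filter.mp hm).2).symm)
    rw [h3]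
    exact sum_le_sum_of_subset_of_nonneg (filter_subset _ _) (fun m _ _ => bn_nonneg m)
  have hM2 : 2 ≤ 2 * K ^ 2 := by omega
  have h4 := hsum (2 * K ^ 2) hM2
  have hn' : (1 : ℝ) ≤ n := by exact_mod_cast hn
  have hlog : 0 < Real.log (2 * n) := Real.log_pos (by linarith)
  have hcast : (2 * (n : ℝ)) ≤ ((2 * K ^ 2 : ℕ) : ℝ) := by
    have : 2 * n ≤ 2 * K ^ 2 := by omega
    exact_mod_cast this
  have hlog2 : Real.log (2 * n) ≤ Real.log ((2 * K ^ 2 : ℕ) : ℝ) :=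
    Real.log_le_log (by linarith) hcast
  have hsq : Real.sqrt (Real.log (2 * n)) ≤ Real.sqrt (Real.log ((2 * K ^ 2 : ℕ) : ℝ)) :=
    Real.sqrt_le_sqrt hlog2
  have hsq0 : 0 < Real.sqrt (Real.log (2 * n)) := Real.sqrt_pos.mpr hlog
  have hup : ((2 * K ^ 2 : ℕ) : ℝ) ≤ 16 * n := by exact_mod_cast hK2
  have h5 : ((2 * K ^ 2 : ℕ) : ℝ) / Real.sqrt (Real.log ((2 * K ^ 2 : ℕ) : ℝ)) ≤
      16 * n / Real.sqrt (Real.log (2 * n)) :=
    div_le_div₀ (by positivity) hup hsq0 hsq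
  calc ((P.offDiag.image (fun p => dist p.1 p.2)).card : ℝ)
      ≤ ∑ m ∈ Icc 1 (2 * K ^ 2), bn m := h1.trans h2
    _ ≤ C * (((2 * K ^ 2 : ℕ) : ℝ) / Real.sqrt (Real.log ((2 * K ^ 2 : ℕ) : ℝ))) := h4
    _ ≤ C * (16 * n / Real.sqrt (Real.log (2 * n))) := mul_le_mul_of_nonneg_left h5 hC.le
    _ = 16 * C * (n / Real.sqrt (Real.log (2 * n))) := by ring

end Pool.Agent.DG
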