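import Pool.Agent.helper41.DG.CombK
import Pool.Agent.helper41.DG.LS1
import Pool.Agent.helper41.DG.LS2

/-! # The upper bound sieve in a box -/

set_option autoImplicit false

open Finset

namespace Pool.Agent.DG

theorem upbox_zero_mem {P : Finset ℕ} (hP : ∀ p ∈ P, p.Prime) : (0 : ℕ →₀ ℕ × ℕ) ∈ Fr P := by
  unfold Fr
  rw [Finset.mem_finsupp_iff]
  refine ⟨by simp, fun p hp => ?_⟩
  have := (hP p hp).pos
  simp [this]

theorem upbox_ec_zero : ec 0 = 1 := by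
  simp [ec]

theorem upbox_pr_zero (v : ℤ × ℤ) : pr 0 v = 0 := by
  simp [pr]

theorem upbox_md_zero : md 0 = 1 := by
  simp [md]

theorem upper_box {P : Finset ℕ} {B : ℕ → ℤ × ℤ → ℝ} {b : ℕ → ℕ × ℕ → ℂ} {β κ : ℕ → ℝ}
    (hL : Loc P B b β) (hκ0 : ∀ p ∈ P, 0 ≤ κ p) (hκ1 : ∀ p ∈ P, κ p ≤ 3 / 4)
    {w z : ℝ} (hw0 : 10 ≤ w) (hz1 : 1 ≤ z) (hw : ∀ p ∈ P, w < (p : ℝ))
    (hz : ∀ p ∈ P, (p : ℝ) ≤ z)
    (hb : ∀ t : ℝ, 1 ≤ t →
      ∑ p ∈ P.filter (fun p : ℕ => t < (p : ℝ) ∧ (p : ℝ) ≤ t ^ 2), 1 / (p : ℝ) ≤ 2 / 5)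
    {M : ℕ} (hM : z ^ 20 ≤ M) (u : ℤ × ℤ) :
    ∑ i ∈ range M, ∑ j ∈ range M, ∏ p ∈ P, (1 - κ p * B p (u.1 + i, u.2 + j)) ≤
      6 * (M : ℝ) ^ 2 * ∏ p ∈ P, (1 - κ p * β p) := by
  obtain ⟨Uf, c, U, hTP, hU0, hU3, hmaj⟩ := majorant hL hκ0 hκ1 hw0 hz1 hw hz hb
  have hP := hL.prime
  set D : ℝ := z ^ 4 with hD
  have hD1 : 1 ≤ D := one_le_pow₀ hz1
  have hM0 : (0 : ℝ) ≤ M := Nat.cast_nonneg M
  -- the character sums
  set X : (ℕ →₀ ℕ × ℕ) → ℂ := fun k =>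
    ∑ i ∈ range M, ∑ j ∈ range M, ec (pr k (u.1 + i, u.2 + j)) with hX
  have hX0 : X 0 = (M : ℂ) ^ 2 := by
    simp only [hX, upbox_pr_zero, upbox_ec_zero]
    simp [sq]
  have hXk : ∀ k ∈ Fr P, k ≠ 0 → ((md k : ℕ) : ℝ) ≤ D → ‖X k‖ ≤ M * D ^ 2 := by
    intro k hk hk0 hkD
    have h := near_orth hP hD1 M u hk (upbox_zero_mem hP) hkD
      (by rw [upbox_md_zero]; simpa using hD1) hk0
    simpa only [upbox_pr_zero, sub_zero] using h
  -- the expansion of the sum of the majorant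
  have hexp : (((∑ i ∈ range M, ∑ j ∈ range M, Uf (u.1 + i, u.2 + j) : ℝ)) : ℂ) =
      ∑ k ∈ Fr P, c k * X k := by
    push_cast
    have h1 : ∀ i ∈ range M, ∑ j ∈ range M, ((Uf (u.1 + (i : ℤ), u.2 + (j : ℤ)) : ℝ) : ℂ) =
        ∑ k ∈ Fr P, ∑ j ∈ range M, c k * ec (pr k (u.1 + (i : ℤ), u.2 + (j : ℤ))) := by
      intro i _
      rw [Finset.sum_comm]
      exact Finset.sum_congr rfl fun j _ => hTP.expand _
    rw [Finset.sum_congr rfl h1, Finset.sum_comm]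
    refine Finset.sum_congr rfl fun k _ => ?_
    simp only [hX, Finset.mul_sum]
  -- the main term and the error term
  have hsplit : ∑ k ∈ Fr P, c k * X k = (U : ℂ) * (M : ℂ) ^ 2 +
      ∑ k ∈ (Fr P).erase 0, c k * X k := by
    rw [← Finset.add_sum_erase _ _ (upbox_zero_mem hP), hTP.mean, hX0]
  have herr : ‖∑ k ∈ (Fr P).erase 0, c k * X k‖ ≤ U * (M : ℝ) ^ 2 := by
    have hw4 : 4 / w ≤ 1 := by
      rw [div_le_one (by linarith)]; linarith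
    have hw4' : 0 ≤ 4 / w := by positivity
    have hstep : ∀ k ∈ (Fr P).erase 0, ‖c k * X k‖ ≤
        if ((md k : ℕ) : ℝ) ≤ D then (4 / w * U) * (M * D ^ 2) else 0 := by
      intro k hk
      obtain ⟨hk0, hkF⟩ := Finset.mem_erase.1 hk
      by_cases hkD : ((md k : ℕ) : ℝ) ≤ D
      · rw [if_pos hkD, norm_mul]
        exact mul_le_mul (hTP.small k hkF hk0) (hXk k hkF hk0 hkD) (norm_nonneg _) (by positivity)
      · rw [if_neg hkD]
        have : c k = 0 := by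
          by_contra hc
          exact hkD (hTP.level k hkF hc)
        simp [this]
    calc ‖∑ k ∈ (Fr P).erase 0, c k * X k‖ ≤ ∑ k ∈ (Fr P).erase 0, ‖c k * X k‖ := norm_sum_le _ _
      _ ≤ ∑ k ∈ (Fr P).erase 0,
          (if ((md k : ℕ) : ℝ) ≤ D then (4 / w * U) * (M * D ^ 2) else 0) :=
        Finset.sum_le_sum hstep
      _ ≤ ∑ k ∈ Fr P, (if ((md k : ℕ) : ℝ) ≤ D then (4 / w * U) * (M * D ^ 2) else 0) := by
        apply Finset.sum_le_sum_of_subset_of_nonneg (Finset.erase_subset _ _)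
        intro k _ _
        split_ifs <;> positivity
      _ = (((Fr P).filter (fun k => ((md k : ℕ) : ℝ) ≤ D)).card : ℝ) *
          ((4 / w * U) * (M * D ^ 2)) := by
        rw [← Finset.sum_filter, Finset.sum_const, nsmul_eq_mul]
      _ ≤ D ^ 3 * ((4 / w * U) * (M * D ^ 2)) := by
        apply mul_le_mul_of_nonneg_right (card_freq_le hP hD1) (by positivity)
      _ = (4 / w) * (U * M * D ^ 5) := by ring
      _ ≤ 1 * (U * M * M) := by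
        have hD5 : D ^ 5 ≤ M := by
          rw [hD, ← pow_mul]; exact hM
        apply mul_le_mul hw4 _ (by positivity) zero_le_one
        exact mul_le_mul_of_nonneg_left hD5 (by positivity)
      _ = U * (M : ℝ) ^ 2 := by ring
  have hsum : ∑ i ∈ range M, ∑ j ∈ range M, Uf (u.1 + i, u.2 + j) ≤ 2 * U * (M : ℝ) ^ 2 := by
    have h1 : ‖(((∑ i ∈ range M, ∑ j ∈ range M, Uf (u.1 + i, u.2 + j) : ℝ)) : ℂ)‖ ≤
        2 * U * (M : ℝ) ^ 2 := by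
      rw [hexp, hsplit]
      refine (norm_add_le _ _).trans ?_
      have h2 : ‖(U : ℂ) * (M : ℂ) ^ 2‖ = U * (M : ℝ) ^ 2 := by
        rw [norm_mul, norm_pow, Complex.norm_real, Complex.norm_natCast, Real.norm_eq_abs,
          abs_of_pos hU0]
      rw [h2]
      linarith
    rw [Complex.norm_real] at h1
    exact (le_abs_self _).trans h1
  have hle : ∑ i ∈ range M, ∑ j ∈ range M, ∏ p ∈ P, (1 - κ p * B p (u.1 + i, u.2 + j)) ≤
      ∑ i ∈ range M, ∑ j ∈ range M, Uf (u.1 + i, u.2 + j) :=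
    Finset.sum_le_sum fun i _ => Finset.sum_le_sum fun j _ => hmaj _
  have hM2 : 0 ≤ 2 * (M : ℝ) ^ 2 := by positivity
  calc ∑ i ∈ range M, ∑ j ∈ range M, ∏ p ∈ P, (1 - κ p * B p (u.1 + i, u.2 + j)) ≤
      2 * U * (M : ℝ) ^ 2 := hle.trans hsum
    _ = 2 * (M : ℝ) ^ 2 * U := by ring
    _ ≤ 2 * (M : ℝ) ^ 2 * (3 * ∏ p ∈ P, (1 - κ p * β p)) := mul_le_mul_of_nonneg_left hU3 hM2
    _ = 6 * (M : ℝ) ^ 2 * ∏ p ∈ P, (1 - κ p * β p) := by ring

end Pool.Agent.DG
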